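import Pool.Agent.Lib_helper53.LM.Defs

/-! LSP3, part M, block MC: Mertens' upper bound and Rankin's trick. -/

set_option autoImplicit false

namespace Pool.Agent.LM

open Complex MeasureTheory ProbabilityTheory
open Pool.Agent.LSP (tau MX CC CB sg1 wX)
open Pool.Agent.LEV (Uu Um)
open Pool.Agent.LVB (IsST el)
open Pool.Agent.LK (Qe V PQ MW)
open Pool.Agent.LE

theorem mc_log_factorial (x : ℕ) : Real.log (x.factorial : ℝ) =
    ∑ p ∈ Pz x, (x.factorial.factorization p : ℝ) * Real.log p := by
  have h1 : x.factorial = ∏ p ∈ Pz x, p ^ x.factorial.factorization p := by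
    conv_lhs => rw [← Nat.prod_factorization_pow_eq_self (Nat.factorial_ne_zero x)]
    rw [Finsupp.prod]
    apply Finset.prod_subset
    · intro p hp
      rw [Nat.support_factorization, Nat.mem_primeFactors] at hp
      rw [Pz, Finset.mem_filter, Finset.mem_Icc]
      exact ⟨⟨hp.1.one_le, (hp.1.dvd_factorial).mp hp.2.1⟩, hp.1⟩
    · intro p _ hp
      rw [Finsupp.notMem_support_iff] at hp
      rw [hp, pow_zero]
  conv_lhs => rw [h1]
  push_cast
  rw [Real.log_prod]
  · apply Finset.sum_congr rfl
    intro p _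
    rw [Real.log_pow]
  · intro p hp
    have hpp := (Finset.mem_filter.mp hp).2
    exact pow_ne_zero _ (by exact_mod_cast hpp.ne_zero)

theorem mc_val_lower (x p : ℕ) (hp : p.Prime) :
    (x : ℝ) / p - 1 ≤ (x.factorial.factorization p : ℝ) := by
  have h1 : x / p ≤ x.factorial.factorization p := by
    have h2 : p ^ (x / p) ∣ x.factorial := by
      have h3 : (p * (x / p)).factorial ∣ x.factorial :=
        Nat.factorial_dvd_factorial (Nat.mul_div_le x p)
      refine dvd_trans ?_ h3
      have h4 : ∀ m : ℕ, p ^ m ∣ (p * m).factorial := by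
        intro m
        induction m with
        | zero => simp
        | succ m ih =>
          have h5 : p * (m + 1) = p * m + p := by ring
          rw [h5, pow_succ]
          exact (Nat.mul_dvd_mul ih (Nat.dvd_factorial hp.pos le_rfl)).trans
            (Nat.factorial_mul_factorial_dvd_factorial_add _ _)
      exact h4 _
    exact (hp.pow_dvd_iff_le_factorization (Nat.factorial_ne_zero x)).mp h2
  have h2 : (x : ℝ) / p < ((x / p : ℕ) : ℝ) + 1 := by
    have hp0 : (0 : ℝ) < p := by exact_mod_cast hp.pos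
    rw [div_lt_iff₀ hp0]
    have h3 : x < (x / p + 1) * p := by
      have := Nat.lt_div_mul_add (a := x) hp.pos
      have h4 : (x / p + 1) * p = x / p * p + p := by ring
      omega
    exact_mod_cast h3
  have h3 : ((x / p : ℕ) : ℝ) ≤ (x.factorial.factorization p : ℝ) := by exact_mod_cast h1
  linarith

theorem mc_logp {x p : ℕ} (hp : p ∈ Pz x) : 0 ≤ Real.log (p : ℝ) :=
  Real.log_nonneg (by exact_mod_cast (Finset.mem_filter.mp hp).2.one_le)

/-- the upper bound of Mertens' first theorem -/
theorem sum_log_le_pr : ∃ C : ℝ, ∀ z : ℕ, 2 ≤ z →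
    ∑ p ∈ Pz z, Real.log p / p ≤ Real.log z + C := by
  refine ⟨Real.log 4, ?_⟩
  intro x hx
  have hx0 : (0 : ℝ) < x := by exact_mod_cast (by omega : 0 < x)
  have hfac := mc_log_factorial x
  have hup : Real.log (x.factorial : ℝ) ≤ x * Real.log x := by
    have h1 : ((x.factorial : ℕ) : ℝ) ≤ (x : ℝ) ^ x := by exact_mod_cast Nat.factorial_le_pow x
    have h2 := Real.log_le_log (by exact_mod_cast Nat.factorial_pos x) h1
    rwa [Real.log_pow] at h2
  have htheta : ∑ p ∈ Pz x, Real.log (p : ℝ) ≤ Real.log 4 * x := by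
    have h1 := Chebyshev.theta_le_log4_mul_x (x := (x : ℝ)) hx0.le
    rw [Chebyshev.theta_eq_sum_Icc, Nat.floor_natCast] at h1
    refine le_trans ?_ h1
    apply Finset.sum_le_sum_of_subset_of_nonneg
    · apply Finset.filter_subset_filter
      apply Finset.Icc_subset_Icc (by norm_num) le_rfl
    · intro p hp _
      exact Real.log_nonneg (by exact_mod_cast (Finset.mem_filter.mp hp).2.one_le)
  have h1 : (x : ℝ) * ∑ p ∈ Pz x, Real.log p / p - ∑ p ∈ Pz x, Real.log (p : ℝ) ≤
      Real.log (x.factorial : ℝ) := by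
    rw [hfac, Finset.mul_sum, ← Finset.sum_sub_distrib]
    apply Finset.sum_le_sum
    intro p hp
    have h2 := mul_le_mul_of_nonneg_right (mc_val_lower x p (Finset.mem_filter.mp hp).2)
      (mc_logp hp)
    calc (x : ℝ) * (Real.log p / p) - Real.log p = ((x : ℝ) / p - 1) * Real.log p := by ring
      _ ≤ _ := h2
  have h2 : (x : ℝ) * ∑ p ∈ Pz x, Real.log p / p ≤ x * (Real.log x + Real.log 4) := by
    linarith
  exact le_of_mul_le_mul_left h2 hx0

theorem mc_exp_le {u : ℝ} (h0 : 0 ≤ u) (h1 : u ≤ 1) : Real.exp u - 1 ≤ 2 * u := by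
  have h := Real.abs_exp_sub_one_sub_id_le (x := u) (by rw [abs_of_nonneg h0]; exact h1)
  have h2 := (abs_le.mp h).2
  nlinarith

/-- Rankin's trick -/
theorem rankin_pr : ∃ C : ℝ, ∀ (z K : ℕ), 2 ≤ z → 1 ≤ K → ∀ S : Finset ℕ, S ⊆ Pz z →
    ∀ h : ℕ → ℝ, (∀ p ∈ S, 0 ≤ h p ∧ h p ≤ 10 / p) →
    (1 - Real.exp (C - Real.log K / Real.log z)) * ∏ p ∈ S, (1 + h p) ≤
      ∑ J ∈ SQ S K, ∏ p ∈ J, h p := by
  obtain ⟨C₁, hC₁⟩ := sum_log_le_pr
  refine ⟨20 + 20 * max C₁ 0 / Real.log 2, ?_⟩
  intro z K hz hK S hS h hh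
  have hlog2 : 0 < Real.log 2 := Real.log_pos (by norm_num)
  have hL2 : Real.log 2 ≤ Real.log z :=
    Real.log_le_log (by norm_num) (by exact_mod_cast hz)
  have hL : 0 < Real.log z := lt_of_lt_of_le hlog2 hL2
  set C := 20 + 20 * max C₁ 0 / Real.log 2 with hC
  -- the exponent function
  set w : ℕ → ℝ := fun p => Real.exp (Real.log p / Real.log z) with hw
  have hprime : ∀ p ∈ S, p.Prime := fun p hp => (Finset.mem_filter.mp (hS hp)).2
  have hle : ∀ p ∈ S, p ≤ z := fun p hp =>
    (Finset.mem_Icc.mp (Finset.mem_filter.mp (hS hp)).1).2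
  have hp0 : ∀ p ∈ S, (0 : ℝ) < p := fun p hp => by exact_mod_cast (hprime p hp).pos
  have hsum : ∑ J ∈ S.powerset, ∏ p ∈ J, h p = ∏ p ∈ S, (1 + h p) := (Finset.prod_one_add S).symm
  have hsplit : ∑ J ∈ SQ S K, ∏ p ∈ J, h p +
      ∑ J ∈ S.powerset.filter (fun J => ¬ ∏ p ∈ J, p ≤ K), ∏ p ∈ J, h p =
      ∏ p ∈ S, (1 + h p) := by
    rw [← hsum, SQ, Finset.sum_filter_add_sum_filter_not]
  -- the tail
  have htail : ∑ J ∈ S.powerset.filter (fun J => ¬ ∏ p ∈ J, p ≤ K), ∏ p ∈ J, h p ≤
      Real.exp (-(Real.log K / Real.log z)) * ∏ p ∈ S, (1 + h p * w p) := by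
    rw [Finset.prod_one_add, Finset.mul_sum]
    calc ∑ J ∈ S.powerset.filter (fun J => ¬ ∏ p ∈ J, p ≤ K), ∏ p ∈ J, h p
        ≤ ∑ J ∈ S.powerset.filter (fun J => ¬ ∏ p ∈ J, p ≤ K),
            Real.exp (-(Real.log K / Real.log z)) * ∏ p ∈ J, (h p * w p) := by
          apply Finset.sum_le_sum
          intro J hJ
          rw [Finset.mem_filter, Finset.mem_powerset] at hJ
          obtain ⟨hJS, hJK⟩ := hJ
          push Not at hJK
          rw [Finset.prod_mul_distrib]
          have h1 : ∏ p ∈ J, w p = Real.exp (Real.log ((∏ p ∈ J, p : ℕ) : ℝ) / Real.log z) := by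
            rw [hw, ← Real.exp_sum, ← Finset.sum_div, Nat.cast_prod, Real.log_prod]
            intro p hp
            exact (hp0 p (hJS hp)).ne'
          have h2 : 1 ≤ Real.exp (-(Real.log K / Real.log z)) * ∏ p ∈ J, w p := by
            rw [h1, ← Real.exp_add]
            apply Real.one_le_exp
            rw [← sub_eq_neg_add, ← sub_div]
            apply div_nonneg _ hL.le
            rw [sub_nonneg]
            apply Real.log_le_log
            · exact_mod_cast (by omega : 0 < K)
            · exact_mod_cast hJK.le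
          have h3 : 0 ≤ ∏ p ∈ J, h p := Finset.prod_nonneg (fun p hp => (hh p (hJS hp)).1)
          nlinarith
      _ ≤ ∑ J ∈ S.powerset, Real.exp (-(Real.log K / Real.log z)) * ∏ p ∈ J, (h p * w p) := by
          apply Finset.sum_le_sum_of_subset_of_nonneg (Finset.filter_subset _ _)
          intro J hJ _
          rw [Finset.mem_powerset] at hJ
          apply mul_nonneg (Real.exp_pos _).le
          exact Finset.prod_nonneg (fun p hp => mul_nonneg (hh p (hJ hp)).1 (Real.exp_pos _).le)
  -- the product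
  have hprod : ∏ p ∈ S, (1 + h p * w p) ≤
      Real.exp (∑ p ∈ S, h p * (w p - 1)) * ∏ p ∈ S, (1 + h p) := by
    rw [Real.exp_sum, ← Finset.prod_mul_distrib]
    apply Finset.prod_le_prod
    · intro p hp
      have := mul_nonneg (hh p hp).1 (Real.exp_pos (Real.log p / Real.log z)).le
      have h2 : 0 ≤ h p * w p := this
      linarith
    · intro p hp
      have hw1 : 1 ≤ w p := by
        apply Real.one_le_exp
        exact div_nonneg (mc_logp (hS hp)) hL.le
      have h1 : 0 ≤ h p * (w p - 1) := mul_nonneg (hh p hp).1 (by linarith)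
      have h2 := Real.add_one_le_exp (h p * (w p - 1))
      have h3 : 0 ≤ h p := (hh p hp).1
      calc 1 + h p * w p ≤ (h p * (w p - 1) + 1) * (1 + h p) := by nlinarith
        _ ≤ Real.exp (h p * (w p - 1)) * (1 + h p) :=
          mul_le_mul_of_nonneg_right h2 (by linarith)
  have hexp : ∑ p ∈ S, h p * (w p - 1) ≤ C := by
    calc ∑ p ∈ S, h p * (w p - 1)
        ≤ ∑ p ∈ S, 20 / Real.log z * (Real.log p / p) := by
          apply Finset.sum_le_sum
          intro p hp
          have hu0 : 0 ≤ Real.log p / Real.log z := div_nonneg (mc_logp (hS hp)) hL.le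
          have hu1 : Real.log p / Real.log z ≤ 1 := by
            rw [div_le_one hL]
            exact Real.log_le_log (hp0 p hp) (by exact_mod_cast hle p hp)
          have h1 := mc_exp_le hu0 hu1
          have h2 := (hh p hp).2
          have h3 := (hh p hp).1
          have h4 : h p * (w p - 1) ≤ 10 / p * (2 * (Real.log p / Real.log z)) :=
            mul_le_mul h2 h1 (by
              have := Real.one_le_exp hu0
              have h5 : 1 ≤ w p := this
              linarith) (by positivity)
          refine h4.trans (le_of_eq ?_)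
          have := hp0 p hp
          field_simp
          ring
      _ = 20 / Real.log z * ∑ p ∈ S, Real.log p / p := by rw [Finset.mul_sum]
      _ ≤ 20 / Real.log z * ∑ p ∈ Pz z, Real.log p / p := by
          apply mul_le_mul_of_nonneg_left _ (by positivity)
          apply Finset.sum_le_sum_of_subset_of_nonneg hS
          intro p hp _
          exact div_nonneg (mc_logp hp) (Nat.cast_nonneg p)
      _ ≤ 20 / Real.log z * (Real.log z + C₁) :=
          mul_le_mul_of_nonneg_left (hC₁ z hz) (by positivity)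
      _ = 20 + 20 * C₁ / Real.log z := by field_simp
      _ ≤ C := by
          have h1 : 20 * C₁ / Real.log z ≤ 20 * max C₁ 0 / Real.log z := by
            apply div_le_div_of_nonneg_right _ hL.le
            have := le_max_left C₁ 0
            linarith
          have h2 : 20 * max C₁ 0 / Real.log z ≤ 20 * max C₁ 0 / Real.log 2 := by
            apply div_le_div_of_nonneg_left _ hlog2 hL2
            have := le_max_right C₁ 0
            linarith
          rw [hC]
          linarith
  have hP0 : 0 ≤ ∏ p ∈ S, (1 + h p) :=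
    Finset.prod_nonneg (fun p hp => by have := (hh p hp).1; linarith)
  have hfin : ∑ J ∈ S.powerset.filter (fun J => ¬ ∏ p ∈ J, p ≤ K), ∏ p ∈ J, h p ≤
      Real.exp (C - Real.log K / Real.log z) * ∏ p ∈ S, (1 + h p) := by
    refine htail.trans ?_
    calc Real.exp (-(Real.log K / Real.log z)) * ∏ p ∈ S, (1 + h p * w p)
        ≤ Real.exp (-(Real.log K / Real.log z)) *
          (Real.exp C * ∏ p ∈ S, (1 + h p)) := by
          apply mul_le_mul_of_nonneg_left _ (Real.exp_pos _).le
          exact hprod.trans (mul_le_mul_of_nonneg_right (Real.exp_le_exp.mpr hexp) hP0)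
      _ = Real.exp (C - Real.log K / Real.log z) * ∏ p ∈ S, (1 + h p) := by
          rw [← mul_assoc, ← Real.exp_add]
          congr 2
          ring
  linarith

end Pool.Agent.LM
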