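import Pool.Agent.Lib_helper53.LM.Defs
import Pool.Agent.Lib_helper53.LEF.EH
import Pool.Agent.Lib_helper53.LEF.EI

set_option autoImplicit false

namespace Pool.Agent.LM

open Complex MeasureTheory ProbabilityTheory
open Pool.Agent.LSP (tau MX CC CB sg1 wX)
open Pool.Agent.LEV (Uu Um)
open Pool.Agent.LVB (IsST el)
open Pool.Agent.LK (Qe V PQ MW)
open Pool.Agent.LE

variable {q : ℕ} [NeZero q]

theorem cv_cases_pr {χ : DirichletCharacter ℂ q} (h : PQ χ) (p : ℕ) :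
    (χ p = (cv χ p : ℂ)) ∧ (cv χ p = 1 ∨ cv χ p = 0 ∨ cv χ p = -1) := by
  by_cases hu : IsUnit (p : ZMod q)
  · have h2 : χ (p : ZMod q) ^ 2 = 1 := by
      have h3 := congrArg (fun ψ : DirichletCharacter ℂ q => ψ (p : ZMod q)) h.sq
      simp only [MulChar.pow_apply' χ two_ne_zero] at h3
      rw [h3, MulChar.one_apply hu]
    have h4 : (χ (p : ZMod q) - 1) * (χ (p : ZMod q) + 1) = 0 := by linear_combination h2
    rcases mul_eq_zero.mp h4 with h3 | h3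
    · rw [cv, sub_eq_zero.mp h3]; simp
    · rw [cv, eq_neg_of_add_eq_zero_left h3]; simp
  · have h3 : χ (p : ZMod q) = 0 := χ.map_nonunit hu
    rw [cv, h3]; simp


theorem me_lt {p : ℕ} (hp : p.Prime) : 1 < Real.sqrt p := by
  rw [show (1 : ℝ) = Real.sqrt 1 from Real.sqrt_one.symm]
  exact Real.sqrt_lt_sqrt (by norm_num) (by exact_mod_cast hp.one_lt)

theorem me_fac {p : ℕ} (hp : p.Prime) {y : ℝ} (hy : |y| ≤ 2) {c : ℝ} (hc : |c| ≤ 1) :
    857 / 10000 * (if c = 0 then 1 else 1) ≤ 1 - c * y / Real.sqrt p + c ^ 2 / p ∧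
      1 - c * y / Real.sqrt p + c ^ 2 / p ≤ 2915 / 1000 := by
  have hp2 : (2 : ℝ) ≤ p := by exact_mod_cast hp.two_le
  set t : ℝ := 1 / Real.sqrt p with ht
  have hs : 0 < Real.sqrt p := by linarith [me_lt hp]
  have ht0 : 0 < t := by positivity
  have ht2 : t ^ 2 = 1 / p := by
    rw [ht, div_pow, Real.sq_sqrt (by positivity), one_pow]
  have ht3 : t ^ 2 ≤ 1 / 2 := by
    rw [ht2]; exact one_div_le_one_div_of_le (by norm_num) hp2
  have ht4 : t ≤ 70711 / 100000 := by nlinarith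
  have e1 : c * y / Real.sqrt p = c * y * t := by rw [ht]; ring
  have e2 : c ^ 2 / (p : ℝ) = c ^ 2 * t ^ 2 := by rw [ht2]; ring
  rw [e1, e2]
  have h1 : |c * y * t| ≤ 2 * |c| * t := by
    rw [abs_mul, abs_mul, abs_of_pos ht0]
    have : |c| * |y| ≤ 2 * |c| := by nlinarith [abs_nonneg c]
    nlinarith
  obtain ⟨h2, h3⟩ := abs_le.mp h1
  have hc2 : c ^ 2 = |c| ^ 2 := (sq_abs c).symm
  set d := |c| * t with hd
  have hd0 : 0 ≤ d := by positivity
  have hd1 : d ≤ 70711 / 100000 := by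
    have : |c| * t ≤ 1 * t := by gcongr
    linarith
  have e3 : c ^ 2 * t ^ 2 = d ^ 2 := by rw [hd, hc2]; ring
  rw [e3]
  have e4 : 2 * |c| * t = 2 * d := by rw [hd]; ring
  rw [e4] at h2 h3
  constructor
  · simp only [ite_self, mul_one]
    nlinarith
  · nlinarith

theorem me_inv {A : ℝ} (h1 : 857 / 10000 ≤ A) (h2 : A ≤ 2915 / 1000) :
    34 / 100 ≤ A⁻¹ ∧ A⁻¹ ≤ 117 / 10 := by
  have hA : 0 < A := by linarith
  constructor
  · rw [le_inv_comm₀ (by norm_num) hA]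
    refine le_trans h2 (by norm_num)
  · rw [inv_le_comm₀ hA (by norm_num)]
    refine le_trans (by norm_num) h1

theorem me_cv {χ : DirichletCharacter ℂ q} (h : PQ χ) (p : ℕ) : |cv χ p| ≤ 1 := by
  rcases (cv_cases_pr h p).2 with h1 | h1 | h1 <;> rw [h1] <;> simp

theorem me_w1 {χ : DirichletCharacter ℂ q} (h : PQ χ) {p : ℕ} (y : ℝ) :
    (pp χ p y : ℂ) = w1 χ 0 p y := by
  have hc := (cv_cases_pr h p).1
  simp only [pp, w1, el, neg_zero, Complex.cpow_zero, mul_one, one_mul, one_pow, hc]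
  push_cast
  rw [mul_inv]

theorem me_el {χ : DirichletCharacter ℂ q} (h : PQ χ) {p : ℕ} (y : ℝ) :
    ((pp χ p y : ℝ) : ℂ) = el p 1 y * el p (χ p) y := by
  have hc := (cv_cases_pr h p).1
  simp only [pp, el, one_mul, one_pow, hc]
  push_cast
  rw [mul_inv]

theorem pp_facts_pr {χ : DirichletCharacter ℂ q} (h : PQ χ) {p : ℕ} (hp : p.Prime) {y : ℝ}
    (hy : |y| ≤ 2) : 1 / 10 ≤ pp χ p y ∧ pp χ p y ≤ 150 ∧ (pp χ p y : ℂ) = w1 χ 0 p y ∧
      ((pp χ p y ^ 2 : ℝ) : ℂ) = w2 χ 0 0 0 p y := by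
  have hA := me_fac hp hy (c := 1) (by simp)
  have hB := me_fac hp hy (me_cv h p)
  simp only [ite_self, mul_one, one_mul, one_pow] at hA hB
  obtain ⟨a1, a2⟩ := me_inv hA.1 hA.2
  obtain ⟨b1, b2⟩ := me_inv hB.1 hB.2
  have hpp : pp χ p y = (1 - y / Real.sqrt p + 1 / p)⁻¹ *
      (1 - cv χ p * y / Real.sqrt p + cv χ p ^ 2 / p)⁻¹ := by rw [pp, mul_inv]
  refine ⟨?_, ?_, me_w1 h y, ?_⟩
  · rw [hpp]; nlinarith
  · rw [hpp]; nlinarith
  · rw [w2, wQ]
    simp only [neg_zero, Complex.cpow_zero, mul_one]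
    push_cast
    rw [me_el h y]
    ring


theorem pp_int_pr {χ : DirichletCharacter ℂ q} (h : PQ χ) {I : Finset ℕ} {P : Measure (ℕ → ℝ)}
    (hP : IsST I P) {p : ℕ} (hp : p ∈ I) (hpp : p.Prime) :
    ∫ x, pp χ p (x p) ∂P = 1 / (1 - cv χ p / p) ∧
    ∫ x, pp χ p (x p) ^ 2 ∂P = (1 - cv χ p ^ 2 / (p : ℝ) ^ 2) /
      ((1 - 1 / p) * (1 - cv χ p / p) ^ 4 * (1 - cv χ p ^ 2 / p)) := by
  have hc := (cv_cases_pr h p).1
  have h1 : ‖(1 : ℂ)‖ < Real.sqrt p := by simpa using me_lt hpp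
  have h2 : ‖χ p‖ < Real.sqrt p := by
    rw [hc, Complex.norm_real]
    exact lt_of_le_of_lt (me_cv h p) (me_lt hpp)
  constructor
  · have e := el_two_pr hP hp hpp h1 h2
    rw [← Complex.ofReal_inj]
    rw [← integral_complex_ofReal]
    rw [show (fun x : ℕ → ℝ => ((pp χ p (x p) : ℝ) : ℂ)) = fun x => el p 1 (x p) * el p (χ p) (x p)
      from funext fun x => me_el h (x p), e, hc]
    push_cast
    rw [one_mul]
  · have e := el_four_pr hP hp hpp h1 h1 h2 h2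
    rw [← Complex.ofReal_inj]
    rw [← integral_complex_ofReal]
    rw [show (fun x : ℕ → ℝ => ((pp χ p (x p) ^ 2 : ℝ) : ℂ)) =
      fun x => el p 1 (x p) * el p 1 (x p) * (el p (χ p) (x p) * el p (χ p) (x p))
      from funext fun x => by push_cast; rw [me_el h (x p)]; ring, e, hc]
    push_cast
    congr 1
    · ring
    · ring


end Pool.Agent.LM
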