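import Pool.Agent.Lib_helper53.LM.Defs
import Pool.Agent.Lib_helper53.LEF.EI
import Pool.Agent.Lib_helper53.LMF.ME

set_option autoImplicit false

namespace Pool.Agent.LM

open Complex MeasureTheory ProbabilityTheory
open Pool.Agent.LSP (tau MX CC CB sg1 wX)
open Pool.Agent.LEV (Uu Um)
open Pool.Agent.LVB (IsST el)
open Pool.Agent.LK (Qe V PQ MW)
open Pool.Agent.LE

/-- the real local factor -/
noncomputable def mf_E (p : ℕ) (y : ℝ) : ℝ := (1 - y / Real.sqrt p + 1 / p)⁻¹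

theorem mf_el (p : ℕ) (y : ℝ) : el p 1 y = (mf_E p y : ℂ) := by
  unfold el mf_E
  push_cast
  ring_nf

theorem mf_el0 (p : ℕ) (y : ℝ) : el p 0 y = 1 := by
  unfold el
  simp

theorem mf_sqrt {p : ℕ} (hp : p.Prime) : 1 < Real.sqrt p ∧ Real.sqrt p * Real.sqrt p = p := by
  have h2 : (2 : ℝ) ≤ p := by exact_mod_cast hp.two_le
  exact ⟨by rw [Real.lt_sqrt zero_le_one]; linarith, Real.mul_self_sqrt (by linarith)⟩

/-- the basic bound for the denominator -/
theorem mf_den {p : ℕ} (hp : p.Prime) {y : ℝ} (hy : |y| ≤ 2) :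
    (1 - 1 / Real.sqrt p) ^ 2 ≤ 1 - y / Real.sqrt p + 1 / p := by
  obtain ⟨h1, h2⟩ := mf_sqrt hp
  have h0 : 0 < Real.sqrt p := by linarith
  have h3 : (1 : ℝ) / p = (1 / Real.sqrt p) ^ 2 := by
    rw [div_pow, one_pow, sq, h2]
  have h4 : y / Real.sqrt p ≤ 2 * (1 / Real.sqrt p) := by
    rw [div_eq_mul_one_div]
    exact mul_le_mul_of_nonneg_right (le_of_abs_le hy) (by positivity)
  rw [h3]
  nlinarith

theorem mf_pos {p : ℕ} (hp : p.Prime) : 0 < (1 - 1 / Real.sqrt p) ^ 2 := by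
  obtain ⟨h1, h2⟩ := mf_sqrt hp
  have h3 : 1 / Real.sqrt p < 1 := by rw [div_lt_one (by linarith)]; exact h1
  have : 0 < 1 - 1 / Real.sqrt p := by linarith
  positivity

theorem mf_Ebd {p : ℕ} (hp : p.Prime) {y : ℝ} (hy : |y| ≤ 2) :
    0 < mf_E p y ∧ mf_E p y ≤ ((1 - 1 / Real.sqrt p) ^ 2)⁻¹ := by
  have h1 := mf_den hp hy
  have h2 := mf_pos hp
  unfold mf_E
  exact ⟨inv_pos.2 (h2.trans_le h1), inv_anti₀ h2 h1⟩

theorem mf_Emeas (p : ℕ) : Measurable (fun x : ℕ → ℝ => mf_E p (x p)) := by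
  unfold mf_E
  have : Measurable (fun x : ℕ → ℝ => x p) := measurable_pi_apply p
  exact (((measurable_const.sub (this.div_const _)).add_const _)).inv

/-- bounded polynomials times powers of the factor are integrable -/
theorem mf_int {I : Finset ℕ} {P : Measure (ℕ → ℝ)} (hP : IsST I P) {p : ℕ} (hp : p ∈ I)
    (hpp : p.Prime) (j k : ℕ) : Integrable (fun x : ℕ → ℝ => x p ^ j * mf_E p (x p) ^ k) P := by
  have := hP.prob
  have hm : Measurable (fun x : ℕ → ℝ => x p ^ j * mf_E p (x p) ^ k) :=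
    ((measurable_pi_apply p).pow_const j).mul ((mf_Emeas p).pow_const k)
  refine Integrable.of_bound hm.aestronglyMeasurable
    (2 ^ j * (((1 - 1 / Real.sqrt p) ^ 2)⁻¹) ^ k) ?_
  filter_upwards [hP.bdd] with x hx
  have h1 := hx p hp
  obtain ⟨h2, h3⟩ := mf_Ebd hpp h1
  rw [norm_mul, norm_pow, norm_pow, Real.norm_eq_abs, Real.norm_eq_abs, abs_of_pos h2]
  exact mul_le_mul (pow_le_pow_left₀ (abs_nonneg _) h1 _) (pow_le_pow_left₀ h2.le h3 _)
    (by positivity) (by positivity)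

/-- the moments of the factor -/
theorem mf_mom {I : Finset ℕ} {P : Measure (ℕ → ℝ)} (hP : IsST I P) {p : ℕ} (hp : p ∈ I)
    (hpp : p.Prime) : ∫ x, mf_E p (x p) ∂P = 1 ∧
    ∫ x, mf_E p (x p) ^ 2 ∂P = 1 / (1 - 1 / p) ∧
    ∫ x, mf_E p (x p) ^ 3 ∂P = 1 / (1 - 1 / p) ^ 3 ∧
    ∫ x, mf_E p (x p) ^ 4 ∂P = (1 - 1 / (p : ℝ) ^ 2) / (1 - 1 / p) ^ 6 := by
  have hs := (mf_sqrt hpp).1
  have h1 : ‖(1 : ℂ)‖ < Real.sqrt p := by rw [norm_one]; exact hs
  have h0 : ‖(0 : ℂ)‖ < Real.sqrt p := by rw [norm_zero]; linarith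
  have e1 := el_four_pr hP hp hpp h1 h0 h0 h0
  have e2 := el_four_pr hP hp hpp h1 h1 h0 h0
  have e3 := el_four_pr hP hp hpp h1 h1 h1 h0
  have e4 := el_four_pr hP hp hpp h1 h1 h1 h1
  simp only [mf_el, mf_el0] at e1 e2 e3 e4
  refine ⟨?_, ?_, ?_, ?_⟩
  · have h : ((∫ x, mf_E p (x p) ∂P : ℝ) : ℂ) = ((1 : ℝ) : ℂ) := by
      rw [← integral_complex_ofReal]
      convert e1 using 1
      · simp
      · simp
    exact_mod_cast h
  · have h : ((∫ x, mf_E p (x p) ^ 2 ∂P : ℝ) : ℂ) = ((1 / (1 - 1 / p) : ℝ) : ℂ) := by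
      rw [← integral_complex_ofReal]
      convert e2 using 1
      · refine integral_congr_ae (Filter.Eventually.of_forall fun x => ?_)
        simp only
        push_cast
        ring
      · push_cast
        simp
    exact_mod_cast h
  · have h : ((∫ x, mf_E p (x p) ^ 3 ∂P : ℝ) : ℂ) = ((1 / (1 - 1 / p) ^ 3 : ℝ) : ℂ) := by
      rw [← integral_complex_ofReal]
      convert e3 using 1
      · refine integral_congr_ae (Filter.Eventually.of_forall fun x => ?_)
        simp only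
        push_cast
        ring
      · push_cast
        simp only [mul_zero, mul_one, zero_div, sub_zero]
        congr 1
        ring
    exact_mod_cast h
  · have h : ((∫ x, mf_E p (x p) ^ 4 ∂P : ℝ) : ℂ) =
        (((1 - 1 / (p : ℝ) ^ 2) / (1 - 1 / p) ^ 6 : ℝ) : ℂ) := by
      rw [← integral_complex_ofReal]
      convert e4 using 1
      · refine integral_congr_ae (Filter.Eventually.of_forall fun x => ?_)
        simp only
        push_cast
        ring
      · push_cast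
        simp only [mul_one]
        congr 1
        ring
    exact_mod_cast h

/-- `y E = ((1 + t²) E - 1) / t` -/
theorem mf_yE {p : ℕ} (hpp : p.Prime) {y : ℝ} (hy : |y| ≤ 2) :
    y * mf_E p y = Real.sqrt p * ((1 + 1 / p) * mf_E p y - 1) := by
  have h1 := mf_den hpp hy
  have h2 := mf_pos hpp
  obtain ⟨h3, h4⟩ := mf_sqrt hpp
  have h5 : 1 - y / Real.sqrt p + 1 / p ≠ 0 := (h2.trans_le h1).ne'
  have h6 : mf_E p y * (1 - y / Real.sqrt p + 1 / p) = 1 := by
    unfold mf_E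
    exact inv_mul_cancel₀ h5
  have h7 : y = Real.sqrt p * (y / Real.sqrt p) := by field_simp
  nth_rw 1 [h7]
  linear_combination (-Real.sqrt p) * h6

variable {q : ℕ} [NeZero q]

theorem mf_yint {I : Finset ℕ} {P : Measure (ℕ → ℝ)} (hP : IsST I P) {p : ℕ} (hp : p ∈ I)
    (hpp : p.Prime) (k : ℕ) :
    ∫ x, x p * mf_E p (x p) ^ (k + 1) ∂P = Real.sqrt p * ((1 + 1 / p) *
      ∫ x, mf_E p (x p) ^ (k + 1) ∂P - ∫ x, mf_E p (x p) ^ k ∂P) := by
  have i1 : Integrable (fun x : ℕ → ℝ => mf_E p (x p) ^ (k + 1)) P := by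
    simpa using mf_int hP hp hpp 0 (k + 1)
  have i0 : Integrable (fun x : ℕ → ℝ => mf_E p (x p) ^ k) P := by
    simpa using mf_int hP hp hpp 0 k
  rw [← integral_const_mul, ← integral_sub (i1.const_mul _) i0, ← integral_const_mul]
  refine integral_congr_ae ?_
  filter_upwards [hP.bdd] with x hx
  have h := mf_yE hpp (hx p hp)
  rw [pow_succ]
  linear_combination (mf_E p (x p) ^ k) * h

theorem mf_y2int {I : Finset ℕ} {P : Measure (ℕ → ℝ)} (hP : IsST I P) {p : ℕ} (hp : p ∈ I)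
    (hpp : p.Prime) (k : ℕ) :
    ∫ x, x p ^ 2 * mf_E p (x p) ^ (k + 2) ∂P = p * ((1 + 1 / p) ^ 2 *
      ∫ x, mf_E p (x p) ^ (k + 2) ∂P - 2 * (1 + 1 / p) * ∫ x, mf_E p (x p) ^ (k + 1) ∂P +
        ∫ x, mf_E p (x p) ^ k ∂P) := by
  have i2 : Integrable (fun x : ℕ → ℝ => mf_E p (x p) ^ (k + 2)) P := by
    simpa using mf_int hP hp hpp 0 (k + 2)
  have i1 : Integrable (fun x : ℕ → ℝ => mf_E p (x p) ^ (k + 1)) P := by
    simpa using mf_int hP hp hpp 0 (k + 1)
  have i0 : Integrable (fun x : ℕ → ℝ => mf_E p (x p) ^ k) P := by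
    simpa using mf_int hP hp hpp 0 k
  have i3 : Integrable (fun x : ℕ → ℝ => (1 + 1 / (p : ℝ)) ^ 2 * mf_E p (x p) ^ (k + 2) -
      2 * (1 + 1 / (p : ℝ)) * mf_E p (x p) ^ (k + 1)) P := (i2.const_mul _).sub (i1.const_mul _)
  rw [← integral_const_mul, ← integral_const_mul, ← integral_sub (i2.const_mul _) (i1.const_mul _),
    ← integral_add i3 i0, ← integral_const_mul]
  refine integral_congr_ae ?_
  filter_upwards [hP.bdd] with x hx
  have h := mf_yE hpp (hx p hp)
  have h2 : (x p * mf_E p (x p)) ^ 2 = p * ((1 + 1 / p) * mf_E p (x p) - 1) ^ 2 := by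
    rw [h, mul_pow, sq (Real.sqrt p), (mf_sqrt hpp).2]
  rw [pow_add, pow_succ]
  linear_combination (mf_E p (x p) ^ k) * h2

theorem mf_pp1 {χ : DirichletCharacter ℂ q} {p : ℕ} (hc : cv χ p = 1) (y : ℝ) :
    pp χ p y = mf_E p y ^ 2 := by
  unfold pp mf_E
  rw [hc, one_mul, one_pow, ← sq, inv_pow]

theorem mf_pp0 {χ : DirichletCharacter ℂ q} {p : ℕ} (hc : cv χ p = 0) (y : ℝ) :
    pp χ p y = mf_E p y := by
  unfold pp mf_E
  rw [hc]
  simp

/-- block MF (uses LE.el_four_pr): exact values -/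
theorem ph_int_pr {χ : DirichletCharacter ℂ q} (h : PQ χ) {I : Finset ℕ} {P : Measure (ℕ → ℝ)}
    (hP : IsST I P) {p : ℕ} (hp : p ∈ I) (hpp : p.Prime) (hc : cv χ p ≠ -1) :
    ∫ x, ph χ p (x p) * pp χ p (x p) ^ 2 ∂P = 0 ∧
    ∫ x, ph χ p (x p) ^ 2 * pp χ p (x p) ^ 2 ∂P = ∫ x, pp χ p (x p) ^ 2 ∂P ∧
    ∫ x, ph χ p (x p) * pp χ p (x p) ∂P = ga χ p * ∫ x, pp χ p (x p) ∂P := by
  have hprob := hP.prob
  obtain ⟨m1, m2, m3, m4⟩ := mf_mom hP hp hpp
  obtain ⟨s1, s2⟩ := mf_sqrt hpp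
  set s : ℝ := Real.sqrt p with hs
  have hs0 : 0 < s := by linarith
  have hp2 : (p : ℝ) = s ^ 2 := by rw [sq, s2]
  have hsq : 1 < s ^ 2 := by nlinarith
  -- the general computation
  have key : ∀ (k : ℕ) (m v : ℝ), 0 < v →
      (∫ x, (x p - m) / Real.sqrt v * mf_E p (x p) ^ (k + 1) ∂P =
        1 / Real.sqrt v * (s * ((1 + 1 / p) * ∫ x, mf_E p (x p) ^ (k + 1) ∂P -
          ∫ x, mf_E p (x p) ^ k ∂P) - m * ∫ x, mf_E p (x p) ^ (k + 1) ∂P)) := by
    intro k m v hv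
    have i1 : Integrable (fun x : ℕ → ℝ => mf_E p (x p) ^ (k + 1)) P := by
      simpa using mf_int hP hp hpp 0 (k + 1)
    have i2 : Integrable (fun x : ℕ → ℝ => x p * mf_E p (x p) ^ (k + 1)) P := by
      simpa using mf_int hP hp hpp 1 (k + 1)
    rw [hs, ← mf_yint hP hp hpp k, ← integral_const_mul m, ← integral_sub i2 (i1.const_mul _),
      ← integral_const_mul]
    refine integral_congr_ae (Filter.Eventually.of_forall fun x => ?_)
    simp only
    ring
  have key2 : ∀ (k : ℕ) (m v : ℝ), 0 < v →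
      (∫ x, ((x p - m) / Real.sqrt v) ^ 2 * mf_E p (x p) ^ (k + 2) ∂P =
        1 / v * (p * ((1 + 1 / p) ^ 2 *
          ∫ x, mf_E p (x p) ^ (k + 2) ∂P - 2 * (1 + 1 / p) * ∫ x, mf_E p (x p) ^ (k + 1) ∂P +
            ∫ x, mf_E p (x p) ^ k ∂P) - 2 * m * (s * ((1 + 1 / p) *
              ∫ x, mf_E p (x p) ^ (k + 2) ∂P - ∫ x, mf_E p (x p) ^ (k + 1) ∂P)) +
                m ^ 2 * ∫ x, mf_E p (x p) ^ (k + 2) ∂P)) := by
    intro k m v hv
    have i1 : Integrable (fun x : ℕ → ℝ => mf_E p (x p) ^ (k + 2)) P := by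
      simpa using mf_int hP hp hpp 0 (k + 2)
    have i2 : Integrable (fun x : ℕ → ℝ => x p * mf_E p (x p) ^ (k + 2)) P := by
      simpa using mf_int hP hp hpp 1 (k + 2)
    have i3 : Integrable (fun x : ℕ → ℝ => x p ^ 2 * mf_E p (x p) ^ (k + 2)) P :=
      mf_int hP hp hpp 2 (k + 2)
    have i4 : Integrable (fun x : ℕ → ℝ => x p ^ 2 * mf_E p (x p) ^ (k + 2) -
      2 * m * (x p * mf_E p (x p) ^ (k + 2))) P := i3.sub (i2.const_mul _)
    rw [hs, ← mf_yint hP hp hpp (k + 1), ← mf_y2int hP hp hpp k, ← integral_const_mul (2 * m),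
      ← integral_const_mul (m ^ 2), ← integral_sub i3 (i2.const_mul _),
      ← integral_add i4 (i1.const_mul _), ← integral_const_mul]
    refine integral_congr_ae (Filter.Eventually.of_forall fun x => ?_)
    simp only
    rw [div_pow, Real.sq_sqrt hv.le]
    ring
  have hm0 : ∫ x, mf_E p (x p) ^ 0 ∂P = 1 := by simp
  have hm1 : ∫ x, mf_E p (x p) ^ 1 ∂P = 1 := by simpa using m1
  have hq1 : 0 < 1 - 1 / s ^ 2 := by
    rw [sub_pos, div_lt_one (by positivity)]
    exact hsq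
  have hq2 : 0 < 1 + 1 / s ^ 2 := by positivity
  have hn0 : s ≠ 0 := hs0.ne'
  have hn1 : s ^ 2 - 1 ≠ 0 := by linarith
  have hn2 : s ^ 2 + 1 ≠ 0 := by positivity
  rcases (cv_cases_pr h p).2 with h1 | h0 | h1
  · -- split primes
    have hma : ma χ p = 4 / s / (1 + 1 / p) := by unfold ma; rw [if_pos h1]
    have hva : va χ p = (1 - 1 / (p : ℝ)) ^ 4 / (1 + 1 / p) ^ 2 := by unfold va; rw [if_pos h1]
    have hga : ga χ p = -(2 / s) / (1 - 1 / p) := by unfold ga; rw [if_pos h1]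
    have hv0 : 0 < va χ p := by rw [hva, hp2]; positivity
    have hsv : Real.sqrt (va χ p) = (1 - 1 / (p : ℝ)) ^ 2 / (1 + 1 / p) := by
      rw [hva, show (1 - 1 / (p : ℝ)) ^ 4 / (1 + 1 / p) ^ 2 =
        ((1 - 1 / (p : ℝ)) ^ 2 / (1 + 1 / p)) ^ 2 by rw [div_pow, ← pow_mul],
        Real.sqrt_sq (by rw [hp2]; positivity)]
    have c1 : ∀ y, ph χ p y * pp χ p y ^ 2 =
        (y - ma χ p) / Real.sqrt (va χ p) * mf_E p y ^ (3 + 1) := by
      intro y
      rw [mf_pp1 h1]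
      unfold ph
      ring
    have c2 : ∀ y, ph χ p y ^ 2 * pp χ p y ^ 2 =
        ((y - ma χ p) / Real.sqrt (va χ p)) ^ 2 * mf_E p y ^ (2 + 2) := by
      intro y
      rw [mf_pp1 h1]
      unfold ph
      ring
    have c3 : ∀ y, pp χ p y ^ 2 = mf_E p y ^ 4 := by
      intro y
      rw [mf_pp1 h1]
      ring
    have c4 : ∀ y, ph χ p y * pp χ p y =
        (y - ma χ p) / Real.sqrt (va χ p) * mf_E p y ^ (1 + 1) := by
      intro y
      rw [mf_pp1 h1]
      unfold ph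
      ring
    have c5 : ∀ y, pp χ p y = mf_E p y ^ 2 := mf_pp1 h1
    refine ⟨?_, ?_, ?_⟩
    · simp only [c1]
      rw [key 3 _ _ hv0, m3, m4, hma, hp2]
      rw [mul_eq_zero]
      right
      field_simp
      ring
    · simp only [c2]
      simp only [c3]
      rw [key2 2 _ _ hv0]
      simp only [show 2 + 2 = 4 from rfl, show 2 + 1 = 3 from rfl]
      rw [m2, m3, m4, hma, hva, hp2]
      field_simp
      ring
    · simp only [c4]
      simp only [c5]
      rw [key 1 _ _ hv0]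
      simp only [show 1 + 1 = 2 from rfl]
      rw [hm1, m2, hma, hsv, hga, hp2]
      field_simp
      ring
  · -- ramified primes
    have h01 : cv χ p ≠ 1 := by rw [h0]; norm_num
    have hma : ma χ p = 2 / s := by unfold ma; rw [if_neg h01, if_pos h0]
    have hva : va χ p = 1 - 1 / (p : ℝ) := by unfold va; rw [if_neg h01]
    have hga : ga χ p = -(1 / s) / Real.sqrt (va χ p) := by
      rw [hva]; unfold ga; rw [if_neg h01, if_pos h0]
    have hv0 : 0 < va χ p := by rw [hva, hp2]; positivity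
    have c1 : ∀ y, ph χ p y * pp χ p y ^ 2 =
        (y - ma χ p) / Real.sqrt (va χ p) * mf_E p y ^ (1 + 1) := by
      intro y
      rw [mf_pp0 h0]
      unfold ph
      ring
    have c2 : ∀ y, ph χ p y ^ 2 * pp χ p y ^ 2 =
        ((y - ma χ p) / Real.sqrt (va χ p)) ^ 2 * mf_E p y ^ (0 + 2) := by
      intro y
      rw [mf_pp0 h0]
      unfold ph
      ring
    have c3 : ∀ y, pp χ p y ^ 2 = mf_E p y ^ 2 := by
      intro y
      rw [mf_pp0 h0]
    have c4 : ∀ y, ph χ p y * pp χ p y =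
        (y - ma χ p) / Real.sqrt (va χ p) * mf_E p y ^ (0 + 1) := by
      intro y
      rw [mf_pp0 h0]
      unfold ph
      ring
    have c5 : ∀ y, pp χ p y = mf_E p y := mf_pp0 h0
    refine ⟨?_, ?_, ?_⟩
    · simp only [c1]
      rw [key 1 _ _ hv0]
      simp only [show 1 + 1 = 2 from rfl]
      rw [hm1, m2, hma, hp2, mul_eq_zero]
      right
      field_simp
      ring
    · simp only [c2]
      simp only [c3]
      rw [key2 0 _ _ hv0]
      simp only [show 0 + 2 = 2 from rfl, show 0 + 1 = 1 from rfl]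
      rw [hm0, hm1, m2, hma, hva, hp2]
      field_simp
      ring
    · simp only [c4]
      simp only [c5]
      rw [key 0 _ _ hv0]
      simp only [show 0 + 1 = 1 from rfl]
      rw [hm0, hm1, m1, hma, hga, hp2]
      field_simp
      ring
  · exact absurd h1 hc

/-- block MF -/
theorem ga_facts_pr {χ : DirichletCharacter ℂ q} (h : PQ χ) {p : ℕ} (hp : p.Prime) :
    0 < ep χ p ∧ ep χ p ≤ 1 ∧ 0 < va χ p ∧ (5 ≤ p → ga χ p ^ 2 ≤ 10 / p) ∧
    (cv χ p ≠ -1 → (1 - 1 / (p : ℝ) ^ 2) ≤ (1 + ga χ p ^ 2) * ep χ p) ∧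
    (cv χ p = -1 → ep χ p = 1 - 1 / (p : ℝ) ^ 2) := by
  have hp2 : (2 : ℝ) ≤ p := by exact_mod_cast hp.two_le
  have hp0 : (0 : ℝ) < p := by linarith
  set u : ℝ := 1 / (p : ℝ) with hu
  have hu0 : 0 < u := by positivity
  have hu2 : u ≤ 1 / 2 := by rw [hu]; exact one_div_le_one_div_of_le (by norm_num) hp2
  have hpu : 1 / (p : ℝ) ^ 2 = u ^ 2 := by rw [hu, div_pow, one_pow]
  have h10 : 10 / (p : ℝ) = 10 * u := by rw [hu]; ring
  have hsq : (1 / Real.sqrt p) ^ 2 = u := by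
    rw [div_pow, one_pow, Real.sq_sqrt hp0.le]
  have hq1 : 0 < 1 - u := by linarith
  rw [hpu, h10]
  rcases (cv_cases_pr h p).2 with h1 | h0 | h1
  · have hep : ep χ p = (1 - u) ^ 3 / (1 + u) := by
      unfold ep
      rw [h1, one_pow, ← hu, hpu]
      rw [div_eq_div_iff (by nlinarith) (by linarith)]
      ring
    have hva : va χ p = (1 - u) ^ 4 / (1 + u) ^ 2 := by unfold va; rw [if_pos h1]
    have hga : ga χ p ^ 2 = 4 * u / (1 - u) ^ 2 := by
      unfold ga
      rw [if_pos h1, ← hu, div_pow, neg_sq, show 2 / Real.sqrt p = 2 * (1 / Real.sqrt p) by ring,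
        mul_pow, hsq]
      norm_num
    refine ⟨by rw [hep]; positivity, ?_, by rw [hva]; positivity, ?_, ?_, ?_⟩
    · rw [hep, div_le_one (by linarith)]
      have : (1 - u) ^ 3 ≤ 1 := pow_le_one₀ hq1.le (by linarith)
      linarith
    · intro h5
      have h5' : (5 : ℝ) ≤ p := by exact_mod_cast h5
      have hu5 : u ≤ 1 / 5 := by rw [hu]; exact one_div_le_one_div_of_le (by norm_num) h5'
      rw [hga, div_le_iff₀ (by positivity)]
      nlinarith
    · intro _
      rw [hga, hep]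
      have : (1 + 4 * u / (1 - u) ^ 2) * ((1 - u) ^ 3 / (1 + u)) = 1 - u ^ 2 := by
        field_simp
        ring
      rw [this]
    · intro h2
      rw [h1] at h2
      norm_num at h2
  · have h01 : cv χ p ≠ 1 := by rw [h0]; norm_num
    have hep : ep χ p = 1 - u := by
      unfold ep
      rw [h0, ← hu]
      simp
    have hva : va χ p = 1 - u := by unfold va; rw [if_neg h01]
    have hga : ga χ p ^ 2 = u / (1 - u) := by
      unfold ga
      rw [if_neg h01, if_pos h0, ← hu, div_pow, neg_sq, hsq, Real.sq_sqrt hq1.le]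
    refine ⟨by rw [hep]; linarith, by rw [hep]; linarith, by rw [hva]; linarith, ?_, ?_, ?_⟩
    · intro h5
      rw [hga, div_le_iff₀ hq1]
      nlinarith
    · intro _
      rw [hga, hep]
      have : (1 + u / (1 - u)) * (1 - u) = 1 := by
        field_simp
        ring
      rw [this]
      nlinarith
    · intro h2
      rw [h0] at h2
      norm_num at h2
  · have h01 : cv χ p ≠ 1 := by rw [h1]; norm_num
    have h00 : cv χ p ≠ 0 := by rw [h1]; norm_num
    have hep : ep χ p = 1 - u ^ 2 := by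
      unfold ep
      rw [h1]
      have : (1 - u ^ 2) ≠ 0 := by nlinarith
      have h2 : (-1 : ℝ) / p = -u := by rw [hu]; ring
      have h3 : ((-1 : ℝ) ^ 2) / p = u := by rw [hu]; ring
      have h4 : ((-1 : ℝ) ^ 2) / (p : ℝ) ^ 2 = u ^ 2 := by rw [← hpu]; ring
      rw [h2, h3, h4, ← hu, div_eq_iff this]
      ring
    have hva : va χ p = 1 - u := by unfold va; rw [if_neg h01]
    have hga : ga χ p = 0 := by unfold ga; rw [if_neg h01, if_neg h00]
    refine ⟨by rw [hep]; nlinarith, by rw [hep]; nlinarith, by rw [hva]; linarith, ?_, ?_, ?_⟩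
    · intro _
      rw [hga]
      nlinarith
    · intro h2
      exact absurd h1 h2
    · intro _
      exact hep

end Pool.Agent.LM
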