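import Pool.Agent.Lib_helper53.LM.Defs
import Pool.Agent.Lib_helper53.LEF.EQ
import Pool.Agent.Lib_helper53.LMF.ME
import Pool.Agent.Lib_helper53.LMF.MF

/-! LSP3, part M, block MG: perturbation of the local weights. -/

set_option autoImplicit false

namespace Pool.Agent.LM

open Complex MeasureTheory ProbabilityTheory
open Pool.Agent.LSP (tau MX CC CB sg1 wX)
open Pool.Agent.LEV (Uu Um)
open Pool.Agent.LVB (IsST el)
open Pool.Agent.LK (Qe V PQ MW)
open Pool.Agent.LE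

/-- abstract perturbation of a weighted mean -/
theorem mgb_abs {Ω : Type*} [MeasurableSpace Ω] {μ : Measure Ω} {W : Ω → ℂ} {W0 f : Ω → ℝ}
    {κ M : ℝ} (hW : AEStronglyMeasurable W μ) (hW0 : Integrable W0 μ)
    (h0 : ∀ᵐ x ∂μ, 0 ≤ W0 x) (hd : ∀ᵐ x ∂μ, ‖W x - W0 x‖ ≤ κ * W0 x) (hκ : 0 ≤ κ)
    (hκ2 : κ ≤ 1 / 2) (hpos : 0 < ∫ x, W0 x ∂μ) (hf : AEStronglyMeasurable f μ)
    (hfi : Integrable (fun x => |f x| * W0 x) μ)
    (hM : ∫ x, |f x| * W0 x ∂μ ≤ M * ∫ x, W0 x ∂μ) :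
    Integrable W μ ∧ Integrable (fun x => (f x : ℂ) * W x) μ ∧
    (∫ x, W0 x ∂μ) / 2 ≤ ‖∫ x, W x ∂μ‖ ∧
    ‖∫ x, (f x : ℂ) * W x ∂μ‖ ≤ 3 / 2 * M * ∫ x, W0 x ∂μ ∧
    ‖(∫ x, (f x : ℂ) * W x ∂μ) / (∫ x, W x ∂μ) -
      (((∫ x, f x * W0 x ∂μ) / (∫ x, W0 x ∂μ) : ℝ) : ℂ)‖ ≤ 4 * κ * M := by
  have hWb : ∀ᵐ x ∂μ, ‖W x‖ ≤ (1 + κ) * W0 x := by
    filter_upwards [h0, hd] with x h1 h2
    have h3 : ‖W x‖ ≤ ‖W x - W0 x‖ + ‖(W0 x : ℂ)‖ := by
      have := norm_add_le (W x - W0 x) (W0 x : ℂ)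
      simpa using this
    rw [Complex.norm_real, Real.norm_of_nonneg h1] at h3
    linarith
  have hWi : Integrable W μ := (hW0.const_mul (1 + κ)).mono' hW hWb
  have hfc : AEStronglyMeasurable (fun x => (f x : ℂ)) μ :=
    Complex.continuous_ofReal.comp_aestronglyMeasurable hf
  have hfWb : ∀ᵐ x ∂μ, ‖(f x : ℂ) * W x‖ ≤ (1 + κ) * (|f x| * W0 x) := by
    filter_upwards [hWb] with x h1
    rw [norm_mul, Complex.norm_real, Real.norm_eq_abs]
    nlinarith [abs_nonneg (f x), norm_nonneg (W x)]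
  have hfWi : Integrable (fun x => (f x : ℂ) * W x) μ :=
    (hfi.const_mul (1 + κ)).mono' (hfc.mul hW) hfWb
  have hfW0i : Integrable (fun x => f x * W0 x) μ := by
    refine hfi.mono' (hf.mul hW0.1) ?_
    filter_upwards [h0] with x h1
    rw [norm_mul, Real.norm_eq_abs, Real.norm_of_nonneg h1]
  have hW0c : Integrable (fun x => (W0 x : ℂ)) μ := hW0.ofReal
  have hfW0c : Integrable (fun x => ((f x * W0 x : ℝ) : ℂ)) μ := hfW0i.ofReal
  set B0 := ∫ x, W0 x ∂μ with hB0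
  set A0 := ∫ x, f x * W0 x ∂μ with hA0
  set A := ∫ x, (f x : ℂ) * W x ∂μ with hA
  set B := ∫ x, W x ∂μ with hB
  have hM0 : 0 ≤ M := by
    have h1 : 0 ≤ ∫ x, |f x| * W0 x ∂μ := by
      refine integral_nonneg_of_ae ?_
      filter_upwards [h0] with x h1
      exact mul_nonneg (abs_nonneg _) h1
    by_contra hcon
    push Not at hcon
    nlinarith
  have hBd : ‖B - B0‖ ≤ κ * B0 := by
    have h1 : B - B0 = ∫ x, (W x - W0 x) ∂μ := by
      rw [integral_sub hWi hW0c, hB, hB0, integral_complex_ofReal]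
    rw [h1, hB0, ← integral_const_mul]
    exact norm_integral_le_of_norm_le (hW0.const_mul κ) hd
  have hAd : ‖A - A0‖ ≤ κ * (M * B0) := by
    have h1 : A - A0 = ∫ x, ((f x : ℂ) * W x - ((f x * W0 x : ℝ) : ℂ)) ∂μ := by
      rw [integral_sub hfWi hfW0c, hA, hA0, integral_complex_ofReal]
    rw [h1]
    refine le_trans ?_ (mul_le_mul_of_nonneg_left hM hκ)
    rw [← integral_const_mul]
    refine norm_integral_le_of_norm_le (hfi.const_mul κ) ?_
    filter_upwards [hd] with x h2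
    have h3 : (f x : ℂ) * W x - ((f x * W0 x : ℝ) : ℂ) = (f x : ℂ) * (W x - W0 x) := by
      push_cast
      ring
    rw [h3, norm_mul, Complex.norm_real, Real.norm_eq_abs]
    nlinarith [abs_nonneg (f x)]
  have hA0b : |A0| ≤ M * B0 := by
    refine le_trans ?_ hM
    rw [← Real.norm_eq_abs]
    refine norm_integral_le_of_norm_le hfi ?_
    filter_upwards [h0] with x h1
    rw [norm_mul, Real.norm_eq_abs, Real.norm_of_nonneg h1]
  have hBl : B0 / 2 ≤ ‖B‖ := by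
    have h1 : ‖(B0 : ℂ)‖ ≤ ‖B‖ + ‖B - B0‖ := by
      have := norm_sub_le B (B - B0)
      simpa using this
    rw [Complex.norm_real, Real.norm_of_nonneg hpos.le] at h1
    nlinarith
  have hBpos : 0 < ‖B‖ := by linarith
  have hBne : B ≠ 0 := norm_pos_iff.1 hBpos
  have hB0ne : (B0 : ℂ) ≠ 0 := by exact_mod_cast hpos.ne'
  refine ⟨hWi, hfWi, hBl, ?_, ?_⟩
  · have h1 : ‖A‖ ≤ ‖A - A0‖ + ‖(A0 : ℂ)‖ := by
      have := norm_add_le (A - A0) (A0 : ℂ)
      simpa using this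
    rw [Complex.norm_real, Real.norm_eq_abs] at h1
    have h2 : κ * (M * B0) ≤ 1 / 2 * (M * B0) :=
      mul_le_mul_of_nonneg_right hκ2 (by positivity)
    linarith
  · have h1 : A / B - ((A0 / B0 : ℝ) : ℂ) = (A - A0) / B + A0 * (B0 - B) / (B * B0) := by
      push_cast
      field_simp
      ring
    rw [h1]
    have h2 : ‖(A - A0) / B‖ ≤ 2 * κ * M := by
      rw [norm_div, div_le_iff₀ hBpos]
      have h3 : 2 * κ * M * (B0 / 2) ≤ 2 * κ * M * ‖B‖ :=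
        mul_le_mul_of_nonneg_left hBl (by positivity)
      nlinarith
    have h3 : ‖A0 * (B0 - B) / (B * B0)‖ ≤ 2 * κ * M := by
      rw [norm_div, norm_mul, norm_mul, Complex.norm_real, Complex.norm_real, Real.norm_eq_abs,
        Real.norm_of_nonneg hpos.le, div_le_iff₀ (by positivity), norm_sub_rev]
      have h4 : |A0| * ‖B - B0‖ ≤ (M * B0) * (κ * B0) :=
        mul_le_mul hA0b hBd (norm_nonneg _) (by positivity)
      have h5 : 2 * κ * M * (B0 / 2 * B0) ≤ 2 * κ * M * (‖B‖ * B0) :=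
        mul_le_mul_of_nonneg_left (mul_le_mul_of_nonneg_right hBl hpos.le) (by positivity)
      nlinarith
    calc _ ≤ ‖(A - A0) / B‖ + ‖A0 * (B0 - B) / (B * B0)‖ := norm_add_le _ _
      _ ≤ 4 * κ * M := by linarith

/-- the local comparison of two factors -/
theorem mgb_el {p : ℕ} (hp : 2 ≤ p) {a b : ℂ} {y m : ℝ} (ha : ‖a‖ ≤ 3) (hb : ‖b‖ ≤ 3)
    (hy : |y| ≤ 2) (hm : 0 < m)
    (hD : m ≤ ‖1 - b * (y : ℂ) / (Real.sqrt p : ℂ) + b ^ 2 / (p : ℂ)‖)
    (hab : 8 * (‖a - b‖ / Real.sqrt p) ≤ m / 2) :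
    ∃ ε : ℂ, ‖ε‖ ≤ 16 / m * (‖a - b‖ / Real.sqrt p) ∧ el p a y = el p b y * (1 + ε) := by
  have hp0 : (0 : ℝ) < p := by positivity
  have hs : 1 ≤ Real.sqrt p := by
    rw [Real.one_le_sqrt]
    exact_mod_cast (by omega : 1 ≤ p)
  have hs0 : 0 < Real.sqrt p := by linarith
  have hss : Real.sqrt p * Real.sqrt p = p := Real.mul_self_sqrt hp0.le
  set S : ℂ := (Real.sqrt p : ℂ) with hS
  have hSn : ‖S‖ = Real.sqrt p := by
    rw [hS, Complex.norm_real, Real.norm_of_nonneg hs0.le]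
  have hpn : ‖(p : ℂ)‖ = p := by simp
  have hSne : S ≠ 0 := norm_pos_iff.1 (by rw [hSn]; exact hs0)
  have hpne : (p : ℂ) ≠ 0 := by
    exact_mod_cast (by omega : p ≠ 0)
  set Da := 1 - a * (y : ℂ) / S + a ^ 2 / (p : ℂ) with hDa
  set Db := 1 - b * (y : ℂ) / S + b ^ 2 / (p : ℂ) with hDb
  have h1 : Db - Da = (a - b) * (y : ℂ) / S - (a - b) * (a + b) / p := by
    rw [hDa, hDb]
    field_simp
    ring
  have h2 : ‖Db - Da‖ ≤ 8 * (‖a - b‖ / Real.sqrt p) := by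
    rw [h1]
    refine (norm_sub_le _ _).trans ?_
    rw [norm_div, norm_div, norm_mul, norm_mul, hSn, hpn, Complex.norm_real, Real.norm_eq_abs]
    have h3 : ‖a + b‖ ≤ 6 := (norm_add_le _ _).trans (by linarith)
    have h4 : ‖a - b‖ * |y| / Real.sqrt p ≤ 2 * (‖a - b‖ / Real.sqrt p) := by
      rw [mul_div_assoc', div_le_div_iff_of_pos_right hs0]
      nlinarith [norm_nonneg (a - b)]
    have h5 : ‖a - b‖ * ‖a + b‖ / p ≤ 6 * (‖a - b‖ / Real.sqrt p) := by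
      rw [mul_div_assoc']
      have h6 : ‖a - b‖ * ‖a + b‖ ≤ 6 * ‖a - b‖ := by nlinarith [norm_nonneg (a - b)]
      have h7 : Real.sqrt p ≤ p := by nlinarith
      exact div_le_div₀ (by positivity) h6 hs0 h7
    linarith
  have h3 : m / 2 ≤ ‖Da‖ := by
    have h4 : ‖Db‖ ≤ ‖Da‖ + ‖Db - Da‖ := by
      have := norm_add_le Da (Db - Da)
      simpa using this
    linarith
  have hDane : Da ≠ 0 := norm_pos_iff.1 (by linarith)
  have hDbne : Db ≠ 0 := norm_pos_iff.1 (by linarith)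
  refine ⟨(Db - Da) / Da, ?_, ?_⟩
  · rw [norm_div, div_le_iff₀ (by linarith)]
    have h5 : 16 / m * (‖a - b‖ / Real.sqrt p) * (m / 2) ≤
        16 / m * (‖a - b‖ / Real.sqrt p) * ‖Da‖ :=
      mul_le_mul_of_nonneg_left h3 (by positivity)
    have h6 : 16 / m * (‖a - b‖ / Real.sqrt p) * (m / 2) = 8 * (‖a - b‖ / Real.sqrt p) := by
      field_simp
      ring
    linarith
  · have h5 : el p a y = Da⁻¹ := rfl
    have h6 : el p b y = Db⁻¹ := rfl
    rw [h5, h6]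
    field_simp
    ring

/-- `p^{-r}` is close to `1` -/
theorem mgb_pow {p : ℕ} (hp : 1 ≤ p) {r : ℂ} {δ : ℝ} (hr : ‖r‖ ≤ δ) (hδ : δ * Real.log p ≤ 1) :
    ‖(p : ℂ) ^ (-r) - 1‖ ≤ 2 * (δ * Real.log p) := by
  have hpne : (p : ℂ) ≠ 0 := by exact_mod_cast (by omega : p ≠ 0)
  have hlog : 0 ≤ Real.log p := Real.log_natCast_nonneg p
  rw [Complex.cpow_def_of_ne_zero hpne]
  have h1 : ‖Complex.log (p : ℂ) * -r‖ ≤ δ * Real.log p := by
    rw [Complex.natCast_log.symm, norm_mul, Complex.norm_real, norm_neg, Real.norm_of_nonneg hlog,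
      mul_comm]
    exact mul_le_mul_of_nonneg_right hr hlog
  exact (Complex.norm_exp_sub_one_le (h1.trans hδ)).trans (by linarith)

/-- products of numbers close to `1` -/
theorem mgb_mul {a b : ℂ} {α β : ℝ} (ha : ‖a - 1‖ ≤ α) (hb : ‖b - 1‖ ≤ β) :
    ‖a * b - 1‖ ≤ α + β + α * β := by
  have h1 : a * b - 1 = (a - 1) + (b - 1) + (a - 1) * (b - 1) := by ring
  rw [h1]
  refine (norm_add_le _ _).trans ?_
  refine add_le_add ((norm_add_le _ _).trans (add_le_add ha hb)) ?_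
  rw [norm_mul]
  exact mul_le_mul ha hb (norm_nonneg _) (le_trans (norm_nonneg _) ha)

variable {q : ℕ} [NeZero q]

/-- the weights, compared with those at the centre -/
theorem mgb_w {χ : DirichletCharacter ℂ q} (h : PQ χ) {p : ℕ} (hp : p.Prime) {y m δ : ℝ}
    (hy : |y| ≤ 2) (hm : 0 < m)
    (hD1 : m ≤ ‖1 - (1 : ℂ) * (y : ℂ) / (Real.sqrt p : ℂ) + (1 : ℂ) ^ 2 / (p : ℂ)‖)
    (hD2 : m ≤ ‖1 - χ p * (y : ℂ) / (Real.sqrt p : ℂ) + χ p ^ 2 / (p : ℂ)‖)
    (hδ : δ * Real.log p ≤ 1) (hδ0 : 0 ≤ δ)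
    (hδm : 32 / m * (δ * Real.log p / Real.sqrt p) ≤ 1) {r s z : ℂ}
    (hr : ‖r‖ ≤ δ) (hs : ‖s‖ ≤ δ) (hz : ‖z‖ ≤ δ) :
    ‖w2 χ r s z p y - ((pp χ p y ^ 2 : ℝ) : ℂ)‖ ≤
      480 / m * (δ * Real.log p / Real.sqrt p) * pp χ p y ^ 2 ∧
    ‖w1 χ z p y - (pp χ p y : ℂ)‖ ≤
      480 / m * (δ * Real.log p / Real.sqrt p) * pp χ p y := by
  have hp2 : 2 ≤ p := hp.two_le
  have hs0 : 0 < Real.sqrt p := Real.sqrt_pos.2 (by positivity)
  have hlog : 0 ≤ Real.log p := Real.log_natCast_nonneg p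
  have hχ : ‖χ p‖ ≤ 1 := χ.norm_le_one _
  set D := δ * Real.log p with hDdef
  have hD0 : 0 ≤ D := mul_nonneg hδ0 hlog
  set η := 32 / m * (D / Real.sqrt p) with hη
  have hη0 : 0 ≤ η := by positivity
  have hsmall : ∀ d : ℝ, d ≤ 2 * D → 8 * (d / Real.sqrt p) ≤ m / 2 := by
    intro d hd
    have h1 : d / Real.sqrt p ≤ 2 * D / Real.sqrt p := by gcongr
    have h2 : 32 / m * (D / Real.sqrt p) * m = 16 * (2 * D / Real.sqrt p) := by
      field_simp
      ring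
    have h3 : 32 / m * (D / Real.sqrt p) * m ≤ 1 * m := mul_le_mul_of_nonneg_right hδm hm.le
    linarith
  have hbd : ∀ d : ℝ, d ≤ 2 * D → 16 / m * (d / Real.sqrt p) ≤ η := by
    intro d hd
    have h1 : d / Real.sqrt p ≤ 2 * D / Real.sqrt p := by gcongr
    have h2 : 16 / m * (d / Real.sqrt p) ≤ 16 / m * (2 * D / Real.sqrt p) :=
      mul_le_mul_of_nonneg_left h1 (by positivity)
    refine h2.trans (le_of_eq ?_)
    rw [hη]
    ring
  have hpow : ∀ u : ℂ, ‖u‖ ≤ δ → ‖(p : ℂ) ^ (-u) - 1‖ ≤ 2 * D := fun u hu =>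
    mgb_pow (by omega) hu hδ
  have hpow3 : ∀ u : ℂ, ‖u‖ ≤ δ → ‖(p : ℂ) ^ (-u)‖ ≤ 3 := by
    intro u hu
    have h1 := norm_add_le ((p : ℂ) ^ (-u) - 1) 1
    rw [sub_add_cancel, norm_one] at h1
    have := hpow u hu
    linarith
  have key1 : ∃ ε : ℂ, ‖ε‖ ≤ η ∧ el p ((p : ℂ) ^ (-r)) y = el p 1 y * (1 + ε) := by
    obtain ⟨ε, h1, h2⟩ := mgb_el hp2 (hpow3 r hr) (by rw [norm_one]; norm_num) hy hm hD1
      (hsmall _ (hpow r hr))
    exact ⟨ε, h1.trans (hbd _ (hpow r hr)), h2⟩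
  have key2 : ∀ u : ℂ, ‖u‖ ≤ δ → ∃ ε : ℂ, ‖ε‖ ≤ η ∧
      el p (χ p * (p : ℂ) ^ (-u)) y = el p (χ p) y * (1 + ε) := by
    intro u hu
    have h0 : ‖χ p * (p : ℂ) ^ (-u) - χ p‖ ≤ 2 * D := by
      have h1 : χ p * (p : ℂ) ^ (-u) - χ p = χ p * ((p : ℂ) ^ (-u) - 1) := by ring
      rw [h1, norm_mul]
      have := hpow u hu
      nlinarith [norm_nonneg ((p : ℂ) ^ (-u) - 1), norm_nonneg (χ p)]
    have h3 : ‖χ p * (p : ℂ) ^ (-u)‖ ≤ 3 := by
      rw [norm_mul]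
      have := hpow3 u hu
      nlinarith [norm_nonneg ((p : ℂ) ^ (-u)), norm_nonneg (χ p)]
    obtain ⟨ε, h1, h2⟩ := mgb_el hp2 h3 (by linarith) hy hm hD2 (hsmall _ h0)
    exact ⟨ε, h1.trans (hbd _ h0), h2⟩
  obtain ⟨ε₁, he1, hf1⟩ := key1
  obtain ⟨ε₂, he2, hf2⟩ := key2 s hs
  obtain ⟨ε₃, he3, hf3⟩ := key2 z hz
  obtain ⟨hp1, -, hq1, hq2⟩ := pp_facts_pr h hp hy
  have hpp : 0 < pp χ p y := by linarith
  have e1 : ((pp χ p y ^ 2 : ℝ) : ℂ) = el p 1 y ^ 2 * el p (χ p) y * el p (χ p) y := by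
    rw [hq2]
    simp [w2, wQ]
  have e2 : (pp χ p y : ℂ) = el p 1 y * el p (χ p) y := by
    rw [hq1]
    simp [w1]
  have hs1 : ∀ ε : ℂ, (1 + ε) - 1 = ε := fun ε => by ring
  constructor
  · have h1 : w2 χ r s z p y - ((pp χ p y ^ 2 : ℝ) : ℂ) = ((pp χ p y ^ 2 : ℝ) : ℂ) *
        (((1 + ε₁) * (1 + ε₁)) * ((1 + ε₂) * (1 + ε₃)) - 1) := by
      rw [e1]
      simp only [w2, wQ]
      rw [hf1, hf2, hf3]
      ring
    have h2 := mgb_mul (a := 1 + ε₁) (b := 1 + ε₁) (α := η) (β := η) (by rw [hs1]; exact he1)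
      (by rw [hs1]; exact he1)
    have h3 := mgb_mul (a := 1 + ε₂) (b := 1 + ε₃) (α := η) (β := η) (by rw [hs1]; exact he2)
      (by rw [hs1]; exact he3)
    have h4 : η + η + η * η ≤ 3 * η := by nlinarith
    have h5 := mgb_mul (h2.trans h4) (h3.trans h4)
    have h6 : 3 * η + 3 * η + 3 * η * (3 * η) ≤ 15 * η := by nlinarith
    rw [h1, norm_mul, Complex.norm_real, Real.norm_of_nonneg (by positivity), mul_comm]
    refine mul_le_mul_of_nonneg_right ((h5.trans h6).trans (le_of_eq ?_)) (by positivity)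
    rw [hη]
    ring
  · have h1 : w1 χ z p y - (pp χ p y : ℂ) = (pp χ p y : ℂ) * ((1 + ε₃) - 1) := by
      rw [e2]
      simp only [w1]
      rw [hf3]
      ring
    rw [h1, norm_mul, Complex.norm_real, Real.norm_of_nonneg hpp.le, mul_comm, hs1]
    refine mul_le_mul_of_nonneg_right (he3.trans ?_) hpp.le
    rw [hη]
    have h2 : 0 ≤ D / Real.sqrt p := by positivity
    have h3 : 32 / m ≤ 480 / m := by gcongr; norm_num
    exact mul_le_mul_of_nonneg_right h3 h2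

omit [NeZero q] in
/-- measurability of the local factor -/
theorem mgb_meas (χ : DirichletCharacter ℂ q) (p : ℕ) :
    Measurable (fun y : ℝ => pp χ p y) ∧ Measurable (fun y : ℝ => ph χ p y) := by
  constructor
  · unfold pp
    fun_prop
  · unfold ph
    fun_prop

/-- integrals of the local factor -/
theorem mgb_pos {χ : DirichletCharacter ℂ q} (h : PQ χ) {p : ℕ} (hpp : p.Prime) {I : Finset ℕ}
    {P : Measure (ℕ → ℝ)} (hP : IsST I P) (hp : p ∈ I) :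
    Integrable (fun x => pp χ p (x p)) P ∧ Integrable (fun x => pp χ p (x p) ^ 2) P ∧
    (0 < ∫ x, pp χ p (x p) ∂P) ∧ (0 < ∫ x, pp χ p (x p) ^ 2 ∂P) ∧
    (∀ᵐ x ∂P, 1 / 10 ≤ pp χ p (x p) ∧ pp χ p (x p) ≤ 150) := by
  have := hP.prob
  have hb : ∀ᵐ x ∂P, 1 / 10 ≤ pp χ p (x p) ∧ pp χ p (x p) ≤ 150 := by
    filter_upwards [hP.bdd] with x hx
    obtain ⟨h1, h2, -, -⟩ := pp_facts_pr h hpp (hx p hp)
    exact ⟨h1, h2⟩
  have hm : Measurable (fun x : ℕ → ℝ => pp χ p (x p)) :=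
    (mgb_meas χ p).1.comp (measurable_pi_apply p)
  have hi1 : Integrable (fun x => pp χ p (x p)) P := by
    refine Integrable.of_bound hm.aestronglyMeasurable 150 ?_
    filter_upwards [hb] with x hx
    rw [Real.norm_eq_abs, abs_le]
    constructor <;> linarith [hx.1, hx.2]
  have hi2 : Integrable (fun x => pp χ p (x p) ^ 2) P := by
    refine Integrable.of_bound (hm.pow_const 2).aestronglyMeasurable (150 ^ 2) ?_
    filter_upwards [hb] with x hx
    rw [norm_pow, Real.norm_eq_abs]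
    have : |pp χ p (x p)| ≤ 150 := by
      rw [abs_le]
      constructor <;> linarith [hx.1, hx.2]
    exact pow_le_pow_left₀ (abs_nonneg _) this 2
  refine ⟨hi1, hi2, ?_, ?_, hb⟩
  · have h1 : ∫ x, (1 / 10 : ℝ) ∂P ≤ ∫ x, pp χ p (x p) ∂P := by
      refine integral_mono_ae (integrable_const _) hi1 ?_
      filter_upwards [hb] with x hx
      exact hx.1
    rw [integral_const, probReal_univ, one_smul] at h1
    linarith
  · have h1 : ∫ x, (1 / 100 : ℝ) ∂P ≤ ∫ x, pp χ p (x p) ^ 2 ∂P := by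
      refine integral_mono_ae (integrable_const _) hi2 ?_
      filter_upwards [hb] with x hx
      have := hx.1
      show (1 / 100 : ℝ) ≤ pp χ p (x p) ^ 2
      nlinarith
    rw [integral_const, probReal_univ, one_smul] at h1
    linarith

/-- size of the normalised variable -/
theorem mgb_ph {χ : DirichletCharacter ℂ q} (h : PQ χ) {p : ℕ} (hp : 10 ^ 8 ≤ p)
    (hc : cv χ p ≠ -1) {y : ℝ} (hy : |y| ≤ 2) : |ph χ p y| ≤ 5 := by
  have hpR : (10 : ℝ) ^ 8 ≤ p := by exact_mod_cast hp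
  have hp0 : (0 : ℝ) < p := by positivity
  have hs : (10 : ℝ) ^ 4 ≤ Real.sqrt p := by
    rw [show (10 : ℝ) ^ 4 = Real.sqrt (10 ^ 8) by
      rw [show (10 : ℝ) ^ 8 = (10 ^ 4) ^ 2 by norm_num, Real.sqrt_sq (by norm_num)]]
    exact Real.sqrt_le_sqrt hpR
  have hs0 : 0 < Real.sqrt p := by linarith
  have hip : 1 / (p : ℝ) ≤ 1 / 10 ^ 8 := one_div_le_one_div_of_le (by norm_num) hpR
  have hip0 : 0 < 1 / (p : ℝ) := by positivity
  have his : 1 / Real.sqrt p ≤ 1 / 10 ^ 4 := one_div_le_one_div_of_le (by norm_num) hs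
  have his0 : 0 < 1 / Real.sqrt p := by positivity
  have key : |ma χ p| ≤ 1 / 4 ∧ 1 / 4 ≤ va χ p := by
    rcases (cv_cases_pr h p).2 with h1 | h1 | h1
    · have e1 : ma χ p = 4 / Real.sqrt p / (1 + 1 / p) := by
        unfold ma
        rw [if_pos h1]
      have e2 : va χ p = (1 - 1 / (p : ℝ)) ^ 4 / (1 + 1 / p) ^ 2 := by
        unfold va
        rw [if_pos h1]
      rw [e1, e2]
      constructor
      · rw [abs_of_nonneg (by positivity), div_le_iff₀ (by positivity)]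
        have : 4 / Real.sqrt p = 4 * (1 / Real.sqrt p) := by ring
        rw [this]
        nlinarith
      · rw [le_div_iff₀ (by positivity)]
        have h3 : (99 / 100 : ℝ) ≤ 1 - 1 / p := by linarith
        have h4 : (99 / 100 : ℝ) ^ 4 ≤ (1 - 1 / (p : ℝ)) ^ 4 :=
          pow_le_pow_left₀ (by norm_num) h3 4
        have h5 : (1 + 1 / (p : ℝ)) ^ 2 ≤ (101 / 100) ^ 2 :=
          pow_le_pow_left₀ (by positivity) (by linarith) 2
        norm_num at h4 h5 ⊢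
        linarith
    · have hne : ¬ cv χ p = 1 := by
        rw [h1]
        norm_num
      have e1 : ma χ p = 2 / Real.sqrt p := by
        unfold ma
        rw [if_neg hne, if_pos h1]
      have e2 : va χ p = 1 - 1 / p := by
        unfold va
        rw [if_neg hne]
      rw [e1, e2]
      constructor
      · rw [abs_of_nonneg (by positivity)]
        have : 2 / Real.sqrt p = 2 * (1 / Real.sqrt p) := by ring
        rw [this]
        linarith
      · linarith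
    · exact absurd h1 hc
  obtain ⟨k1, k2⟩ := key
  have k3 : 1 / 2 ≤ Real.sqrt (va χ p) := by
    rw [show (1 / 2 : ℝ) = Real.sqrt (1 / 4) by
      rw [show (1 / 4 : ℝ) = (1 / 2) ^ 2 by norm_num, Real.sqrt_sq (by norm_num)]]
    exact Real.sqrt_le_sqrt k2
  unfold ph
  rw [abs_div, abs_of_nonneg (Real.sqrt_nonneg _), div_le_iff₀ (by linarith)]
  have k4 : |y - ma χ p| ≤ |y| + |ma χ p| := abs_sub _ _
  linarith

theorem pert_pr : ∃ (C : ℝ) (p₁ : ℕ), 1 ≤ C ∧ ∀ (q : ℕ) [NeZero q] (χ : DirichletCharacter ℂ q),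
    PQ χ → ∀ p : ℕ, p.Prime → p₁ ≤ p → ∀ (I : Finset ℕ) (P : Measure (ℕ → ℝ)), IsST I P →
    p ∈ I → ∀ δ : ℝ, 0 ≤ δ → δ ≤ 1 / 8 → δ * Real.log p ≤ 1 →
    ∀ r s z : ℂ, ‖r‖ ≤ δ → ‖s‖ ≤ δ → ‖z‖ ≤ δ →
    (cv χ p ≠ -1 →
      ‖(∫ x, (ph χ p (x p) : ℂ) * w2 χ r s z p (x p) ∂P) / ∫ x, w2 χ r s z p (x p) ∂P‖ ≤
        C * δ * Real.log p / Real.sqrt p ∧
      ‖(∫ x, (ph χ p (x p) ^ 2 : ℂ) * w2 χ r s z p (x p) ∂P) / ∫ x, w2 χ r s z p (x p) ∂P‖ ≤
        1 + C * δ * Real.log p / Real.sqrt p ∧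
      ‖(∫ x, (ph χ p (x p) : ℂ) * w1 χ z p (x p) ∂P) / (∫ x, w1 χ z p (x p) ∂P) - ga χ p‖ ≤
        C * δ * Real.log p / Real.sqrt p) ∧
    ‖(∫ x, ((1 - p / (p + 1) * x p / Real.sqrt p : ℝ) : ℂ) ^ 2 * w2 χ r s z p (x p) ∂P) /
      (∫ x, w2 χ r s z p (x p) ∂P) - 1‖ ≤ C / Real.sqrt p ∧
    ‖(∫ x, ((1 - p / (p + 1) * x p / Real.sqrt p : ℝ) : ℂ) * w1 χ z p (x p) ∂P) /
      (∫ x, w1 χ z p (x p) ∂P) - 1‖ ≤ C / Real.sqrt p := by
  refine ⟨20000, 10 ^ 8, by norm_num, ?_⟩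
  intro q _ χ h p hp hp1 I P hP hpI δ hδ0 hδ8 hδl r s z hr hs hz
  have hprob := hP.prob
  have hpR : (10 : ℝ) ^ 8 ≤ p := by exact_mod_cast hp1
  have hp0 : (0 : ℝ) < p := by positivity
  have hss : Real.sqrt p * Real.sqrt p = p := Real.mul_self_sqrt hp0.le
  have hsq : (10 : ℝ) ^ 4 ≤ Real.sqrt p := by
    rw [show (10 : ℝ) ^ 4 = Real.sqrt (10 ^ 8) by
      rw [show (10 : ℝ) ^ 8 = (10 ^ 4) ^ 2 by norm_num, Real.sqrt_sq (by norm_num)]]
    exact Real.sqrt_le_sqrt hpR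
  have hs0 : 0 < Real.sqrt p := by linarith
  have his : 1 / Real.sqrt p ≤ 1 / 10 ^ 4 := one_div_le_one_div_of_le (by norm_num) hsq
  have his0 : 0 < 1 / Real.sqrt p := by positivity
  have hlog : 0 ≤ Real.log p := Real.log_natCast_nonneg p
  have hχ : ‖χ p‖ ≤ 1 := χ.norm_le_one _
  set T := δ * Real.log p / Real.sqrt p with hT
  have hT0 : 0 ≤ T := by positivity
  have hT1 : T ≤ 1 / 10 ^ 4 := by
    have : T ≤ 1 / Real.sqrt p := by
      rw [hT]
      gcongr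
    linarith
  have hCT : 20000 * δ * Real.log p / Real.sqrt p = 20000 * T := by
    rw [hT]
    ring
  rw [hCT]
  have hD : ∀ b : ℂ, ‖b‖ ≤ 1 → ∀ y : ℝ, |y| ≤ 2 →
      1 / 2 ≤ ‖1 - b * (y : ℂ) / (Real.sqrt p : ℂ) + b ^ 2 / (p : ℂ)‖ := by
    intro b hb y hy
    have h1 : ‖b * (y : ℂ) / (Real.sqrt p : ℂ)‖ ≤ 2 * (1 / Real.sqrt p) := by
      rw [norm_div, norm_mul, Complex.norm_real, Complex.norm_real, Real.norm_eq_abs,
        Real.norm_of_nonneg hs0.le, mul_one_div]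
      have : ‖b‖ * |y| ≤ 2 := by nlinarith [norm_nonneg b, abs_nonneg y]
      gcongr
    have h2 : ‖b ^ 2 / (p : ℂ)‖ ≤ 1 / 10 ^ 8 := by
      rw [norm_div, norm_pow, Complex.norm_natCast]
      have h3 : ‖b‖ ^ 2 ≤ 1 := pow_le_one₀ (norm_nonneg _) hb
      exact div_le_div₀ (by norm_num) h3 (by norm_num) hpR
    have h3 : (1 : ℂ) = (1 - b * (y : ℂ) / (Real.sqrt p : ℂ) + b ^ 2 / (p : ℂ)) +
        (b * (y : ℂ) / (Real.sqrt p : ℂ) - b ^ 2 / (p : ℂ)) := by ring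
    have h4 := norm_add_le (1 - b * (y : ℂ) / (Real.sqrt p : ℂ) + b ^ 2 / (p : ℂ))
      (b * (y : ℂ) / (Real.sqrt p : ℂ) - b ^ 2 / (p : ℂ))
    rw [← h3, norm_one] at h4
    have h5 := norm_sub_le (b * (y : ℂ) / (Real.sqrt p : ℂ)) (b ^ 2 / (p : ℂ))
    have h6 : 2 * (1 / Real.sqrt p) + 1 / 10 ^ 8 ≤ 1 / 2 := by
      have : (1 : ℝ) / 10 ^ 4 = 0.0001 := by norm_num
      have : (1 : ℝ) / 10 ^ 8 ≤ 0.0001 := by norm_num
      linarith
    linarith
  have hw : ∀ y : ℝ, |y| ≤ 2 →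
      ‖w2 χ r s z p y - ((pp χ p y ^ 2 : ℝ) : ℂ)‖ ≤ 960 * T * pp χ p y ^ 2 ∧
      ‖w1 χ z p y - (pp χ p y : ℂ)‖ ≤ 960 * T * pp χ p y := by
    intro y hy
    have h1 := mgb_w h hp (m := 1 / 2) (δ := δ) hy (by norm_num) (hD 1 (by rw [norm_one]) y hy)
      (hD (χ p) hχ y hy) hδl hδ0 (by
        rw [← hT]
        have : (32 : ℝ) / (1 / 2) = 64 := by norm_num
        rw [this]
        have : (1 : ℝ) / 10 ^ 4 = 0.0001 := by norm_num
        linarith) hr hs hz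
    rw [← hT] at h1
    have : (480 : ℝ) / (1 / 2) = 960 := by norm_num
    rw [this] at h1
    exact h1
  obtain ⟨hi1, hi2, hpos1, hpos2, hb⟩ := mgb_pos h hp hP hpI
  have hm := mgb_meas χ p
  have hmp : Measurable (fun x : ℕ → ℝ => pp χ p (x p)) := hm.1.comp (measurable_pi_apply p)
  have hmh : Measurable (fun x : ℕ → ℝ => ph χ p (x p)) := hm.2.comp (measurable_pi_apply p)
  have hW2m : AEStronglyMeasurable (fun x : ℕ → ℝ => w2 χ r s z p (x p)) P :=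
    ((w2_facts_pr χ hp (by linarith) (by linarith)
      (by linarith [(abs_le.1 ((Complex.abs_re_le_norm z).trans hz)).1])).1.comp
      (measurable_pi_apply p)).aestronglyMeasurable
  have hW1m : AEStronglyMeasurable (fun x : ℕ → ℝ => w1 χ z p (x p)) P :=
    ((w1_facts_pr χ hp
      (by linarith [(abs_le.1 ((Complex.abs_re_le_norm z).trans hz)).1])).1.comp
      (measurable_pi_apply p)).aestronglyMeasurable
  have hd2 : ∀ᵐ x ∂P, ‖w2 χ r s z p (x p) - ((pp χ p (x p) ^ 2 : ℝ) : ℂ)‖ ≤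
      960 * T * pp χ p (x p) ^ 2 := by
    filter_upwards [hP.bdd] with x hx
    exact (hw _ (hx p hpI)).1
  have hd1 : ∀ᵐ x ∂P, ‖w1 χ z p (x p) - (pp χ p (x p) : ℂ)‖ ≤ 960 * T * pp χ p (x p) := by
    filter_upwards [hP.bdd] with x hx
    exact (hw _ (hx p hpI)).2
  have hn2 : ∀ᵐ x ∂P, 0 ≤ pp χ p (x p) ^ 2 := by
    filter_upwards with x
    positivity
  have hn1 : ∀ᵐ x ∂P, 0 ≤ pp χ p (x p) := by
    filter_upwards [hb] with x hx
    linarith [hx.1]
  have hκ0 : 0 ≤ 960 * T := by positivity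
  have hκ1 : 960 * T ≤ 1 / 2 := by
    have : (1 : ℝ) / 10 ^ 4 = 0.0001 := by norm_num
    linarith
  -- bounded functions
  have hbi : ∀ (f : (ℕ → ℝ) → ℝ) (M : ℝ), Measurable f → (∀ᵐ x ∂P, |f x| ≤ M) →
      (Integrable (fun x => |f x| * pp χ p (x p) ^ 2) P ∧
        ∫ x, |f x| * pp χ p (x p) ^ 2 ∂P ≤ M * ∫ x, pp χ p (x p) ^ 2 ∂P) ∧
      (Integrable (fun x => |f x| * pp χ p (x p)) P ∧
        ∫ x, |f x| * pp χ p (x p) ∂P ≤ M * ∫ x, pp χ p (x p) ∂P) := by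
    intro f M hf hM
    have hfa : Measurable (fun x => |f x|) := hf.abs
    have j2 : Integrable (fun x => |f x| * pp χ p (x p) ^ 2) P := by
      refine (hi2.const_mul M).mono' (hfa.mul (hmp.pow_const 2)).aestronglyMeasurable ?_
      filter_upwards [hM] with x hx
      rw [norm_mul, Real.norm_eq_abs, abs_abs, Real.norm_of_nonneg (by positivity)]
      exact mul_le_mul_of_nonneg_right hx (by positivity)
    have j1 : Integrable (fun x => |f x| * pp χ p (x p)) P := by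
      refine (hi1.const_mul M).mono' (hfa.mul hmp).aestronglyMeasurable ?_
      filter_upwards [hM, hn1] with x hx hx1
      rw [norm_mul, Real.norm_eq_abs, abs_abs, Real.norm_of_nonneg hx1]
      exact mul_le_mul_of_nonneg_right hx hx1
    refine ⟨⟨j2, ?_⟩, ⟨j1, ?_⟩⟩
    · rw [← integral_const_mul]
      refine integral_mono_ae j2 (hi2.const_mul M) ?_
      filter_upwards [hM] with x hx
      exact mul_le_mul_of_nonneg_right hx (by positivity)
    · rw [← integral_const_mul]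
      refine integral_mono_ae j1 (hi1.const_mul M) ?_
      filter_upwards [hM, hn1] with x hx hx1
      exact mul_le_mul_of_nonneg_right hx hx1
  refine ⟨fun hc => ?_, ?_, ?_⟩
  · obtain ⟨g1, g2, g3⟩ := ph_int_pr h hP hpI hp hc
    have hph5 : ∀ᵐ x ∂P, |ph χ p (x p)| ≤ 5 := by
      filter_upwards [hP.bdd] with x hx
      exact mgb_ph h hp1 hc (hx p hpI)
    obtain ⟨⟨a2, -⟩, a1, a1'⟩ := hbi _ _ hmh hph5
    have hph25 : ∀ᵐ x ∂P, |ph χ p (x p) ^ 2| ≤ 25 := by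
      filter_upwards [hph5] with x hx
      rw [abs_pow]
      nlinarith [abs_nonneg (ph χ p (x p))]
    obtain ⟨⟨b2, -⟩, -, -⟩ := hbi _ _ (hmh.pow_const 2) hph25
    have b2' : Integrable (fun x => ph χ p (x p) ^ 2 * pp χ p (x p) ^ 2) P := by
      refine b2.congr ?_
      filter_upwards with x
      rw [abs_of_nonneg (by positivity)]
    have c1 : ∫ x, |ph χ p (x p)| * pp χ p (x p) ^ 2 ∂P ≤ 1 * ∫ x, pp χ p (x p) ^ 2 ∂P := by
      have e1 : ∫ x, |ph χ p (x p)| * pp χ p (x p) ^ 2 ∂P ≤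
          ∫ x, (1 / 2 * pp χ p (x p) ^ 2 + 1 / 2 * (ph χ p (x p) ^ 2 * pp χ p (x p) ^ 2)) ∂P := by
        refine integral_mono a2 ((hi2.const_mul _).add (b2'.const_mul _)) fun x => ?_
        have e2 : |ph χ p (x p)| ≤ 1 / 2 + 1 / 2 * ph χ p (x p) ^ 2 := by
          rw [← sq_abs (ph χ p (x p))]
          nlinarith [sq_nonneg (|ph χ p (x p)| - 1)]
        have e3 : 0 ≤ pp χ p (x p) ^ 2 := by positivity
        show |ph χ p (x p)| * pp χ p (x p) ^ 2 ≤ _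
        nlinarith
      rw [integral_add (hi2.const_mul _) (b2'.const_mul _), integral_const_mul,
        integral_const_mul, g2] at e1
      linarith
    have c2 : ∫ x, |ph χ p (x p) ^ 2| * pp χ p (x p) ^ 2 ∂P ≤
        1 * ∫ x, pp χ p (x p) ^ 2 ∂P := by
      rw [one_mul, ← g2]
      refine le_of_eq (integral_congr_ae ?_)
      filter_upwards with x
      rw [abs_of_nonneg (by positivity)]
    obtain ⟨-, -, -, -, r1⟩ := mgb_abs hW2m hi2 hn2 hd2 hκ0 hκ1 hpos2 hmh.aestronglyMeasurable a2 c1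
    obtain ⟨-, -, -, -, r2⟩ := mgb_abs hW2m hi2 hn2 hd2 hκ0 hκ1 hpos2
      (hmh.pow_const 2).aestronglyMeasurable b2 c2
    obtain ⟨-, -, -, -, r3⟩ := mgb_abs hW1m hi1 hn1 hd1 hκ0 hκ1 hpos1 hmh.aestronglyMeasurable a1 a1'
    refine ⟨?_, ?_, ?_⟩
    · rw [g1, zero_div, Complex.ofReal_zero, sub_zero] at r1
      linarith
    · rw [g2, div_self hpos2.ne'] at r2
      have e1 : ∀ x : ℕ → ℝ, ((ph χ p (x p) ^ 2 : ℝ) : ℂ) = (ph χ p (x p) : ℂ) ^ 2 := fun x => by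
        push_cast
        ring
      simp only [e1] at r2
      have e2 := norm_add_le ((∫ x, (ph χ p (x p) : ℂ) ^ 2 * w2 χ r s z p (x p) ∂P) /
        (∫ x, w2 χ r s z p (x p) ∂P) - ((1 : ℝ) : ℂ)) ((1 : ℝ) : ℂ)
      rw [sub_add_cancel, Complex.norm_real, norm_one] at e2
      linarith
    · rw [g3, mul_div_assoc, div_self hpos1.ne', mul_one] at r3
      linarith
  · have hg : ∀ᵐ x ∂P, |(1 - p / (p + 1) * x p / Real.sqrt p) ^ 2 - 1| ≤ 8 * (1 / Real.sqrt p) := by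
      filter_upwards [hP.bdd] with x hx
      have h1 := hx p hpI
      have h2 : |p / (p + 1) * x p / Real.sqrt p| ≤ 2 * (1 / Real.sqrt p) := by
        rw [abs_div, abs_mul, abs_of_nonneg (by positivity : (0 : ℝ) ≤ p / (p + 1)),
          abs_of_nonneg hs0.le, mul_one_div]
        have h3 : (p : ℝ) / (p + 1) ≤ 1 := by
          rw [div_le_one (by positivity)]
          linarith
        have h4 : (p : ℝ) / (p + 1) * |x p| ≤ 2 := by
          have : 0 ≤ (p : ℝ) / (p + 1) := by positivity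
          nlinarith [abs_nonneg (x p)]
        gcongr
      set g := p / (p + 1) * x p / Real.sqrt p
      have h5 : (1 - g) ^ 2 - 1 = g * g - 2 * g := by ring
      rw [h5]
      have h6 := abs_sub (g * g) (2 * g)
      rw [abs_mul, abs_mul, abs_two] at h6
      have h7 : |g| ≤ 1 := by
        have : (1 : ℝ) / 10 ^ 4 = 0.0001 := by norm_num
        linarith
      nlinarith [abs_nonneg g]
    have hgm : Measurable (fun x : ℕ → ℝ => (1 - p / (p + 1) * x p / Real.sqrt p) ^ 2 - 1) := by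
      fun_prop
    obtain ⟨⟨a2, a2'⟩, -⟩ := hbi _ _ hgm hg
    obtain ⟨iW, ifW, s1, s2, -⟩ := mgb_abs hW2m hi2 hn2 hd2 hκ0 hκ1 hpos2
      hgm.aestronglyMeasurable a2 a2'
    set B := ∫ x, w2 χ r s z p (x p) ∂P with hB
    set B0 := ∫ x, pp χ p (x p) ^ 2 ∂P with hB0
    have hBne : B ≠ 0 := norm_pos_iff.1 (by linarith)
    have e1 : ∫ x, ((1 - p / (p + 1) * x p / Real.sqrt p : ℝ) : ℂ) ^ 2 * w2 χ r s z p (x p) ∂P =
        (∫ x, (((1 - p / (p + 1) * x p / Real.sqrt p) ^ 2 - 1 : ℝ) : ℂ) *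
          w2 χ r s z p (x p) ∂P) + B := by
      rw [hB, ← integral_add ifW iW]
      refine integral_congr_ae ?_
      filter_upwards with x
      push_cast
      ring
    rw [e1, add_div, div_self hBne, add_sub_cancel_right, norm_div,
      div_le_iff₀ (by linarith : 0 < ‖B‖)]
    refine s2.trans ?_
    have e2 : (3 / 2 * (8 * (1 / Real.sqrt p))) * B0 ≤ (24 * (1 / Real.sqrt p)) * ‖B‖ := by
      nlinarith
    refine e2.trans ?_
    have e3 : 24 * (1 / Real.sqrt p) ≤ 20000 / Real.sqrt p := by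
      rw [mul_one_div]
      gcongr
      norm_num
    exact mul_le_mul_of_nonneg_right e3 (norm_nonneg _)
  · have hg : ∀ᵐ x ∂P, |(1 - p / (p + 1) * x p / Real.sqrt p) - 1| ≤ 2 * (1 / Real.sqrt p) := by
      filter_upwards [hP.bdd] with x hx
      have h1 := hx p hpI
      have h2 : |p / (p + 1) * x p / Real.sqrt p| ≤ 2 * (1 / Real.sqrt p) := by
        rw [abs_div, abs_mul, abs_of_nonneg (by positivity : (0 : ℝ) ≤ p / (p + 1)),
          abs_of_nonneg hs0.le, mul_one_div]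
        have h3 : (p : ℝ) / (p + 1) ≤ 1 := by
          rw [div_le_one (by positivity)]
          linarith
        have h4 : (p : ℝ) / (p + 1) * |x p| ≤ 2 := by
          have : 0 ≤ (p : ℝ) / (p + 1) := by positivity
          nlinarith [abs_nonneg (x p)]
        gcongr
      rw [show (1 - p / (p + 1) * x p / Real.sqrt p) - 1 = -(p / (p + 1) * x p / Real.sqrt p) by
        ring, abs_neg]
      exact h2
    have hgm : Measurable (fun x : ℕ → ℝ => (1 - p / (p + 1) * x p / Real.sqrt p) - 1) := by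
      fun_prop
    obtain ⟨-, a1, a1'⟩ := hbi _ _ hgm hg
    obtain ⟨iW, ifW, s1, s2, -⟩ := mgb_abs hW1m hi1 hn1 hd1 hκ0 hκ1 hpos1
      hgm.aestronglyMeasurable a1 a1'
    set B := ∫ x, w1 χ z p (x p) ∂P with hB
    set B0 := ∫ x, pp χ p (x p) ∂P with hB0
    have hBne : B ≠ 0 := norm_pos_iff.1 (by linarith)
    have e1 : ∫ x, ((1 - p / (p + 1) * x p / Real.sqrt p : ℝ) : ℂ) * w1 χ z p (x p) ∂P =
        (∫ x, (((1 - p / (p + 1) * x p / Real.sqrt p) - 1 : ℝ) : ℂ) *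
          w1 χ z p (x p) ∂P) + B := by
      rw [hB, ← integral_add ifW iW]
      refine integral_congr_ae ?_
      filter_upwards with x
      push_cast
      ring
    rw [e1, add_div, div_self hBne, add_sub_cancel_right, norm_div,
      div_le_iff₀ (by linarith : 0 < ‖B‖)]
    refine s2.trans ?_
    have e2 : (3 / 2 * (2 * (1 / Real.sqrt p))) * B0 ≤ (6 * (1 / Real.sqrt p)) * ‖B‖ := by
      nlinarith
    refine e2.trans ?_
    have e3 : 6 * (1 / Real.sqrt p) ≤ 20000 / Real.sqrt p := by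
      rw [mul_one_div]
      gcongr
      norm_num
    exact mul_le_mul_of_nonneg_right e3 (norm_nonneg _)

end Pool.Agent.LM
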