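import Pool.Agent.Lib_helper53.LMF.MG
import Pool.Agent.Lib_helper53.LEF.EQ
import Pool.Agent.Lib_helper53.LMF.ME

/-! LSP3, part M, block MH: the small primes. -/

set_option autoImplicit false

namespace Pool.Agent.LM

open Complex MeasureTheory ProbabilityTheory
open Pool.Agent.LSP (tau MX CC CB sg1 wX)
open Pool.Agent.LEV (Uu Um)
open Pool.Agent.LVB (IsST el)
open Pool.Agent.LK (Qe V PQ MW)
open Pool.Agent.LE

theorem mhb_prodJ {I : Finset ℕ} {P : Measure (ℕ → ℝ)} (hP : IsST I P) {u : ℕ → ℝ → ℂ}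
    {J : Finset ℕ} (hJ : J ⊆ I) (hu : ∀ p ∈ J, Measurable (u p)) :
    ∫ x, ∏ p ∈ J, u p (x p) ∂P = ∏ p ∈ J, ∫ x, u p (x p) ∂P := by
  have := hP.prob
  have h1 : ∀ x : ℕ → ℝ, ∏ p ∈ J, u p (x p) =
      ∏ p : I, (fun y : ℝ => if (p : ℕ) ∈ J then u p y else 1) (x p) := by
    intro x
    rw [Finset.prod_coe_sort I (fun p => if p ∈ J then u p (x p) else 1),
      ← Finset.prod_subset hJ (f := fun p => if p ∈ J then u p (x p) else 1)]
    · exact Finset.prod_congr rfl fun p hp => (if_pos hp).symm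
    · exact fun p _ hp => if_neg hp
  simp_rw [h1]
  rw [hP.ind.integral_fun_prod_comp (f := fun p : I => fun y : ℝ =>
    if (p : ℕ) ∈ J then u p y else 1) (fun p => (measurable_pi_apply (p : ℕ)).aemeasurable)
    (fun p => by
      by_cases h : (p : ℕ) ∈ J
      · simp only [h, if_true]
        exact (hu p h).aestronglyMeasurable
      · simp only [h, if_false]
        exact measurable_const.aestronglyMeasurable)]
  rw [Finset.prod_coe_sort I (fun p => ∫ x, (if p ∈ J then u p (x p) else 1) ∂P),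
    ← Finset.prod_subset hJ (f := fun p => ∫ x, (if p ∈ J then u p (x p) else 1) ∂P)]
  · refine Finset.prod_congr rfl fun p hp => ?_
    simp only [hp, if_true]
  · intro p _ hp
    simp [hp]

/-- extension by zero -/
noncomputable def mhb_ext {I : Finset ℕ} (S : Finset I) (y : S → ℝ) (n : ℕ) : ℝ :=
  if h : ∃ hn : n ∈ I, (⟨n, hn⟩ : I) ∈ S then y ⟨⟨n, h.1⟩, h.2⟩ else 0

theorem mhb_ext_meas {I : Finset ℕ} (S : Finset I) : Measurable (mhb_ext S) := by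
  refine measurable_pi_lambda _ fun n => ?_
  unfold mhb_ext
  by_cases h : ∃ hn : n ∈ I, (⟨n, hn⟩ : I) ∈ S
  · simp only [h, dif_pos]
    exact measurable_pi_apply _
  · simp only [h, dif_neg, not_false_eq_true]
    exact measurable_const

theorem mhb_split {I : Finset ℕ} {P : Measure (ℕ → ℝ)} (hP : IsST I P) {J : Finset ℕ}
    {G₁ G₂ : (ℕ → ℝ) → ℂ} (h₁ : Measurable G₁) (h₂ : Measurable G₂)
    (hD₁ : ∀ x y : ℕ → ℝ, (∀ p ∈ J, p ∈ I → x p = y p) → G₁ x = G₁ y)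
    (hD₂ : ∀ x y : ℕ → ℝ, (∀ p ∈ I \ J, x p = y p) → G₂ x = G₂ y) :
    ∫ x, G₁ x * G₂ x ∂P = (∫ x, G₁ x ∂P) * ∫ x, G₂ x ∂P := by
  classical
  have := hP.prob
  set S : Finset I := Finset.univ.filter (fun i => (i : ℕ) ∈ J)
  set T : Finset I := Finset.univ.filter (fun i => (i : ℕ) ∉ J)
  have hST : Disjoint S T := Finset.disjoint_filter_filter_not _ _ _
  have hi := hP.ind.indepFun_finset S T hST (fun i => measurable_pi_apply _)
  have hi2 := hi.comp (h₁.comp (mhb_ext_meas S)) (h₂.comp (mhb_ext_meas T))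
  have e1 : (G₁ ∘ mhb_ext S) ∘ (fun a (i : S) => (a : ℕ → ℝ) ((i : I) : ℕ)) = G₁ := by
    funext x
    refine hD₁ _ _ fun p hp hpI => ?_
    have : ∃ hn : p ∈ I, (⟨p, hn⟩ : I) ∈ S := ⟨hpI, by simp [S, hp]⟩
    simp only [mhb_ext, this, dif_pos]
  have e2 : (G₂ ∘ mhb_ext T) ∘ (fun a (i : T) => (a : ℕ → ℝ) ((i : I) : ℕ)) = G₂ := by
    funext x
    refine hD₂ _ _ fun p hp => ?_
    have hp' := Finset.mem_sdiff.1 hp
    have : ∃ hn : p ∈ I, (⟨p, hn⟩ : I) ∈ T := ⟨hp'.1, by simp [T, hp'.2]⟩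
    simp only [mhb_ext, this, dif_pos]
  rw [e1, e2] at hi2
  exact hi2.integral_fun_mul_eq_mul_integral h₁.aestronglyMeasurable h₂.aestronglyMeasurable

/-- the weights outside `J` cancel -/
theorem mhb_cancel {I : Finset ℕ} {P : Measure (ℕ → ℝ)} (hP : IsST I P) {w : ℕ → ℝ → ℂ}
    (hw : ∀ p ∈ I, Measurable (w p)) (hw0 : ∀ p ∈ I, ∫ x, w p (x p) ∂P ≠ 0) {J : Finset ℕ}
    (hJ : J ⊆ I) {F : (ℕ → ℝ) → ℝ} (hF : Measurable F)
    (hD : ∀ x y : ℕ → ℝ, (∀ p ∈ J, x p = y p) → F x = F y) :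
    EW P I w F = (∫ x, (F x : ℂ) * ∏ p ∈ J, w p (x p) ∂P) / ∏ p ∈ J, ∫ x, w p (x p) ∂P := by
  have hA : Measurable (fun x : ℕ → ℝ => (F x : ℂ) * ∏ p ∈ J, w p (x p)) :=
    (Complex.measurable_ofReal.comp hF).mul (Finset.measurable_fun_prod _ fun p hp =>
      (hw p (hJ hp)).comp (measurable_pi_apply p))
  have hB : Measurable (fun x : ℕ → ℝ => ∏ p ∈ I \ J, w p (x p)) :=
    Finset.measurable_fun_prod _ fun p hp =>
      (hw p (Finset.mem_sdiff.1 hp).1).comp (measurable_pi_apply p)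
  have s1 : ∫ x, (F x : ℂ) * ∏ p ∈ I, w p (x p) ∂P =
      (∫ x, (F x : ℂ) * ∏ p ∈ J, w p (x p) ∂P) * ∫ x, ∏ p ∈ I \ J, w p (x p) ∂P := by
    rw [← mhb_split hP (J := J) hA hB
      (fun x y h => by
        rw [hD x y fun p hp => h p hp (hJ hp)]
        congr 1
        exact Finset.prod_congr rfl fun p hp => by rw [h p hp (hJ hp)])
      (fun x y h => Finset.prod_congr rfl fun p hp => by rw [h p hp])]
    refine integral_congr_ae (Filter.Eventually.of_forall fun x => ?_)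
    show (F x : ℂ) * ∏ p ∈ I, w p (x p) = (F x : ℂ) * (∏ p ∈ J, w p (x p)) *
      ∏ p ∈ I \ J, w p (x p)
    rw [← Finset.prod_sdiff hJ]
    ring
  have h3 : ∏ p ∈ I \ J, ∫ x, w p (x p) ∂P ≠ 0 :=
    Finset.prod_ne_zero_iff.2 fun p hp => hw0 p (Finset.mem_sdiff.1 hp).1
  have h4 : ∏ p ∈ J, ∫ x, w p (x p) ∂P ≠ 0 :=
    Finset.prod_ne_zero_iff.2 fun p hp => hw0 p (hJ hp)
  unfold EW
  rw [s1, mhb_prodJ hP Finset.sdiff_subset (fun p hp => hw p (Finset.mem_sdiff.1 hp).1),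
    ← Finset.prod_sdiff hJ]
  field_simp

/-- the general comparison -/
theorem mhb_gen {I : Finset ℕ} {P : Measure (ℕ → ℝ)} (hP : IsST I P) {w : ℕ → ℝ → ℂ}
    (hw : ∀ p ∈ I, Measurable (w p)) (hw0 : ∀ p ∈ I, ∫ x, w p (x p) ∂P ≠ 0) {J : Finset ℕ}
    (hJ : J ⊆ I) {F : (ℕ → ℝ) → ℝ} (hF : Measurable F)
    (hD : ∀ x y : ℕ → ℝ, (∀ p ∈ J, x p = y p) → F x = F y)
    {M : ℝ} (hM : ∀ x, (∀ p ∈ I, |x p| ≤ 2) → |F x| ≤ M) {W0 : ℕ → ℝ → ℝ} {C κ : ℝ}
    (hWm : ∀ p ∈ J, Measurable (W0 p)) (hWb : ∀ p ∈ J, ∀ y : ℝ, |y| ≤ 2 → 0 ≤ W0 p y ∧ W0 p y ≤ C)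
    (hWp : ∀ p ∈ J, 0 < ∫ x, W0 p (x p) ∂P)
    (hwd : ∀ p ∈ J, ∀ y : ℝ, |y| ≤ 2 → ‖w p y - (W0 p y : ℂ)‖ ≤ κ * W0 p y) (hκ : 0 ≤ κ) :
    (J.card * κ ≤ 1 / 8 → ‖EW P I w F‖ ≤
      2 * (∫ x, |F x| * ∏ p ∈ J, W0 p (x p) ∂P) / ∏ p ∈ J, ∫ x, W0 p (x p) ∂P) ∧
    (κ = 0 → EW P I w F =
      (((∫ x, F x * ∏ p ∈ J, W0 p (x p) ∂P) / ∏ p ∈ J, ∫ x, W0 p (x p) ∂P : ℝ) : ℂ)) := by
  have := hP.prob
  rw [mhb_cancel hP hw hw0 hJ hF hD]
  have hWpos : 0 < ∏ p ∈ J, ∫ x, W0 p (x p) ∂P := Finset.prod_pos hWp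
  have hWi : ∀ p ∈ J, Integrable (fun x : ℕ → ℝ => W0 p (x p)) P := by
    intro p hp
    refine Integrable.of_bound ((hWm p hp).comp (measurable_pi_apply p)).aestronglyMeasurable C ?_
    filter_upwards [hP.bdd] with x hx
    have h1 := hWb p hp (x p) (hx p (hJ hp))
    show ‖W0 p (x p)‖ ≤ C
    rw [Real.norm_of_nonneg h1.1]
    exact h1.2
  have hwi : ∀ p ∈ J, Integrable (fun x : ℕ → ℝ => w p (x p)) P := by
    intro p hp
    refine ((hWi p hp).const_mul (1 + κ)).mono'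
      ((hw p (hJ hp)).comp (measurable_pi_apply p)).aestronglyMeasurable ?_
    filter_upwards [hP.bdd] with x hx
    have h1 := hWb p hp (x p) (hx p (hJ hp))
    have h2 := hwd p hp (x p) (hx p (hJ hp))
    have h3 := norm_add_le (w p (x p) - (W0 p (x p) : ℂ)) (W0 p (x p) : ℂ)
    rw [sub_add_cancel, Complex.norm_real, Real.norm_of_nonneg h1.1] at h3
    show ‖w p (x p)‖ ≤ _
    linarith
  have hint : ∀ p ∈ J, ‖(∫ x, w p (x p) ∂P) - ((∫ x, W0 p (x p) ∂P : ℝ) : ℂ)‖ ≤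
      κ * ∫ x, W0 p (x p) ∂P := by
    intro p hp
    have h0 : Integrable (fun x : ℕ → ℝ => (W0 p (x p) : ℂ)) P := (hWi p hp).ofReal
    rw [← integral_complex_ofReal, ← integral_sub (hwi p hp) h0, ← integral_const_mul]
    refine norm_integral_le_of_norm_le ((hWi p hp).const_mul κ) ?_
    filter_upwards [hP.bdd] with x hx
    exact hwd p hp (x p) (hx p (hJ hp))
  have hPm : Measurable (fun x : ℕ → ℝ => ∏ p ∈ J, W0 p (x p)) :=
    Finset.measurable_fun_prod _ fun p hp => (hWm p hp).comp (measurable_pi_apply p)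
  have hPb : ∀ᵐ x ∂P, 0 ≤ ∏ p ∈ J, W0 p (x p) ∧ ∏ p ∈ J, W0 p (x p) ≤ C ^ J.card := by
    filter_upwards [hP.bdd] with x hx
    refine ⟨Finset.prod_nonneg fun p hp => (hWb p hp _ (hx p (hJ hp))).1, ?_⟩
    rw [← Finset.prod_const]
    exact Finset.prod_le_prod (fun p hp => (hWb p hp _ (hx p (hJ hp))).1)
      fun p hp => (hWb p hp _ (hx p (hJ hp))).2
  have hFi : Integrable (fun x => |F x| * ∏ p ∈ J, W0 p (x p)) P := by
    refine Integrable.of_bound (hF.abs.mul hPm).aestronglyMeasurable (M * C ^ J.card) ?_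
    filter_upwards [hP.bdd, hPb] with x hx hx2
    rw [norm_mul, Real.norm_eq_abs, abs_abs, Real.norm_of_nonneg hx2.1]
    exact mul_le_mul (hM x hx) hx2.2 hx2.1 ((abs_nonneg _).trans (hM x hx))
  refine ⟨fun hJκ => ?_, fun h0 => ?_⟩
  · rw [norm_div, div_le_div_iff₀ ?_ hWpos]
    swap
    · rw [norm_pos_iff]
      exact Finset.prod_ne_zero_iff.2 fun p hp => hw0 p (hJ hp)
    have hκ1 : κ ≤ 1 ∨ J = ∅ := by
      rcases Finset.eq_empty_or_nonempty J with h | h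
      · exact Or.inr h
      · left
        have h1 : (1 : ℝ) ≤ J.card := by exact_mod_cast h.card_pos
        nlinarith
    set n := J.card with hn
    -- the numerator
    have hnum : ‖∫ x, (F x : ℂ) * ∏ p ∈ J, w p (x p) ∂P‖ ≤
        (1 + κ) ^ n * ∫ x, |F x| * ∏ p ∈ J, W0 p (x p) ∂P := by
      rw [← integral_const_mul]
      refine norm_integral_le_of_norm_le (hFi.const_mul _) ?_
      filter_upwards [hP.bdd] with x hx
      rw [norm_mul, Complex.norm_real, Real.norm_eq_abs, norm_prod]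
      have h1 : ∏ p ∈ J, ‖w p (x p)‖ ≤ ∏ p ∈ J, ((1 + κ) * W0 p (x p)) := by
        refine Finset.prod_le_prod (fun p _ => norm_nonneg _) fun p hp => ?_
        have h1 := hWb p hp (x p) (hx p (hJ hp))
        have h2 := hwd p hp (x p) (hx p (hJ hp))
        have h3 := norm_add_le (w p (x p) - (W0 p (x p) : ℂ)) (W0 p (x p) : ℂ)
        rw [sub_add_cancel, Complex.norm_real, Real.norm_of_nonneg h1.1] at h3
        linarith
      rw [Finset.prod_mul_distrib, Finset.prod_const, ← hn] at h1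
      have h2 := mul_le_mul_of_nonneg_left h1 (abs_nonneg (F x))
      linarith
    -- the denominator
    have hden : (1 - n * κ) * ∏ p ∈ J, ∫ x, W0 p (x p) ∂P ≤
        ‖∏ p ∈ J, ∫ x, w p (x p) ∂P‖ := by
      have h1 : (1 - κ) ^ n * ∏ p ∈ J, ∫ x, W0 p (x p) ∂P ≤
          ‖∏ p ∈ J, ∫ x, w p (x p) ∂P‖ := by
        rcases hκ1 with hκ1 | hJe
        · rw [norm_prod, hn, ← Finset.prod_const, ← Finset.prod_mul_distrib]
          refine Finset.prod_le_prod (fun p hp => mul_nonneg (by linarith) (hWp p hp).le)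
            fun p hp => ?_
          have h2 := hint p hp
          have h3 := norm_sub_norm_le ((∫ x, W0 p (x p) ∂P : ℝ) : ℂ) (∫ x, w p (x p) ∂P)
          rw [Complex.norm_real, Real.norm_of_nonneg (hWp p hp).le, norm_sub_rev] at h3
          linarith
        · rw [hn, hJe]
          simp
      have h2 : 1 - n * κ ≤ (1 - κ) ^ n := by
        rcases hκ1 with hκ1 | hJe
        · have := one_add_mul_le_pow (show (-2 : ℝ) ≤ -κ by linarith) n
          have e : (1 : ℝ) + -κ = 1 - κ := by ring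
          rw [e] at this
          linarith
        · rw [hn, hJe]
          simp
      exact (mul_le_mul_of_nonneg_right h2 hWpos.le).trans h1
    have hup : (1 + κ) ^ n ≤ 8 / 7 := by
      have h1 : (1 + κ) ^ n ≤ Real.exp (n * κ) := by
        have h2 : (1 + κ) ^ n ≤ Real.exp κ ^ n :=
          pow_le_pow_left₀ (by linarith) (by linarith [Real.add_one_le_exp κ]) n
        rwa [← Real.exp_nat_mul] at h2
      have h2 : Real.exp (n * κ) ≤ Real.exp (1 / 8) := Real.exp_le_exp.2 hJκ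
      have h3 : Real.exp (1 / 8) ≤ 8 / 7 := by
        have := Real.exp_bound_div_one_sub_of_interval (x := 1 / 8) (by norm_num) (by norm_num)
        norm_num at this ⊢
        linarith
      linarith
    set A := ∫ x, |F x| * ∏ p ∈ J, W0 p (x p) ∂P with hA
    have hA0 : 0 ≤ A := by
      refine integral_nonneg_of_ae ?_
      filter_upwards [hPb] with x hx
      exact mul_nonneg (abs_nonneg _) hx.1
    set B := ∏ p ∈ J, ∫ x, W0 p (x p) ∂P with hB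
    have h1 : ‖∫ x, (F x : ℂ) * ∏ p ∈ J, w p (x p) ∂P‖ ≤ 8 / 7 * A :=
      hnum.trans (mul_le_mul_of_nonneg_right hup hA0)
    have h2 : 7 / 8 * B ≤ ‖∏ p ∈ J, ∫ x, w p (x p) ∂P‖ := by
      refine le_trans (mul_le_mul_of_nonneg_right ?_ hWpos.le) hden
      linarith
    have h3 : ‖∫ x, (F x : ℂ) * ∏ p ∈ J, w p (x p) ∂P‖ * B ≤ 8 / 7 * A * B :=
      mul_le_mul_of_nonneg_right h1 hWpos.le
    have h4 : 2 * A * (7 / 8 * B) ≤ 2 * A * ‖∏ p ∈ J, ∫ x, w p (x p) ∂P‖ :=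
      mul_le_mul_of_nonneg_left h2 (by positivity)
    have h5 : 8 / 7 * A * B ≤ 2 * A * (7 / 8 * B) := by
      have : 0 ≤ A * B := mul_nonneg hA0 hWpos.le
      nlinarith
    linarith
  · have e1 : ∀ p ∈ J, ∀ y : ℝ, |y| ≤ 2 → w p y = (W0 p y : ℂ) := by
      intro p hp y hy
      have h1 := hwd p hp y hy
      rw [h0, zero_mul] at h1
      exact sub_eq_zero.1 (norm_le_zero_iff.1 h1)
    have e2 : ∏ p ∈ J, ∫ x, w p (x p) ∂P = ((∏ p ∈ J, ∫ x, W0 p (x p) ∂P : ℝ) : ℂ) := by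
      rw [Complex.ofReal_prod]
      refine Finset.prod_congr rfl fun p hp => ?_
      rw [← integral_complex_ofReal]
      refine integral_congr_ae ?_
      filter_upwards [hP.bdd] with x hx
      exact e1 p hp _ (hx p (hJ hp))
    have e3 : ∫ x, (F x : ℂ) * ∏ p ∈ J, w p (x p) ∂P =
        ((∫ x, F x * ∏ p ∈ J, W0 p (x p) ∂P : ℝ) : ℂ) := by
      rw [← integral_complex_ofReal]
      refine integral_congr_ae ?_
      filter_upwards [hP.bdd] with x hx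
      rw [Finset.prod_congr rfl fun p hp => e1 p hp _ (hx p (hJ hp))]
      push_cast
      rfl
    rw [e2, e3, Complex.ofReal_div]

/-- lower bound of the denominators -/
theorem mhb_den {p : ℕ} (hp : 2 ≤ p) {b : ℂ} (hb : b = 1 ∨ b = 0 ∨ b = -1) {y : ℝ}
    (hy : |y| ≤ 2) :
    1 / 12 ≤ ‖1 - b * (y : ℂ) / (Real.sqrt p : ℂ) + b ^ 2 / (p : ℂ)‖ := by
  have hpR : (2 : ℝ) ≤ p := by exact_mod_cast hp
  have hp0 : (0 : ℝ) < p := by linarith
  have hss : Real.sqrt p * Real.sqrt p = p := Real.mul_self_sqrt hp0.le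
  have hsq : 1.4141 ≤ Real.sqrt p := by
    rw [Real.le_sqrt (by norm_num) hp0.le]
    norm_num
    linarith
  have hs0 : 0 < Real.sqrt p := by linarith
  set t := 1 / Real.sqrt p with ht
  have ht0 : 0 < t := by positivity
  have ht1 : t ≤ 0.7072 := by
    rw [ht, div_le_iff₀ hs0]
    nlinarith
  have ht2 : 1 / (p : ℝ) = t * t := by
    rw [ht, div_mul_div_comm, one_mul, hss]
  have key : ∀ u : ℝ, |u| ≤ 2 → 1 / 12 ≤ 1 - u * t + t * t := by
    intro u hu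
    have h1 := (abs_le.1 hu).2
    nlinarith
  rcases hb with h | h | h
  · have e : (1 : ℂ) - b * (y : ℂ) / (Real.sqrt p : ℂ) + b ^ 2 / (p : ℂ) =
        ((1 - y * t + t * t : ℝ) : ℂ) := by
      rw [h, ← ht2, ht]
      push_cast
      ring
    rw [e, Complex.norm_real, Real.norm_eq_abs]
    exact (key y hy).trans (le_abs_self _)
  · rw [h]
    simp
    norm_num
  · have e : (1 : ℂ) - b * (y : ℂ) / (Real.sqrt p : ℂ) + b ^ 2 / (p : ℂ) =
        ((1 - (-y) * t + t * t : ℝ) : ℂ) := by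
      rw [h, ← ht2, ht]
      push_cast
      ring
    rw [e, Complex.norm_real, Real.norm_eq_abs]
    exact (key (-y) (by rwa [abs_neg])).trans (le_abs_self _)

theorem small_pert_pr (z₀ : ℕ) : ∃ δ : ℝ, 0 < δ ∧ δ ≤ 1 / 8 ∧
    ∀ (q : ℕ) [NeZero q] (χ : DirichletCharacter ℂ q), PQ χ →
    ∀ (I : Finset ℕ) (P : Measure (ℕ → ℝ)), (∀ p ∈ I, p.Prime) → IsST I P → Pz z₀ ⊆ I →
    ∀ F : (ℕ → ℝ) → ℝ, Measurable F → (∃ M : ℝ, ∀ x, (∀ p ∈ I, |x p| ≤ 2) → |F x| ≤ M) →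
    (∀ x y : ℕ → ℝ, (∀ p ∈ Pz z₀, x p = y p) → F x = F y) →
    (∀ r s z : ℂ, ‖r‖ ≤ δ → ‖s‖ ≤ δ → ‖z‖ ≤ δ → ‖EW P I (w2 χ r s z) F‖ ≤
      2 * (∫ x, |F x| * ∏ p ∈ Pz z₀, pp χ p (x p) ^ 2 ∂P) /
        ∏ p ∈ Pz z₀, ∫ x, pp χ p (x p) ^ 2 ∂P) ∧
    (∀ z : ℂ, ‖z‖ ≤ δ → ‖EW P I (w1 χ z) F‖ ≤
      2 * (∫ x, |F x| * ∏ p ∈ Pz z₀, pp χ p (x p) ∂P) / ∏ p ∈ Pz z₀, ∫ x, pp χ p (x p) ∂P) ∧
    EW P I (w2 χ 0 0 0) F = (((∫ x, F x * ∏ p ∈ Pz z₀, pp χ p (x p) ^ 2 ∂P) /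
        ∏ p ∈ Pz z₀, ∫ x, pp χ p (x p) ^ 2 ∂P : ℝ) : ℂ) ∧
    EW P I (w1 χ 0) F = (((∫ x, F x * ∏ p ∈ Pz z₀, pp χ p (x p) ∂P) /
        ∏ p ∈ Pz z₀, ∫ x, pp χ p (x p) ∂P : ℝ) : ℂ) := by
  set τ : ℝ := 1 / (46080 * (z₀ + 1)) with hτ
  have hz0 : (0 : ℝ) ≤ z₀ := Nat.cast_nonneg _
  have hτ0 : 0 < τ := by positivity
  have hτ1 : τ ≤ 1 / 46080 := by
    rw [hτ]
    exact one_div_le_one_div_of_le (by norm_num) (by linarith)
  set L : ℝ := 1 + Real.log (z₀ + 1) with hL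
  have hlog : 0 ≤ Real.log ((z₀ : ℝ) + 1) := Real.log_nonneg (by linarith)
  have hL1 : 1 ≤ L := by linarith
  have hδL : τ / L ≤ τ := div_le_self hτ0.le hL1
  refine ⟨τ / L, by positivity, by linarith, ?_⟩
  intro q _ χ h I P hI hP hPz F hF hFM hFD
  obtain ⟨M, hM⟩ := hFM
  set δ := τ / L with hδ
  have hδ0 : 0 < δ := by positivity
  have hδ8 : δ ≤ 1 / 8 := by linarith
  have hprime : ∀ p ∈ Pz z₀, p.Prime ∧ p ≤ z₀ := by
    intro p hp
    simp only [Pz, Finset.mem_filter, Finset.mem_Icc] at hp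
    exact ⟨hp.2, hp.1.2⟩
  have hcard : ((Pz z₀).card : ℝ) ≤ z₀ := by
    have h1 : (Pz z₀).card ≤ z₀ := by
      refine (Finset.card_filter_le _ _).trans ?_
      rw [Nat.card_Icc]
      omega
    exact_mod_cast h1
  have hδp : ∀ p ∈ Pz z₀, δ * Real.log p ≤ τ := by
    intro p hp
    obtain ⟨h1, h2⟩ := hprime p hp
    have h3 : Real.log p ≤ L := by
      have h4 : Real.log p ≤ Real.log ((z₀ : ℝ) + 1) := by
        refine Real.log_le_log (by exact_mod_cast h1.pos) ?_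
        have : (p : ℝ) ≤ z₀ := by exact_mod_cast h2
        linarith
      linarith
    have h5 : δ * Real.log p ≤ δ * L := mul_le_mul_of_nonneg_left h3 hδ0.le
    have h6 : δ * L = τ := by
      rw [hδ]
      field_simp
    linarith
  have hloc : ∀ δ' : ℝ, 0 ≤ δ' → δ' ≤ δ → ∀ r s z : ℂ, ‖r‖ ≤ δ' → ‖s‖ ≤ δ' → ‖z‖ ≤ δ' →
      ∀ p ∈ Pz z₀, ∀ y : ℝ, |y| ≤ 2 →
      ‖w2 χ r s z p y - ((pp χ p y ^ 2 : ℝ) : ℂ)‖ ≤ 5760 * (δ' * L) * pp χ p y ^ 2 ∧
      ‖w1 χ z p y - (pp χ p y : ℂ)‖ ≤ 5760 * (δ' * L) * pp χ p y := by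
    intro δ' hδ'0 hδ' r s z hr hs hz p hp y hy
    obtain ⟨h1, h2⟩ := hprime p hp
    have hp2 := h1.two_le
    have hlp : 0 ≤ Real.log p := Real.log_natCast_nonneg p
    have h3 : δ' * Real.log p ≤ δ' * L := by
      refine mul_le_mul_of_nonneg_left ?_ hδ'0
      have h4 : Real.log p ≤ Real.log ((z₀ : ℝ) + 1) := by
        refine Real.log_le_log (by exact_mod_cast h1.pos) ?_
        have : (p : ℝ) ≤ z₀ := by exact_mod_cast h2
        linarith
      linarith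
    have h4 : δ' * L ≤ τ := by
      have h5 : δ' * L ≤ δ * L := mul_le_mul_of_nonneg_right hδ' (by linarith)
      have h6 : δ * L = τ := by
        rw [hδ]
        field_simp
      linarith
    have hs1 : 1 ≤ Real.sqrt p := by
      rw [Real.one_le_sqrt]
      exact_mod_cast (by omega : 1 ≤ p)
    have h5 : δ' * Real.log p / Real.sqrt p ≤ δ' * L :=
      (div_le_self (by positivity) hs1).trans h3
    have hcv := cv_cases_pr h p
    have hb : χ p = 1 ∨ χ p = 0 ∨ χ p = -1 := by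
      rw [hcv.1]
      rcases hcv.2 with h | h | h <;> rw [h] <;> simp
    obtain ⟨k1, k2⟩ := mgb_w h h1 (m := 1 / 12) (δ := δ') hy (by norm_num)
      (mhb_den hp2 (Or.inl rfl) hy) (mhb_den hp2 hb hy) (by linarith) hδ'0 (by
        have : (32 : ℝ) / (1 / 12) = 384 := by norm_num
        rw [this]
        have : (384 : ℝ) * (1 / 46080) ≤ 1 := by norm_num
        linarith) hr hs hz
    have e0 : (480 : ℝ) / (1 / 12) = 5760 := by norm_num
    rw [e0] at k1 k2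
    have hpp : 0 ≤ pp χ p y := by linarith [(pp_facts_pr h h1 hy).1]
    have h6 : 5760 * (δ' * Real.log p / Real.sqrt p) ≤ 5760 * (δ' * L) := by linarith
    exact ⟨k1.trans (mul_le_mul_of_nonneg_right h6 (by positivity)),
      k2.trans (mul_le_mul_of_nonneg_right h6 hpp)⟩
  have hre : ∀ z : ℂ, ‖z‖ ≤ δ → -(3 / 10) ≤ z.re := fun z hz => by
    linarith [(abs_le.1 ((Complex.abs_re_le_norm z).trans hz)).1]
  have hm2 : ∀ r s z : ℂ, ‖r‖ ≤ δ → ‖s‖ ≤ δ → ‖z‖ ≤ δ →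
      (∀ p ∈ I, Measurable (w2 χ r s z p)) ∧ (∀ p ∈ I, ∫ x, w2 χ r s z p (x p) ∂P ≠ 0) := by
    intro r s z hr hs hz
    have h7 : δ ≤ 1 / 7 := hδ8.trans (by norm_num)
    refine ⟨fun p hp => (w2_facts_pr χ (hI p hp) (hr.trans h7) (hs.trans h7) (hre z hz)).1,
      fun p hp => ?_⟩
    have := (w2_facts_pr χ (hI p hp) (hr.trans h7) (hs.trans h7) (hre z hz)).2.2 I P hP hp
    exact norm_pos_iff.1 (by linarith)
  have hm1 : ∀ z : ℂ, ‖z‖ ≤ δ →
      (∀ p ∈ I, Measurable (w1 χ z p)) ∧ (∀ p ∈ I, ∫ x, w1 χ z p (x p) ∂P ≠ 0) := by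
    intro z hz
    refine ⟨fun p hp => (w1_facts_pr χ (hI p hp) (hre z hz)).1, fun p hp => ?_⟩
    have := (w1_facts_pr χ (hI p hp) (hre z hz)).2.2 I P hP hp
    exact norm_pos_iff.1 (by linarith)
  have hmp : ∀ p ∈ Pz z₀, Measurable (fun y => pp χ p y) := fun p _ => (mgb_meas χ p).1
  have hmp2 : ∀ p ∈ Pz z₀, Measurable (fun y => pp χ p y ^ 2) := fun p _ =>
    (mgb_meas χ p).1.pow_const 2
  have hb1 : ∀ p ∈ Pz z₀, ∀ y : ℝ, |y| ≤ 2 → 0 ≤ pp χ p y ∧ pp χ p y ≤ 150 := by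
    intro p hp y hy
    have := pp_facts_pr h (hprime p hp).1 hy
    exact ⟨by linarith [this.1], this.2.1⟩
  have hb2 : ∀ p ∈ Pz z₀, ∀ y : ℝ, |y| ≤ 2 → 0 ≤ pp χ p y ^ 2 ∧ pp χ p y ^ 2 ≤ 150 ^ 2 := by
    intro p hp y hy
    obtain ⟨h1, h2⟩ := hb1 p hp y hy
    exact ⟨by positivity, pow_le_pow_left₀ h1 h2 2⟩
  have hpos : ∀ p ∈ Pz z₀, (0 < ∫ x, pp χ p (x p) ∂P) ∧ (0 < ∫ x, pp χ p (x p) ^ 2 ∂P) := by
    intro p hp
    obtain ⟨-, -, h1, h2, -⟩ := mgb_pos h (hprime p hp).1 hP (hPz hp)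
    exact ⟨h1, h2⟩
  have hκ : (Pz z₀).card * (5760 * (δ * L)) ≤ 1 / 8 := by
    have h6 : δ * L = τ := by
      rw [hδ]
      field_simp
    rw [h6, hτ]
    have h7 : (z₀ : ℝ) * (5760 * (1 / (46080 * (z₀ + 1)))) ≤ 1 / 8 := by
      rw [← sub_nonneg]
      have : 1 / 8 - (z₀ : ℝ) * (5760 * (1 / (46080 * (z₀ + 1)))) = 1 / 8 / (z₀ + 1) := by
        field_simp
        ring
      rw [this]
      positivity
    refine le_trans (mul_le_mul_of_nonneg_right hcard (by positivity)) h7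
  have hz00 : ‖(0 : ℂ)‖ ≤ δ := by
    rw [norm_zero]
    exact hδ0.le
  refine ⟨?_, ?_, ?_, ?_⟩
  · intro r s z hr hs hz
    obtain ⟨m1, m2⟩ := hm2 r s z hr hs hz
    exact (mhb_gen hP m1 m2 hPz hF hFD hM hmp2 hb2 (fun p hp => (hpos p hp).2)
      (fun p hp y hy => (hloc δ hδ0.le le_rfl r s z hr hs hz p hp y hy).1) (by positivity)).1 hκ
  · intro z hz
    obtain ⟨m1, m2⟩ := hm1 z hz
    exact (mhb_gen hP m1 m2 hPz hF hFD hM hmp hb1 (fun p hp => (hpos p hp).1)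
      (fun p hp y hy => (hloc δ hδ0.le le_rfl 0 0 z hz00 hz00 hz p hp y hy).2) (by positivity)).1 hκ
  · obtain ⟨m1, m2⟩ := hm2 0 0 0 hz00 hz00 hz00
    exact (mhb_gen hP m1 m2 hPz hF hFD hM hmp2 hb2 (fun p hp => (hpos p hp).2)
      (fun p hp y hy => (hloc 0 le_rfl hδ0.le 0 0 0 norm_zero.le norm_zero.le norm_zero.le
        p hp y hy).1) (by positivity)).2 (by ring)
  · obtain ⟨m1, m2⟩ := hm1 0 hz00
    exact (mhb_gen hP m1 m2 hPz hF hFD hM hmp hb1 (fun p hp => (hpos p hp).1)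
      (fun p hp y hy => (hloc 0 le_rfl hδ0.le 0 0 0 norm_zero.le norm_zero.le norm_zero.le
        p hp y hy).2) (by positivity)).2 (by ring)

end Pool.Agent.LM
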