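import Pool.Agent.Lib_helper53.LM.Defs
import Mathlib.NumberTheory.EulerProduct.DirichletLSeries
import Pool.Agent.Lib_helper53.LMF.MC
import Pool.Agent.Lib_helper53.LMF.ME
import Pool.Agent.Lib_helper53.LMF.MF

set_option autoImplicit false

namespace Pool.Agent.LM

open Complex MeasureTheory ProbabilityTheory
open Pool.Agent.LSP (tau MX CC CB sg1 wX)
open Pool.Agent.LEV (Uu Um)
open Pool.Agent.LVB (IsST el)
open Pool.Agent.LK (Qe V PQ MW)
open Pool.Agent.LE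

theorem mj_mem {z p : ℕ} : p ∈ Pz z ↔ p.Prime ∧ p ≤ z := by
  unfold Pz
  rw [Finset.mem_filter, Finset.mem_Icc]
  exact ⟨fun h => ⟨h.2, h.1.2⟩, fun h => ⟨⟨h.1.one_le, h.2⟩, h.1⟩⟩

theorem mj_norm {p : ℕ} (hp : p.Prime) : ‖(1 : ℂ) - (p : ℂ) ^ (-(2 : ℂ))‖ = 1 - 1 / (p : ℝ) ^ 2 := by
  have h2 : (2 : ℝ) ≤ p := by exact_mod_cast hp.two_le
  have h1 : (1 : ℂ) - (p : ℂ) ^ (-(2 : ℂ)) = ((1 - 1 / (p : ℝ) ^ 2 : ℝ) : ℂ) := by
    rw [Complex.cpow_neg, show (2 : ℂ) = ((2 : ℕ) : ℂ) by norm_num, Complex.cpow_natCast]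
    push_cast
    rw [one_div]
  rw [h1, Complex.norm_real, Real.norm_eq_abs, abs_of_pos]
  rw [sub_pos, div_lt_one (by positivity)]
  nlinarith

/-- `1 ≤ ζ(2) ∏_{p ≤ z} (1 - p⁻²)` -/
theorem mj_zeta (z : ℕ) : 1 ≤ ‖riemannZeta 2‖ * ∏ p ∈ Pz z, (1 - 1 / (p : ℝ) ^ 2) := by
  have h1 := (riemannZeta_eulerProduct (s := 2) (by norm_num)).norm
  have h2 : ∀ n : ℕ, ‖∏ p ∈ n.primesBelow, (1 - (p : ℂ) ^ (-(2 : ℂ)))⁻¹‖ =
      ∏ p ∈ n.primesBelow, (1 - 1 / (p : ℝ) ^ 2)⁻¹ := by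
    intro n
    rw [norm_prod]
    refine Finset.prod_congr rfl fun p hp => ?_
    rw [norm_inv, mj_norm (Nat.prime_of_mem_primesBelow hp)]
  simp only [h2] at h1
  have hpos : ∀ p : ℕ, p.Prime → 0 < 1 - 1 / (p : ℝ) ^ 2 := by
    intro p hp
    have h2 : (2 : ℝ) ≤ p := by exact_mod_cast hp.two_le
    rw [sub_pos, div_lt_one (by positivity)]
    nlinarith
  have h3 : Monotone (fun n : ℕ => ∏ p ∈ n.primesBelow, (1 - 1 / (p : ℝ) ^ 2)⁻¹) := by
    intro m n hmn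
    have hs : m.primesBelow ⊆ n.primesBelow := by
      intro p hp
      rw [Nat.mem_primesBelow] at hp ⊢
      exact ⟨hp.1.trans_le hmn, hp.2⟩
    simp only
    rw [← Finset.prod_sdiff hs]
    have h5 : 0 ≤ ∏ p ∈ m.primesBelow, (1 - 1 / (p : ℝ) ^ 2)⁻¹ :=
      Finset.prod_nonneg fun p hp => inv_nonneg.2 (hpos p (Nat.prime_of_mem_primesBelow hp)).le
    refine le_mul_of_one_le_left h5 ?_
    refine Finset.prod_induction _ (fun x : ℝ => 1 ≤ x)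
      (fun a b ha hb => one_le_mul_of_one_le_of_one_le ha hb) le_rfl ?_
    intro p hp
    rw [Finset.mem_sdiff, Nat.mem_primesBelow] at hp
    rw [one_le_inv₀ (hpos p hp.1.2)]
    have : 0 ≤ 1 / (p : ℝ) ^ 2 := by positivity
    linarith
  have h4 := h3.ge_of_tendsto h1 (z + 1)
  have h5 : (z + 1).primesBelow = Pz z := by
    ext p
    rw [Nat.mem_primesBelow, mj_mem, Nat.lt_succ_iff, and_comm]
  rw [h5, Finset.prod_inv_distrib] at h4
  have h6 : 0 < ∏ p ∈ Pz z, (1 - 1 / (p : ℝ) ^ 2) :=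
    Finset.prod_pos fun p hp => hpos p (mj_mem.1 hp).1
  calc (1 : ℝ) = (∏ p ∈ Pz z, (1 - 1 / (p : ℝ) ^ 2))⁻¹ * ∏ p ∈ Pz z, (1 - 1 / (p : ℝ) ^ 2) :=
        (inv_mul_cancel₀ h6.ne').symm
    _ ≤ _ := mul_le_mul_of_nonneg_right h4 h6.le

variable {q : ℕ} [NeZero q]

theorem mj_cv {χ : DirichletCharacter ℂ q} (h : PQ χ) {p : ℕ} (hp : p.Prime) :
    cv χ p = 0 ↔ p ∣ q := by
  have h1 := (cv_cases_pr h p).1
  have h2 : χ p = 0 ↔ cv χ p = 0 := by
    rw [h1]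
    norm_cast
  rw [← h2]
  constructor
  · intro h3
    by_contra h4
    have h5 : IsUnit ((p : ℕ) : ZMod q) :=
      (ZMod.isUnit_iff_coprime p q).2 ((Nat.Prime.coprime_iff_not_dvd hp).2 h4)
    exact (h5.map χ).ne_zero h3
  · intro h3
    refine χ.map_nonunit fun h4 => ?_
    exact (Nat.Prime.coprime_iff_not_dvd hp).1 ((ZMod.isUnit_iff_coprime p q).1 h4) h3

/-- block MJ: the Euler products -/
theorem euler_le_pr {χ : DirichletCharacter ℂ q} (h : PQ χ) {z : ℕ} (hz : q ≤ z) :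
    (q.totient : ℝ) / q / ‖zq q 2‖ * ∏ p ∈ Pz z, ep χ p ≤
      (∏ p ∈ Pz z, (1 - 1 / (p : ℝ)) * (1 - cv χ p / p)) ^ 2 := by
  have hq0 : q ≠ 0 := NeZero.ne q
  have hsub : q.primeFactors ⊆ Pz z := by
    intro p hp
    exact mj_mem.2 ⟨Nat.prime_of_mem_primeFactors hp,
      (Nat.le_of_dvd (Nat.pos_of_ne_zero hq0) (Nat.dvd_of_mem_primeFactors hp)).trans hz⟩
  have htot : (q.totient : ℝ) / q = ∏ p ∈ q.primeFactors, (1 - 1 / (p : ℝ)) := by
    have h1 : ((q.totient : ℚ) : ℝ) = ((q * ∏ p ∈ q.primeFactors, (1 - (p : ℚ)⁻¹) : ℚ) : ℝ) := by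
      rw [Nat.totient_eq_mul_prod_factors]
    push_cast at h1
    rw [h1, mul_div_cancel_left₀ _ (by exact_mod_cast hq0)]
    simp only [one_div]
  have hpos : ∀ p : ℕ, p.Prime → 0 < 1 - 1 / (p : ℝ) ^ 2 := by
    intro p hp
    have h2 : (2 : ℝ) ≤ p := by exact_mod_cast hp.two_le
    rw [sub_pos, div_lt_one (by positivity)]
    nlinarith
  have hzq : ‖zq q 2‖ = (∏ p ∈ q.primeFactors, (1 - 1 / (p : ℝ) ^ 2)) * ‖riemannZeta 2‖ := by
    unfold zq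
    rw [norm_mul, norm_prod]
    congr 1
    exact Finset.prod_congr rfl fun p hp => mj_norm (Nat.prime_of_mem_primeFactors hp)
  have hz0 : 0 < ‖riemannZeta 2‖ := by
    rw [norm_pos_iff]
    exact riemannZeta_ne_zero_of_one_lt_re (by norm_num)
  have hzq0 : 0 < ‖zq q 2‖ := by
    rw [hzq]
    exact mul_pos (Finset.prod_pos fun p hp => hpos p (Nat.prime_of_mem_primeFactors hp)) hz0
  -- the product of the local factors over all primes
  have hkey : (∏ p ∈ q.primeFactors, (1 - 1 / (p : ℝ))) * ∏ p ∈ Pz z, ep χ p =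
      (∏ p ∈ Pz z, (1 - 1 / (p : ℝ)) * (1 - cv χ p / p)) ^ 2 *
        (∏ p ∈ Pz z \ q.primeFactors, (1 - 1 / (p : ℝ) ^ 2))⁻¹ := by
    rw [← Finset.prod_sdiff hsub, ← Finset.prod_sdiff hsub, mul_pow, ← Finset.prod_pow,
      ← Finset.prod_pow, ← Finset.prod_inv_distrib]
    have e1 : ∏ p ∈ Pz z \ q.primeFactors, ep χ p =
        (∏ p ∈ Pz z \ q.primeFactors, ((1 - 1 / (p : ℝ)) * (1 - cv χ p / p)) ^ 2) *
          ∏ p ∈ Pz z \ q.primeFactors, (1 - 1 / (p : ℝ) ^ 2)⁻¹ := by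
      rw [← Finset.prod_mul_distrib]
      refine Finset.prod_congr rfl fun p hp => ?_
      rw [Finset.mem_sdiff, Nat.mem_primeFactors] at hp
      have hpp := (mj_mem.1 hp.1).1
      have hc : cv χ p ^ 2 = 1 := by
        rcases (cv_cases_pr h p).2 with h1 | h1 | h1
        · rw [h1]; norm_num
        · exact absurd ⟨hpp, (mj_cv h hpp).1 h1, hq0⟩ hp.2
        · rw [h1]; norm_num
      unfold ep
      rw [hc]
      ring
    have e2 : (∏ p ∈ q.primeFactors, (1 - 1 / (p : ℝ))) * ∏ p ∈ q.primeFactors, ep χ p =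
        ∏ p ∈ q.primeFactors, ((1 - 1 / (p : ℝ)) * (1 - cv χ p / p)) ^ 2 := by
      rw [← Finset.prod_mul_distrib]
      refine Finset.prod_congr rfl fun p hp => ?_
      have hpp := Nat.prime_of_mem_primeFactors hp
      have hc := (mj_cv h hpp).2 (Nat.dvd_of_mem_primeFactors hp)
      unfold ep
      rw [hc]
      simp
      ring
    rw [e1, ← e2]
    ring
  have h1 := mj_zeta z
  rw [← Finset.prod_sdiff hsub] at h1
  have h2 : 0 < ∏ p ∈ Pz z \ q.primeFactors, (1 - 1 / (p : ℝ) ^ 2) :=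
    Finset.prod_pos fun p hp => hpos p (mj_mem.1 (Finset.mem_sdiff.1 hp).1).1
  rw [htot, div_mul_eq_mul_div, hkey, div_le_iff₀ hzq0, hzq]
  refine mul_le_mul_of_nonneg_left ?_ (sq_nonneg _)
  rw [inv_le_iff_one_le_mul₀ h2]
  linarith

omit [NeZero q] in
/-- the product over the primes in `(z₀, z₁]` -/
theorem mj_prod {z₀ z₁ : ℕ} (h : z₀ ≤ z₁) :
    1 - 1 / ((z₀ : ℝ) + 1) ≤ ∏ p ∈ Pz z₁ \ Pz z₀, (1 - 1 / (p : ℝ) ^ 2) := by
  have h1 : ∀ n : ℕ, z₀ ≤ n → (z₀ : ℝ) / (z₀ + 1) * ((n + 1) / n) ≤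
      ∏ p ∈ Finset.Ioc z₀ n, (1 - 1 / (p : ℝ) ^ 2) := by
    intro n hn
    induction n, hn using Nat.le_induction with
    | base =>
      rw [Finset.Ioc_self, Finset.prod_empty]
      rcases Nat.eq_zero_or_pos z₀ with h0 | h0
      · rw [h0]; simp
      · have : (0 : ℝ) < z₀ := by exact_mod_cast h0
        rw [div_mul_div_comm, mul_comm (z₀ : ℝ), div_self (by positivity)]
    | succ n hn ih =>
      have hI : Finset.Ioc z₀ (n + 1) = insert (n + 1) (Finset.Ioc z₀ n) := by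
        ext m
        simp only [Finset.mem_Ioc, Finset.mem_insert]
        omega
      rw [hI, Finset.prod_insert (by simp)]
      have hn1 : (0 : ℝ) ≤ n := Nat.cast_nonneg _
      have h2 : 0 ≤ 1 - 1 / (((n + 1 : ℕ) : ℝ)) ^ 2 := by
        rw [sub_nonneg, div_le_one (by positivity)]
        push_cast
        nlinarith
      refine le_trans ?_ (mul_le_mul_of_nonneg_left ih h2)
      rcases Nat.eq_zero_or_pos n with h0 | h0
      · subst h0
        have : z₀ = 0 := by omega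
        subst this
        simp
      · have hn2 : (0 : ℝ) < n := by exact_mod_cast h0
        refine le_of_eq ?_
        push_cast
        field_simp
        ring
  have h2 := h1 z₁ h
  have h3 : ∏ p ∈ Finset.Ioc z₀ z₁, (1 - 1 / (p : ℝ) ^ 2) ≤
      ∏ p ∈ Pz z₁ \ Pz z₀, (1 - 1 / (p : ℝ) ^ 2) := by
    have hsub : Pz z₁ \ Pz z₀ ⊆ Finset.Ioc z₀ z₁ := by
      intro p hp
      rw [Finset.mem_sdiff, mj_mem, mj_mem] at hp
      rw [Finset.mem_Ioc]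
      refine ⟨?_, hp.1.2⟩
      by_contra hc
      exact hp.2 ⟨hp.1.1, by omega⟩
    have hnn : ∀ p ∈ Finset.Ioc z₀ z₁, 0 ≤ 1 - 1 / (p : ℝ) ^ 2 := by
      intro p hp
      rw [Finset.mem_Ioc] at hp
      have : (1 : ℝ) ≤ p := by exact_mod_cast (by omega : 1 ≤ p)
      rw [sub_nonneg, div_le_one (by positivity)]
      nlinarith
    rw [← Finset.prod_sdiff hsub]
    have h4 : ∏ p ∈ Finset.Ioc z₀ z₁ \ (Pz z₁ \ Pz z₀), (1 - 1 / (p : ℝ) ^ 2) ≤ 1 := by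
      refine Finset.prod_le_one (fun p hp => hnn p (Finset.mem_sdiff.1 hp).1) fun p _ => ?_
      have : 0 ≤ 1 / (p : ℝ) ^ 2 := by positivity
      linarith
    have h5 : 0 ≤ ∏ p ∈ Pz z₁ \ Pz z₀, (1 - 1 / (p : ℝ) ^ 2) :=
      Finset.prod_nonneg fun p hp => hnn p (hsub hp)
    exact mul_le_of_le_one_left h5 h4
  refine le_trans ?_ (h2.trans h3)
  rcases Nat.eq_zero_or_pos z₀ with h0 | h0
  · rw [h0]; simp
  · have hz0 : (0 : ℝ) < z₀ := by exact_mod_cast h0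
    have hz1 : (0 : ℝ) < z₁ := by exact_mod_cast h0.trans_le h
    have e1 : 1 - 1 / ((z₀ : ℝ) + 1) = z₀ / (z₀ + 1) := by
      field_simp
      ring
    have e2 : (1 : ℝ) ≤ (z₁ + 1) / z₁ := by
      rw [one_le_div hz1]
      linarith
    rw [e1]
    exact le_mul_of_one_le_right (by positivity) e2

/-- block MJ (uses rankin_pr, ga_facts_pr) -/
theorem hs_ge_pr {ε : ℝ} (hε : 0 < ε) : ∃ (C : ℝ) (z₂ : ℕ), ∀ (q : ℕ) [NeZero q]
    (χ : DirichletCharacter ℂ q), PQ χ → ∀ z₀ z₁ K : ℕ, z₂ ≤ z₀ → z₀ < z₁ → 1 ≤ K →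
    C * Real.log z₁ ≤ Real.log K →
    0 < HS χ z₀ z₁ K ∧ 1 / HS χ z₀ z₁ K ≤ (1 + ε) * ∏ p ∈ Pz z₁ \ Pz z₀, ep χ p := by
  obtain ⟨C₀, hC₀⟩ := rankin_pr
  set a : ℝ := ε / (2 * (1 + ε)) with ha
  have ha0 : 0 < a := by positivity
  have ha1 : a < 1 / 2 := by
    rw [ha, div_lt_div_iff₀ (by positivity) (by norm_num)]
    linarith
  have ha2 : 1 ≤ (1 + ε) * ((1 - a) * (1 - a)) := by
    have h1 : (1 + ε) * (2 * a) = ε := by
      rw [ha]
      field_simp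
    nlinarith [mul_pos (by linarith : (0 : ℝ) < 1 + ε) (mul_pos ha0 ha0)]
  refine ⟨C₀ - Real.log a, max 5 ⌈1 / a⌉₊, ?_⟩
  intro q _ χ h z₀ z₁ K hz₀ hz₁ hK hCK
  have h5 : 5 ≤ z₀ := (le_max_left _ _).trans hz₀
  have hza : 1 / ((z₀ : ℝ) + 1) ≤ a := by
    have h1 : (⌈1 / a⌉₊ : ℝ) ≤ z₀ := by exact_mod_cast (le_max_right _ _).trans hz₀
    have h2 : 1 / a ≤ z₀ := (Nat.le_ceil _).trans h1
    rw [div_le_iff₀ (by positivity)]
    rw [div_le_iff₀ ha0] at h2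
    nlinarith
  have hz1 : (2 : ℝ) ≤ z₁ := by exact_mod_cast (by omega : 2 ≤ z₁)
  have hlog : 0 < Real.log z₁ := Real.log_pos (by linarith)
  have hexp : Real.exp (C₀ - Real.log K / Real.log z₁) ≤ a := by
    have h1 : C₀ - Real.log a ≤ Real.log K / Real.log z₁ := by
      rw [le_div_iff₀ hlog]
      exact hCK
    refine le_trans (Real.exp_le_exp.2 ?_) (Real.exp_log ha0).le
    linarith
  have hsub : PR χ z₀ z₁ ⊆ Pz z₁ := by
    intro p hp
    unfold PR at hp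
    rw [Finset.mem_filter, Finset.mem_Ioc] at hp
    exact mj_mem.2 ⟨hp.2.1, hp.1.2⟩
  have hsub2 : PR χ z₀ z₁ ⊆ Pz z₁ \ Pz z₀ := by
    intro p hp
    rw [Finset.mem_sdiff]
    refine ⟨hsub hp, ?_⟩
    unfold PR at hp
    rw [Finset.mem_filter, Finset.mem_Ioc] at hp
    rw [mj_mem]
    omega
  have hR := hC₀ z₁ K (by omega) hK (PR χ z₀ z₁) hsub (fun p => ga χ p ^ 2) (by
    intro p hp
    unfold PR at hp
    rw [Finset.mem_filter, Finset.mem_Ioc] at hp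
    exact ⟨sq_nonneg _, (ga_facts_pr h hp.2.1).2.2.2.1 (by omega)⟩)
  have hep0 : 0 < ∏ p ∈ Pz z₁ \ Pz z₀, ep χ p :=
    Finset.prod_pos fun p hp => (ga_facts_pr h (mj_mem.1 (Finset.mem_sdiff.1 hp).1).1).1
  -- the full product
  have hfull : (1 - a) ≤ (∏ p ∈ PR χ z₀ z₁, (1 + ga χ p ^ 2)) * ∏ p ∈ Pz z₁ \ Pz z₀, ep χ p := by
    have h1 := mj_prod hz₁.le
    have h2 : ∏ p ∈ Pz z₁ \ Pz z₀, (1 - 1 / (p : ℝ) ^ 2) ≤
        (∏ p ∈ PR χ z₀ z₁, (1 + ga χ p ^ 2)) * ∏ p ∈ Pz z₁ \ Pz z₀, ep χ p := by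
      rw [← Finset.prod_sdiff hsub2, ← Finset.prod_sdiff hsub2, mul_left_comm,
        ← Finset.prod_mul_distrib]
      have hnn : ∀ p ∈ Pz z₁ \ Pz z₀, 0 ≤ 1 - 1 / (p : ℝ) ^ 2 := by
        intro p hp
        have h2 : (2 : ℝ) ≤ p := by
          exact_mod_cast (mj_mem.1 (Finset.mem_sdiff.1 hp).1).1.two_le
        rw [sub_nonneg, div_le_one (by positivity)]
        nlinarith
      refine mul_le_mul ?_ ?_ (Finset.prod_nonneg fun p hp => hnn p (hsub2 hp)) ?_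
      · refine le_of_eq (Finset.prod_congr rfl fun p hp => ?_)
        rw [Finset.mem_sdiff, Finset.mem_sdiff] at hp
        have hpp := (mj_mem.1 hp.1.1).1
        have hc : cv χ p = -1 := by
          by_contra hc
          refine hp.2 ?_
          unfold PR
          rw [Finset.mem_filter, Finset.mem_Ioc]
          refine ⟨⟨?_, (mj_mem.1 hp.1.1).2⟩, hpp, hc⟩
          by_contra hc2
          exact hp.1.2 (mj_mem.2 ⟨hpp, by omega⟩)
        exact ((ga_facts_pr h hpp).2.2.2.2.2 hc).symm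
      · refine Finset.prod_le_prod (fun p hp => hnn p (hsub2 hp)) fun p hp => ?_
        unfold PR at hp
        rw [Finset.mem_filter] at hp
        exact (ga_facts_pr h hp.2.1).2.2.2.2.1 hp.2.2
      · exact Finset.prod_nonneg fun p hp =>
          (ga_facts_pr h (mj_mem.1 (Finset.mem_sdiff.1 (Finset.mem_sdiff.1 hp).1).1).1).1.le
    linarith
  have hHS : (1 - a) * ∏ p ∈ PR χ z₀ z₁, (1 + ga χ p ^ 2) ≤ HS χ z₀ z₁ K := by
    refine le_trans ?_ hR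
    refine mul_le_mul_of_nonneg_right (by linarith) (Finset.prod_nonneg fun p _ => by positivity)
  have hP0 : 0 < ∏ p ∈ PR χ z₀ z₁, (1 + ga χ p ^ 2) := Finset.prod_pos fun p _ => by positivity
  have h1a : 0 < 1 - a := by linarith
  have hpos : 0 < HS χ z₀ z₁ K := lt_of_lt_of_le (mul_pos h1a hP0) hHS
  refine ⟨hpos, ?_⟩
  rw [div_le_iff₀ hpos]
  calc (1 : ℝ) ≤ (1 + ε) * ((1 - a) * (1 - a)) := ha2
    _ ≤ (1 + ε) * ((1 - a) * ((∏ p ∈ PR χ z₀ z₁, (1 + ga χ p ^ 2)) *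
        ∏ p ∈ Pz z₁ \ Pz z₀, ep χ p)) := by
        refine mul_le_mul_of_nonneg_left (mul_le_mul_of_nonneg_left hfull h1a.le) (by linarith)
    _ = (1 + ε) * (∏ p ∈ Pz z₁ \ Pz z₀, ep χ p) * ((1 - a) *
        ∏ p ∈ PR χ z₀ z₁, (1 + ga χ p ^ 2)) := by ring
    _ ≤ _ := mul_le_mul_of_nonneg_left hHS (mul_nonneg (by linarith) hep0.le)

end Pool.Agent.LM
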