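import Pool.Agent.Lib_helper53.LM.Defs

/-! LSP3, part M, block MA. -/

set_option autoImplicit false

namespace Pool.Agent.LM

open Complex MeasureTheory ProbabilityTheory
open Pool.Agent.LSP (tau MX CC CB sg1 wX)
open Pool.Agent.LEV (Uu Um)
open Pool.Agent.LVB (IsST el)
open Pool.Agent.LK (Qe V PQ MW)
open Pool.Agent.LE

theorem mab_prodI {I : Finset ℕ} {P : Measure (ℕ → ℝ)} (hP : IsST I P) {u : ℕ → ℝ → ℂ}
    (hu : ∀ p ∈ I, Measurable (u p)) :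
    ∫ x, ∏ p ∈ I, u p (x p) ∂P = ∏ p ∈ I, ∫ x, u p (x p) ∂P := by
  have := hP.prob
  have h1 : ∀ x : ℕ → ℝ, ∏ p ∈ I, u p (x p) = ∏ p : I, (fun y : ℝ => u p y) (x p) := by
    intro x
    rw [Finset.prod_coe_sort I (fun p => u p (x p))]
  simp_rw [h1]
  rw [hP.ind.integral_fun_prod_comp (f := fun p : I => fun y : ℝ => u p y)
    (fun p => (measurable_pi_apply (p : ℕ)).aemeasurable)
    (fun p => (hu p p.2).aestronglyMeasurable)]
  rw [Finset.prod_coe_sort I (fun p => ∫ x, u p (x p) ∂P)]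

theorem mab_prodJ {I : Finset ℕ} {P : Measure (ℕ → ℝ)} (hP : IsST I P) {u : ℕ → ℝ → ℂ}
    {J : Finset ℕ} (hJ : J ⊆ I) (hu : ∀ p ∈ J, Measurable (u p)) :
    ∫ x, ∏ p ∈ J, u p (x p) ∂P = ∏ p ∈ J, ∫ x, u p (x p) ∂P := by
  have := hP.prob
  have h1 := mab_prodI hP (u := fun p => if p ∈ J then u p else fun _ => 1) (by
    intro p hp
    by_cases h : p ∈ J
    · simp only [h, if_true]; exact hu p h
    · simp only [h, if_false]; exact measurable_const)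
  have h2 : ∀ x : ℕ → ℝ, ∏ p ∈ I, (if p ∈ J then u p else fun _ => (1 : ℂ)) (x p) =
      ∏ p ∈ J, u p (x p) := by
    intro x
    rw [← Finset.prod_subset hJ (f := fun p => (if p ∈ J then u p else fun _ => (1 : ℂ)) (x p))]
    · refine Finset.prod_congr rfl fun p hp => ?_
      rw [if_pos hp]
    · intro p _ hp
      rw [if_neg hp]
  simp_rw [h2] at h1
  rw [h1, ← Finset.prod_subset hJ]
  · refine Finset.prod_congr rfl fun p hp => ?_
    rw [if_pos hp]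
  · intro p _ hp
    rw [if_neg hp]
    simp

/-- block MA: expectation of a product of functions of different variables -/
theorem ew_prod_pr {I : Finset ℕ} {P : Measure (ℕ → ℝ)} (hP : IsST I P) {w : ℕ → ℝ → ℂ}
    (hw : ∀ p ∈ I, Measurable (w p)) (hw0 : ∀ p ∈ I, ∫ x, w p (x p) ∂P ≠ 0) {J : Finset ℕ}
    (hJ : J ⊆ I) {f : ℕ → ℝ → ℝ} (hf : ∀ p ∈ J, Measurable (f p)) :
    EW P I w (fun x => ∏ p ∈ J, f p (x p)) =
      ∏ p ∈ J, (∫ x, (f p (x p) : ℂ) * w p (x p) ∂P) / ∫ x, w p (x p) ∂P := by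
  have h1 := mab_prodI hP (u := fun p => if p ∈ J then fun y => (f p y : ℂ) * w p y else w p) (by
    intro p hp
    by_cases h : p ∈ J
    · simp only [h, if_true]
      exact (Complex.measurable_ofReal.comp (hf p h)).mul (hw p hp)
    · simp only [h, if_false]; exact hw p hp)
  have h2 : ∀ x : ℕ → ℝ, ((∏ p ∈ J, f p (x p) : ℝ) : ℂ) * ∏ p ∈ I, w p (x p) =
      ∏ p ∈ I, (if p ∈ J then fun y => (f p y : ℂ) * w p y else w p) (x p) := by
    intro x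
    rw [← Finset.prod_sdiff hJ, ← Finset.prod_sdiff hJ (f := fun p =>
      (if p ∈ J then fun y => (f p y : ℂ) * w p y else w p) (x p))]
    have e1 : ∏ p ∈ I \ J, (if p ∈ J then fun y => (f p y : ℂ) * w p y else w p) (x p) =
        ∏ p ∈ I \ J, w p (x p) := by
      refine Finset.prod_congr rfl fun p hp => ?_
      rw [if_neg (Finset.mem_sdiff.1 hp).2]
    have e2 : ∏ p ∈ J, (if p ∈ J then fun y => (f p y : ℂ) * w p y else w p) (x p) =
        (∏ p ∈ J, (f p (x p) : ℂ)) * ∏ p ∈ J, w p (x p) := by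
      rw [← Finset.prod_mul_distrib]
      refine Finset.prod_congr rfl fun p hp => ?_
      rw [if_pos hp]
    rw [e1, e2]
    push_cast
    ring
  unfold EW
  simp_rw [h2]
  rw [h1, ← Finset.prod_sdiff hJ, ← Finset.prod_sdiff hJ (f := fun p => ∫ x, w p (x p) ∂P)]
  have e1 : ∏ p ∈ I \ J, (∫ x, (if p ∈ J then fun y => (f p y : ℂ) * w p y else w p) (x p) ∂P) =
      ∏ p ∈ I \ J, ∫ x, w p (x p) ∂P := by
    refine Finset.prod_congr rfl fun p hp => ?_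
    rw [if_neg (Finset.mem_sdiff.1 hp).2]
  have e2 : ∏ p ∈ J, (∫ x, (if p ∈ J then fun y => (f p y : ℂ) * w p y else w p) (x p) ∂P) =
      ∏ p ∈ J, ∫ x, (f p (x p) : ℂ) * w p (x p) ∂P := by
    refine Finset.prod_congr rfl fun p hp => ?_
    rw [if_pos hp]
  rw [e1, e2, Finset.prod_div_distrib]
  have h3 : ∏ p ∈ I \ J, ∫ x, w p (x p) ∂P ≠ 0 :=
    Finset.prod_ne_zero_iff.2 fun p hp => hw0 p (Finset.mem_sdiff.1 hp).1
  have h4 : ∏ p ∈ J, ∫ x, w p (x p) ∂P ≠ 0 :=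
    Finset.prod_ne_zero_iff.2 fun p hp => hw0 p (hJ hp)
  field_simp

/-- extension by zero -/
noncomputable def mab_ext {I : Finset ℕ} (S : Finset I) (y : S → ℝ) (n : ℕ) : ℝ :=
  if h : ∃ hn : n ∈ I, (⟨n, hn⟩ : I) ∈ S then y ⟨⟨n, h.1⟩, h.2⟩ else 0

theorem mab_ext_meas {I : Finset ℕ} (S : Finset I) : Measurable (mab_ext S) := by
  refine measurable_pi_lambda _ fun n => ?_
  unfold mab_ext
  by_cases h : ∃ hn : n ∈ I, (⟨n, hn⟩ : I) ∈ S
  · simp only [h, dif_pos]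
    exact measurable_pi_apply _
  · simp only [h, dif_neg, not_false_eq_true]
    exact measurable_const

theorem mab_split {I : Finset ℕ} {P : Measure (ℕ → ℝ)} (hP : IsST I P) {J : Finset ℕ}
    {G₁ G₂ : (ℕ → ℝ) → ℂ} (h₁ : Measurable G₁) (h₂ : Measurable G₂)
    (hD₁ : ∀ x y : ℕ → ℝ, (∀ p ∈ J, p ∈ I → x p = y p) → G₁ x = G₁ y)
    (hD₂ : ∀ x y : ℕ → ℝ, (∀ p ∈ I \ J, x p = y p) → G₂ x = G₂ y) :
    ∫ x, G₁ x * G₂ x ∂P = (∫ x, G₁ x ∂P) * ∫ x, G₂ x ∂P := by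
  classical
  have := hP.prob
  set S : Finset I := Finset.univ.filter (fun i => (i : ℕ) ∈ J)
  set T : Finset I := Finset.univ.filter (fun i => (i : ℕ) ∉ J)
  have hST : Disjoint S T := Finset.disjoint_filter_filter_not _ _ _
  have hi := hP.ind.indepFun_finset S T hST (fun i => measurable_pi_apply _)
  have hi2 := hi.comp (h₁.comp (mab_ext_meas S)) (h₂.comp (mab_ext_meas T))
  have e1 : (G₁ ∘ mab_ext S) ∘ (fun a (i : S) => (a : ℕ → ℝ) ((i : I) : ℕ)) = G₁ := by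
    funext x
    refine hD₁ _ _ fun p hp hpI => ?_
    have : ∃ hn : p ∈ I, (⟨p, hn⟩ : I) ∈ S := ⟨hpI, by simp [S, hp]⟩
    simp only [mab_ext, this, dif_pos]
  have e2 : (G₂ ∘ mab_ext T) ∘ (fun a (i : T) => (a : ℕ → ℝ) ((i : I) : ℕ)) = G₂ := by
    funext x
    refine hD₂ _ _ fun p hp => ?_
    have hp' := Finset.mem_sdiff.1 hp
    have : ∃ hn : p ∈ I, (⟨p, hn⟩ : I) ∈ T := ⟨hp'.1, by simp [T, hp'.2]⟩
    simp only [mab_ext, this, dif_pos]
  rw [e1, e2] at hi2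
  exact hi2.integral_fun_mul_eq_mul_integral h₁.aestronglyMeasurable h₂.aestronglyMeasurable

/-- block MA: independence -/
theorem ew_indep_pr {I : Finset ℕ} {P : Measure (ℕ → ℝ)} (hP : IsST I P) {w : ℕ → ℝ → ℂ}
    (hw : ∀ p ∈ I, Measurable (w p)) (hw0 : ∀ p ∈ I, ∫ x, w p (x p) ∂P ≠ 0)
    {J₁ J₂ : Finset ℕ} (h₁ : J₁ ⊆ I) (h₂ : J₂ ⊆ I) (hd : Disjoint J₁ J₂)
    {F₁ F₂ : (ℕ → ℝ) → ℝ} (hF₁ : Measurable F₁) (hF₂ : Measurable F₂)
    (hD₁ : ∀ x y : ℕ → ℝ, (∀ p ∈ J₁, x p = y p) → F₁ x = F₁ y)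
    (hD₂ : ∀ x y : ℕ → ℝ, (∀ p ∈ J₂, x p = y p) → F₂ x = F₂ y) :
    EW P I w (fun x => F₁ x * F₂ x) = EW P I w F₁ * EW P I w F₂ := by
  set A : (ℕ → ℝ) → ℂ := fun x => ∏ p ∈ J₁, w p (x p)
  set B : (ℕ → ℝ) → ℂ := fun x => ∏ p ∈ I \ J₁, w p (x p)
  have hA : Measurable A := Finset.measurable_fun_prod _ fun p hp =>
    (hw p (h₁ hp)).comp (measurable_pi_apply p)
  have hB : Measurable B := Finset.measurable_fun_prod _ fun p hp =>
    (hw p (Finset.mem_sdiff.1 hp).1).comp (measurable_pi_apply p)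
  have hAD : ∀ x y : ℕ → ℝ, (∀ p ∈ J₁, p ∈ I → x p = y p) → A x = A y := fun x y h =>
    Finset.prod_congr rfl fun p hp => by rw [h p hp (h₁ hp)]
  have hBD : ∀ x y : ℕ → ℝ, (∀ p ∈ I \ J₁, x p = y p) → B x = B y := fun x y h =>
    Finset.prod_congr rfl fun p hp => by rw [h p hp]
  have hF1 : Measurable (fun x => (F₁ x : ℂ)) := Complex.measurable_ofReal.comp hF₁
  have hF2 : Measurable (fun x => (F₂ x : ℂ)) := Complex.measurable_ofReal.comp hF₂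
  have hFD1 : ∀ x y : ℕ → ℝ, (∀ p ∈ J₁, p ∈ I → x p = y p) → (F₁ x : ℂ) = F₁ y := fun x y h => by
    rw [hD₁ x y fun p hp => h p hp (h₁ hp)]
  have hFD2 : ∀ x y : ℕ → ℝ, (∀ p ∈ I \ J₁, x p = y p) → (F₂ x : ℂ) = F₂ y := fun x y h => by
    rw [hD₂ x y fun p hp => h p (Finset.mem_sdiff.2 ⟨h₂ hp, fun h' =>
      (Finset.disjoint_left.1 hd) h' hp⟩)]
  have hAB : ∀ x : ℕ → ℝ, ∏ p ∈ I, w p (x p) = A x * B x := fun x => by
    simp only [A, B]
    rw [← Finset.prod_sdiff h₁, mul_comm]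
  have s1 : ∫ x, ((F₁ x * F₂ x : ℝ) : ℂ) * ∏ p ∈ I, w p (x p) ∂P =
      (∫ x, (F₁ x : ℂ) * A x ∂P) * ∫ x, (F₂ x : ℂ) * B x ∂P := by
    rw [← mab_split hP (J := J₁) (G₁ := fun x => (F₁ x : ℂ) * A x) (G₂ := fun x => (F₂ x : ℂ) * B x)
      (hF1.mul hA) (hF2.mul hB)
      (fun x y h => by rw [hFD1 x y h, hAD x y h])
      (fun x y h => by rw [hFD2 x y h, hBD x y h])]
    refine integral_congr_ae (Filter.Eventually.of_forall fun x => ?_)
    simp only [hAB x]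
    push_cast
    ring
  have s2 : ∫ x, (F₁ x : ℂ) * ∏ p ∈ I, w p (x p) ∂P =
      (∫ x, (F₁ x : ℂ) * A x ∂P) * ∫ x, B x ∂P := by
    rw [← mab_split hP (J := J₁) (G₁ := fun x => (F₁ x : ℂ) * A x) (hF1.mul hA) hB
      (fun x y h => by rw [hFD1 x y h, hAD x y h]) hBD]
    refine integral_congr_ae (Filter.Eventually.of_forall fun x => ?_)
    simp only [hAB x]
    ring
  have s3 : ∫ x, (F₂ x : ℂ) * ∏ p ∈ I, w p (x p) ∂P =
      (∫ x, A x ∂P) * ∫ x, (F₂ x : ℂ) * B x ∂P := by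
    rw [← mab_split hP (J := J₁) (G₂ := fun x => (F₂ x : ℂ) * B x) hA (hF2.mul hB) hAD
      (fun x y h => by rw [hFD2 x y h, hBD x y h])]
    refine integral_congr_ae (Filter.Eventually.of_forall fun x => ?_)
    simp only [hAB x]
    ring
  have s4 : ∏ p ∈ I, ∫ x, w p (x p) ∂P = (∫ x, A x ∂P) * ∫ x, B x ∂P := by
    simp only [A, B]
    rw [mab_prodJ hP h₁ (fun p hp => hw p (h₁ hp)), mab_prodJ hP Finset.sdiff_subset
      (fun p hp => hw p (Finset.mem_sdiff.1 hp).1), ← Finset.prod_sdiff h₁, mul_comm]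
  have h0 : (∫ x, A x ∂P) * ∫ x, B x ∂P ≠ 0 := by
    rw [← s4]
    exact Finset.prod_ne_zero_iff.2 hw0
  have hA0 := left_ne_zero_of_mul h0
  have hB0 := right_ne_zero_of_mul h0
  unfold EW
  rw [s1, s2, s3, s4]
  field_simp


end Pool.Agent.LM
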