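import Pool.Agent.Lib_helper53.LM.Defs

/-! LSP3, part M, block MB: Selberg's weights, perturbed. -/

set_option autoImplicit false

namespace Pool.Agent.LM

open Complex MeasureTheory ProbabilityTheory
open Pool.Agent.LSP (tau MX CC CB sg1 wX)
open Pool.Agent.LEV (Uu Um)
open Pool.Agent.LVB (IsST el)
open Pool.Agent.LK (Qe V PQ MW)
open Pool.Agent.LE

lemma mbb_sum_le {ι κ : Type} [DecidableEq κ] (s : Finset ι) (T : Finset κ) (φ : ι → κ)
    (hφ : Set.InjOn φ s) (hT : ∀ x ∈ s, φ x ∈ T) (F : κ → ℝ) (hF : ∀ y ∈ T, 0 ≤ F y) :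
    ∑ x ∈ s, F (φ x) ≤ ∑ y ∈ T, F y := by
  rw [← Finset.sum_image hφ]
  refine Finset.sum_le_sum_of_subset_of_nonneg ?_ fun y hy _ => hF y hy
  intro y hy
  obtain ⟨x, hx, rfl⟩ := Finset.mem_image.1 hy
  exact hT x hx

lemma mbb_sub {S : Finset ℕ} (hS : ∀ p ∈ S, 1 ≤ p) {K : ℕ} {D J : Finset ℕ} (hJ : J ∈ SQ S K)
    (hD : D ⊆ J) : D ∈ SQ S K := by
  unfold SQ at hJ ⊢
  rw [Finset.mem_filter, Finset.mem_powerset] at hJ ⊢
  refine ⟨hD.trans hJ.1, le_trans ?_ hJ.2⟩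
  exact Finset.prod_le_prod_of_subset_of_one_le' hD fun p hp _ => hS p (hJ.1 hp)

lemma mbb_exp (S : Finset ℕ) (a : ℕ → ℝ) (ha : ∀ p ∈ S, 0 ≤ a p) :
    ∑ M ∈ S.powerset, ∏ p ∈ M, a p ≤ Real.exp (∑ p ∈ S, a p) := by
  rw [← Finset.prod_one_add, Real.exp_sum]
  refine Finset.prod_le_prod (fun p hp => by linarith [ha p hp]) fun p _ => ?_
  rw [add_comm]
  exact Real.add_one_le_exp _

lemma mbb_prod_exp {S : Finset ℕ} {K : ℕ} {β : ℕ → ℝ} (hβ : ∀ p ∈ S, 0 ≤ β p) {B : ℝ}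
    (hB : ∀ J ∈ SQ S K, ∑ p ∈ J, β p ≤ B) {D : Finset ℕ} (hD : D ∈ SQ S K) :
    ∏ p ∈ D, (1 + β p) ≤ Real.exp B := by
  have hDS : D ⊆ S := Finset.mem_powerset.1 (Finset.mem_filter.1 hD).1
  refine le_trans ?_ (Real.exp_le_exp.2 (hB D hD))
  rw [Real.exp_sum]
  refine Finset.prod_le_prod (fun p hp => by linarith [hβ p (hDS hp)]) fun p _ => ?_
  rw [add_comm]
  exact Real.add_one_le_exp _

/-- block MB: the quadratic form of Selberg's weights, perturbed -/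
theorem l2_quad_pr {S : Finset ℕ} (hS : ∀ p ∈ S, 1 ≤ p) {K : ℕ} {g α β : ℕ → ℝ} {m01 m11 : ℕ → ℂ}
    (hα : ∀ p ∈ S, 0 ≤ α p) (hβ : ∀ p ∈ S, 0 ≤ β p) (h01 : ∀ p ∈ S, ‖m01 p‖ ≤ α p)
    (h11 : ∀ p ∈ S, ‖m11 p‖ ≤ 1 + β p) {B : ℝ} (hB : ∀ J ∈ SQ S K, ∑ p ∈ J, β p ≤ B) :
    ‖∑ J ∈ SQ S K, ∑ L ∈ SQ S K, ((((∏ p ∈ J, g p) * ∏ p ∈ L, g p : ℝ)) : ℂ) *
      ((∏ p ∈ J ∩ L, m11 p) * ∏ p ∈ (J \ L) ∪ (L \ J), m01 p)‖ ≤
      Real.exp (B + 2 * ∑ p ∈ S, α p * |g p|) * ∑ J ∈ SQ S K, ∏ p ∈ J, g p ^ 2 := by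
  classical
  set F : Finset ℕ × Finset ℕ × Finset ℕ → ℝ := fun y =>
    (∏ p ∈ y.1, g p ^ 2 * (1 + β p)) * ((∏ p ∈ y.2.1, α p * |g p|) * ∏ p ∈ y.2.2, α p * |g p|)
    with hF
  set φ : Finset ℕ × Finset ℕ → Finset ℕ × Finset ℕ × Finset ℕ := fun x =>
    (x.1 ∩ x.2, x.1 \ x.2, x.2 \ x.1) with hφ
  have hsub : ∀ J ∈ SQ S K, J ⊆ S := fun J hJ => Finset.mem_powerset.1 (Finset.mem_filter.1 hJ).1
  have hterm : ∀ J ∈ SQ S K, ∀ L ∈ SQ S K, ‖((((∏ p ∈ J, g p) * ∏ p ∈ L, g p : ℝ)) : ℂ) *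
      ((∏ p ∈ J ∩ L, m11 p) * ∏ p ∈ (J \ L) ∪ (L \ J), m01 p)‖ ≤ F (φ (J, L)) := by
    intro J hJ L hL
    have hJS := hsub J hJ
    have hLS := hsub L hL
    have hd : Disjoint (J \ L) (L \ J) := by
      rw [Finset.disjoint_left]
      intro p hp hp'
      exact (Finset.mem_sdiff.1 hp).2 (Finset.mem_sdiff.1 hp').1
    have e1 : |∏ p ∈ J, g p| = (∏ p ∈ J ∩ L, |g p|) * ∏ p ∈ J \ L, |g p| := by
      rw [Finset.abs_prod, Finset.prod_inter_mul_prod_sdiff]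
    have e2 : |∏ p ∈ L, g p| = (∏ p ∈ J ∩ L, |g p|) * ∏ p ∈ L \ J, |g p| := by
      rw [Finset.abs_prod, Finset.inter_comm, Finset.prod_inter_mul_prod_sdiff]
    have b1 : ‖∏ p ∈ J ∩ L, m11 p‖ ≤ ∏ p ∈ J ∩ L, (1 + β p) := by
      rw [norm_prod]
      exact Finset.prod_le_prod (fun _ _ => norm_nonneg _) fun p hp =>
        h11 p (hJS (Finset.mem_inter.1 hp).1)
    have b2 : ‖∏ p ∈ (J \ L) ∪ (L \ J), m01 p‖ ≤ (∏ p ∈ J \ L, α p) * ∏ p ∈ L \ J, α p := by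
      rw [norm_prod, Finset.prod_union hd]
      refine mul_le_mul (Finset.prod_le_prod (fun _ _ => norm_nonneg _) fun p hp =>
        h01 p (hJS (Finset.mem_sdiff.1 hp).1)) (Finset.prod_le_prod (fun _ _ => norm_nonneg _)
          fun p hp => h01 p (hLS (Finset.mem_sdiff.1 hp).1))
          (Finset.prod_nonneg fun _ _ => norm_nonneg _)
          (Finset.prod_nonneg fun p hp => hα p (hJS (Finset.mem_sdiff.1 hp).1))
    rw [norm_mul, norm_mul, Complex.norm_real, Real.norm_eq_abs, abs_mul, e1, e2]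
    have c1 : 0 ≤ ∏ p ∈ J ∩ L, (1 + β p) := Finset.prod_nonneg fun p hp => by
      linarith [hβ p (hJS (Finset.mem_inter.1 hp).1)]
    have c2 := mul_le_mul b1 b2 (norm_nonneg _) c1
    have c3 : 0 ≤ (∏ p ∈ J ∩ L, |g p|) * (∏ p ∈ J \ L, |g p|) *
        ((∏ p ∈ J ∩ L, |g p|) * ∏ p ∈ L \ J, |g p|) := by
      have h1 : ∀ s : Finset ℕ, 0 ≤ ∏ p ∈ s, |g p| := fun s =>
        Finset.prod_nonneg fun _ _ => abs_nonneg _
      exact mul_nonneg (mul_nonneg (h1 _) (h1 _)) (mul_nonneg (h1 _) (h1 _))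
    refine (mul_le_mul_of_nonneg_left c2 c3).trans (le_of_eq ?_)
    simp only [hF, hφ]
    rw [Finset.prod_mul_distrib, Finset.prod_mul_distrib, Finset.prod_mul_distrib]
    have e3 : ∏ p ∈ J ∩ L, g p ^ 2 = (∏ p ∈ J ∩ L, |g p|) * ∏ p ∈ J ∩ L, |g p| := by
      rw [← Finset.prod_mul_distrib]
      refine Finset.prod_congr rfl fun p _ => ?_
      rw [← sq, sq_abs]
    rw [e3]
    ring
  have h1 : ‖∑ J ∈ SQ S K, ∑ L ∈ SQ S K, ((((∏ p ∈ J, g p) * ∏ p ∈ L, g p : ℝ)) : ℂ) *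
      ((∏ p ∈ J ∩ L, m11 p) * ∏ p ∈ (J \ L) ∪ (L \ J), m01 p)‖ ≤
      ∑ x ∈ SQ S K ×ˢ SQ S K, F (φ x) := by
    rw [Finset.sum_product]
    refine norm_sum_le_of_le _ fun J hJ => norm_sum_le_of_le _ fun L hL => hterm J hJ L hL
  refine h1.trans ?_
  have hF0 : ∀ y ∈ SQ S K ×ˢ S.powerset ×ˢ S.powerset, 0 ≤ F y := by
    rintro ⟨D, M, M'⟩ hy
    rw [Finset.mem_product, Finset.mem_product] at hy
    obtain ⟨hD, hM, hM'⟩ := hy
    have hDS := hsub D hD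
    rw [Finset.mem_powerset] at hM hM'
    refine mul_nonneg (Finset.prod_nonneg fun p hp => ?_) (mul_nonneg
      (Finset.prod_nonneg fun p hp => mul_nonneg (hα p (hM hp)) (abs_nonneg _))
      (Finset.prod_nonneg fun p hp => mul_nonneg (hα p (hM' hp)) (abs_nonneg _)))
    have := hβ p (hDS hp)
    positivity
  have h2 := mbb_sum_le (SQ S K ×ˢ SQ S K) (SQ S K ×ˢ S.powerset ×ˢ S.powerset) φ ?_ ?_ F hF0
  · refine h2.trans ?_
    rw [Finset.sum_product]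
    have h3 : ∀ D ∈ SQ S K, ∑ y ∈ S.powerset ×ˢ S.powerset, F (D, y) ≤
        Real.exp (B + 2 * ∑ p ∈ S, α p * |g p|) * ∏ p ∈ D, g p ^ 2 := by
      intro D hD
      have hDS := hsub D hD
      have e4 : ∑ y ∈ S.powerset ×ˢ S.powerset, F (D, y) =
          (∏ p ∈ D, g p ^ 2 * (1 + β p)) * ((∑ M ∈ S.powerset, ∏ p ∈ M, α p * |g p|) *
            ∑ M ∈ S.powerset, ∏ p ∈ M, α p * |g p|) := by
        simp only [hF]
        rw [← Finset.mul_sum, Finset.sum_product, Finset.sum_mul_sum]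
      have hex := mbb_exp S (fun p => α p * |g p|) fun p hp => mul_nonneg (hα p hp) (abs_nonneg _)
      have h0 : 0 ≤ ∑ M ∈ S.powerset, ∏ p ∈ M, α p * |g p| :=
        Finset.sum_nonneg fun M hM => Finset.prod_nonneg fun p hp =>
          mul_nonneg (hα p (Finset.mem_powerset.1 hM hp)) (abs_nonneg _)
      have hbe := mbb_prod_exp hβ hB hD
      have hg0 : 0 ≤ ∏ p ∈ D, g p ^ 2 := Finset.prod_nonneg fun _ _ => sq_nonneg _
      rw [e4, Finset.prod_mul_distrib]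
      have e5 : Real.exp (B + 2 * ∑ p ∈ S, α p * |g p|) = Real.exp B *
          (Real.exp (∑ p ∈ S, α p * |g p|) * Real.exp (∑ p ∈ S, α p * |g p|)) := by
        rw [← Real.exp_add, ← Real.exp_add]
        congr 1
        ring
      rw [e5]
      have hb0 : 0 ≤ ∏ p ∈ D, (1 + β p) := Finset.prod_nonneg fun p hp => by
        linarith [hβ p (hDS hp)]
      calc (∏ p ∈ D, g p ^ 2) * (∏ p ∈ D, (1 + β p)) * ((∑ M ∈ S.powerset, ∏ p ∈ M, α p * |g p|) *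
            ∑ M ∈ S.powerset, ∏ p ∈ M, α p * |g p|)
          ≤ (∏ p ∈ D, g p ^ 2) * Real.exp B * (Real.exp (∑ p ∈ S, α p * |g p|) *
            Real.exp (∑ p ∈ S, α p * |g p|)) := by
            refine mul_le_mul (mul_le_mul_of_nonneg_left hbe hg0)
              (mul_le_mul hex hex h0 (Real.exp_pos _).le) (mul_nonneg h0 h0) (by positivity)
        _ = _ := by ring
    exact (Finset.sum_le_sum h3).trans (le_of_eq (Finset.mul_sum _ _ _).symm)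
  · rintro ⟨J, L⟩ _ ⟨J', L'⟩ _ h
    simp only [hφ, Prod.mk.injEq] at h
    obtain ⟨a1, a2, a3⟩ := h
    have b1 : J = J' := by
      rw [← Finset.sdiff_union_inter J L, ← Finset.sdiff_union_inter J' L', a1, a2]
    have b2 : L = L' := by
      rw [← Finset.sdiff_union_inter L J, ← Finset.sdiff_union_inter L' J', Finset.inter_comm L J,
        Finset.inter_comm L' J', a1, a3]
    rw [b1, b2]
  · rintro ⟨J, L⟩ hx
    rw [Finset.mem_product] at hx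
    rw [Finset.mem_product, Finset.mem_product, Finset.mem_powerset, Finset.mem_powerset]
    exact ⟨mbb_sub hS hx.1 Finset.inter_subset_left,
      Finset.sdiff_subset.trans (hsub J hx.1), Finset.sdiff_subset.trans (hsub L hx.2)⟩

/-- block MB: the linear form of Selberg's weights, perturbed -/
theorem l2_lin_pr {S : Finset ℕ} (hS : ∀ p ∈ S, 1 ≤ p) {K : ℕ} {g α : ℕ → ℝ} {m : ℕ → ℂ}
    (hα : ∀ p ∈ S, 0 ≤ α p) (hm : ∀ p ∈ S, ‖m p - g p‖ ≤ α p) :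
    ‖∑ J ∈ SQ S K, ∏ p ∈ J, ((g p : ℂ) * m p)‖ ≤
      Real.exp (∑ p ∈ S, α p * |g p|) * ∑ J ∈ SQ S K, ∏ p ∈ J, g p ^ 2 := by
  classical
  have hsub : ∀ J ∈ SQ S K, J ⊆ S := fun J hJ => Finset.mem_powerset.1 (Finset.mem_filter.1 hJ).1
  set F : Finset ℕ × Finset ℕ → ℝ := fun y =>
    (∏ p ∈ y.1, g p ^ 2) * ∏ p ∈ y.2, α p * |g p| with hF
  have hterm : ∀ J ∈ SQ S K, ‖∏ p ∈ J, ((g p : ℂ) * m p)‖ ≤ ∑ D ∈ J.powerset, F (D, J \ D) := by
    intro J hJ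
    have hJS := hsub J hJ
    rw [norm_prod]
    have h1 : ∀ p ∈ J, ‖(g p : ℂ) * m p‖ ≤ g p ^ 2 + α p * |g p| := by
      intro p hp
      rw [norm_mul, Complex.norm_real, Real.norm_eq_abs]
      have h2 : ‖m p‖ ≤ α p + |g p| := by
        have h3 := hm p (hJS hp)
        have h4 := norm_add_le (m p - g p) (g p : ℂ)
        rw [sub_add_cancel, Complex.norm_real, Real.norm_eq_abs] at h4
        linarith
      have h3 := mul_le_mul_of_nonneg_left h2 (abs_nonneg (g p))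
      have h4 : |g p| * |g p| = g p ^ 2 := by rw [← sq, sq_abs]
      nlinarith
    refine (Finset.prod_le_prod (fun _ _ => norm_nonneg _) h1).trans (le_of_eq ?_)
    rw [Finset.prod_add]
  refine (norm_sum_le_of_le _ hterm).trans ?_
  rw [Finset.sum_sigma']
  have hF0 : ∀ y ∈ SQ S K ×ˢ S.powerset, 0 ≤ F y := by
    rintro ⟨D, M⟩ hy
    rw [Finset.mem_product, Finset.mem_powerset] at hy
    exact mul_nonneg (Finset.prod_nonneg fun _ _ => sq_nonneg _)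
      (Finset.prod_nonneg fun p hp => mul_nonneg (hα p (hy.2 hp)) (abs_nonneg _))
  have h2 := mbb_sum_le ((SQ S K).sigma fun J => J.powerset) (SQ S K ×ˢ S.powerset)
    (fun x : (_ : Finset ℕ) × Finset ℕ => (x.2, x.1 \ x.2)) ?_ ?_ F hF0
  · refine h2.trans ?_
    rw [Finset.sum_product]
    simp only [hF]
    have hex := mbb_exp S (fun p => α p * |g p|) fun p hp => mul_nonneg (hα p hp) (abs_nonneg _)
    have h3 : ∀ D ∈ SQ S K, ∑ M ∈ S.powerset, (∏ p ∈ D, g p ^ 2) * ∏ p ∈ M, α p * |g p| ≤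
        Real.exp (∑ p ∈ S, α p * |g p|) * ∏ p ∈ D, g p ^ 2 := by
      intro D _
      rw [← Finset.mul_sum, mul_comm]
      exact mul_le_mul_of_nonneg_right hex (Finset.prod_nonneg fun _ _ => sq_nonneg _)
    exact (Finset.sum_le_sum h3).trans (le_of_eq (Finset.mul_sum _ _ _).symm)
  · rintro ⟨J, D⟩ hx ⟨J', D'⟩ hx' h
    have hx1 := Finset.mem_sigma.1 (Finset.mem_coe.1 hx)
    have hx2 := Finset.mem_sigma.1 (Finset.mem_coe.1 hx')
    have hDJ : D ⊆ J := Finset.mem_powerset.1 hx1.2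
    have hDJ' : D' ⊆ J' := Finset.mem_powerset.1 hx2.2
    simp only [Prod.mk.injEq] at h
    obtain ⟨a1, a2⟩ := h
    have b1 : J = J' := by
      rw [← Finset.union_sdiff_of_subset hDJ, ← Finset.union_sdiff_of_subset hDJ', a2, a1]
    subst b1
    subst a1
    rfl
  · rintro ⟨J, D⟩ hx
    have hx1 := Finset.mem_sigma.1 hx
    have hDJ : D ⊆ J := Finset.mem_powerset.1 hx1.2
    rw [Finset.mem_product, Finset.mem_powerset]
    exact ⟨mbb_sub hS hx1.1 hDJ, Finset.sdiff_subset.trans (hsub J hx1.1)⟩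

end Pool.Agent.LM
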