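import Pool.Agent.Lib_helper53.LM.Defs
import Pool.Agent.Lib_helper53.LEF.EQ
import Pool.Agent.Lib_helper53.LMF.MA
import Pool.Agent.Lib_helper53.LMF.MB
import Pool.Agent.Lib_helper53.LMF.MC
import Pool.Agent.Lib_helper53.LMF.ME
import Pool.Agent.Lib_helper53.LMF.MF
import Pool.Agent.Lib_helper53.LMF.MG

/-! LSP3, part M, block MK: the rough part (uses ew_prod_pr, l2_quad_pr, l2_lin_pr, pert_pr, ph_int_pr,
pp_facts_pr, sum_log_le_pr, ga_facts_pr, w2_facts_pr, w1_facts_pr). -/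

set_option autoImplicit false

namespace Pool.Agent.LM

open Complex MeasureTheory ProbabilityTheory
open Pool.Agent.LSP (tau MX CC CB sg1 wX)
open Pool.Agent.LEV (Uu Um)
open Pool.Agent.LVB (IsST el)
open Pool.Agent.LK (Qe V PQ MW)
open Pool.Agent.LE

/-! ### Expectations of finite sums -/

theorem mkb_wprod {I : Finset ℕ} {w : ℕ → ℝ → ℂ}
    (hw : ∀ p ∈ I, Measurable (w p)) : Measurable (fun x : ℕ → ℝ => ∏ p ∈ I, w p (x p)) :=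
  Finset.measurable_prod _ fun p hp => (hw p hp).comp (measurable_pi_apply p)

theorem mkb_int {I : Finset ℕ} {P : Measure (ℕ → ℝ)} (hP : IsST I P) {w : ℕ → ℝ → ℂ}
    (hw : ∀ p ∈ I, Measurable (w p)) {W : ℝ} (hwb : ∀ p ∈ I, ∀ y : ℝ, |y| ≤ 2 → ‖w p y‖ ≤ W)
    {F : (ℕ → ℝ) → ℝ} (hF : Measurable F) {M : ℝ}
    (hM : ∀ x : ℕ → ℝ, (∀ p ∈ I, |x p| ≤ 2) → |F x| ≤ M) :
    Integrable (fun x => (F x : ℂ) * ∏ p ∈ I, w p (x p)) P := by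
  have := hP.prob
  refine Integrable.of_bound (((Complex.measurable_ofReal.comp hF).mul
    (mkb_wprod hw)).aestronglyMeasurable) (M * ∏ _p ∈ I, W) ?_
  filter_upwards [hP.bdd] with x hx
  rw [norm_mul, Complex.norm_real, Real.norm_eq_abs, norm_prod]
  refine mul_le_mul (hM x hx) (Finset.prod_le_prod (fun p _ => norm_nonneg _)
    (fun p hp => hwb p hp _ (hx p hp))) (Finset.prod_nonneg fun p _ => norm_nonneg _)
    ((abs_nonneg _).trans (hM x hx))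

theorem mkb_lin {I : Finset ℕ} {P : Measure (ℕ → ℝ)} (hP : IsST I P) {w : ℕ → ℝ → ℂ}
    (hw : ∀ p ∈ I, Measurable (w p)) {W : ℝ} (hwb : ∀ p ∈ I, ∀ y : ℝ, |y| ≤ 2 → ‖w p y‖ ≤ W)
    {ι : Type} (T : Finset ι) (c : ι → ℝ) (F : ι → (ℕ → ℝ) → ℝ)
    (hF : ∀ t ∈ T, Measurable (F t))
    (hM : ∀ t ∈ T, ∃ M : ℝ, ∀ x : ℕ → ℝ, (∀ p ∈ I, |x p| ≤ 2) → |F t x| ≤ M) :
    EW P I w (fun x => ∑ t ∈ T, c t * F t x) = ∑ t ∈ T, (c t : ℂ) * EW P I w (F t) := by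
  unfold EW
  have h1 : ∀ x : ℕ → ℝ, ((∑ t ∈ T, c t * F t x : ℝ) : ℂ) * ∏ p ∈ I, w p (x p) =
      ∑ t ∈ T, (c t : ℂ) * ((F t x : ℂ) * ∏ p ∈ I, w p (x p)) := by
    intro x
    rw [Complex.ofReal_sum, Finset.sum_mul]
    refine Finset.sum_congr rfl fun t _ => ?_
    rw [Complex.ofReal_mul, mul_assoc]
  simp_rw [h1]
  rw [integral_finsetSum T (fun t ht => by
    obtain ⟨M, hMt⟩ := hM t ht
    exact (mkb_int hP hw hwb (hF t ht) hMt).const_mul _), Finset.sum_div]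
  refine Finset.sum_congr rfl fun t _ => ?_
  rw [integral_const_mul, mul_div_assoc]

theorem mkb_pb {I T : Finset ℕ} (hT : T ⊆ I) {f : ℕ → ℝ → ℝ}
    (hf : ∀ p ∈ T, ∃ M : ℝ, ∀ y : ℝ, |y| ≤ 2 → |f p y| ≤ M) :
    ∃ M : ℝ, ∀ x : ℕ → ℝ, (∀ p ∈ I, |x p| ≤ 2) → |∏ p ∈ T, f p (x p)| ≤ M := by
  choose! M hM using hf
  refine ⟨∏ p ∈ T, M p, fun x hx => ?_⟩
  rw [Finset.abs_prod]
  exact Finset.prod_le_prod (fun p _ => abs_nonneg _) fun p hp => hM p hp _ (hx p (hT hp))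

theorem mkb_pm {T : Finset ℕ} {f : ℕ → ℝ → ℝ} (hf : ∀ p ∈ T, Measurable (f p)) :
    Measurable (fun x : ℕ → ℝ => ∏ p ∈ T, f p (x p)) :=
  Finset.measurable_prod _ fun p hp => (hf p hp).comp (measurable_pi_apply p)

/-! ### The quadratic form and the linear form -/

section QL
variable {I : Finset ℕ} {P : Measure (ℕ → ℝ)} {w : ℕ → ℝ → ℂ} {W : ℝ} {S : Finset ℕ} {K : ℕ}
  {φ : ℕ → ℝ → ℝ} {g : ℕ → ℝ}

theorem mkb_SQ {S J : Finset ℕ} {K : ℕ} (h : J ∈ SQ S K) : J ⊆ S ∧ ∏ p ∈ J, p ≤ K := by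
  unfold SQ at h
  rw [Finset.mem_filter, Finset.mem_powerset] at h
  exact h

theorem mkb_linform (hP : IsST I P) (hw : ∀ p ∈ I, Measurable (w p))
    (hwb : ∀ p ∈ I, ∀ y : ℝ, |y| ≤ 2 → ‖w p y‖ ≤ W) (hw0 : ∀ p ∈ I, ∫ x, w p (x p) ∂P ≠ 0)
    (hS : S ⊆ I) (hφ : ∀ p ∈ S, Measurable (φ p))
    (hφb : ∀ p ∈ S, ∃ M : ℝ, ∀ y : ℝ, |y| ≤ 2 → |φ p y| ≤ M) :
    EW P I w (fun x => ∑ J ∈ SQ S K, ∏ p ∈ J, (g p * φ p (x p))) =
      ∑ J ∈ SQ S K, ∏ p ∈ J, ((g p : ℂ) *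
        ((∫ x, (φ p (x p) : ℂ) * w p (x p) ∂P) / ∫ x, w p (x p) ∂P)) := by
  have h1 : (fun x : ℕ → ℝ => ∑ J ∈ SQ S K, ∏ p ∈ J, (g p * φ p (x p))) =
      fun x => ∑ J ∈ SQ S K, (∏ p ∈ J, g p) * ∏ p ∈ J, φ p (x p) := by
    funext x
    exact Finset.sum_congr rfl fun J _ => Finset.prod_mul_distrib
  rw [h1, mkb_lin hP hw hwb (SQ S K) (fun J => ∏ p ∈ J, g p) (fun J x => ∏ p ∈ J, φ p (x p))
    (fun J hJ => mkb_pm fun p hp => hφ p ((mkb_SQ hJ).1 hp))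
    (fun J hJ => mkb_pb ((mkb_SQ hJ).1.trans hS) fun p hp => hφb p ((mkb_SQ hJ).1 hp))]
  refine Finset.sum_congr rfl fun J hJ => ?_
  rw [ew_prod_pr hP hw hw0 ((mkb_SQ hJ).1.trans hS) (f := φ)
    (fun p hp => hφ p ((mkb_SQ hJ).1 hp)), Finset.prod_mul_distrib, Complex.ofReal_prod]

theorem mkb_pt (J L : Finset ℕ) (a : ℕ → ℝ) : (∏ p ∈ J, a p) * ∏ p ∈ L, a p =
    ∏ p ∈ J ∪ L, (if p ∈ J ∩ L then a p ^ 2 else a p) := by
  have h1 : ∀ p ∈ J ∪ L, (if p ∈ J ∩ L then a p ^ 2 else a p) =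
      a p * (if p ∈ J ∩ L then a p else 1) := by
    intro p _
    split_ifs
    · ring
    · ring
  rw [Finset.prod_congr rfl h1, Finset.prod_mul_distrib, Finset.prod_ite_mem,
    Finset.inter_eq_right.mpr (Finset.inter_subset_left.trans Finset.subset_union_left),
    Finset.prod_union_inter]

theorem mkb_split (J L : Finset ℕ) (u v : ℕ → ℂ) :
    ∏ p ∈ J ∪ L, (if p ∈ J ∩ L then u p else v p) =
      (∏ p ∈ J ∩ L, u p) * ∏ p ∈ (J \ L) ∪ (L \ J), v p := by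
  have hd : Disjoint (J ∩ L) ((J \ L) ∪ (L \ J)) := by
    rw [Finset.disjoint_left]
    intro p hp hq
    simp only [Finset.mem_union, Finset.mem_sdiff, Finset.mem_inter] at hp hq
    tauto
  have hu : J ∪ L = (J ∩ L) ∪ ((J \ L) ∪ (L \ J)) := by
    ext p
    simp only [Finset.mem_union, Finset.mem_sdiff, Finset.mem_inter]
    tauto
  rw [hu, Finset.prod_union hd]
  congr 1
  · exact Finset.prod_congr rfl fun p hp => if_pos hp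
  · exact Finset.prod_congr rfl fun p hp => if_neg (Finset.disjoint_right.mp hd hp)

theorem mkb_quadform (hP : IsST I P) (hw : ∀ p ∈ I, Measurable (w p))
    (hwb : ∀ p ∈ I, ∀ y : ℝ, |y| ≤ 2 → ‖w p y‖ ≤ W) (hw0 : ∀ p ∈ I, ∫ x, w p (x p) ∂P ≠ 0)
    (hS : S ⊆ I) (hφ : ∀ p ∈ S, Measurable (φ p))
    (hφb : ∀ p ∈ S, ∃ M : ℝ, ∀ y : ℝ, |y| ≤ 2 → |φ p y| ≤ M) :
    EW P I w (fun x => (∑ J ∈ SQ S K, ∏ p ∈ J, (g p * φ p (x p))) ^ 2) =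
      ∑ J ∈ SQ S K, ∑ L ∈ SQ S K, ((((∏ p ∈ J, g p) * ∏ p ∈ L, g p : ℝ)) : ℂ) *
      ((∏ p ∈ J ∩ L, ((∫ x, ((φ p (x p) ^ 2 : ℝ) : ℂ) * w p (x p) ∂P) / ∫ x, w p (x p) ∂P)) *
        ∏ p ∈ (J \ L) ∪ (L \ J),
          ((∫ x, (φ p (x p) : ℂ) * w p (x p) ∂P) / ∫ x, w p (x p) ∂P)) := by
  classical
  have h1 : (fun x : ℕ → ℝ => (∑ J ∈ SQ S K, ∏ p ∈ J, (g p * φ p (x p))) ^ 2) =
      fun x => ∑ t ∈ SQ S K ×ˢ SQ S K, ((∏ p ∈ t.1, g p) * ∏ p ∈ t.2, g p) *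
        ∏ p ∈ t.1 ∪ t.2, (fun (p : ℕ) (y : ℝ) =>
          if p ∈ t.1 ∩ t.2 then φ p y ^ 2 else φ p y) p (x p) := by
    funext x
    rw [sq, Finset.sum_mul_sum, ← Finset.sum_product']
    refine Finset.sum_congr rfl fun t _ => ?_
    rw [Finset.prod_mul_distrib, Finset.prod_mul_distrib, mul_mul_mul_comm,
      mkb_pt t.1 t.2 (fun p => φ p (x p))]
  have hm : ∀ t ∈ SQ S K ×ˢ SQ S K, t.1 ∪ t.2 ⊆ S := by
    intro t ht
    rw [Finset.mem_product] at ht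
    exact Finset.union_subset (mkb_SQ ht.1).1 (mkb_SQ ht.2).1
  have hmeas : ∀ t ∈ SQ S K ×ˢ SQ S K, ∀ p ∈ t.1 ∪ t.2,
      Measurable (fun y : ℝ => if p ∈ t.1 ∩ t.2 then φ p y ^ 2 else φ p y) := by
    intro t ht p hp
    split_ifs
    · exact (hφ p (hm t ht hp)).pow_const 2
    · exact hφ p (hm t ht hp)
  have hbd : ∀ t ∈ SQ S K ×ˢ SQ S K, ∀ p ∈ t.1 ∪ t.2, ∃ M : ℝ, ∀ y : ℝ, |y| ≤ 2 →
      |if p ∈ t.1 ∩ t.2 then φ p y ^ 2 else φ p y| ≤ M := by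
    intro t ht p hp
    obtain ⟨M, hM⟩ := hφb p (hm t ht hp)
    split_ifs
    · refine ⟨M ^ 2, fun y hy => ?_⟩
      rw [abs_pow]
      exact pow_le_pow_left₀ (abs_nonneg _) (hM y hy) 2
    · exact ⟨M, hM⟩
  rw [h1, mkb_lin hP hw hwb (SQ S K ×ˢ SQ S K)
    (fun t => (∏ p ∈ t.1, g p) * ∏ p ∈ t.2, g p)
    (fun t x => ∏ p ∈ t.1 ∪ t.2, (fun (p : ℕ) (y : ℝ) =>
          if p ∈ t.1 ∩ t.2 then φ p y ^ 2 else φ p y) p (x p))
    (fun t ht => mkb_pm (f := fun (p : ℕ) (y : ℝ) =>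
          if p ∈ t.1 ∩ t.2 then φ p y ^ 2 else φ p y) (hmeas t ht))
    (fun t ht => mkb_pb (f := fun (p : ℕ) (y : ℝ) =>
          if p ∈ t.1 ∩ t.2 then φ p y ^ 2 else φ p y) ((hm t ht).trans hS) (hbd t ht)),
    Finset.sum_product]
  refine Finset.sum_congr rfl fun J hJ => Finset.sum_congr rfl fun L hL => ?_
  have ht : (J, L) ∈ SQ S K ×ˢ SQ S K := Finset.mem_product.mpr ⟨hJ, hL⟩
  rw [ew_prod_pr hP hw hw0 ((hm _ ht).trans hS) (f := fun (p : ℕ) (y : ℝ) =>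
          if p ∈ J ∩ L then φ p y ^ 2 else φ p y) (hmeas _ ht), ← mkb_split]
  congr 1
  refine Finset.prod_congr rfl fun p _ => ?_
  split_ifs
  · rfl
  · rfl

end QL

variable {q : ℕ} [NeZero q]

theorem mkb_phm (χ : DirichletCharacter ℂ q) (p : ℕ) : Measurable (ph χ p) := by
  unfold ph
  fun_prop

theorem mkb_phb (χ : DirichletCharacter ℂ q) (p : ℕ) :
    ∃ M : ℝ, ∀ y : ℝ, |y| ≤ 2 → |ph χ p y| ≤ M := by
  refine ⟨(2 + |ma χ p|) / Real.sqrt (va χ p), fun y hy => ?_⟩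
  unfold ph
  rw [abs_div, abs_of_nonneg (Real.sqrt_nonneg _)]
  refine div_le_div_of_nonneg_right ?_ (Real.sqrt_nonneg _)
  exact (abs_sub _ _).trans (by linarith)

theorem mkb_br (χ : DirichletCharacter ℂ q) (z₀ z₁ K : ℕ) (x : ℕ → ℝ) :
    br χ z₀ z₁ K x = 1 / HS χ z₀ z₁ K *
      ∑ J ∈ SQ (PR χ z₀ z₁) K, ∏ p ∈ J, (ga χ p * ph χ p (x p)) := rfl

theorem mkb_const {I : Finset ℕ} {P : Measure (ℕ → ℝ)} {w : ℕ → ℝ → ℂ} (c : ℝ)
    (F : (ℕ → ℝ) → ℝ) : EW P I w (fun x => c * F x) = (c : ℂ) * EW P I w F := by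
  unfold EW
  rw [← mul_div_assoc, ← integral_const_mul]
  congr 2
  funext x
  rw [Complex.ofReal_mul, mul_assoc]

theorem mkb_HS (χ : DirichletCharacter ℂ q) (z₀ z₁ : ℕ) {K : ℕ} (hK : 1 ≤ K) :
    1 ≤ HS χ z₀ z₁ K := by
  unfold HS
  have h0 : (∅ : Finset ℕ) ∈ SQ (PR χ z₀ z₁) K := by
    unfold SQ
    rw [Finset.mem_filter]
    exact ⟨Finset.empty_mem_powerset _, by simpa using hK⟩
  have h1 := Finset.single_le_sum (f := fun J : Finset ℕ => ∏ p ∈ J, ga χ p ^ 2)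
    (fun J _ => Finset.prod_nonneg fun p _ => sq_nonneg _) h0
  simpa using h1

theorem mkb_S {χ : DirichletCharacter ℂ q} {z₀ z₁ p : ℕ} (hp : p ∈ PR χ z₀ z₁) :
    z₀ < p ∧ p ≤ z₁ ∧ p.Prime ∧ cv χ p ≠ -1 ∧ p ∈ Pz z₁ := by
  unfold PR at hp
  rw [Finset.mem_filter, Finset.mem_Ioc] at hp
  refine ⟨hp.1.1, hp.1.2, hp.2.1, hp.2.2, ?_⟩
  unfold Pz
  rw [Finset.mem_filter, Finset.mem_Icc]
  exact ⟨⟨hp.2.1.one_le, hp.1.2⟩, hp.2.1⟩

/-- the quadratic form as a sum -/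
theorem mkb_quad {χ : DirichletCharacter ℂ q} {z₀ z₁ K : ℕ} {I : Finset ℕ}
    {P : Measure (ℕ → ℝ)} (hP : IsST I P) (hz : Pz z₁ ⊆ I) {w : ℕ → ℝ → ℂ} {W : ℝ}
    (hw : ∀ p ∈ I, Measurable (w p)) (hwb : ∀ p ∈ I, ∀ y : ℝ, |y| ≤ 2 → ‖w p y‖ ≤ W)
    (hw0 : ∀ p ∈ I, ∫ x, w p (x p) ∂P ≠ 0) :
    EW P I w (fun x => br χ z₀ z₁ K x ^ 2) = (((1 / HS χ z₀ z₁ K) ^ 2 : ℝ) : ℂ) *
      ∑ J ∈ SQ (PR χ z₀ z₁) K, ∑ L ∈ SQ (PR χ z₀ z₁) K,
        ((((∏ p ∈ J, ga χ p) * ∏ p ∈ L, ga χ p : ℝ)) : ℂ) *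
      ((∏ p ∈ J ∩ L, ((∫ x, ((ph χ p (x p) ^ 2 : ℝ) : ℂ) * w p (x p) ∂P) /
          ∫ x, w p (x p) ∂P)) *
        ∏ p ∈ (J \ L) ∪ (L \ J),
          ((∫ x, (ph χ p (x p) : ℂ) * w p (x p) ∂P) / ∫ x, w p (x p) ∂P)) := by
  have h1 : (fun x => br χ z₀ z₁ K x ^ 2) = fun x => (1 / HS χ z₀ z₁ K) ^ 2 *
      (∑ J ∈ SQ (PR χ z₀ z₁) K, ∏ p ∈ J, (ga χ p * ph χ p (x p))) ^ 2 := by
    funext x
    rw [mkb_br, mul_pow]
  rw [h1, mkb_const, mkb_quadform hP hw hwb hw0 (fun p hp => hz (mkb_S hp).2.2.2.2)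
    (fun p _ => mkb_phm χ p) (fun p _ => mkb_phb χ p)]

theorem mkb_line {χ : DirichletCharacter ℂ q} {z₀ z₁ K : ℕ} {I : Finset ℕ}
    {P : Measure (ℕ → ℝ)} (hP : IsST I P) (hz : Pz z₁ ⊆ I) {w : ℕ → ℝ → ℂ} {W : ℝ}
    (hw : ∀ p ∈ I, Measurable (w p)) (hwb : ∀ p ∈ I, ∀ y : ℝ, |y| ≤ 2 → ‖w p y‖ ≤ W)
    (hw0 : ∀ p ∈ I, ∫ x, w p (x p) ∂P ≠ 0) :
    EW P I w (br χ z₀ z₁ K) = ((1 / HS χ z₀ z₁ K : ℝ) : ℂ) *
      ∑ J ∈ SQ (PR χ z₀ z₁) K, ∏ p ∈ J, ((ga χ p : ℂ) *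
        ((∫ x, (ph χ p (x p) : ℂ) * w p (x p) ∂P) / ∫ x, w p (x p) ∂P)) := by
  have h1 : br χ z₀ z₁ K = fun x => (1 / HS χ z₀ z₁ K) *
      (∑ J ∈ SQ (PR χ z₀ z₁) K, ∏ p ∈ J, (ga χ p * ph χ p (x p))) := by
    funext x
    rw [mkb_br]
  rw [h1, mkb_const, mkb_linform hP hw hwb hw0 (fun p hp => hz (mkb_S hp).2.2.2.2)
    (fun p _ => mkb_phm χ p) (fun p _ => mkb_phb χ p)]

/-- the weights at `u = 0` -/
theorem mkb_w2z {χ : DirichletCharacter ℂ q} (h : PQ χ) {I : Finset ℕ} {P : Measure (ℕ → ℝ)}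
    (hP : IsST I P) {p : ℕ} (hp : p ∈ I) (hpp : p.Prime) (f : ℝ → ℝ) :
    ∫ x, (f (x p) : ℂ) * w2 χ 0 0 0 p (x p) ∂P =
      ((∫ x, f (x p) * pp χ p (x p) ^ 2 ∂P : ℝ) : ℂ) := by
  rw [← integral_complex_ofReal]
  refine integral_congr_ae ?_
  filter_upwards [hP.bdd] with x hx
  rw [← (pp_facts_pr h hpp (hx p hp)).2.2.2, Complex.ofReal_mul]

theorem mkb_w1z {χ : DirichletCharacter ℂ q} (h : PQ χ) {I : Finset ℕ} {P : Measure (ℕ → ℝ)}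
    (hP : IsST I P) {p : ℕ} (hp : p ∈ I) (hpp : p.Prime) (f : ℝ → ℝ) :
    ∫ x, (f (x p) : ℂ) * w1 χ 0 p (x p) ∂P =
      ((∫ x, f (x p) * pp χ p (x p) ∂P : ℝ) : ℂ) := by
  rw [← integral_complex_ofReal]
  refine integral_congr_ae ?_
  filter_upwards [hP.bdd] with x hx
  rw [← (pp_facts_pr h hpp (hx p hp)).2.2.1, Complex.ofReal_mul]

theorem mkb_norm_ne {z : ℂ} (h : 1 / 50 ≤ ‖z‖) : z ≠ 0 := by
  intro h0
  rw [h0, norm_zero] at h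
  norm_num at h

/-- block MK (uses ew_prod_pr, l2_quad_pr, l2_lin_pr, pert_pr, ph_int_pr, pp_facts_pr, sum_log_le_pr): the rough part -/
theorem rough_part_pr : ∃ (C : ℝ) (z₂ : ℕ), 1 ≤ C ∧ ∀ (q : ℕ) [NeZero q]
    (χ : DirichletCharacter ℂ q), PQ χ → ∀ z₀ z₁ K : ℕ, z₂ ≤ z₀ → z₀ < z₁ → 2 ≤ K →
    ∀ (I : Finset ℕ) (P : Measure (ℕ → ℝ)), (∀ p ∈ I, p.Prime) → IsST I P → Pz z₁ ⊆ I →
    EW P I (w2 χ 0 0 0) (fun x => br χ z₀ z₁ K x ^ 2) = ((1 / HS χ z₀ z₁ K : ℝ) : ℂ) ∧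
    EW P I (w1 χ 0) (br χ z₀ z₁ K) = 1 ∧
    ∀ δ : ℝ, 0 ≤ δ → δ ≤ 1 / 8 → δ * (Real.log z₁ + Real.log K) ≤ 1 →
      (∀ r s z : ℂ, ‖r‖ ≤ δ → ‖s‖ ≤ δ → ‖z‖ ≤ δ →
        ‖EW P I (w2 χ r s z) (fun x => br χ z₀ z₁ K x ^ 2)‖ ≤ C / HS χ z₀ z₁ K) ∧
      ∀ z : ℂ, ‖z‖ ≤ δ → ‖EW P I (w1 χ z) (br χ z₀ z₁ K)‖ ≤ C := by
  obtain ⟨C0, p₁, hC0, hpert⟩ := pert_pr
  obtain ⟨C2, hC2⟩ := sum_log_le_pr
  have hE0 : 0 ≤ C0 + 2 * (4 * C0 * (1 + |C2|)) := by positivity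
  refine ⟨Real.exp (C0 + 2 * (4 * C0 * (1 + |C2|))), max p₁ 5, Real.one_le_exp hE0, ?_⟩
  intro q _ χ hχ z₀ z₁ K hz₂ hz01 hK I P hI hP hz
  have hH := mkb_HS χ z₀ z₁ (show 1 ≤ K by omega)
  set H : ℝ := HS χ z₀ z₁ K with hHd
  have hH0 : 0 < H := by linarith
  have hHsum : (∑ J ∈ SQ (PR χ z₀ z₁) K, ∏ p ∈ J, ga χ p ^ 2) = H := rfl
  have hSI : ∀ p ∈ PR χ z₀ z₁, p ∈ I := fun p hp => hz (mkb_S hp).2.2.2.2
  -- the facts of the weights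
  have f2 : ∀ r s z : ℂ, ‖r‖ ≤ 1 / 8 → ‖s‖ ≤ 1 / 8 → ‖z‖ ≤ 1 / 8 →
      (∀ p ∈ I, Measurable (w2 χ r s z p)) ∧
      (∀ p ∈ I, ∀ y : ℝ, |y| ≤ 2 → ‖w2 χ r s z p y‖ ≤ 10 ^ 6) ∧
      (∀ p ∈ I, ∫ x, w2 χ r s z p (x p) ∂P ≠ 0) := by
    intro r s z hr hs hzz
    have hzr : -(3 / 10) ≤ z.re := by
      have := (abs_le.mp ((Complex.abs_re_le_norm z).trans hzz)).1
      linarith
    refine ⟨fun p hp => (w2_facts_pr χ (hI p hp) (by linarith) (by linarith) hzr).1,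
      fun p hp => (w2_facts_pr χ (hI p hp) (by linarith) (by linarith) hzr).2.1,
      fun p hp => mkb_norm_ne ((w2_facts_pr χ (hI p hp) (by linarith) (by linarith) hzr).2.2
        I P hP hp)⟩
  have f1 : ∀ z : ℂ, ‖z‖ ≤ 1 / 8 →
      (∀ p ∈ I, Measurable (w1 χ z p)) ∧
      (∀ p ∈ I, ∀ y : ℝ, |y| ≤ 2 → ‖w1 χ z p y‖ ≤ 10 ^ 6) ∧
      (∀ p ∈ I, ∫ x, w1 χ z p (x p) ∂P ≠ 0) := by
    intro z hzz
    have hzr : -(3 / 10) ≤ z.re := by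
      have := (abs_le.mp ((Complex.abs_re_le_norm z).trans hzz)).1
      linarith
    refine ⟨fun p hp => (w1_facts_pr χ (hI p hp) hzr).1,
      fun p hp => (w1_facts_pr χ (hI p hp) hzr).2.1,
      fun p hp => mkb_norm_ne ((w1_facts_pr χ (hI p hp) hzr).2.2 I P hP hp)⟩
  refine ⟨?_, ?_, ?_⟩
  · -- the quadratic form at zero
    obtain ⟨a1, a2, a3⟩ := f2 0 0 0 (by simp) (by simp) (by simp)
    rw [mkb_quad hP hz a1 a2 a3]
    have m01 : ∀ p ∈ PR χ z₀ z₁, ((∫ x, (ph χ p (x p) : ℂ) * w2 χ 0 0 0 p (x p) ∂P) /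
        ∫ x, w2 χ 0 0 0 p (x p) ∂P) = 0 := by
      intro p hp
      obtain ⟨-, -, hpp, hcv, -⟩ := mkb_S hp
      rw [mkb_w2z hχ hP (hSI p hp) hpp (ph χ p), (ph_int_pr hχ hP (hSI p hp) hpp hcv).1,
        Complex.ofReal_zero, zero_div]
    have m11 : ∀ p ∈ PR χ z₀ z₁, ((∫ x, ((ph χ p (x p) ^ 2 : ℝ) : ℂ) *
        w2 χ 0 0 0 p (x p) ∂P) / ∫ x, w2 χ 0 0 0 p (x p) ∂P) = 1 := by
      intro p hp
      obtain ⟨-, -, hpp, hcv, -⟩ := mkb_S hp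
      have e1 := mkb_w2z hχ hP (hSI p hp) hpp (fun y => ph χ p y ^ 2)
      have e2 := mkb_w2z hχ hP (hSI p hp) hpp (fun _ => 1)
      simp only [Complex.ofReal_one, one_mul] at e2
      rw [e1, (ph_int_pr hχ hP (hSI p hp) hpp hcv).2.1, ← e2]
      exact div_self (a3 p (hSI p hp))
    have hin : ∀ J ∈ SQ (PR χ z₀ z₁) K, (∑ L ∈ SQ (PR χ z₀ z₁) K,
        ((((∏ p ∈ J, ga χ p) * ∏ p ∈ L, ga χ p : ℝ)) : ℂ) *
      ((∏ p ∈ J ∩ L, ((∫ x, ((ph χ p (x p) ^ 2 : ℝ) : ℂ) * w2 χ 0 0 0 p (x p) ∂P) /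
          ∫ x, w2 χ 0 0 0 p (x p) ∂P)) *
        ∏ p ∈ (J \ L) ∪ (L \ J),
          ((∫ x, (ph χ p (x p) : ℂ) * w2 χ 0 0 0 p (x p) ∂P) /
            ∫ x, w2 χ 0 0 0 p (x p) ∂P))) = ((∏ p ∈ J, ga χ p ^ 2 : ℝ) : ℂ) := by
      intro J hJ
      rw [Finset.sum_eq_single J]
      · rw [Finset.prod_congr rfl (fun p hp => m11 p ((mkb_SQ hJ).1
          (Finset.mem_of_mem_inter_left hp)))]
        rw [Finset.prod_const_one, Finset.sdiff_self, Finset.union_empty, Finset.prod_empty,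
          mul_one, mul_one, ← Finset.prod_mul_distrib]
        congr 1
        exact Finset.prod_congr rfl fun p _ => by ring
      · intro L hL hLJ
        have hne : ((J \ L) ∪ (L \ J)).Nonempty := by
          rw [Finset.nonempty_iff_ne_empty]
          intro he
          rw [Finset.union_eq_empty, Finset.sdiff_eq_empty_iff_subset,
            Finset.sdiff_eq_empty_iff_subset] at he
          exact hLJ (Finset.Subset.antisymm he.2 he.1)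
        obtain ⟨p, hp⟩ := hne
        have hpS : p ∈ PR χ z₀ z₁ := by
          rw [Finset.mem_union, Finset.mem_sdiff, Finset.mem_sdiff] at hp
          rcases hp with hp | hp
          · exact (mkb_SQ hJ).1 hp.1
          · exact (mkb_SQ hL).1 hp.1
        rw [Finset.prod_eq_zero hp (m01 p hpS), mul_zero, mul_zero]
      · intro hJ'
        exact absurd hJ hJ'
    rw [Finset.sum_congr rfl hin, ← Complex.ofReal_sum, ← Complex.ofReal_mul, hHsum, ← hHd]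
    congr 1
    field_simp
  · -- the linear form at zero
    obtain ⟨a1, a2, a3⟩ := f1 0 (by simp)
    rw [mkb_line hP hz a1 a2 a3]
    have m01 : ∀ p ∈ PR χ z₀ z₁, ((∫ x, (ph χ p (x p) : ℂ) * w1 χ 0 p (x p) ∂P) /
        ∫ x, w1 χ 0 p (x p) ∂P) = (ga χ p : ℂ) := by
      intro p hp
      obtain ⟨-, -, hpp, hcv, -⟩ := mkb_S hp
      have e2 := mkb_w1z hχ hP (hSI p hp) hpp (fun _ => 1)
      simp only [Complex.ofReal_one, one_mul] at e2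
      have hne := a3 p (hSI p hp)
      rw [mkb_w1z hχ hP (hSI p hp) hpp (ph χ p), (ph_int_pr hχ hP (hSI p hp) hpp hcv).2.2,
        Complex.ofReal_mul, ← e2, mul_div_assoc, div_self hne, mul_one]
    have hin : ∀ J ∈ SQ (PR χ z₀ z₁) K, (∏ p ∈ J, ((ga χ p : ℂ) *
        ((∫ x, (ph χ p (x p) : ℂ) * w1 χ 0 p (x p) ∂P) / ∫ x, w1 χ 0 p (x p) ∂P))) =
        ((∏ p ∈ J, ga χ p ^ 2 : ℝ) : ℂ) := by
      intro J hJ
      rw [Complex.ofReal_prod]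
      refine Finset.prod_congr rfl fun p hp => ?_
      rw [m01 p ((mkb_SQ hJ).1 hp), Complex.ofReal_pow, sq]
    rw [Finset.sum_congr rfl hin, ← Complex.ofReal_sum, ← Complex.ofReal_mul, hHsum,
      one_div, inv_mul_cancel₀ hH0.ne', Complex.ofReal_one]
  · -- the perturbed forms
    intro δ hδ hδ8 hδ1
    have hlz : 0 ≤ Real.log z₁ := Real.log_natCast_nonneg _
    have hlK : 0 ≤ Real.log K := Real.log_natCast_nonneg _
    have hδz : δ * Real.log z₁ ≤ 1 := by nlinarith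
    have hδK : δ * Real.log K ≤ 1 := by nlinarith
    have hz2 : 2 ≤ z₁ := by
      have : 5 ≤ z₀ := (le_max_right _ _).trans hz₂
      omega
    -- the error terms
    set α : ℕ → ℝ := fun p => C0 * δ * Real.log p / Real.sqrt p with hα
    have hα0 : ∀ p ∈ PR χ z₀ z₁, 0 ≤ α p := by
      intro p _
      have := Real.log_natCast_nonneg p
      positivity
    have hS1 : ∀ p ∈ PR χ z₀ z₁, 1 ≤ p := fun p hp => (mkb_S hp).2.2.1.one_le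
    have hga : ∀ p ∈ PR χ z₀ z₁, |ga χ p| ≤ 4 / Real.sqrt p := by
      intro p hp
      obtain ⟨h1, -, hpp, -, -⟩ := mkb_S hp
      have h5 : 5 ≤ p := by
        have : 5 ≤ z₀ := (le_max_right _ _).trans hz₂
        omega
      have h2 := (ga_facts_pr hχ hpp).2.2.2.1 h5
      have hp0 : (0 : ℝ) < p := by exact_mod_cast hpp.pos
      have hsq : 0 < Real.sqrt p := Real.sqrt_pos.mpr hp0
      refine abs_le_of_sq_le_sq ?_ (by positivity)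
      rw [div_pow, Real.sq_sqrt hp0.le]
      refine h2.trans ?_
      gcongr
      norm_num
    have hsum : ∑ p ∈ PR χ z₀ z₁, α p * |ga χ p| ≤ 4 * C0 * (1 + |C2|) := by
      have h1 : ∀ p ∈ PR χ z₀ z₁, α p * |ga χ p| ≤ 4 * C0 * δ * (Real.log p / p) := by
        intro p hp
        have hpp := (mkb_S hp).2.2.1
        have hp0 : (0 : ℝ) < p := by exact_mod_cast hpp.pos
        have hsq : 0 < Real.sqrt p := Real.sqrt_pos.mpr hp0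
        calc α p * |ga χ p| ≤ α p * (4 / Real.sqrt p) :=
              mul_le_mul_of_nonneg_left (hga p hp) (hα0 p hp)
          _ = 4 * C0 * δ * (Real.log p / (Real.sqrt p * Real.sqrt p)) := by
              rw [hα]
              field_simp
          _ = 4 * C0 * δ * (Real.log p / p) := by rw [Real.mul_self_sqrt hp0.le]
      have h2 : ∑ p ∈ PR χ z₀ z₁, Real.log p / p ≤ ∑ p ∈ Pz z₁, Real.log p / (p : ℝ) := by
        refine Finset.sum_le_sum_of_subset_of_nonneg (fun p hp => (mkb_S hp).2.2.2.2) ?_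
        intro p _ _
        have := Real.log_natCast_nonneg p
        positivity
      calc ∑ p ∈ PR χ z₀ z₁, α p * |ga χ p|
          ≤ ∑ p ∈ PR χ z₀ z₁, 4 * C0 * δ * (Real.log p / p) := Finset.sum_le_sum h1
        _ = 4 * C0 * δ * ∑ p ∈ PR χ z₀ z₁, Real.log p / p := by rw [Finset.mul_sum]
        _ ≤ 4 * C0 * δ * (Real.log z₁ + C2) :=
            mul_le_mul_of_nonneg_left (h2.trans (hC2 z₁ hz2)) (by positivity)
        _ = 4 * C0 * (δ * Real.log z₁ + δ * C2) := by ring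
        _ ≤ 4 * C0 * (1 + |C2|) := by
            refine mul_le_mul_of_nonneg_left (add_le_add hδz ?_) (by positivity)
            calc δ * C2 ≤ δ * |C2| := mul_le_mul_of_nonneg_left (le_abs_self _) hδ
              _ ≤ 1 * |C2| := mul_le_mul_of_nonneg_right (by linarith) (abs_nonneg _)
              _ = |C2| := one_mul _
    have hB : ∀ J ∈ SQ (PR χ z₀ z₁) K, ∑ p ∈ J, α p ≤ C0 := by
      intro J hJ
      obtain ⟨hJS, hJK⟩ := mkb_SQ hJ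
      have hJp : ∀ p ∈ J, (1 : ℝ) ≤ p := fun p hp => by
        exact_mod_cast hS1 p (hJS hp)
      have h1 : ∀ p ∈ J, α p ≤ C0 * δ * Real.log p := by
        intro p hp
        have h2 := Real.log_natCast_nonneg p
        have h3 : 1 ≤ Real.sqrt p := Real.one_le_sqrt.mpr (hJp p hp)
        exact div_le_self (by positivity) h3
      have h4 : ∑ p ∈ J, Real.log (p : ℝ) = Real.log (∏ p ∈ J, (p : ℝ)) :=
        (Real.log_prod (fun p hp => (lt_of_lt_of_le one_pos (hJp p hp)).ne')).symm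
      have h5 : Real.log (∏ p ∈ J, (p : ℝ)) ≤ Real.log K := by
        refine Real.log_le_log (Finset.prod_pos fun p hp =>
          lt_of_lt_of_le one_pos (hJp p hp)) ?_
        rw [← Nat.cast_prod]
        exact_mod_cast hJK
      calc ∑ p ∈ J, α p ≤ ∑ p ∈ J, C0 * δ * Real.log p := Finset.sum_le_sum h1
        _ = C0 * (δ * Real.log (∏ p ∈ J, (p : ℝ))) := by
            rw [← Finset.mul_sum, h4, mul_assoc]
        _ ≤ C0 * (δ * Real.log K) := by gcongr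
        _ ≤ C0 * 1 := by gcongr
        _ = C0 := mul_one _
    have hP1 : ∀ p ∈ PR χ z₀ z₁, p₁ ≤ p ∧ δ * Real.log p ≤ 1 := by
      intro p hp
      obtain ⟨h1, h2, hpp, -, -⟩ := mkb_S hp
      refine ⟨((le_max_left _ _).trans hz₂).trans h1.le, ?_⟩
      have h3 : Real.log p ≤ Real.log z₁ :=
        Real.log_le_log (by exact_mod_cast hpp.pos) (by exact_mod_cast h2)
      exact (mul_le_mul_of_nonneg_left h3 hδ).trans hδz
    refine ⟨fun r s z hr hs hzz => ?_, fun z hzz => ?_⟩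
    · obtain ⟨a1, a2, a3⟩ := f2 r s z (hr.trans hδ8) (hs.trans hδ8) (hzz.trans hδ8)
      rw [mkb_quad hP hz a1 a2 a3, norm_mul, Complex.norm_real, Real.norm_of_nonneg (by positivity)]
      have hq := l2_quad_pr (S := PR χ z₀ z₁) hS1 (K := K) (g := ga χ) (α := α) (β := α)
        (m01 := fun p => (∫ x, (ph χ p (x p) : ℂ) * w2 χ r s z p (x p) ∂P) /
          ∫ x, w2 χ r s z p (x p) ∂P)
        (m11 := fun p => (∫ x, ((ph χ p (x p) ^ 2 : ℝ) : ℂ) * w2 χ r s z p (x p) ∂P) /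
          ∫ x, w2 χ r s z p (x p) ∂P) hα0 hα0
        (fun p hp => ((hpert q χ hχ p (mkb_S hp).2.2.1 (hP1 p hp).1 I P hP (hSI p hp) δ hδ hδ8
          (hP1 p hp).2 r s z hr hs hzz).1 (mkb_S hp).2.2.2.1).1)
        (fun p hp => by
          have h1 := ((hpert q χ hχ p (mkb_S hp).2.2.1 (hP1 p hp).1 I P hP (hSI p hp) δ hδ hδ8
            (hP1 p hp).2 r s z hr hs hzz).1 (mkb_S hp).2.2.2.1).2.1
          simpa only [Complex.ofReal_pow] using h1) hB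
      rw [hHsum] at hq
      have hexp : Real.exp (C0 + 2 * ∑ p ∈ PR χ z₀ z₁, α p * |ga χ p|) ≤
          Real.exp (C0 + 2 * (4 * C0 * (1 + |C2|))) :=
        Real.exp_le_exp.mpr (by linarith)
      calc _ ≤ (1 / H) ^ 2 * (Real.exp (C0 + 2 * ∑ p ∈ PR χ z₀ z₁, α p * |ga χ p|) * H) :=
            mul_le_mul_of_nonneg_left hq (by positivity)
        _ ≤ (1 / H) ^ 2 * (Real.exp (C0 + 2 * (4 * C0 * (1 + |C2|))) * H) := by gcongr
        _ = Real.exp (C0 + 2 * (4 * C0 * (1 + |C2|))) / H := by field_simp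
    · obtain ⟨a1, a2, a3⟩ := f1 z (hzz.trans hδ8)
      rw [mkb_line hP hz a1 a2 a3, norm_mul, Complex.norm_real, Real.norm_of_nonneg (by positivity)]
      have hq := l2_lin_pr (S := PR χ z₀ z₁) hS1 (K := K) (g := ga χ) (α := α)
        (m := fun p => (∫ x, (ph χ p (x p) : ℂ) * w1 χ z p (x p) ∂P) /
          ∫ x, w1 χ z p (x p) ∂P) hα0
        (fun p hp => ((hpert q χ hχ p (mkb_S hp).2.2.1 (hP1 p hp).1 I P hP (hSI p hp) δ hδ hδ8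
          (hP1 p hp).2 0 0 z (by simpa using hδ) (by simpa using hδ) hzz).1
          (mkb_S hp).2.2.2.1).2.2)
      rw [hHsum] at hq
      have hexp : Real.exp (∑ p ∈ PR χ z₀ z₁, α p * |ga χ p|) ≤
          Real.exp (C0 + 2 * (4 * C0 * (1 + |C2|))) := by
        refine Real.exp_le_exp.mpr ?_
        have h1 : 0 ≤ 4 * C0 * (1 + |C2|) := by positivity
        linarith
      calc _ ≤ (1 / H) * (Real.exp (∑ p ∈ PR χ z₀ z₁, α p * |ga χ p|) * H) :=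
            mul_le_mul_of_nonneg_left hq (by positivity)
        _ ≤ (1 / H) * (Real.exp (C0 + 2 * (4 * C0 * (1 + |C2|))) * H) := by gcongr
        _ = Real.exp (C0 + 2 * (4 * C0 * (1 + |C2|))) := by field_simp

end Pool.Agent.LM
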