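import Pool.Agent.Lib_helper53.LM.Defs
import Pool.Agent.Lib_helper68.LEV.MRT
import Pool.Agent.Lib_helper53.LMF.ME

/-! LSP3, block MN: coefficients of the rough part of the mollifier -/

set_option autoImplicit false

namespace Pool.Agent.LM

open Complex MeasureTheory ProbabilityTheory
open Pool.Agent.LSP (tau MX CC CB sg1 wX)
open Pool.Agent.LEV (Uu Um)
open Pool.Agent.LVB (IsST el)
open Pool.Agent.LK (Qe V PQ MW)
open Pool.Agent.LE

/-! ### Combinatorics -/

theorem mnb_mem {S : Finset ℕ} {K : ℕ} {J : Finset ℕ} :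
    J ∈ SQ S K ↔ J ⊆ S ∧ ∏ p ∈ J, p ≤ K := by
  unfold SQ
  rw [Finset.mem_filter, Finset.mem_powerset]

theorem mnb_down {S : Finset ℕ} (hS : ∀ p ∈ S, 1 ≤ p) {K : ℕ} {J D : Finset ℕ}
    (hJ : J ∈ SQ S K) (hD : D ⊆ J) : D ∈ SQ S K := by
  rw [mnb_mem] at *
  refine ⟨hD.trans hJ.1, le_trans ?_ hJ.2⟩
  exact Finset.prod_le_prod_of_subset_of_one_le' hD fun p hp _ => hS p (hJ.1 hp)

/-- the coefficient of `∏_{p ∈ D} y p` -/
noncomputable def mnb_c (S : Finset ℕ) (K : ℕ) (a b : ℕ → ℝ) (D : Finset ℕ) : ℝ :=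
  (∏ p ∈ D, a p) * ∑ J ∈ (SQ S K).filter (fun J => D ⊆ J), ∏ p ∈ J \ D, b p

theorem mnb_expand {S : Finset ℕ} (hS : ∀ p ∈ S, 1 ≤ p) (K : ℕ) (a b y : ℕ → ℝ) :
    ∑ J ∈ SQ S K, ∏ p ∈ J, (a p * y p + b p) =
      ∑ D ∈ SQ S K, mnb_c S K a b D * ∏ p ∈ D, y p := by
  have h1 : ∀ J ∈ SQ S K, ∏ p ∈ J, (a p * y p + b p) =
      ∑ D ∈ J.powerset, (∏ p ∈ D, a p) * (∏ p ∈ D, y p) * ∏ p ∈ J \ D, b p := by
    intro J _
    rw [Finset.prod_add]
    refine Finset.sum_congr rfl fun D _ => ?_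
    rw [Finset.prod_mul_distrib]
  rw [Finset.sum_congr rfl h1]
  rw [Finset.sum_comm' (t' := SQ S K) (s' := fun D => (SQ S K).filter (fun J => D ⊆ J))]
  · refine Finset.sum_congr rfl fun D _ => ?_
    unfold mnb_c
    rw [mul_right_comm, Finset.mul_sum]
  · intro J D
    rw [Finset.mem_powerset, Finset.mem_filter]
    constructor
    · rintro ⟨h2, h3⟩
      exact ⟨⟨h2, h3⟩, mnb_down hS h2 h3⟩
    · rintro ⟨h2, _⟩
      exact h2

theorem mnb_c_le {S : Finset ℕ} (K : ℕ) (a b : ℕ → ℝ) {D : Finset ℕ} :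
    |mnb_c S K a b D| ≤ (∏ p ∈ D, |a p|) * ∏ p ∈ S, (1 + |b p|) := by
  unfold mnb_c
  rw [abs_mul, Finset.abs_prod]
  refine mul_le_mul_of_nonneg_left ?_ (Finset.prod_nonneg fun p _ => abs_nonneg _)
  refine (Finset.abs_sum_le_sum_abs _ _).trans ?_
  have h1 : ∑ J ∈ (SQ S K).filter (fun J => D ⊆ J), |∏ p ∈ J \ D, b p| ≤
      ∑ T ∈ (S \ D).powerset, ∏ p ∈ T, |b p| := by
    have h2 : ∀ J ∈ (SQ S K).filter (fun J => D ⊆ J),
        |∏ p ∈ J \ D, b p| = (fun T => ∏ p ∈ T, |b p|) (J \ D) := fun J _ => Finset.abs_prod _ _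
    rw [Finset.sum_congr rfl h2]
    rw [← Finset.sum_image (f := fun T => ∏ p ∈ T, |b p|) (g := fun J => J \ D)]
    · refine Finset.sum_le_sum_of_subset_of_nonneg ?_ fun T _ _ =>
        Finset.prod_nonneg fun p _ => abs_nonneg _
      intro T hT
      rw [Finset.mem_image] at hT
      obtain ⟨J, hJ, rfl⟩ := hT
      rw [Finset.mem_filter, mnb_mem] at hJ
      rw [Finset.mem_powerset]
      exact Finset.sdiff_subset_sdiff hJ.1.1 (Finset.Subset.refl D)
    · intro J hJ J' hJ' h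
      have hJ1 := (Finset.mem_filter.1 (Finset.mem_coe.1 hJ)).2
      have hJ2 := (Finset.mem_filter.1 (Finset.mem_coe.1 hJ')).2
      have h : J \ D = J' \ D := h
      rw [← Finset.sdiff_union_of_subset hJ1, h, Finset.sdiff_union_of_subset hJ2]
  refine h1.trans ?_
  rw [← Finset.prod_one_add]
  refine Finset.prod_le_prod_of_subset_of_one_le Finset.sdiff_subset (fun p _ => by positivity) ?_
  intro p _ _
  have := abs_nonneg (b p)
  linarith

/-! ### The vector -/

theorem mnb_sqf {D : Finset ℕ} (hD : ∀ p ∈ D, p.Prime) : Squarefree (∏ p ∈ D, p) := by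
  refine Finset.squarefree_prod_of_pairwise_isCoprime (fun p hp q hq hpq => ?_)
    fun p hp => (hD p hp).squarefree
  simp only [Function.onFun, ← Nat.coprime_iff_isRelPrime]
  exact (Nat.coprime_primes (hD p hp) (hD q hq)).mpr hpq

theorem mnb_um {D : Finset ℕ} (hD : ∀ p ∈ D, p.Prime) (la : ℕ → ℝ) :
    Um (∏ p ∈ D, p) la = ∏ p ∈ D, la p := by
  have h0 : (∏ p ∈ D, p) ≠ 0 := Finset.prod_ne_zero_iff.2 fun p hp => (hD p hp).ne_zero
  have hpf : (∏ p ∈ D, p).primeFactors = D := Nat.primeFactors_prod hD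
  unfold Um
  rw [hpf]
  refine Finset.prod_congr rfl fun p hp => ?_
  have h1 : (∏ p ∈ D, p).factorization p = 1 := by
    have h2 := (mnb_sqf hD).natFactorization_le_one p
    have h3 := (hD p hp).factorization_pos_of_dvd h0 (Finset.dvd_prod_of_mem _ hp)
    omega
  rw [h1]
  rfl

open scoped Classical in
/-- the vector of the rough part -/
noncomputable def mnb_x (S : Finset ℕ) (K : ℕ) (a b : ℕ → ℝ) (e : ℕ) : ℝ :=
  if Squarefree e ∧ e.primeFactors ∈ SQ S K then
    Real.sqrt e * mnb_c S K a b e.primeFactors else 0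

theorem mnb_supp {S : Finset ℕ} {K : ℕ} {a b : ℕ → ℝ} : SuppIn K (mnb_x S K a b) := by
  intro e he
  unfold mnb_x at he
  by_cases h : Squarefree e ∧ e.primeFactors ∈ SQ S K
  · have h1 := (mnb_mem.1 h.2).2
    rw [Nat.prod_primeFactors_of_squarefree h.1] at h1
    exact ⟨Nat.one_le_iff_ne_zero.2 h.1.ne_zero, h1⟩
  · rw [if_neg h] at he
    exact absurd rfl he

theorem mnb_mx {S : Finset ℕ} (hS : ∀ p ∈ S, p.Prime) (K : ℕ) (a b la : ℕ → ℝ) :
    MX K (mnb_x S K a b) la = ∑ D ∈ SQ S K, mnb_c S K a b D * ∏ p ∈ D, la p := by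
  classical
  unfold MX
  have h1 : ∀ e ∈ Finset.Icc 1 K, mnb_x S K a b e / Real.sqrt e * Um e la =
      if Squarefree e ∧ e.primeFactors ∈ SQ S K then
        mnb_c S K a b e.primeFactors * ∏ p ∈ e.primeFactors, la p else 0 := by
    intro e he
    unfold mnb_x
    by_cases h : Squarefree e ∧ e.primeFactors ∈ SQ S K
    · rw [if_pos h, if_pos h]
      have h2 : Real.sqrt e ≠ 0 := by
        rw [Real.sqrt_ne_zero']
        exact_mod_cast (Finset.mem_Icc.1 he).1
      rw [mul_div_cancel_left₀ _ h2]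
      congr 1
      conv_lhs => rw [← Nat.prod_primeFactors_of_squarefree h.1]
      exact mnb_um (fun p hp => Nat.prime_of_mem_primeFactors hp) la
    · rw [if_neg h, if_neg h, zero_div, zero_mul]
  rw [Finset.sum_congr rfl h1, ← Finset.sum_filter]
  refine Finset.sum_nbij' (fun e => e.primeFactors) (fun D => ∏ p ∈ D, p) ?_ ?_ ?_ ?_ ?_
  · intro e he
    exact (Finset.mem_filter.1 he).2.2
  · intro D hD
    have h2 := mnb_mem.1 hD
    have h3 : ∀ p ∈ D, p.Prime := fun p hp => hS p (h2.1 hp)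
    rw [Finset.mem_filter, Finset.mem_Icc, Nat.primeFactors_prod h3]
    exact ⟨⟨Finset.prod_pos fun p hp => (h3 p hp).pos, h2.2⟩, mnb_sqf h3, hD⟩
  · intro e he
    exact Nat.prod_primeFactors_of_squarefree (Finset.mem_filter.1 he).2.1
  · intro D hD
    exact Nat.primeFactors_prod fun p hp => hS p ((mnb_mem.1 hD).1 hp)
  · intro e _
    rfl

theorem mnb_isv {S : Finset ℕ} (hS : ∀ p ∈ S, p.Prime) (K : ℕ) (a b : ℕ → ℝ) (c : ℝ) :
    IsV K (fun e => c * mnb_x S K a b e)
      (fun y => c * ∑ J ∈ SQ S K, ∏ p ∈ J, (a p * y p + b p)) := by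
  constructor
  · intro e he
    exact mnb_supp e (fun h => he (by show c * mnb_x S K a b e = 0; rw [h, mul_zero]))
  · intro la
    show MX K (fun e => c * mnb_x S K a b e) la =
      c * ∑ J ∈ SQ S K, ∏ p ∈ J, (a p * la p + b p)
    rw [mnb_expand (fun p hp => (hS p hp).one_lt.le), ← mnb_mx hS]
    unfold MX
    rw [Finset.mul_sum]
    refine Finset.sum_congr rfl fun e _ => ?_
    ring

theorem mnb_tau {e : ℕ} (he : Squarefree e) : tau e = 2 ^ e.primeFactors.card := by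
  unfold tau
  rw [Nat.card_divisors he.ne_zero]
  have h1 : ∀ p ∈ e.primeFactors, e.factorization p + 1 = 2 := by
    intro p hp
    have h2 := he.natFactorization_le_one p
    have h3 := (Nat.prime_of_mem_primeFactors hp).factorization_pos_of_dvd he.ne_zero
      (Nat.dvd_of_mem_primeFactors hp)
    omega
  rw [Finset.prod_congr rfl h1, Finset.prod_const]
  push_cast
  rfl

theorem mnb_sqrt (D : Finset ℕ) : Real.sqrt (∏ p ∈ D, (p : ℝ)) = ∏ p ∈ D, Real.sqrt p := by
  classical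
  induction D using Finset.induction_on with
  | empty => simp
  | insert p D hp ih =>
    rw [Finset.prod_insert hp, Finset.prod_insert hp, Real.sqrt_mul (Nat.cast_nonneg p), ih]

/-- the size of the coefficients -/
theorem mnb_size {S : Finset ℕ} (K : ℕ) {a b : ℕ → ℝ}
    (ha : ∀ p ∈ S, |a p| ≤ 4 / Real.sqrt p) (hb : ∀ p ∈ S, |b p| ≤ 20 / p) (e : ℕ) :
    |mnb_x S K a b e| ≤ tau e ^ 2 * ∏ p ∈ S, (1 + 20 / (p : ℝ)) := by
  unfold mnb_x
  by_cases h : Squarefree e ∧ e.primeFactors ∈ SQ S K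
  · rw [if_pos h, abs_mul, abs_of_nonneg (Real.sqrt_nonneg _)]
    have hsub := (mnb_mem.1 h.2).1
    have h1 := mnb_c_le (S := S) K a b (D := e.primeFactors)
    have h2 : ∏ p ∈ S, (1 + |b p|) ≤ ∏ p ∈ S, (1 + 20 / (p : ℝ)) :=
      Finset.prod_le_prod (fun p _ => by positivity) fun p hp => by
        have := hb p hp
        linarith
    have h3 : Real.sqrt e * ∏ p ∈ e.primeFactors, |a p| ≤ tau e ^ 2 := by
      have h4 : Real.sqrt e = ∏ p ∈ e.primeFactors, Real.sqrt p := by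
        conv_lhs => rw [← Nat.prod_primeFactors_of_squarefree h.1]
        push_cast
        exact mnb_sqrt _
      rw [h4, ← Finset.prod_mul_distrib, mnb_tau h.1, ← pow_mul, mul_comm _ 2, pow_mul,
        ← Finset.prod_const]
      refine Finset.prod_le_prod (fun p _ => by positivity) fun p hp => ?_
      have h5 := ha p (hsub hp)
      have h6 : 0 < Real.sqrt p := by
        rw [Real.sqrt_pos]
        exact_mod_cast (Nat.prime_of_mem_primeFactors hp).pos
      rw [le_div_iff₀ h6] at h5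
      linarith
    calc Real.sqrt e * |mnb_c S K a b e.primeFactors|
        ≤ Real.sqrt e * ((∏ p ∈ e.primeFactors, |a p|) * ∏ p ∈ S, (1 + |b p|)) :=
          mul_le_mul_of_nonneg_left h1 (Real.sqrt_nonneg _)
      _ = (Real.sqrt e * ∏ p ∈ e.primeFactors, |a p|) * ∏ p ∈ S, (1 + |b p|) := by ring
      _ ≤ tau e ^ 2 * ∏ p ∈ S, (1 + 20 / (p : ℝ)) :=
          mul_le_mul h3 h2 (Finset.prod_nonneg fun p _ => by positivity) (by positivity)
  · rw [if_neg h, abs_zero]
    have : 0 ≤ ∏ p ∈ S, (1 + 20 / (p : ℝ)) := Finset.prod_nonneg fun p _ => by positivity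
    positivity

/-- Mertens -/
theorem mnb_mertens : ∃ C : ℝ, 0 < C ∧ ∀ z : ℕ, 2 ≤ z → ∀ S : Finset ℕ,
    (∀ p ∈ S, p.Prime ∧ p ≤ z) → ∏ p ∈ S, (1 + 20 / (p : ℝ)) ≤ C * Real.log z ^ 20 := by
  obtain ⟨C, hC⟩ := Pool.Agent.LEV.mertens_two
  refine ⟨Real.exp (20 * C), Real.exp_pos _, fun z hz S hS => ?_⟩
  have hz' : (2 : ℝ) ≤ z := by exact_mod_cast hz
  have h1 := (abs_le.1 (hC z hz')).2
  rw [Nat.floor_natCast] at h1
  have h2 : ∑ p ∈ S, 1 / (p : ℝ) ≤ ∑ p ∈ (Finset.Icc 1 z).filter Nat.Prime, 1 / (p : ℝ) := by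
    refine Finset.sum_le_sum_of_subset_of_nonneg (fun p hp => ?_) fun p _ _ => by positivity
    rw [Finset.mem_filter, Finset.mem_Icc]
    exact ⟨⟨(hS p hp).1.one_lt.le, (hS p hp).2⟩, (hS p hp).1⟩
  have hlog : 0 < Real.log z := Real.log_pos (by linarith)
  calc ∏ p ∈ S, (1 + 20 / (p : ℝ)) ≤ ∏ p ∈ S, Real.exp (20 / (p : ℝ)) :=
        Finset.prod_le_prod (fun p _ => by positivity) fun p _ => by
          rw [add_comm]
          exact Real.add_one_le_exp _
    _ = Real.exp (20 * ∑ p ∈ S, 1 / (p : ℝ)) := by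
        rw [← Real.exp_sum, Finset.mul_sum]
        congr 1
        refine Finset.sum_congr rfl fun p _ => ?_
        ring
    _ ≤ Real.exp (20 * C + 20 * Real.log (Real.log z)) := by
        apply Real.exp_le_exp.2
        linarith
    _ = Real.exp (20 * C) * Real.log z ^ 20 := by
        rw [Real.exp_add, show 20 * Real.log (Real.log z) = ((20 : ℕ) : ℝ) * Real.log (Real.log z)
          by norm_num, Real.exp_nat_mul, Real.exp_log hlog]

variable {q : ℕ} [NeZero q]

/-- the local estimates -/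
theorem mnb_local {χ : DirichletCharacter ℂ q} (h : PQ χ) {p : ℕ} (hp : 10 ≤ p)
    (hc : cv χ p ≠ -1) : 0 < va χ p ∧ |ga χ p / Real.sqrt (va χ p)| ≤ 4 / Real.sqrt p ∧
      |-(ga χ p * ma χ p / Real.sqrt (va χ p))| ≤ 20 / p := by
  have hp' : (10 : ℝ) ≤ p := by exact_mod_cast hp
  have hp0 : (0 : ℝ) < p := by linarith
  set t : ℝ := Real.sqrt p with ht
  have ht0 : 0 < t := Real.sqrt_pos.2 hp0
  have ht2 : t * t = p := Real.mul_self_sqrt hp0.le
  have hi : 1 / (p : ℝ) ≤ 1 / 10 := one_div_le_one_div_of_le (by norm_num) hp'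
  have hi0 : 0 < 1 / (p : ℝ) := by positivity
  have hu : 1 / (p : ℝ) = 1 / t * (1 / t) := by
    rw [← ht2]
    field_simp
  set u : ℝ := 1 / (p : ℝ) with hud
  have hu1 : 0 < 1 - u := by linarith
  have hcube : 1 - 3 * u ≤ (1 - u) ^ 3 := by nlinarith [mul_pos hi0 hi0]
  have h1t : 0 < 1 / t := by positivity
  rcases (cv_cases_pr h p).2 with h1 | h1 | h1
  · have hva : va χ p = ((1 - u) ^ 2 / (1 + u)) ^ 2 := by
      unfold va
      rw [if_pos h1, ← hud, div_pow, ← pow_mul]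
    have hsq : Real.sqrt (va χ p) = (1 - u) ^ 2 / (1 + u) := by
      rw [hva, Real.sqrt_sq (by positivity)]
    have hga : ga χ p = -(2 / t) / (1 - u) := by
      unfold ga
      rw [if_pos h1]
    have hma : ma χ p = 4 / t / (1 + u) := by
      unfold ma
      rw [if_pos h1]
    have hva0 : 0 < va χ p := by
      rw [hva]
      positivity
    refine ⟨hva0, ?_, ?_⟩
    · have h2 : ga χ p / Real.sqrt (va χ p) = -(1 / t * (2 * ((1 + u) / (1 - u) ^ 3))) := by
        rw [hsq, hga]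
        field_simp
      rw [h2, abs_neg, abs_of_nonneg (by positivity), show 4 / t = 1 / t * 4 by ring]
      refine mul_le_mul_of_nonneg_left ?_ h1t.le
      have h3 : (1 + u) / (1 - u) ^ 3 ≤ 2 := by
        rw [div_le_iff₀ (by positivity)]
        linarith
      linarith
    · have h2 : ga χ p * ma χ p / Real.sqrt (va χ p) = -(1 / t * (1 / t) * (8 / (1 - u) ^ 3)) := by
        rw [hsq, hga, hma]
        field_simp
        ring
      rw [h2, neg_neg, ← hu, abs_of_nonneg (by positivity), show (20 : ℝ) / p = u * 20 by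
        rw [hud]; ring]
      refine mul_le_mul_of_nonneg_left ?_ hi0.le
      rw [div_le_iff₀ (by positivity)]
      linarith
  · have h0 : cv χ p ≠ 1 := by rw [h1]; norm_num
    have hva : va χ p = 1 - u := by
      unfold va
      rw [if_neg h0]
    have hga : ga χ p = -(1 / t) / Real.sqrt (1 - u) := by
      unfold ga
      rw [if_neg h0, if_pos h1]
    have hma : ma χ p = 2 / t := by
      unfold ma
      rw [if_neg h0, if_pos h1]
    have hs0 : 0 < Real.sqrt (1 - u) := Real.sqrt_pos.2 hu1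
    have hs2 : Real.sqrt (1 - u) * Real.sqrt (1 - u) = 1 - u := Real.mul_self_sqrt hu1.le
    have h2 : ga χ p / Real.sqrt (va χ p) = -(1 / t * (1 / (1 - u))) := by
      rw [hva, hga, div_div, hs2]
      ring
    have h4 : 1 / (1 - u) ≤ 2 := by
      rw [div_le_iff₀ hu1]
      linarith
    refine ⟨by rw [hva]; exact hu1, ?_, ?_⟩
    · rw [h2, abs_neg, abs_of_nonneg (by positivity), show 4 / t = 1 / t * 4 by ring]
      refine mul_le_mul_of_nonneg_left ?_ h1t.le
      linarith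
    · have h3 : ga χ p * ma χ p / Real.sqrt (va χ p) = -(1 / t * (1 / t) * (2 * (1 / (1 - u)))) := by
        rw [mul_div_right_comm, h2, hma]
        ring
      rw [h3, neg_neg, ← hu, abs_of_nonneg (by positivity), show (20 : ℝ) / p = u * 20 by
        rw [hud]; ring]
      refine mul_le_mul_of_nonneg_left ?_ hi0.le
      linarith
  · exact absurd h1 hc

theorem br_coef_pr : ∃ (A : ℕ) (C : ℝ) (z₂ : ℕ), ∀ (q : ℕ) [NeZero q] (χ : DirichletCharacter ℂ q),
    PQ χ → ∀ z₀ z₁ K : ℕ, z₂ ≤ z₀ → z₀ < z₁ → 1 ≤ K → ∃ x, IsV K x (br χ z₀ z₁ K) ∧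
      ∀ e, |x e| ≤ C * Real.log z₁ ^ A * tau e ^ A := by
  obtain ⟨C, hC0, hC⟩ := mnb_mertens
  refine ⟨20, C, 10, fun q _ χ hχ z₀ z₁ K hz₀ hz₁ hK => ?_⟩
  set S := PR χ z₀ z₁ with hSd
  have hmem : ∀ p ∈ S, z₀ < p ∧ p ≤ z₁ ∧ p.Prime ∧ cv χ p ≠ -1 := by
    intro p hp
    rw [hSd, PR, Finset.mem_filter, Finset.mem_Ioc] at hp
    exact ⟨hp.1.1, hp.1.2, hp.2⟩
  have hS : ∀ p ∈ S, p.Prime := fun p hp => (hmem p hp).2.2.1
  set a : ℕ → ℝ := fun p => ga χ p / Real.sqrt (va χ p) with ha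
  set b : ℕ → ℝ := fun p => -(ga χ p * ma χ p / Real.sqrt (va χ p)) with hb
  have hH : 1 ≤ HS χ z₀ z₁ K := by
    unfold HS
    have h1 : (∅ : Finset ℕ) ∈ SQ (PR χ z₀ z₁) K := by
      rw [mnb_mem]
      exact ⟨Finset.empty_subset _, by simpa using hK⟩
    have h2 := Finset.single_le_sum (f := fun J => ∏ p ∈ J, ga χ p ^ 2)
      (fun J _ => Finset.prod_nonneg fun p _ => sq_nonneg _) h1
    simpa using h2
  refine ⟨fun e => 1 / HS χ z₀ z₁ K * mnb_x S K a b e, ?_, fun e => ?_⟩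
  · have h1 := mnb_isv hS K a b (1 / HS χ z₀ z₁ K)
    have h2 : br χ z₀ z₁ K = fun y => 1 / HS χ z₀ z₁ K *
        ∑ J ∈ SQ S K, ∏ p ∈ J, (a p * y p + b p) := by
      funext y
      unfold br
      congr 1
      refine Finset.sum_congr rfl fun J hJ => Finset.prod_congr rfl fun p hp => ?_
      unfold ph
      rw [ha, hb]
      ring
    rw [h2]
    exact h1
  · have hz : 2 ≤ z₁ := by omega
    have h1 := mnb_size (S := S) K (a := a) (b := b)
      (fun p hp => (mnb_local hχ (by have := hmem p hp; omega) (hmem p hp).2.2.2).2.1)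
      (fun p hp => (mnb_local hχ (by have := hmem p hp; omega) (hmem p hp).2.2.2).2.2) e
    have h2 := hC z₁ hz S fun p hp => ⟨hS p hp, (hmem p hp).2.1⟩
    have hlog : 0 ≤ Real.log z₁ := Real.log_natCast_nonneg _
    rw [abs_mul, abs_of_nonneg (by positivity)]
    by_cases hx : mnb_x S K a b e = 0
    · rw [hx, abs_zero, mul_zero]
      have : 0 ≤ tau e := by
        unfold tau
        positivity
      positivity
    · have he : 1 ≤ tau e := by
        unfold tau
        have := (mnb_supp e hx).1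
        have h3 : 0 < e.divisors.card := Finset.card_pos.2 ⟨1, Nat.one_mem_divisors.2 (by omega)⟩
        exact_mod_cast h3
      have h3 : 1 / HS χ z₀ z₁ K ≤ 1 := by
        rw [div_le_one (by linarith)]
        exact hH
      calc 1 / HS χ z₀ z₁ K * |mnb_x S K a b e| ≤ 1 * |mnb_x S K a b e| :=
            mul_le_mul_of_nonneg_right h3 (abs_nonneg _)
        _ ≤ tau e ^ 2 * (C * Real.log z₁ ^ 20) := by
            rw [one_mul]
            exact h1.trans (mul_le_mul_of_nonneg_left h2 (by positivity))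
        _ ≤ tau e ^ 20 * (C * Real.log z₁ ^ 20) :=
            mul_le_mul_of_nonneg_right (pow_le_pow_right₀ he (by norm_num)) (by positivity)
        _ = C * Real.log z₁ ^ 20 * tau e ^ 20 := by ring


end Pool.Agent.LM
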