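import Pool.Agent.Lib_helper53.LMF.MMd
import Pool.Agent.Lib_helper53.LMF.ME
import Pool.Agent.Lib_helper53.LMF.MF
import Pool.Agent.Lib_helper53.LMF.MG
import Pool.Agent.Lib_helper53.LMF.MH
import Pool.Agent.Lib_helper53.LMF.MJ
import Pool.Agent.Lib_helper53.LMF.MK
import Pool.Agent.Lib_helper53.LMF.MN

/-! LSP3, block MM: the mollifier. -/

set_option autoImplicit false

namespace Pool.Agent.LM

open Complex MeasureTheory ProbabilityTheory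
open Pool.Agent.LSP (tau MX CC CB sg1 wX)
open Pool.Agent.LEV (Uu Um)
open Pool.Agent.LVB (IsST el)
open Pool.Agent.LK (Qe V PQ MW)
open Pool.Agent.LE

theorem mm_num {σ U₁ U₂ E₀ E₁ H G W g₀ T₁ T₂ ε ε₁ : ℝ} (hU₁ : 0 < U₁)
    (hU₂ : 0 < U₂) (hU : U₁ ^ 2 = U₂ * E₀) (hH : 0 < H) (hHE : 1 / H ≤ (1 + ε₁) * E₁)
    (hE₁ : 0 ≤ E₁) (hG : 0 ≤ G) (hGW : G * (E₀ * E₁) ≤ W ^ 2) (hg : 0 ≤ g₀) (hW : 0 ≤ W)
    (hgW : g₀ * W ≤ 1 + ε) (hT₁ : |T₁ - 1| ≤ ε₁) (hT₂ : |T₂ - 1| ≤ ε₁) (hε : 0 < ε)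
    (h8 : 8 * ε₁ ≤ ε) (h18 : ε₁ ≤ 1 / 8) :
    g₀ ^ 2 * G * (T₂ * (σ / U₂ * (1 / H))) * σ ≤ (1 + ε) ^ 10 * (T₁ * (σ / U₁)) ^ 2 := by
  have hε₁ : 0 ≤ ε₁ := (abs_nonneg _).trans hT₁
  have hE₀ : 0 < E₀ := by
    have h1 : 0 < U₂ * E₀ := hU ▸ (by positivity)
    exact pos_of_mul_pos_right h1 hU₂.le
  have hT1a := (abs_le.mp hT₁).1
  have hT2a := (abs_le.mp hT₂).1
  have hT2b := (abs_le.mp hT₂).2
  set R : ℝ := σ ^ 2 / U₁ ^ 2 with hR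
  have hR0 : 0 ≤ R := by positivity
  have k1 : σ / U₂ * σ = E₀ * R := by
    rw [hR, hU]
    field_simp
  have hT1' : 0 ≤ 1 - ε₁ := by linarith
  have hH' : 0 ≤ 1 / H := by positivity
  calc g₀ ^ 2 * G * (T₂ * (σ / U₂ * (1 / H))) * σ
      = g₀ ^ 2 * G * (σ / U₂ * σ) * (T₂ * (1 / H)) := by ring
    _ = g₀ ^ 2 * G * (E₀ * R) * (T₂ * (1 / H)) := by rw [k1]
    _ ≤ g₀ ^ 2 * G * (E₀ * R) * ((1 + ε₁) * ((1 + ε₁) * E₁)) := by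
        refine mul_le_mul_of_nonneg_left ?_ (by positivity)
        exact mul_le_mul (by linarith) hHE hH' (by linarith)
    _ = (1 + ε₁) ^ 2 * R * (g₀ ^ 2 * (G * (E₀ * E₁))) := by ring
    _ ≤ (1 + ε₁) ^ 2 * R * (g₀ ^ 2 * W ^ 2) := by
        refine mul_le_mul_of_nonneg_left ?_ (by positivity)
        exact mul_le_mul_of_nonneg_left hGW (by positivity)
    _ = (1 + ε₁) ^ 2 * R * (g₀ * W) ^ 2 := by ring
    _ ≤ (1 + ε₁) ^ 2 * R * (1 + ε) ^ 2 := by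
        refine mul_le_mul_of_nonneg_left ?_ (by positivity)
        exact pow_le_pow_left₀ (by positivity) hgW 2
    _ ≤ ((1 + ε) * (1 - ε₁)) ^ 2 * R * (1 + ε) ^ 2 := by
        refine mul_le_mul_of_nonneg_right (mul_le_mul_of_nonneg_right ?_ hR0) (by positivity)
        refine pow_le_pow_left₀ (by linarith) ?_ 2
        nlinarith
    _ = (1 + ε) ^ 4 * ((1 - ε₁) ^ 2 * R) := by ring
    _ ≤ (1 + ε) ^ 10 * (T₁ ^ 2 * R) := by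
        refine mul_le_mul (pow_le_pow_right₀ (by linarith) (by norm_num)) ?_ (by positivity)
          (by positivity)
        refine mul_le_mul_of_nonneg_right ?_ hR0
        exact pow_le_pow_left₀ hT1' (by linarith) 2
    _ = (1 + ε) ^ 10 * (T₁ * (σ / U₁)) ^ 2 := by
        rw [hR]
        ring

theorem mm_large (z₀ κ p₁ : ℕ) (a b : ℝ) : ∃ q₀ : ℕ, ∀ q : ℕ, q₀ ≤ q →
    z₀ + 1 ≤ q ∧ κ ≤ q ∧ p₁ ≤ q ∧ 3 ≤ q ∧ 8 ≤ Real.log q ∧ a ≤ Real.log q ∧ b ≤ Real.sqrt q := by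
  have h1 : Filter.Tendsto (fun n : ℕ => Real.log n) Filter.atTop Filter.atTop :=
    Real.tendsto_log_atTop.comp tendsto_natCast_atTop_atTop
  have h2 : Filter.Tendsto (fun n : ℕ => Real.sqrt n) Filter.atTop Filter.atTop :=
    Real.tendsto_sqrt_atTop.comp tendsto_natCast_atTop_atTop
  have h := (Filter.eventually_ge_atTop (z₀ + 1)).and ((Filter.eventually_ge_atTop κ).and
    ((Filter.eventually_ge_atTop p₁).and ((Filter.eventually_ge_atTop 3).and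
      ((h1.eventually_ge_atTop 8).and ((h1.eventually_ge_atTop a).and
        (h2.eventually_ge_atTop b))))))
  exact Filter.eventually_atTop.mp h

/-- block MM (final of part M; owner helper53) -/
theorem moll2_pr {ε : ℝ} (hε : 0 < ε) {m₀ : ℕ} {s : ℕ → ℝ} (hs : SuppIn m₀ s)
    (hσ : 0 < ∑ m ∈ Finset.Icc 1 m₀, s m ^ 2) (A₁ : ℕ) (hA₁ : 1 ≤ A₁) :
    ∃ (A : ℕ) (C c : ℝ) (q₀ : ℕ), 1 ≤ C ∧ 0 < c ∧ ∀ (q : ℕ) [NeZero q]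
    (χ : DirichletCharacter ℂ q), PQ χ → q₀ ≤ q → ∀ g₀ : ℝ, 0 ≤ g₀ →
    g₀ * ∏ p ∈ Pz (q ^ A₁), (1 - 1 / (p : ℝ)) * (1 - cv χ p / p) ≤ 1 + ε →
    ∀ (I : Finset ℕ) (P : Measure (ℕ → ℝ)), (∀ p ∈ I, p.Prime) → IsST I P → Pz (q ^ A) ⊆ I →
    ∃ (b : ℕ → ℝ) (F₁ F₂ : ℝ), SuppIn (q ^ A) b ∧
      (∀ e, |b e| ≤ C * Real.log q ^ A * tau e ^ A) ∧
      ∑ e ∈ Finset.Icc 1 (q ^ A), b e * sg1 e / e = 0 ∧ c ≤ F₁ ∧ 0 < F₂ ∧
      EW P I (w2 χ 0 0 0) (fun x => MX (q ^ A) b x ^ 2) = (F₂ : ℂ) ∧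
      EW P I (w1 χ 0) (fun x => MX (q ^ A) b x * ∑ m ∈ Finset.Icc 1 m₀, s m * Um m x) =
        (F₁ : ℂ) ∧
      (∀ r s' z : ℂ, ‖r‖ ≤ c / Real.log q → ‖s'‖ ≤ c / Real.log q → ‖z‖ ≤ c / Real.log q →
        ‖EW P I (w2 χ r s' z) (fun x => MX (q ^ A) b x ^ 2)‖ ≤ C * F₂) ∧
      (∀ z : ℂ, ‖z‖ ≤ c / Real.log q → ‖EW P I (w1 χ z)
        (fun x => MX (q ^ A) b x * ∑ m ∈ Finset.Icc 1 m₀, s m * Um m x)‖ ≤ C * F₁) ∧
      g₀ ^ 2 * ((q.totient : ℝ) / q / ‖zq q 2‖) * F₂ * ∑ m ∈ Finset.Icc 1 m₀, s m ^ 2 ≤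
        (1 + ε) ^ 10 * F₁ ^ 2 := by
  obtain ⟨σ, hσd⟩ : ∃ σ : ℝ, σ = ∑ m ∈ Finset.Icc 1 m₀, s m ^ 2 := ⟨_, rfl⟩
  rw [← hσd] at hσ ⊢
  obtain ⟨ε₁, hε₁0, hε₁8, h8ε⟩ : ∃ ε₁ : ℝ, 0 < ε₁ ∧ ε₁ ≤ 1 / 8 ∧ 8 * ε₁ ≤ ε := by
    refine ⟨min (ε / 8) (1 / 8), lt_min (by positivity) (by norm_num), min_le_right _ _, ?_⟩
    have := min_le_left (ε / 8) (1 / 8 : ℝ)
    linarith
  obtain ⟨Ch, zh, hh⟩ := hs_ge_pr hε₁0
  obtain ⟨Cr, zr, hCr, hr⟩ := rough_part_pr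
  obtain ⟨Ab, Cb, zb, hb⟩ := br_coef_pr
  obtain ⟨Cp, p₁, hCp, hp⟩ := pert_pr
  obtain ⟨z₀, z1, z2, z3, z4⟩ : ∃ z₀ : ℕ, zh ≤ z₀ ∧ zr ≤ z₀ ∧ zb ≤ z₀ ∧ m₀ ≤ z₀ :=
    ⟨zh + zr + zb + m₀, by omega, by omega, by omega, by omega⟩
  obtain ⟨δs, hδs0, hδs8, hsp⟩ := small_pert_pr z₀
  obtain ⟨MB, hMB0, hMB⟩ := mmB_isv_bound z₀ m₀ s
  obtain ⟨A₂, hA₂, hA₂1⟩ : ∃ A₂ : ℕ, Ch * A₁ ≤ A₂ ∧ 1 ≤ A₂ := by
    refine ⟨⌈Ch⌉₊ * A₁ + 1, ?_, by omega⟩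
    push_cast
    have h1 : Ch ≤ ⌈Ch⌉₊ := Nat.le_ceil _
    have h2 : Ch * A₁ ≤ ⌈Ch⌉₊ * A₁ := mul_le_mul_of_nonneg_right h1 (Nat.cast_nonneg _)
    linarith
  have hm₀ : 1 ≤ m₀ := by
    by_contra hc
    have : m₀ = 0 := by omega
    rw [this] at hσd
    simp at hσd
    linarith
  have hκ1 : 1 ≤ mmK z₀ m₀ := by
    unfold mmK
    exact Nat.mul_pos hm₀ (Finset.prod_pos fun p hp => Nat.mul_pos (mm_prime hp).1.pos
      (mm_prime hp).1.pos)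
  obtain ⟨c, hc0, hc1, hc2⟩ : ∃ c : ℝ, 0 < c ∧ c * (A₁ + A₂ + 2) ≤ 1 ∧
      c ≤ σ / (2 * 2 ^ (Pz z₀).card) := by
    refine ⟨min (1 / (A₁ + A₂ + 2)) (σ / (2 * 2 ^ (Pz z₀).card)), lt_min (by positivity)
      (by positivity), ?_, min_le_right _ _⟩
    have h1 := min_le_left (1 / ((A₁ : ℝ) + A₂ + 2)) (σ / (2 * 2 ^ (Pz z₀).card))
    have h2 : (0 : ℝ) < A₁ + A₂ + 2 := by positivity
    calc _ ≤ 1 / ((A₁ : ℝ) + A₂ + 2) * (A₁ + A₂ + 2) := mul_le_mul_of_nonneg_right h1 h2.le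
      _ = 1 := by field_simp
  obtain ⟨C, hC1, hC2, hC3⟩ : ∃ C : ℝ, 1 ≤ C ∧ 8 * Cr ≤ C ∧
      (1 + 2 ^ (Ab + 1)) * (MB * ∑ t ∈ Finset.Icc 1 (mmK z₀ m₀), tau t ^ (Ab + 1)) *
        (|Cb| * A₁ ^ Ab) ≤ C :=
    ⟨max 1 (max _ _), le_max_left _ _, (le_max_left _ _).trans (le_max_right _ _),
      (le_max_right _ _).trans (le_max_right _ _)⟩
  obtain ⟨q₀, hq₀⟩ := mm_large z₀ (mmK z₀ m₀) p₁ (1 / δs) (Cp / ε₁)
  refine ⟨A₁ + A₂ + 2 + Ab, C, c, q₀, hC1, hc0, ?_⟩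
  intro q _ χ h hq g₀ hg₀ hgW I P hI hP hAI
  obtain ⟨q1, q2, q3, q4, q5, q6, q7⟩ := hq₀ q hq
  have hq0 : 0 < q := by omega
  have hqR : (1 : ℝ) ≤ q := by exact_mod_cast hq0
  have hqz : q ≤ q ^ A₁ := Nat.le_self_pow (by omega) q
  have hz01 : z₀ < q ^ A₁ := by omega
  have hK1 : 1 ≤ q ^ A₂ := Nat.one_le_pow _ _ hq0
  have hK2 : 2 ≤ q ^ A₂ := by
    have : q ≤ q ^ A₂ := Nat.le_self_pow (by omega) q
    omega
  obtain ⟨p₀, hp₀, hp₀1, hp₀2⟩ := Nat.exists_prime_lt_and_le_two_mul (q ^ A₁) (by omega)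
  have hp₀q : p₀ ≤ q ^ (A₁ + 1) := by
    rw [pow_succ, mul_comm (q ^ A₁) q]
    exact hp₀2.trans (Nat.mul_le_mul_right _ (by omega))
  have hp₀I : p₀ ∈ I := hAI (mm_memPz hp₀ (hp₀q.trans (Nat.pow_le_pow_right hq0 (by omega))))
  have hN : p₀ * (mmK z₀ m₀ * q ^ A₂) ≤ q ^ (A₁ + A₂ + 2 + Ab) := by
    calc p₀ * (mmK z₀ m₀ * q ^ A₂) ≤ q ^ (A₁ + 1) * (q * q ^ A₂) :=
          Nat.mul_le_mul hp₀q (Nat.mul_le_mul_right _ q2)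
      _ = q ^ (A₁ + A₂ + 2) := by ring
      _ ≤ _ := Nat.pow_le_pow_right hq0 (by omega)
  have hzI : Pz (q ^ A₁) ⊆ I := fun p hp => hAI (mm_memPz (mm_prime hp).1
    ((mm_prime hp).2.trans (Nat.pow_le_pow_right hq0 (by omega))))
  have hzI0 : Pz z₀ ⊆ I := fun p hp => hzI (mm_memPz (mm_prime hp).1 ((mm_prime hp).2.trans hz01.le))
  set L : ℝ := Real.log q with hL
  have hL0 : 0 < L := by linarith
  have hlz : Real.log ((q ^ A₁ : ℕ) : ℝ) = A₁ * L := by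
    rw [Nat.cast_pow, Real.log_pow]
  have hlK : Real.log ((q ^ A₂ : ℕ) : ℝ) = A₂ * L := by
    rw [Nat.cast_pow, Real.log_pow]
  have hA1R : (1 : ℝ) ≤ A₁ := by exact_mod_cast hA₁
  have hA2R : (1 : ℝ) ≤ A₂ := by exact_mod_cast hA₂1
  have hcle : c ≤ 1 := (le_mul_of_one_le_right hc0.le (by linarith)).trans hc1
  set δ : ℝ := c / L with hδ
  have hδ0 : 0 ≤ δ := by positivity
  have hδL : δ * L = c := by
    rw [hδ]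
    field_simp
  have hδ8 : δ ≤ 1 / 8 := by
    rw [hδ, div_le_iff₀ hL0]
    linarith
  have hδs : δ ≤ δs := by
    rw [hδ, div_le_iff₀ hL0]
    have h1 : 1 ≤ δs * L := by
      have := (div_le_iff₀ hδs0).mp q6
      linarith
    linarith
  have hδz : δ * (Real.log ((q ^ A₁ : ℕ) : ℝ) + Real.log ((q ^ A₂ : ℕ) : ℝ)) ≤ 1 := by
    rw [hlz, hlK]
    calc _ = (δ * L) * (A₁ + A₂) := by ring
      _ ≤ 1 := by
        rw [hδL]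
        exact (mul_le_mul_of_nonneg_left (by linarith) hc0.le).trans hc1
  have hδp : δ * Real.log p₀ ≤ 1 := by
    have h1 : Real.log p₀ ≤ (A₁ + 1) * L := by
      calc Real.log p₀ ≤ Real.log ((q ^ (A₁ + 1) : ℕ) : ℝ) :=
            Real.log_le_log (by exact_mod_cast hp₀.pos) (by exact_mod_cast hp₀q)
        _ = _ := by rw [Nat.cast_pow, Real.log_pow]; push_cast; ring
    calc δ * Real.log p₀ ≤ δ * ((A₁ + 1) * L) := mul_le_mul_of_nonneg_left h1 hδ0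
      _ = (δ * L) * (A₁ + 1) := by ring
      _ ≤ 1 := by
        rw [hδL]
        exact (mul_le_mul_of_nonneg_left (by linarith) hc0.le).trans hc1
  have hCpp : Cp / Real.sqrt p₀ ≤ ε₁ := by
    have h1 : Real.sqrt q ≤ Real.sqrt p₀ := Real.sqrt_le_sqrt (by exact_mod_cast (by omega : q ≤ p₀))
    have h2 : Cp / ε₁ ≤ Real.sqrt p₀ := q7.trans h1
    have h3 : 0 < Real.sqrt p₀ := Real.sqrt_pos.mpr (by exact_mod_cast hp₀.pos)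
    rw [div_le_iff₀ h3]
    have := (div_le_iff₀ hε₁0).mp h2
    linarith
  obtain ⟨hHS0, hHS1⟩ := hh q χ h z₀ (q ^ A₁) (q ^ A₂) z1 hz01 hK1 (by
    rw [hlz, hlK]
    calc Ch * (A₁ * L) = (Ch * A₁) * L := by ring
      _ ≤ A₂ * L := mul_le_mul_of_nonneg_right hA₂ hL0.le)
  obtain ⟨r1, r2, r3⟩ := hr q χ h z₀ (q ^ A₁) (q ^ A₂) z2 hz01 hK2 I P hI hP hzI
  obtain ⟨r4, r5⟩ := r3 δ hδ0 hδ8 hδz
  obtain ⟨vR, hvR, hvRb⟩ := hb q χ h z₀ (q ^ A₁) (q ^ A₂) z3 hz01 hK1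
  obtain ⟨vB, hvB⟩ := mmB_isv χ z₀ hs
  have hvBb := hMB q χ h vB hvB
  obtain ⟨b, b1, b2, b3, b4⟩ := mm_vec (N := q ^ (A₁ + A₂ + 2 + Ab)) hvB hvR hvBb
    (L := |Cb| * (A₁ * L) ^ Ab) (by positivity) (fun e => (hvRb e).trans (by
      rw [hlz]
      refine mul_le_mul_of_nonneg_right ?_ (pow_nonneg (mm_tau_nonneg e) _)
      exact mul_le_mul_of_nonneg_right (le_abs_self _) (by positivity))) hp₀ hN hκ1 hK1
  obtain ⟨U₁, hU₁⟩ : ∃ U₁ : ℝ, U₁ = ∏ p ∈ Pz z₀, ∫ x, pp χ p (x p) ∂P := ⟨_, rfl⟩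
  obtain ⟨U₂, hU₂⟩ : ∃ U₂ : ℝ, U₂ = ∏ p ∈ Pz z₀, ∫ x, pp χ p (x p) ^ 2 ∂P := ⟨_, rfl⟩
  obtain ⟨u1, u2, u3, u4⟩ := mm_U h hP hzI0 hU₁ hU₂
  obtain ⟨T₁, T₂, t1, t2, c1, c2, c3, c4⟩ := mm_core z4 hs hσd hδs0 hδ0 hδs hδ8
    (Cr := Cr) (by linarith) hsp h hI hP hz01 hzI hp₀I hp₀1 hCpp
    (fun r s' z hr' hs' hz' => (hp q χ h p₀ hp₀ (by omega) I P hP hp₀I δ hδ0 hδ8 hδp r s' z hr'
      hs' hz').2) hHS0 r1 r2 r4 r5 hU₁ hU₂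
  have hT1 : 7 / 8 ≤ T₁ := by
    have := (abs_le.mp t1).1
    linarith
  have hT2 : 7 / 8 ≤ T₂ := by
    have := (abs_le.mp t2).1
    linarith
  have e2 : (fun x : ℕ → ℝ => MX (q ^ (A₁ + A₂ + 2 + Ab)) b x ^ 2) =
      fun x => (th p₀ x * (mmB χ z₀ m₀ s x * br χ z₀ (q ^ A₁) (q ^ A₂) x)) ^ 2 := by
    funext x
    rw [b2]
  have e1 : (fun x : ℕ → ℝ => MX (q ^ (A₁ + A₂ + 2 + Ab)) b x *
      ∑ m ∈ Finset.Icc 1 m₀, s m * Um m x) =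
      fun x => th p₀ x * (mmB χ z₀ m₀ s x * br χ z₀ (q ^ A₁) (q ^ A₂) x) * mmS m₀ s x := by
    funext x
    rw [b2]
    rfl
  refine ⟨b, T₁ * (σ / U₁), T₂ * (σ / U₂ * (1 / HS χ z₀ (q ^ A₁) (q ^ A₂))), b1, ?_, b3, ?_, ?_,
    ?_, ?_, ?_, ?_, ?_⟩
  · intro e
    by_cases he : b e = 0
    · rw [he, abs_zero]
      have := mm_tau_nonneg e
      positivity
    · have he1 := (b1 e he).1
      refine (b4 e).trans ?_
      have ht := mm_tau_one he1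
      have hL1 : 1 ≤ L := by linarith
      calc (1 + 2 ^ (Ab + 1)) * (MB * ∑ t ∈ Finset.Icc 1 (mmK z₀ m₀), tau t ^ (Ab + 1)) *
            (|Cb| * (A₁ * L) ^ Ab) * tau e ^ Ab
          = ((1 + 2 ^ (Ab + 1)) * (MB * ∑ t ∈ Finset.Icc 1 (mmK z₀ m₀), tau t ^ (Ab + 1)) *
            (|Cb| * A₁ ^ Ab)) * L ^ Ab * tau e ^ Ab := by rw [mul_pow]; ring
        _ ≤ C * L ^ (A₁ + A₂ + 2 + Ab) * tau e ^ (A₁ + A₂ + 2 + Ab) := by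
          refine mul_le_mul (mul_le_mul hC3 (pow_le_pow_right₀ hL1 (by omega)) (by positivity)
            (by linarith)) (pow_le_pow_right₀ ht (by omega)) (by positivity) ?_
          have : 0 ≤ C := by linarith
          positivity
  · calc c ≤ σ / (2 * 2 ^ (Pz z₀).card) := hc2
      _ = 1 / 2 * (σ / 2 ^ (Pz z₀).card) := by field_simp
      _ ≤ T₁ * (σ / U₁) := by
        refine mul_le_mul (by linarith) ?_ (by positivity) (by linarith)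
        exact div_le_div_of_nonneg_left hσ.le u1 u3
  · have : 0 < T₂ := by linarith
    positivity
  · rw [e2, c1]
  · rw [e1, c2]
  · intro r s' z hr' hs' hz'
    rw [e2]
    refine (c3 r s' z hr' hs' hz').trans ?_
    have h1 : 0 ≤ σ / U₂ * (1 / HS χ z₀ (q ^ A₁) (q ^ A₂)) := by positivity
    calc (1 + ε₁) * (2 * σ / U₂ * (Cr / HS χ z₀ (q ^ A₁) (q ^ A₂)))
        = ((1 + ε₁) * 2 * Cr) * (σ / U₂ * (1 / HS χ z₀ (q ^ A₁) (q ^ A₂))) := by ring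
      _ ≤ (C * T₂) * (σ / U₂ * (1 / HS χ z₀ (q ^ A₁) (q ^ A₂))) := by
        refine mul_le_mul_of_nonneg_right ?_ h1
        have h2 : 8 * Cr * (7 / 8) ≤ C * T₂ := mul_le_mul hC2 hT2 (by norm_num) (by linarith)
        have h3 : (1 + ε₁) * 2 * Cr ≤ 7 * Cr :=
          mul_le_mul_of_nonneg_right (by linarith) (by linarith)
        linarith
      _ = _ := by ring
  · intro z hz'
    rw [e1]
    refine (c4 z hz').trans ?_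
    have h1 : 0 ≤ σ / U₁ := by positivity
    calc (1 + ε₁) * (2 * σ / U₁ * Cr) = ((1 + ε₁) * 2 * Cr) * (σ / U₁) := by ring
      _ ≤ (C * T₁) * (σ / U₁) := by
        refine mul_le_mul_of_nonneg_right ?_ h1
        have h2 : 8 * Cr * (7 / 8) ≤ C * T₁ := mul_le_mul hC2 hT1 (by norm_num) (by linarith)
        have h3 : (1 + ε₁) * 2 * Cr ≤ 7 * Cr :=
          mul_le_mul_of_nonneg_right (by linarith) (by linarith)
        linarith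
      _ = _ := by ring
  · have hE1 : 0 ≤ ∏ p ∈ Pz (q ^ A₁) \ Pz z₀, ep χ p := Finset.prod_nonneg fun p hp =>
      (ga_facts_pr h (mm_prime (Finset.mem_sdiff.mp hp).1).1).1.le
    have hsub : Pz z₀ ⊆ Pz (q ^ A₁) := fun p hp =>
      mm_memPz (mm_prime hp).1 ((mm_prime hp).2.trans hz01.le)
    have hEE : (∏ p ∈ Pz z₀, ep χ p) * ∏ p ∈ Pz (q ^ A₁) \ Pz z₀, ep χ p =
        ∏ p ∈ Pz (q ^ A₁), ep χ p := by
      rw [mul_comm, Finset.prod_sdiff hsub]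
    refine mm_num (W := ∏ p ∈ Pz (q ^ A₁), (1 - 1 / (p : ℝ)) * (1 - cv χ p / p)) u1 u2 u4 hHS0
      hHS1 hE1 (by positivity) ?_ hg₀ ?_ hgW t1 t2 hε h8ε hε₁8
    · rw [hEE]
      exact euler_le_pr h hqz
    · refine Finset.prod_nonneg fun p hp => ?_
      have hp2 : (1 : ℝ) ≤ p := by exact_mod_cast (mm_prime hp).1.one_lt.le
      have hp0 : (0 : ℝ) < p := by linarith
      have h1 : 1 / (p : ℝ) ≤ 1 := (div_le_one hp0).mpr hp2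
      have h2 : cv χ p / p ≤ 1 := by
        rw [div_le_one hp0]
        rcases (cv_cases_pr h p).2 with h3 | h3 | h3 <;> rw [h3] <;> linarith
      exact mul_nonneg (by linarith) (by linarith)


end Pool.Agent.LM
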