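import Pool.Agent.Lib_helper53.LM.Defs
import Pool.Agent.Lib_helper41.LVBF.STO
import Pool.Agent.Lib_helper41.LVBF.STE
import Pool.Agent.Lib_helper41.LVBF.TRM
import Pool.Agent.Lib_helper53.LEF.EB
import Pool.Agent.Lib_helper53.LEF.EC

/-! LSP3, part M, block MD: vectors of polynomials. -/

set_option autoImplicit false

namespace Pool.Agent.LM

open Complex MeasureTheory ProbabilityTheory
open Pool.Agent.LSP (tau MX CC CB sg1 wX)
open Pool.Agent.LEV (Uu Um)
open Pool.Agent.LVB (IsST el)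
open Pool.Agent.LK (Qe V PQ MW)
open Pool.Agent.LE

theorem isv_mul_pr {K₁ K₂ : ℕ} {x y : ℕ → ℝ} {F₁ F₂ : (ℕ → ℝ) → ℝ} (hx : IsV K₁ x F₁)
    (hy : IsV K₂ y F₂) : ∃ z, IsV (K₁ * K₂) z (fun la => F₁ la * F₂ la) :=
  ⟨HP K₁ x y, hp_supp_pr hx.1 hy.1, fun la => by
    rw [mx_hp_pr hx.1 hy.1 le_rfl le_rfl, hx.2, hy.2]⟩

/-- enlarging the support bound -/
theorem md_mono {K K' : ℕ} {x : ℕ → ℝ} {F : (ℕ → ℝ) → ℝ} (hx : IsV K x F) (h : K ≤ K') :
    IsV K' x F := by
  refine ⟨fun e he => ⟨(hx.1 e he).1, (hx.1 e he).2.trans h⟩, fun la => ?_⟩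
  rw [← hx.2]
  unfold MX
  symm
  refine Finset.sum_subset (Finset.Icc_subset_Icc_right h) fun e _ he => ?_
  have : x e = 0 := by
    by_contra hc
    exact he (Finset.mem_Icc.2 (hx.1 e hc))
  rw [this, zero_div, zero_mul]

theorem md_congr {K : ℕ} {x : ℕ → ℝ} {F G : (ℕ → ℝ) → ℝ} (hx : IsV K x F) (h : ∀ la, F la = G la) :
    IsV K x G := ⟨hx.1, fun la => by rw [hx.2, h]⟩

/-- the constant 1 -/
theorem md_one : IsV 1 (fun e => if e = 1 then 1 else 0) (fun _ => 1) := by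
  refine ⟨fun e he => ?_, fun la => ?_⟩
  · by_cases h : e = 1
    · rw [h]
      exact ⟨le_rfl, le_rfl⟩
    · simp [h] at he
  · unfold MX
    rw [Finset.Icc_self, Finset.sum_singleton, Pool.Agent.LVB.TRM_um_one]
    simp

theorem md_smul {K : ℕ} {x : ℕ → ℝ} {F : (ℕ → ℝ) → ℝ} (hx : IsV K x F) (c : ℝ) :
    IsV K (fun e => c * x e) (fun la => c * F la) := by
  refine ⟨fun e he => hx.1 e (right_ne_zero_of_mul he), fun la => ?_⟩
  show _ = c * F la
  rw [← hx.2]
  unfold MX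
  rw [Finset.mul_sum]
  exact Finset.sum_congr rfl fun e _ => by ring

theorem md_sum {ι : Type*} {K : ℕ} (s : Finset ι) {x : ι → ℕ → ℝ} {F : ι → (ℕ → ℝ) → ℝ}
    (hx : ∀ i ∈ s, IsV K (x i) (F i)) :
    IsV K (fun e => ∑ i ∈ s, x i e) (fun la => ∑ i ∈ s, F i la) := by
  refine ⟨fun e he => ?_, fun la => ?_⟩
  · obtain ⟨i, hi, hie⟩ := Finset.exists_ne_zero_of_sum_ne_zero he
    exact (hx i hi).1 e hie
  · show _ = ∑ i ∈ s, F i la
    unfold MX
    rw [← Finset.sum_congr rfl fun i hi => (hx i hi).2 la]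
    unfold MX
    rw [Finset.sum_comm]
    exact Finset.sum_congr rfl fun e _ => by rw [Finset.sum_div, Finset.sum_mul]

/-- an affine function of one variable -/
theorem md_aff {p : ℕ} (hp : p.Prime) (a b : ℝ) :
    IsV p (fun e => if e = 1 then a else if e = p then Real.sqrt p * b else 0)
      (fun la => a + b * la p) := by
  have h1p : (1 : ℕ) ≠ p := hp.one_lt.ne
  refine ⟨fun e he => ?_, fun la => ?_⟩
  · by_cases h : e = 1
    · rw [h]
      exact ⟨le_rfl, hp.one_lt.le⟩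
    · by_cases h' : e = p
      · rw [h']
        exact ⟨hp.one_lt.le, le_rfl⟩
      · simp [h, h'] at he
  · unfold MX
    have hsub : ({1, p} : Finset ℕ) ⊆ Finset.Icc 1 p := by
      intro e he
      rw [Finset.mem_insert, Finset.mem_singleton] at he
      rw [Finset.mem_Icc]
      have := hp.one_lt.le
      omega
    rw [← Finset.sum_subset hsub, Finset.sum_pair h1p]
    · rw [Pool.Agent.LVB.TRM_um_one]
      have hu : Um p la = la p := by
        unfold Um
        rw [hp.primeFactors, Finset.prod_singleton, hp.factorization_self]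
        rfl
      have hs : Real.sqrt p ≠ 0 := by
        have : (0 : ℝ) < p := by exact_mod_cast hp.pos
        positivity
      rw [hu]
      simp only [if_true, if_neg h1p.symm]
      rw [mul_div_cancel_left₀ _ hs]
      simp
    · intro e _ he
      rw [Finset.mem_insert, Finset.mem_singleton, not_or] at he
      simp only [if_neg he.1, if_neg he.2, zero_div, zero_mul]

theorem isv_bound_pr {K : ℕ} {x : ℕ → ℝ} {F : (ℕ → ℝ) → ℝ} (hx : IsV K x F) {M : ℝ}
    (hM : ∀ la : ℕ → ℝ, (∀ p, |la p| ≤ 2) → |F la| ≤ M) (e : ℕ) :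
    |x e| ≤ Real.sqrt e * M := by
  classical
  have hM0 : 0 ≤ M := (abs_nonneg _).trans (hM 0 (fun p => by simp))
  by_cases hxe : x e = 0
  · rw [hxe, abs_zero]
    positivity
  obtain ⟨he1, heK⟩ := hx.1 e hxe
  set I : Finset ℕ := (Finset.Icc 1 K).filter Nat.Prime with hI
  have hIp : ∀ p ∈ I, p.Prime := fun p hp => (Finset.mem_filter.1 hp).2
  obtain ⟨P, hP⟩ := Pool.Agent.LVB.st_exists_pr I hIp
  have := hP.prob
  set c : ℕ → ℝ := fun m => if 1 ≤ m ∧ m ≤ K then x m / Real.sqrt m else 0 with hc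
  have hpf : ∀ m : ℕ, 1 ≤ m → m ≤ K → m.primeFactors ⊆ I := by
    intro m hm hmK p hp
    have hpp := Nat.prime_of_mem_primeFactors hp
    have hd := Nat.dvd_of_mem_primeFactors hp
    rw [hI, Finset.mem_filter, Finset.mem_Icc]
    exact ⟨⟨hpp.one_lt.le, (Nat.le_of_dvd (by omega) hd).trans hmK⟩, hpp⟩
  have hcs : ∀ m, c m ≠ 0 → 1 ≤ m ∧ m ≤ K ∧ m.primeFactors ⊆ I := by
    intro m hm
    by_cases h : 1 ≤ m ∧ m ≤ K
    · exact ⟨h.1, h.2, hpf m h.1 h.2⟩
    · simp only [hc, if_neg h, ne_eq, not_true_eq_false] at hm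
  have hsq := Pool.Agent.LVB.st_sq_pr hIp hP (X := K) hcs
  have hF : ∀ la, ∑ m ∈ Finset.Icc 1 K, c m * Um m la = F la := by
    intro la
    rw [← hx.2]
    unfold MX
    refine Finset.sum_congr rfl fun m hm => ?_
    simp only [hc, if_pos (Finset.mem_Icc.1 hm)]
  simp only [hF] at hsq
  have hbd : ∀ᵐ la ∂P, F la ^ 2 ≤ M ^ 2 := by
    filter_upwards [hP.bdd] with la hla
    have h1 : F la = F (fun p => if p ∈ I then la p else 0) := by
      rw [← hF, ← hF]
      refine Finset.sum_congr rfl fun m hm => ?_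
      have hm' := Finset.mem_Icc.1 hm
      congr 1
      unfold Um
      refine Finset.prod_congr rfl fun p hp => ?_
      simp only [if_pos (hpf m hm'.1 hm'.2 hp)]
    rw [h1, ← sq_abs]
    refine pow_le_pow_left₀ (abs_nonneg _) (hM _ fun p => ?_) 2
    by_cases hp : p ∈ I
    · rw [if_pos hp]
      exact hla p hp
    · rw [if_neg hp, abs_zero]
      norm_num
  have hint : ∫ la, F la ^ 2 ∂P ≤ M ^ 2 := by
    by_cases hi : Integrable (fun la => F la ^ 2) P
    · calc ∫ la, F la ^ 2 ∂P ≤ ∫ _, M ^ 2 ∂P := integral_mono_ae hi (integrable_const _) hbd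
        _ = M ^ 2 := by simp
    · rw [integral_undef hi]
      positivity
  rw [hsq] at hint
  have hce : c e ^ 2 ≤ M ^ 2 :=
    (Finset.single_le_sum (f := fun m => c m ^ 2) (fun m _ => sq_nonneg _)
      (Finset.mem_Icc.2 ⟨he1, heK⟩)).trans hint
  have hce' : |c e| ≤ M := abs_le_of_sq_le_sq hce hM0
  have hse : 0 < Real.sqrt e := Real.sqrt_pos.2 (by exact_mod_cast he1)
  have hcv : c e = x e / Real.sqrt e := by
    simp only [hc, if_pos (And.intro he1 heK)]
  rw [hcv, abs_div, abs_of_pos hse, div_le_iff₀ hse] at hce'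
  linarith [mul_comm M (Real.sqrt e)]

variable {q : ℕ} [NeZero q]

omit [NeZero q] in
theorem md_prod (χ : DirichletCharacter ℂ q) (J : Finset ℕ) (hJ : ∀ p ∈ J, p.Prime) :
    ∃ x, IsV (∏ p ∈ J, p) x (fun la => ∏ p ∈ J, (ga χ p * ph χ p (la p))) := by
  classical
  induction J using Finset.induction_on with
  | empty => exact ⟨_, by simpa using md_one⟩
  | insert p J hp ih =>
    obtain ⟨y, hy⟩ := ih fun r hr => hJ r (Finset.mem_insert_of_mem hr)
    have hpp := hJ p (Finset.mem_insert_self p J)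
    have hx := md_aff hpp (-(ga χ p * ma χ p / Real.sqrt (va χ p))) (ga χ p / Real.sqrt (va χ p))
    obtain ⟨z, hz⟩ := isv_mul_pr hx hy
    refine ⟨z, ?_⟩
    rw [Finset.prod_insert hp]
    refine md_congr hz fun la => ?_
    rw [Finset.prod_insert hp]
    congr 1
    unfold ph
    ring

theorem br_isv_pr (χ : DirichletCharacter ℂ q) (z₀ z₁ : ℕ) {K : ℕ} (hK : 1 ≤ K) :
    ∃ x, IsV K x (br χ z₀ z₁ K) := by
  classical
  have h1 : ∀ J : Finset ℕ, ∃ x, J ∈ SQ (PR χ z₀ z₁) K →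
      IsV K x (fun la => ∏ p ∈ J, (ga χ p * ph χ p (la p))) := by
    intro J
    by_cases hJ : J ∈ SQ (PR χ z₀ z₁) K
    · have hJ' := hJ
      unfold SQ at hJ'
      rw [Finset.mem_filter, Finset.mem_powerset] at hJ'
      obtain ⟨x, hx⟩ := md_prod χ J (fun p hp => by
        have := hJ'.1 hp
        unfold PR at this
        exact (Finset.mem_filter.1 this).2.1)
      exact ⟨x, fun _ => md_mono hx hJ'.2⟩
    · exact ⟨0, fun h => absurd h hJ⟩
  choose x hx using h1
  have h2 := md_smul (md_sum (SQ (PR χ z₀ z₁) K) (fun J hJ => hx J hJ)) (1 / HS χ z₀ z₁ K)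
  exact ⟨_, h2⟩

theorem md_sg1 {p : ℕ} (hp : p.Prime) : sg1 p = p + 1 := by
  unfold Pool.Agent.LSP.sg1
  rw [hp.divisors, Finset.sum_pair hp.one_lt.ne]
  push_cast
  ring

theorem th_isv_pr {p₀ : ℕ} (hp : p₀.Prime) : ∃ x, IsV p₀ x (th p₀) ∧
    ∑ e ∈ Finset.Icc 1 p₀, x e * sg1 e / e = 0 := by
  have hp0 : (0 : ℝ) < p₀ := by exact_mod_cast hp.pos
  have hs : 0 < Real.sqrt p₀ := Real.sqrt_pos.2 hp0
  have hx := md_aff hp 1 (-(p₀ / (p₀ + 1) / Real.sqrt p₀))
  refine ⟨_, md_congr hx fun la => ?_, ?_⟩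
  · unfold th
    ring
  · have h1p : (1 : ℕ) ≠ p₀ := hp.one_lt.ne
    have hsub : ({1, p₀} : Finset ℕ) ⊆ Finset.Icc 1 p₀ := by
      intro e he
      rw [Finset.mem_insert, Finset.mem_singleton] at he
      rw [Finset.mem_Icc]
      have := hp.one_lt.le
      omega
    rw [← Finset.sum_subset hsub, Finset.sum_pair h1p]
    · rw [if_pos rfl, if_neg h1p.symm, if_pos rfl, md_sg1 hp]
      have h1 : sg1 1 = 1 := by
        unfold Pool.Agent.LSP.sg1
        simp
      rw [h1]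
      have : (p₀ : ℝ) + 1 ≠ 0 := by positivity
      field_simp
      push_cast
      ring
    · intro e _ he
      rw [Finset.mem_insert, Finset.mem_singleton, not_or] at he
      rw [if_neg he.1, if_neg he.2, zero_mul, zero_div]

end Pool.Agent.LM
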