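import Pool.Agent.Lib_helper53.LM.Defs
import Pool.Agent.Lib_helper53.LEF.EB
import Pool.Agent.Lib_helper53.LEF.EC
import Pool.Agent.Lib_helper53.LMF.ME

/-! LSP3, part M, block MI. (The function `S / ∏ pp` is itself a polynomial, so that the identity
is exact.) -/

set_option autoImplicit false

namespace Pool.Agent.LM

open Complex MeasureTheory ProbabilityTheory
open Pool.Agent.LSP (tau MX CC CB sg1 wX)
open Pool.Agent.LEV (Uu Um)
open Pool.Agent.LVB (IsST el)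
open Pool.Agent.LK (Qe V PQ MW)
open Pool.Agent.LE

/-- vectors of polynomials in the variables of `Q` -/
def mib_V (Q : Finset ℕ) (K : ℕ) (x : ℕ → ℝ) (F : (ℕ → ℝ) → ℝ) : Prop :=
  SuppIn K x ∧ (∀ e, x e ≠ 0 → e.primeFactors ⊆ Q) ∧ ∀ la, MX K x la = F la

theorem mib_hp {Q : Finset ℕ} {E : ℕ} {x y : ℕ → ℝ} {E₁ : ℕ} (hs : SuppIn E₁ x)
    (hx : ∀ e, x e ≠ 0 → e.primeFactors ⊆ Q) (hy : ∀ e, y e ≠ 0 → e.primeFactors ⊆ Q) (n : ℕ)
    (hn : HP E x y n ≠ 0) : n.primeFactors ⊆ Q := by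
  unfold HP at hn
  obtain ⟨j, -, hj⟩ := Finset.exists_ne_zero_of_sum_ne_zero hn
  obtain ⟨p, hp, hp2⟩ := Finset.exists_ne_zero_of_sum_ne_zero (right_ne_zero_of_mul hj)
  have h1 := left_ne_zero_of_mul hp2
  have h2 := right_ne_zero_of_mul hp2
  obtain ⟨hp3, hn0⟩ := Nat.mem_divisorsAntidiagonal.1 hp
  intro r hr
  have hrp := Nat.prime_of_mem_primeFactors hr
  have hrd : r ∣ p.1 * p.2 := by rw [hp3]; exact Nat.dvd_of_mem_primeFactors hr
  have hj1 := (hs _ h1).1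
  rcases (Nat.Prime.dvd_mul hrp).1 hrd with h | h
  · refine hx _ h1 (Nat.mem_primeFactors.2 ⟨hrp, h.trans (Dvd.intro_left _ rfl), by omega⟩)
  · refine hy _ h2 (Nat.mem_primeFactors.2 ⟨hrp, h.trans (Dvd.intro_left _ rfl), ?_⟩)
    have hj0 : j ≠ 0 := by rintro rfl; simp at hj1
    have hp0 : p.2 ≠ 0 := by rintro h0; rw [h0, mul_zero] at hp3; exact hn0 hp3.symm
    exact mul_ne_zero hj0 hp0

theorem mib_mul {Q : Finset ℕ} {K₁ K₂ : ℕ} {x y : ℕ → ℝ} {F G : (ℕ → ℝ) → ℝ}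
    (hx : mib_V Q K₁ x F) (hy : mib_V Q K₂ y G) :
    mib_V Q (K₁ * K₂) (HP K₁ x y) (fun la => F la * G la) :=
  ⟨hp_supp_pr hx.1 hy.1, fun n hn => mib_hp hx.1 hx.2.1 hy.2.1 n hn, fun la => by
    rw [mx_hp_pr hx.1 hy.1 le_rfl le_rfl, hx.2.2, hy.2.2]⟩

theorem mib_one (Q : Finset ℕ) : mib_V Q 1 (fun e => if e = 1 then 1 else 0) (fun _ => 1) := by
  refine ⟨fun e he => ?_, fun e he => ?_, fun la => ?_⟩
  · by_cases h : e = 1
    · omega
    · simp [h] at he
  · by_cases h : e = 1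
    · subst h; simp
    · simp [h] at he
  · simp [MX, Um]

theorem mib_lin {Q : Finset ℕ} {p : ℕ} (hp : p.Prime) (hQ : p ∈ Q) (a b : ℝ) :
    mib_V Q p (fun e => if e = 1 then a else if e = p then b else 0)
      (fun la => a + b * la p / Real.sqrt p) := by
  have hp1 : p ≠ 1 := hp.one_lt.ne'
  refine ⟨fun e he => ?_, fun e he => ?_, fun la => ?_⟩
  · by_cases h : e = 1
    · have := hp.one_lt; omega
    · by_cases h' : e = p
      · have := hp.one_lt; omega
      · simp [h, h'] at he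
  · by_cases h : e = 1
    · subst h; simp
    · by_cases h' : e = p
      · subst h'
        rw [Nat.Prime.primeFactors hp]
        exact Finset.singleton_subset_iff.2 hQ
      · simp [h, h'] at he
  · unfold MX
    have hsub : ({1, p} : Finset ℕ) ⊆ Finset.Icc 1 p := by
      intro e he
      rw [Finset.mem_insert, Finset.mem_singleton] at he
      have := hp.one_lt
      rw [Finset.mem_Icc]
      rcases he with rfl | rfl <;> omega
    rw [← Finset.sum_subset hsub]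
    · rw [Finset.sum_pair (Ne.symm hp1)]
      simp only [if_true, if_neg hp1]
      have e1 : Um 1 la = 1 := by simp [Um]
      have e2 : Um p la = la p := by
        unfold Um
        rw [Nat.Prime.primeFactors hp, Finset.prod_singleton, Nat.Prime.factorization_self hp]
        rfl
      rw [e1, e2]
      simp
      ring
    · intro e _ he
      rw [Finset.mem_insert, Finset.mem_singleton] at he
      push Not at he
      simp [he.1, he.2]

theorem mib_prod {Q S : Finset ℕ} (hS : S ⊆ Q) (hp : ∀ p ∈ S, p.Prime) (c : ℕ → ℝ) :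
    ∃ b, mib_V Q (∏ p ∈ S, p * p) b (fun la => ∏ p ∈ S,
      ((1 - la p / Real.sqrt p + 1 / p) * (1 - c p * la p / Real.sqrt p + c p ^ 2 / p))) := by
  classical
  induction S using Finset.induction_on with
  | empty => exact ⟨_, by simpa using mib_one Q⟩
  | insert p S hpS ih =>
    obtain ⟨b, hb⟩ := ih (fun r hr => hS (Finset.mem_insert_of_mem hr))
      (fun r hr => hp r (Finset.mem_insert_of_mem hr))
    have hpp := hp p (Finset.mem_insert_self _ _)
    have hpQ := hS (Finset.mem_insert_self _ _)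
    have h1 := mib_mul (mib_mul (mib_lin hpp hpQ (1 + 1 / p) (-1))
      (mib_lin hpp hpQ (1 + c p ^ 2 / p) (-c p))) hb
    refine ⟨HP (p * p) (HP p (fun e => if e = 1 then 1 + 1 / (p : ℝ) else if e = p then -1 else 0)
      (fun e => if e = 1 then 1 + c p ^ 2 / (p : ℝ) else if e = p then -c p else 0)) b, ?_⟩
    rw [Finset.prod_insert hpS]
    refine ⟨h1.1, h1.2.1, fun la => ?_⟩
    rw [h1.2.2 la]
    simp only
    rw [Finset.prod_insert hpS]
    ring

/-- the value of the pattern `(A, B)` -/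
noncomputable def mib_c (A B : Finset ℕ) (p : ℕ) : ℝ := if p ∈ A then 1 else if p ∈ B then -1 else 0

/-- block MI, exact form with a uniform bound -/
theorem sw_exact {z₀ m₀ : ℕ} (hz : m₀ ≤ z₀) {s : ℕ → ℝ} (hs : SuppIn m₀ s) :
    ∃ (m₁ : ℕ) (M : ℝ), 1 ≤ m₁ ∧ ∀ (q : ℕ) [NeZero q] (χ : DirichletCharacter ℂ q), PQ χ →
    ∃ b : ℕ → ℝ, SuppIn m₁ b ∧ (∀ e, |b e| ≤ M) ∧ (∀ e, b e ≠ 0 → e.primeFactors ⊆ Pz z₀) ∧
      ∀ x : ℕ → ℝ, (∀ p, |x p| ≤ 2) →
        MX m₁ b x * ∏ p ∈ Pz z₀, pp χ p (x p) = ∑ m ∈ Finset.Icc 1 m₀, s m * Um m x := by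
  classical
  have hPz : ∀ p ∈ Pz z₀, p.Prime := fun p hp => (Finset.mem_filter.1 hp).2
  have hpos : 1 ≤ ∏ p ∈ Pz z₀, p * p :=
    Nat.one_le_iff_ne_zero.2 (Finset.prod_ne_zero_iff.2 fun p hp =>
      mul_ne_zero (hPz p hp).ne_zero (hPz p hp).ne_zero)
  -- the vector of `S`
  have hS : mib_V (Pz z₀) (m₀ + 1) (fun m => s m * Real.sqrt m)
      (fun x => ∑ m ∈ Finset.Icc 1 m₀, s m * Um m x) := by
    have h0 : ∀ m, s m * Real.sqrt m ≠ 0 → 1 ≤ m ∧ m ≤ m₀ := fun m hm =>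
      hs m (left_ne_zero_of_mul hm)
    refine ⟨fun m hm => ⟨(h0 m hm).1, by have := (h0 m hm).2; omega⟩, fun m hm => ?_, fun la => ?_⟩
    · intro p hp
      have hpp := Nat.prime_of_mem_primeFactors hp
      have hle := Nat.le_of_dvd (by have := (h0 m hm).1; omega) (Nat.dvd_of_mem_primeFactors hp)
      refine Finset.mem_filter.2 ⟨Finset.mem_Icc.2 ⟨hpp.one_lt.le, ?_⟩, hpp⟩
      have := (h0 m hm).2
      omega
    · unfold MX
      have hsub : Finset.Icc 1 m₀ ⊆ Finset.Icc 1 (m₀ + 1) :=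
        Finset.Icc_subset_Icc le_rfl (Nat.le_succ _)
      rw [← Finset.sum_subset hsub]
      · refine Finset.sum_congr rfl fun m hm => ?_
        have hm1 := (Finset.mem_Icc.1 hm).1
        have : Real.sqrt m ≠ 0 := by
          refine (Real.sqrt_pos.2 ?_).ne'
          exact_mod_cast hm1
        rw [mul_div_assoc, div_self this, mul_one]
      · intro m hm hm2
        have : s m = 0 := by
          by_contra h
          have := hs m h
          exact hm2 (Finset.mem_Icc.2 this)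
        simp [this]
  -- the vectors of the patterns
  have hpat : ∀ c : Finset ℕ × Finset ℕ, ∃ b, mib_V (Pz z₀) ((m₀ + 1) * ∏ p ∈ Pz z₀, p * p) b
      (fun la => (∑ m ∈ Finset.Icc 1 m₀, s m * Um m la) * ∏ p ∈ Pz z₀,
        ((1 - la p / Real.sqrt p + 1 / p) *
          (1 - mib_c c.1 c.2 p * la p / Real.sqrt p + mib_c c.1 c.2 p ^ 2 / p))) := fun c => by
    obtain ⟨b, hb⟩ := mib_prod (Q := Pz z₀) (S := Pz z₀) (Finset.Subset.refl _) hPz
      (mib_c c.1 c.2)
    exact ⟨_, mib_mul hS hb⟩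
  choose b hb using hpat
  set T : Finset (Finset ℕ × Finset ℕ) := (Pz z₀).powerset ×ˢ (Pz z₀).powerset
  set m₁ : ℕ := (m₀ + 1) * ∏ p ∈ Pz z₀, p * p with hm₁
  refine ⟨m₁, ∑ c ∈ T, ∑ e ∈ Finset.Icc 1 m₁, |b c e|, Nat.mul_pos (Nat.succ_pos _) hpos, ?_⟩
  intro q _ χ hχ
  set c : Finset ℕ × Finset ℕ :=
    ((Pz z₀).filter (fun p => cv χ p = 1), (Pz z₀).filter (fun p => cv χ p = -1)) with hc
  have hcT : c ∈ T := Finset.mem_product.2
    ⟨Finset.mem_powerset.2 (Finset.filter_subset _ _),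
      Finset.mem_powerset.2 (Finset.filter_subset _ _)⟩
  have hcv : ∀ p ∈ Pz z₀, mib_c c.1 c.2 p = cv χ p := by
    intro p hp
    unfold mib_c
    rcases (cv_cases_pr hχ p).2 with h | h | h
    · rw [if_pos (Finset.mem_filter.2 ⟨hp, h⟩), h]
    · rw [if_neg, if_neg, h]
      · intro h'
        have := (Finset.mem_filter.1 h').2
        rw [h] at this
        norm_num at this
      · intro h'
        have := (Finset.mem_filter.1 h').2
        rw [h] at this
        norm_num at this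
    · rw [if_neg, if_pos (Finset.mem_filter.2 ⟨hp, h⟩), h]
      intro h'
      have := (Finset.mem_filter.1 h').2
      rw [h] at this
      norm_num at this
  refine ⟨b c, (hb c).1, fun e => ?_, (hb c).2.1, fun x hx => ?_⟩
  · by_cases he : b c e = 0
    · rw [he, abs_zero]
      exact Finset.sum_nonneg fun _ _ => Finset.sum_nonneg fun _ _ => abs_nonneg _
    · have h1 := (hb c).1 e he
      refine le_trans ?_ (Finset.single_le_sum (f := fun c => ∑ e ∈ Finset.Icc 1 m₁, |b c e|)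
        (fun c _ => Finset.sum_nonneg fun _ _ => abs_nonneg _) hcT)
      exact Finset.single_le_sum (f := fun e => |b c e|) (fun _ _ => abs_nonneg _)
        (Finset.mem_Icc.2 h1)
  · rw [(hb c).2.2 x, mul_assoc, ← Finset.prod_mul_distrib]
    have h1 : ∏ p ∈ Pz z₀, ((1 - x p / Real.sqrt p + 1 / p) *
        (1 - mib_c c.1 c.2 p * x p / Real.sqrt p + mib_c c.1 c.2 p ^ 2 / p)) * pp χ p (x p) =
        1 := by
      refine Finset.prod_eq_one fun p hp => ?_
      rw [hcv p hp]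
      have h2 := (pp_facts_pr hχ (hPz p hp) (hx p)).1
      have h3 : ((1 - x p / Real.sqrt p + 1 / p) *
        (1 - cv χ p * x p / Real.sqrt p + cv χ p ^ 2 / p)) = (pp χ p (x p))⁻¹ := by
        unfold pp
        rw [inv_inv]
      rw [h3]
      refine inv_mul_cancel₀ ?_
      intro h
      rw [h] at h2
      norm_num at h2
    rw [h1, mul_one]

/-- block MI: Stone-Weierstrass -/
theorem sw_pr {z₀ m₀ : ℕ} (hz : m₀ ≤ z₀) {s : ℕ → ℝ} (hs : SuppIn m₀ s) {ε : ℝ} (hε : 0 < ε) :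
    ∃ m₁ : ℕ, 1 ≤ m₁ ∧ ∀ (q : ℕ) [NeZero q] (χ : DirichletCharacter ℂ q), PQ χ →
    ∃ b : ℕ → ℝ, SuppIn m₁ b ∧ (∀ e, b e ≠ 0 → e.primeFactors ⊆ Pz z₀) ∧
      ∀ x : ℕ → ℝ, (∀ p, |x p| ≤ 2) →
        |MX m₁ b x * ∏ p ∈ Pz z₀, pp χ p (x p) - ∑ m ∈ Finset.Icc 1 m₀, s m * Um m x| ≤ ε := by
  obtain ⟨m₁, M, h1, h2⟩ := sw_exact hz hs
  refine ⟨m₁, h1, fun q _ χ hχ => ?_⟩
  obtain ⟨b, hb1, -, hb3, hb4⟩ := h2 q χ hχ
  refine ⟨b, hb1, hb3, fun x hx => ?_⟩
  rw [hb4 x hx, sub_self, abs_zero]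
  exact hε.le


end Pool.Agent.LM
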