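import Pool.Agent.Lib_helper53.LM.Defs
import Pool.Agent.Lib_helper53.LMF.MF

set_option autoImplicit false

namespace Pool.Agent.LM

open Complex MeasureTheory ProbabilityTheory
open Pool.Agent.LSP (tau MX CC CB sg1 wX)
open Pool.Agent.LEV (Uu Um)
open Pool.Agent.LVB (IsST el)
open Pool.Agent.LK (Qe V PQ MW)
open Pool.Agent.LE

variable {q : ℕ} [NeZero q]

/-- the local factor is small -/
theorem mlb_local {χ : DirichletCharacter ℂ q} (h : PQ χ) {p : ℕ} (hp : p.Prime)
    (hz : 10000 ≤ p) {y : ℝ} (hy : |y| ≤ 2) : |ga χ p * ph χ p y| ≤ 1 := by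
  obtain ⟨-, -, hva, hga, -, -⟩ := ga_facts_pr h hp
  have hg : ga χ p ^ 2 ≤ 10 / p := hga (by omega)
  have hpr : (10000 : ℝ) ≤ p := by exact_mod_cast hz
  have hp0 : (0 : ℝ) < p := by linarith
  have hs : 100 ≤ Real.sqrt p := by
    rw [show (100 : ℝ) = Real.sqrt (100 ^ 2) by rw [Real.sqrt_sq (by norm_num)]]
    exact Real.sqrt_le_sqrt (by linarith)
  have hu : 1 / (p : ℝ) ≤ 1 / 10000 := one_div_le_one_div_of_le (by norm_num) hpr
  have hu0 : 0 < 1 / (p : ℝ) := by positivity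
  have hw : 1 / Real.sqrt p ≤ 1 / 100 := one_div_le_one_div_of_le (by norm_num) hs
  have hw0 : 0 < 1 / Real.sqrt p := by positivity
  -- the mean
  have hma : |ma χ p| ≤ 1 := by
    rw [ma]
    split_ifs with h1 h2
    · have e : 4 / Real.sqrt p / (1 + 1 / p) ≤ 4 / Real.sqrt p :=
        div_le_self (by positivity) (by linarith)
      rw [abs_of_nonneg (by positivity)]
      have : 4 / Real.sqrt p = 4 * (1 / Real.sqrt p) := by ring
      linarith
    · rw [abs_of_nonneg (by positivity)]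
      have : 2 / Real.sqrt p = 2 * (1 / Real.sqrt p) := by ring
      linarith
    · simp
  -- the variance
  have hv : 1 / 4 ≤ va χ p := by
    rw [va]
    split_ifs with h1
    · rw [div_le_div_iff₀ (by norm_num) (by positivity)]
      have a1 : (1 + 1 / (p : ℝ)) ^ 2 ≤ (1 + 1 / 10000) ^ 2 := by gcongr
      have a2 : (1 - 1 / 10000 : ℝ) ^ 4 ≤ (1 - 1 / (p : ℝ)) ^ 4 :=
        pow_le_pow_left₀ (by norm_num) (by linarith) 4
      nlinarith
    · linarith
  have hv2 : 1 / 2 ≤ Real.sqrt (va χ p) := by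
    rw [show (1 / 2 : ℝ) = Real.sqrt ((1 / 2) ^ 2) by rw [Real.sqrt_sq (by norm_num)]]
    exact Real.sqrt_le_sqrt (by linarith)
  have hph : |ph χ p y| ≤ 6 := by
    rw [ph, abs_div, abs_of_nonneg (Real.sqrt_nonneg _), div_le_iff₀ (by linarith)]
    have : |y - ma χ p| ≤ 3 := by
      calc |y - ma χ p| ≤ |y| + |ma χ p| := abs_sub _ _
        _ ≤ 3 := by linarith
    linarith
  have hg2 : |ga χ p| ≤ 1 / 10 := by
    rw [← Real.sqrt_sq_eq_abs, show (1 / 10 : ℝ) = Real.sqrt ((1 / 10) ^ 2) by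
      rw [Real.sqrt_sq (by norm_num)]]
    apply Real.sqrt_le_sqrt
    have : 10 / (p : ℝ) = 10 * (1 / p) := by ring
    linarith
  rw [abs_mul]
  nlinarith [abs_nonneg (ga χ p), abs_nonneg (ph χ p y)]

theorem mlb_card {S : Finset ℕ} (hS : ∀ p ∈ S, p.Prime) (K : ℕ) : (SQ S K).card ≤ K := by
  have h1 : (SQ S K).card ≤ (Finset.Icc 1 K).card := by
    apply Finset.card_le_card_of_injOn (fun J => ∏ p ∈ J, p)
    · intro J hJ
      have hJ' := Finset.mem_filter.mp (Finset.mem_coe.mp hJ)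
      have hJS := Finset.mem_powerset.mp hJ'.1
      rw [Finset.mem_coe, Finset.mem_Icc]
      exact ⟨Nat.one_le_iff_ne_zero.mpr (Finset.prod_ne_zero_iff.mpr
        fun p hp => (hS p (hJS hp)).ne_zero), hJ'.2⟩
    · intro J hJ L hL he
      have hJS := Finset.mem_powerset.mp (Finset.mem_filter.mp (Finset.mem_coe.mp hJ)).1
      have hLS := Finset.mem_powerset.mp (Finset.mem_filter.mp (Finset.mem_coe.mp hL)).1
      have e1 := Nat.primeFactors_prod (s := J) (fun p hp => hS p (hJS hp))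
      have e2 := Nat.primeFactors_prod (s := L) (fun p hp => hS p (hLS hp))
      rw [← e1, ← e2]
      exact congrArg Nat.primeFactors he
  simpa using h1

theorem br_size_pr : ∃ z₂ : ℕ, ∀ (q : ℕ) [NeZero q] (χ : DirichletCharacter ℂ q), PQ χ →
    ∀ z₀ z₁ K : ℕ, z₂ ≤ z₀ → 1 ≤ K → ∀ x : ℕ → ℝ, (∀ p, |x p| ≤ 2) →
    Measurable (br χ z₀ z₁ K) ∧ |br χ z₀ z₁ K x| ≤ K := by
  refine ⟨10000, ?_⟩
  intro q _ χ h z₀ z₁ K hz hK x hx
  constructor
  · unfold br
    refine Measurable.const_mul (Finset.measurable_sum _ fun J _ => ?_) _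
    refine Finset.measurable_prod _ fun p _ => ?_
    refine Measurable.const_mul ?_ _
    unfold ph
    exact ((measurable_pi_apply p).sub_const _).div_const _
  · have hS : ∀ p ∈ PR χ z₀ z₁, p.Prime ∧ 10000 ≤ p := by
      intro p hp
      rw [PR, Finset.mem_filter, Finset.mem_Ioc] at hp
      exact ⟨hp.2.1, by omega⟩
    have hH : 1 ≤ HS χ z₀ z₁ K := by
      rw [HS]
      have h0 : (∅ : Finset ℕ) ∈ SQ (PR χ z₀ z₁) K := by
        rw [SQ, Finset.mem_filter]
        exact ⟨Finset.empty_mem_powerset _, by simpa using hK⟩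
      have := Finset.single_le_sum (f := fun J : Finset ℕ => ∏ p ∈ J, ga χ p ^ 2)
        (fun J _ => Finset.prod_nonneg fun p _ => sq_nonneg _) h0
      simpa using this
    have hsum : |∑ J ∈ SQ (PR χ z₀ z₁) K, ∏ p ∈ J, (ga χ p * ph χ p (x p))| ≤ K := by
      calc |∑ J ∈ SQ (PR χ z₀ z₁) K, ∏ p ∈ J, (ga χ p * ph χ p (x p))|
          ≤ ∑ J ∈ SQ (PR χ z₀ z₁) K, |∏ p ∈ J, (ga χ p * ph χ p (x p))| :=
            Finset.abs_sum_le_sum_abs _ _
        _ ≤ ∑ J ∈ SQ (PR χ z₀ z₁) K, (1 : ℝ) := by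
            refine Finset.sum_le_sum fun J hJ => ?_
            have hJS := Finset.mem_powerset.mp (Finset.mem_filter.mp hJ).1
            rw [Finset.abs_prod]
            exact Finset.prod_le_one (fun p _ => abs_nonneg _) fun p hp =>
              mlb_local h (hS p (hJS hp)).1 (hS p (hJS hp)).2 (hx p)
        _ = ((SQ (PR χ z₀ z₁) K).card : ℝ) := by simp
        _ ≤ K := by exact_mod_cast mlb_card (fun p hp => (hS p hp).1) K
    rw [br, abs_mul, abs_of_nonneg (by positivity)]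
    have h1 : 1 / HS χ z₀ z₁ K ≤ 1 := by
      rw [div_le_one (by linarith)]; exact hH
    calc 1 / HS χ z₀ z₁ K * |∑ J ∈ SQ (PR χ z₀ z₁) K, ∏ p ∈ J, (ga χ p * ph χ p (x p))|
        ≤ 1 * K := by gcongr
      _ = K := one_mul _


end Pool.Agent.LM
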