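import Pool.Agent.Lib_helper53.LM.Defs
import Pool.Agent.Lib_helper41.LVBF.ELF
import Pool.Agent.Lib_helper41.LVBF.STO
import Pool.Agent.Lib_helper68.KSLF.RPO
import Pool.Agent.Lib_helper68.LSP2.TS
import Pool.Agent.Lib_helper53.LMF.MD
import Pool.Agent.Lib_helper53.LMF.ME

/-! LSP3, block MM, first part: the small primes and the last factor. -/

set_option autoImplicit false

namespace Pool.Agent.LM

open Complex MeasureTheory ProbabilityTheory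
open Pool.Agent.LSP (tau MX CC CB sg1 wX)
open Pool.Agent.LEV (Uu Um)
open Pool.Agent.LVB (IsST el)
open Pool.Agent.LK (Qe V PQ MW)
open Pool.Agent.LE

variable {q : ℕ} [NeZero q]

/-- the polynomial of the natural weights -/
noncomputable def mmS (m₀ : ℕ) (s : ℕ → ℝ) (x : ℕ → ℝ) : ℝ :=
  ∑ m ∈ Finset.Icc 1 m₀, s m * Um m x

/-- one factor of `1 / ∏ pp` -/
noncomputable def mmL (c : ℝ) (p : ℕ) (y : ℝ) : ℝ := 1 - c * y / Real.sqrt p + c ^ 2 / p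

/-- the part of the small primes -/
noncomputable def mmB (χ : DirichletCharacter ℂ q) (z₀ m₀ : ℕ) (s : ℕ → ℝ) (x : ℕ → ℝ) : ℝ :=
  mmS m₀ s x * ∏ p ∈ Pz z₀, (mmL 1 p (x p) * mmL (cv χ p) p (x p))

theorem mm_prime {z p : ℕ} (hp : p ∈ Pz z) : p.Prime ∧ p ≤ z := by
  unfold Pz at hp
  rw [Finset.mem_filter, Finset.mem_Icc] at hp
  exact ⟨hp.2, hp.1.2⟩

theorem mm_memPz {z p : ℕ} (hp : p.Prime) (h : p ≤ z) : p ∈ Pz z := by
  unfold Pz
  rw [Finset.mem_filter, Finset.mem_Icc]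
  exact ⟨⟨hp.one_lt.le, h⟩, hp⟩

theorem mmS_meas (m₀ : ℕ) (s : ℕ → ℝ) : Measurable (mmS m₀ s) := by
  unfold mmS
  exact Finset.measurable_fun_sum _ fun m _ => (KSL.rpo_Um_cont m).measurable.const_mul _

theorem mmS_dep {m₀ z₀ : ℕ} (hz : m₀ ≤ z₀) (s : ℕ → ℝ) {x y : ℕ → ℝ}
    (h : ∀ p ∈ Pz z₀, x p = y p) : mmS m₀ s x = mmS m₀ s y := by
  unfold mmS
  refine Finset.sum_congr rfl fun m hm => ?_
  have hm' := Finset.mem_Icc.mp hm
  rw [KSL.rpo_Um_congr (I := Pz z₀) ?_ h]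
  intro p hp
  exact mm_memPz (Nat.prime_of_mem_primeFactors hp)
    (((Nat.le_of_mem_primeFactors hp).trans hm'.2).trans hz)

theorem mmB_meas (χ : DirichletCharacter ℂ q) (z₀ m₀ : ℕ) (s : ℕ → ℝ) :
    Measurable (mmB χ z₀ m₀ s) := by
  unfold mmB mmL
  refine (mmS_meas m₀ s).mul (Finset.measurable_fun_prod _ fun p _ => ?_)
  fun_prop

theorem mmB_dep (χ : DirichletCharacter ℂ q) {m₀ z₀ : ℕ} (hz : m₀ ≤ z₀) (s : ℕ → ℝ)
    {x y : ℕ → ℝ} (h : ∀ p ∈ Pz z₀, x p = y p) : mmB χ z₀ m₀ s x = mmB χ z₀ m₀ s y := by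
  unfold mmB
  rw [mmS_dep hz s h]
  congr 1
  exact Finset.prod_congr rfl fun p hp => by rw [h p hp]

theorem mmL_pp (χ : DirichletCharacter ℂ q) (p : ℕ) (y : ℝ) :
    pp χ p y = (mmL 1 p y * mmL (cv χ p) p y)⁻¹ := by
  unfold pp mmL
  rw [one_mul, one_pow]

theorem mmB_pp {χ : DirichletCharacter ℂ q} (h : PQ χ) (z₀ m₀ : ℕ) (s : ℕ → ℝ) {x : ℕ → ℝ}
    (hx : ∀ p ∈ Pz z₀, |x p| ≤ 2) : mmB χ z₀ m₀ s x * ∏ p ∈ Pz z₀, pp χ p (x p) = mmS m₀ s x := by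
  unfold mmB
  rw [mul_assoc, ← Finset.prod_mul_distrib, Finset.prod_eq_one, mul_one]
  intro p hp
  have h1 := (pp_facts_pr h (mm_prime hp).1 (hx p hp)).1
  have h2 : pp χ p (x p) ≠ 0 := by
    have : (0 : ℝ) < 1 / 10 := by norm_num
    linarith
  rw [mmL_pp] at h2 ⊢
  exact mul_inv_cancel₀ fun h0 => h2 (by rw [h0, inv_zero])

theorem mmL_isv {c : ℝ} {p : ℕ} (hp : p.Prime) :
    ∃ v, IsV p v (fun x => mmL c p (x p)) := by
  have hsq : Real.sqrt p ≠ 0 := (Real.sqrt_pos.mpr (by exact_mod_cast hp.pos)).ne'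
  refine ⟨fun e => if e = 1 then 1 + c ^ 2 / p else if e = p then -c else 0, ?_, ?_⟩
  · intro e he
    by_cases h1 : e = 1
    · exact ⟨h1.ge, by rw [h1]; exact hp.one_lt.le⟩
    · simp only [h1, if_false] at he
      by_cases h2 : e = p
      · exact ⟨by rw [h2]; exact hp.one_lt.le, h2.le⟩
      · simp [h2] at he
  · intro la
    unfold MX
    rw [← Finset.sum_subset (s₁ := {1, p})]
    · rw [Finset.sum_pair hp.one_lt.ne]
      simp only [if_true]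
      rw [if_neg hp.one_lt.ne', LEV.HPO_um_one, LSP.ts_um hp]
      unfold mmL
      simp
      ring
    · intro e he
      rw [Finset.mem_insert, Finset.mem_singleton] at he
      rw [Finset.mem_Icc]
      rcases he with rfl | rfl
      · exact ⟨le_rfl, hp.one_lt.le⟩
      · exact ⟨hp.one_lt.le, le_rfl⟩
    · intro e _ he
      rw [Finset.mem_insert, Finset.mem_singleton, not_or] at he
      simp [he.1, he.2]

theorem mm_isv_one : IsV 1 (fun e => if e = 1 then 1 else 0) (fun _ => 1) := by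
  refine ⟨fun e he => ?_, fun la => ?_⟩
  · by_cases h : e = 1
    · rw [h]
      exact ⟨le_rfl, le_rfl⟩
    · simp [h] at he
  · unfold MX
    simp [LEV.HPO_um_one]

theorem mm_isv_prod (S : Finset ℕ) (hS : ∀ p ∈ S, 1 ≤ p) {F : ℕ → (ℕ → ℝ) → ℝ} {k : ℕ → ℕ}
    (hF : ∀ p ∈ S, ∃ v, IsV (k p) v (F p)) :
    ∃ v, IsV (∏ p ∈ S, k p) v (fun x => ∏ p ∈ S, F p x) := by
  classical
  induction S using Finset.induction_on with
  | empty => exact ⟨_, mm_isv_one⟩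
  | insert a S ha ih =>
    obtain ⟨v, hv⟩ := ih (fun p hp => hS p (Finset.mem_insert_of_mem hp))
      (fun p hp => hF p (Finset.mem_insert_of_mem hp))
    obtain ⟨w, hw⟩ := hF a (Finset.mem_insert_self _ _)
    obtain ⟨u, hu⟩ := isv_mul_pr hw hv
    refine ⟨u, ?_⟩
    simp only [Finset.prod_insert ha]
    exact hu

theorem mmS_isv {m₀ : ℕ} {s : ℕ → ℝ} (hs : SuppIn m₀ s) :
    IsV m₀ (fun m => Real.sqrt m * s m) (mmS m₀ s) := by
  refine ⟨fun e he => hs e (right_ne_zero_of_mul he), fun la => ?_⟩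
  unfold MX mmS
  refine Finset.sum_congr rfl fun m hm => ?_
  have hm' := Finset.mem_Icc.mp hm
  have : Real.sqrt m ≠ 0 := (Real.sqrt_pos.mpr (by exact_mod_cast hm'.1)).ne'
  field_simp

/-- the length of the part of the small primes -/
def mmK (z₀ m₀ : ℕ) : ℕ := m₀ * ∏ p ∈ Pz z₀, (p * p)

theorem mmB_isv (χ : DirichletCharacter ℂ q) (z₀ : ℕ) {m₀ : ℕ} {s : ℕ → ℝ}
    (hs : SuppIn m₀ s) : ∃ v, IsV (mmK z₀ m₀) v (mmB χ z₀ m₀ s) := by
  obtain ⟨w, hw⟩ := mm_isv_prod (Pz z₀) (fun p hp => (mm_prime hp).1.one_lt.le)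
    (F := fun p x => mmL 1 p (x p) * mmL (cv χ p) p (x p)) (k := fun p => p * p) (fun p hp => by
      obtain ⟨v₁, h₁⟩ := mmL_isv (c := 1) (mm_prime hp).1
      obtain ⟨v₂, h₂⟩ := mmL_isv (c := cv χ p) (mm_prime hp).1
      exact isv_mul_pr h₁ h₂)
  exact isv_mul_pr (mmS_isv hs) hw

theorem mmS_sup (m₀ : ℕ) (s : ℕ → ℝ) : ∃ MS : ℝ, 0 ≤ MS ∧
    ∀ la : ℕ → ℝ, (∀ p, |la p| ≤ 2) → |mmS m₀ s la| ≤ MS := by
  have hMS : ∀ la : ℕ → ℝ, (∀ p, |la p| ≤ 2) → |mmS m₀ s la| ≤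
      ∑ m ∈ Finset.Icc 1 m₀, |s m| * ∏ p ∈ m.primeFactors, ((m.factorization p : ℝ) + 1) := by
    intro la hla
    unfold mmS
    refine (Finset.abs_sum_le_sum_abs _ _).trans (Finset.sum_le_sum fun m _ => ?_)
    rw [abs_mul]
    refine mul_le_mul_of_nonneg_left ?_ (abs_nonneg _)
    unfold Um
    rw [Finset.abs_prod]
    exact Finset.prod_le_prod (fun p _ => abs_nonneg _) fun p _ => LVB.uu_le (hla p) _
  exact ⟨_, (abs_nonneg _).trans (hMS (fun _ => 0) (fun p => by simp)), hMS⟩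

theorem mmB_sup (z₀ m₀ : ℕ) (s : ℕ → ℝ) : ∃ M : ℝ, 0 ≤ M ∧
    ∀ (q : ℕ) [NeZero q] (χ : DirichletCharacter ℂ q), PQ χ → ∀ la : ℕ → ℝ,
      (∀ p, |la p| ≤ 2) → |mmB χ z₀ m₀ s la| ≤ M := by
  obtain ⟨MS, hMS0, hMS⟩ := mmS_sup m₀ s
  refine ⟨MS * ∏ p ∈ Pz z₀, (16 : ℝ), by positivity, ?_⟩
  intro q _ χ h la hla
  unfold mmB
  rw [abs_mul, Finset.abs_prod]
  refine mul_le_mul (hMS la hla) ?_ (Finset.prod_nonneg fun p _ => abs_nonneg _) hMS0
  refine Finset.prod_le_prod (fun p _ => abs_nonneg _) fun p hp => ?_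
  have hp' := (mm_prime hp).1
  have hsq1 : 1 ≤ Real.sqrt p := by
    rw [Real.one_le_sqrt]
    exact_mod_cast hp'.one_lt.le
  have hp1 : (1 : ℝ) ≤ p := by exact_mod_cast hp'.one_lt.le
  have hL : ∀ c : ℝ, |c| ≤ 1 → |mmL c p (la p)| ≤ 4 := by
    intro c hc
    unfold mmL
    have e1 : |c * la p / Real.sqrt p| ≤ 2 := by
      rw [abs_div, abs_mul, abs_of_pos (by linarith : (0 : ℝ) < Real.sqrt p), div_le_iff₀ (by linarith)]
      have := mul_le_mul hc (hla p) (abs_nonneg _) zero_le_one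
      linarith
    have e2 : |c ^ 2 / p| ≤ 1 := by
      rw [abs_of_nonneg (by positivity), div_le_one (by linarith)]
      have : c ^ 2 ≤ 1 := by
        rw [← sq_abs]
        exact pow_le_one₀ (abs_nonneg _) hc
      linarith
    rw [abs_le] at e1 e2 ⊢
    constructor <;> linarith
  rw [abs_mul]
  have e1 := hL 1 (by simp)
  have e2 := hL (cv χ p) (by
    rcases (cv_cases_pr h p).2 with h3 | h3 | h3 <;> rw [h3] <;> simp)
  nlinarith [abs_nonneg (mmL 1 p (la p)), abs_nonneg (mmL (cv χ p) p (la p))]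

/-- the coefficients are bounded, uniformly in the character -/
theorem mmB_isv_bound (z₀ m₀ : ℕ) (s : ℕ → ℝ) : ∃ M : ℝ, 0 ≤ M ∧
    ∀ (q : ℕ) [NeZero q] (χ : DirichletCharacter ℂ q), PQ χ → ∀ v, IsV (mmK z₀ m₀) v (mmB χ z₀ m₀ s) →
      ∀ e, |v e| ≤ M := by
  obtain ⟨M, hM0, hM⟩ := mmB_sup z₀ m₀ s
  refine ⟨Real.sqrt (mmK z₀ m₀) * M, by positivity, ?_⟩
  intro q _ χ h v hv e
  have h1 := isv_bound_pr hv (hM q χ h) e
  by_cases he : v e = 0
  · rw [he, abs_zero]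
    positivity
  · refine h1.trans (mul_le_mul_of_nonneg_right ?_ hM0)
    exact Real.sqrt_le_sqrt (by exact_mod_cast (hv.1 e he).2)

end Pool.Agent.LM
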