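import Pool.Agent.Lib_helper53.LMF.MMa

/-! LSP3, block MM, second part: products of vectors. -/

set_option autoImplicit false

namespace Pool.Agent.LM

open Complex MeasureTheory ProbabilityTheory
open scoped Pointwise
open Pool.Agent.LSP (tau MX CC CB sg1 wX)
open Pool.Agent.LEV (Uu Um)
open Pool.Agent.LVB (IsST el)
open Pool.Agent.LK (Qe V PQ MW)
open Pool.Agent.LE

theorem mm_tau_mul (m n : ℕ) : tau (m * n) ≤ tau m * tau n := by
  unfold tau
  rw [Nat.divisors_mul]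
  exact_mod_cast Finset.card_mul_le

theorem mm_tau_nonneg (n : ℕ) : 0 ≤ tau n := by unfold tau; positivity

theorem mm_tau_mono {m n : ℕ} (hn : n ≠ 0) (h : m ∣ n) : tau m ≤ tau n := by
  unfold tau
  exact_mod_cast Finset.card_le_card (Nat.divisors_subset_of_dvd hn h)

theorem mm_tau_one {n : ℕ} (hn : 1 ≤ n) : 1 ≤ tau n := by
  unfold tau
  exact_mod_cast Finset.card_pos.mpr ⟨1, Nat.one_mem_divisors.mpr (by omega)⟩

theorem mm_hp_tau {E A : ℕ} {T : Finset ℕ} {y x : ℕ → ℝ} {M L : ℝ} (hT : ∀ t ∈ T, 1 ≤ t)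
    (hy : ∀ e, y e ≠ 0 → e ∈ T) (hM : ∀ e, |y e| ≤ M) (hL : 0 ≤ L)
    (hx : ∀ e, |x e| ≤ L * tau e ^ A) (n : ℕ) :
    |HP E y x n| ≤ M * L * (∑ t ∈ T, tau t ^ (A + 1)) * tau n ^ A := by
  classical
  have hM0 : 0 ≤ M := (abs_nonneg _).trans (hM 0)
  set S := ((Finset.Icc 1 E) ×ˢ n.divisorsAntidiagonal).filter (fun u => u.1 * u.2.1 ∈ T) with hS
  have h1 : |HP E y x n| ≤ ∑ u ∈ S, M * L * (tau (u.1 * u.2.1) * tau n) ^ A := by
    unfold HP
    simp_rw [Finset.mul_sum]
    rw [← Finset.sum_product']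
    refine (Finset.abs_sum_le_sum_abs _ _).trans ?_
    rw [← Finset.sum_filter_add_sum_filter_not _ (fun u : ℕ × ℕ × ℕ => u.1 * u.2.1 ∈ T)]
    have h0 : ∑ u ∈ ((Finset.Icc 1 E) ×ˢ n.divisorsAntidiagonal).filter
        (fun u => ¬ u.1 * u.2.1 ∈ T), |1 / (u.1 : ℝ) * (y (u.1 * u.2.1) * x (u.1 * u.2.2))| = 0 := by
      refine Finset.sum_eq_zero fun u hu => ?_
      have hu2 := (Finset.mem_filter.mp hu).2
      have : y (u.1 * u.2.1) = 0 := by
        by_contra hc
        exact hu2 (hy _ hc)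
      rw [this]
      simp
    rw [h0, add_zero]
    refine Finset.sum_le_sum fun u hu => ?_
    obtain ⟨hu1, hu2⟩ := Finset.mem_filter.mp hu
    obtain ⟨hu3, hu4⟩ := Finset.mem_product.mp hu1
    have hu5 := (Finset.mem_Icc.mp hu3).1
    obtain ⟨hu6, hu7⟩ := Nat.mem_divisorsAntidiagonal.mp hu4
    have hj : (1 : ℝ) ≤ u.1 := by exact_mod_cast hu5
    rw [abs_mul, abs_mul, abs_of_nonneg (by positivity : (0 : ℝ) ≤ 1 / (u.1 : ℝ))]
    have h2 : tau (u.1 * u.2.2) ≤ tau (u.1 * u.2.1) * tau n := by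
      refine (mm_tau_mul _ _).trans ?_
      refine mul_le_mul (mm_tau_mono (by have := hT _ hu2; omega) (Dvd.intro _ rfl))
        (mm_tau_mono hu7 ⟨u.2.1, by rw [mul_comm]; exact hu6.symm⟩) (mm_tau_nonneg _)
        (mm_tau_nonneg _)
    calc 1 / (u.1 : ℝ) * (|y (u.1 * u.2.1)| * |x (u.1 * u.2.2)|)
        ≤ 1 * (M * (L * (tau (u.1 * u.2.1) * tau n) ^ A)) := by
          refine mul_le_mul ((div_le_one (by linarith)).mpr hj) ?_ (by positivity) zero_le_one
          refine mul_le_mul (hM _) ((hx _).trans ?_) (abs_nonneg _) hM0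
          exact mul_le_mul_of_nonneg_left (pow_le_pow_left₀ (mm_tau_nonneg _) h2 _) hL
      _ = _ := by ring
  refine h1.trans ?_
  rw [← Finset.sum_fiberwise_of_maps_to (s := S) (t := T) (g := fun u => u.1 * u.2.1)
    (fun u hu => (Finset.mem_filter.mp hu).2)]
  have h3 : ∀ t ∈ T, ∑ u ∈ S.filter (fun u => u.1 * u.2.1 = t),
      M * L * (tau (u.1 * u.2.1) * tau n) ^ A ≤ tau t * (M * L * (tau t * tau n) ^ A) := by
    intro t ht
    have h4 : ∑ u ∈ S.filter (fun u => u.1 * u.2.1 = t),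
        M * L * (tau (u.1 * u.2.1) * tau n) ^ A =
        ∑ u ∈ S.filter (fun u => u.1 * u.2.1 = t), M * L * (tau t * tau n) ^ A :=
      Finset.sum_congr rfl fun u hu => by rw [(Finset.mem_filter.mp hu).2]
    rw [h4, Finset.sum_const, nsmul_eq_mul]
    have hτ := mm_tau_nonneg t
    have hτn := mm_tau_nonneg n
    refine mul_le_mul_of_nonneg_right ?_ (by positivity)
    unfold tau
    norm_cast
    refine Finset.card_le_card_of_injOn (fun u => u.1) ?_ ?_
    · intro u hu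
      have hu' := Finset.mem_filter.mp (Finset.mem_coe.mp hu)
      have ht1 := hT t ht
      exact Finset.mem_coe.mpr (Nat.mem_divisors.mpr ⟨⟨u.2.1, hu'.2.symm⟩, by omega⟩)
    · intro u hu v hv huv
      have hu' := Finset.mem_filter.mp (Finset.mem_coe.mp hu)
      have hv' := Finset.mem_filter.mp (Finset.mem_coe.mp hv)
      have hu2 := Finset.mem_product.mp (Finset.mem_filter.mp hu'.1).1
      have hv2 := Finset.mem_product.mp (Finset.mem_filter.mp hv'.1).1
      have hu3 := (Finset.mem_Icc.mp hu2.1).1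
      obtain ⟨hu4, hn⟩ := Nat.mem_divisorsAntidiagonal.mp hu2.2
      obtain ⟨hv4, -⟩ := Nat.mem_divisorsAntidiagonal.mp hv2.2
      simp only at huv
      have h5 : u.2.1 = v.2.1 := by
        have h6 : u.1 * u.2.1 = u.1 * v.2.1 := by rw [hu'.2, huv, hv'.2]
        exact Nat.eq_of_mul_eq_mul_left (by omega) h6
      have h7 : u.2.2 = v.2.2 := by
        have h8 : 0 < u.2.1 := by
          rcases Nat.eq_zero_or_pos u.2.1 with h9 | h9
          · rw [h9, zero_mul] at hu4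
            exact absurd hu4.symm hn
          · exact h9
        have h9 : u.2.1 * u.2.2 = u.2.1 * v.2.2 := by rw [hu4, h5, hv4]
        exact Nat.eq_of_mul_eq_mul_left h8 h9
      exact Prod.ext huv (Prod.ext h5 h7)
  refine (Finset.sum_le_sum h3).trans (le_of_eq ?_)
  rw [Finset.mul_sum, Finset.sum_mul]
  exact Finset.sum_congr rfl fun t _ => by ring

/-- the vector of the last factor -/
noncomputable def mmT (p₀ : ℕ) (e : ℕ) : ℝ :=
  if e = 1 then 1 else if e = p₀ then -(p₀ / (p₀ + 1)) else 0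

theorem mmT_isv {p₀ : ℕ} (hp : p₀.Prime) : IsV p₀ (mmT p₀) (th p₀) ∧
    ∑ e ∈ Finset.Icc 1 p₀, mmT p₀ e * sg1 e / e = 0 ∧ (∀ e, mmT p₀ e ≠ 0 → e ∈ ({1, p₀} : Finset ℕ)) ∧
    ∀ e, |mmT p₀ e| ≤ 1 := by
  have hsq : Real.sqrt p₀ ≠ 0 := (Real.sqrt_pos.mpr (by exact_mod_cast hp.pos)).ne'
  have hp0 : (p₀ : ℝ) ≠ 0 := by exact_mod_cast hp.pos.ne'
  have hp1 : (p₀ : ℝ) + 1 ≠ 0 := by positivity
  have hsub : ({1, p₀} : Finset ℕ) ⊆ Finset.Icc 1 p₀ := by
    intro e he
    rw [Finset.mem_insert, Finset.mem_singleton] at he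
    rw [Finset.mem_Icc]
    rcases he with rfl | rfl
    · exact ⟨le_rfl, hp.one_lt.le⟩
    · exact ⟨hp.one_lt.le, le_rfl⟩
  have hsupp : ∀ e, mmT p₀ e ≠ 0 → e ∈ ({1, p₀} : Finset ℕ) := by
    intro e he
    unfold mmT at he
    rw [Finset.mem_insert, Finset.mem_singleton]
    by_contra hc
    rw [not_or] at hc
    rw [if_neg hc.1, if_neg hc.2] at he
    exact he rfl
  have e1 : mmT p₀ 1 = 1 := by unfold mmT; rw [if_pos rfl]
  have e2 : mmT p₀ p₀ = -(p₀ / (p₀ + 1)) := by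
    unfold mmT; rw [if_neg hp.one_lt.ne', if_pos rfl]
  refine ⟨⟨fun e he => Finset.mem_Icc.mp (hsub (hsupp e he)), fun la => ?_⟩, ?_, hsupp, fun e => ?_⟩
  · unfold MX
    rw [← Finset.sum_subset hsub (fun e _ he => by
      have : mmT p₀ e = 0 := by
        by_contra hc
        exact he (hsupp e hc)
      rw [this]; simp), Finset.sum_pair hp.one_lt.ne, e1, e2, LEV.HPO_um_one, LSP.ts_um hp]
    unfold th
    simp
    ring
  · rw [← Finset.sum_subset hsub (fun e _ he => by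
      have : mmT p₀ e = 0 := by
        by_contra hc
        exact he (hsupp e hc)
      rw [this]; simp), Finset.sum_pair hp.one_lt.ne, e1, e2]
    unfold sg1
    rw [Nat.divisors_one, Finset.sum_singleton, hp.sum_divisors]
    push_cast
    field_simp
    ring
  · unfold mmT
    split_ifs
    · simp
    · rw [abs_neg, abs_of_nonneg (by positivity), div_le_one (by positivity)]
      linarith
    · simp

end Pool.Agent.LM
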