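import Pool.Agent.Lib_helper53.LMF.MMb
import Pool.Agent.Lib_helper53.LEF.EQ
import Pool.Agent.Lib_helper53.LMF.MA
import Pool.Agent.Lib_helper53.LMF.ME

/-! LSP3, block MM, third part: the mollifier. -/

set_option autoImplicit false

namespace Pool.Agent.LM

open Complex MeasureTheory ProbabilityTheory
open Pool.Agent.LSP (tau MX CC CB sg1 wX)
open Pool.Agent.LEV (Uu Um)
open Pool.Agent.LVB (IsST el)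
open Pool.Agent.LK (Qe V PQ MW)
open Pool.Agent.LE

theorem mm_three {I : Finset ℕ} {P : Measure (ℕ → ℝ)} (hP : IsST I P) {w : ℕ → ℝ → ℂ}
    (hw : ∀ p ∈ I, Measurable (w p)) (hw0 : ∀ p ∈ I, ∫ x, w p (x p) ∂P ≠ 0)
    {J₁ J₂ J₃ : Finset ℕ} (h₁ : J₁ ⊆ I) (h₂ : J₂ ⊆ I) (h₃ : J₃ ⊆ I) (h12 : Disjoint J₁ J₂)
    (h13 : Disjoint J₁ J₃) (h23 : Disjoint J₂ J₃)
    {F₁ F₂ F₃ : (ℕ → ℝ) → ℝ} (hF₁ : Measurable F₁) (hF₂ : Measurable F₂) (hF₃ : Measurable F₃)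
    (hD₁ : ∀ x y : ℕ → ℝ, (∀ p ∈ J₁, x p = y p) → F₁ x = F₁ y)
    (hD₂ : ∀ x y : ℕ → ℝ, (∀ p ∈ J₂, x p = y p) → F₂ x = F₂ y)
    (hD₃ : ∀ x y : ℕ → ℝ, (∀ p ∈ J₃, x p = y p) → F₃ x = F₃ y) :
    EW P I w (fun x => F₁ x * (F₂ x * F₃ x)) = EW P I w F₁ * (EW P I w F₂ * EW P I w F₃) := by
  classical
  rw [ew_indep_pr hP hw hw0 h₁ (Finset.union_subset h₂ h₃)
    (Finset.disjoint_union_right.mpr ⟨h12, h13⟩) (F₂ := fun x => F₂ x * F₃ x) hF₁ (hF₂.mul hF₃) hD₁ (fun x y h => by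
      rw [hD₂ x y fun p hp => h p (Finset.mem_union_left _ hp),
        hD₃ x y fun p hp => h p (Finset.mem_union_right _ hp)]),
    ew_indep_pr hP hw hw0 h₂ h₃ h23 hF₂ hF₃ hD₂ hD₃]

variable {q : ℕ} [NeZero q]

/-- the weights at real points -/
theorem mm_w2_real {χ : DirichletCharacter ℂ q} (h : PQ χ) {I : Finset ℕ} {P : Measure (ℕ → ℝ)}
    (hP : IsST I P) {p : ℕ} (hp : p ∈ I) (hpp : p.Prime) (f : ℝ → ℝ) :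
    ∫ x, (f (x p) : ℂ) * w2 χ 0 0 0 p (x p) ∂P = ((∫ x, f (x p) * pp χ p (x p) ^ 2 ∂P : ℝ) : ℂ) := by
  rw [← integral_complex_ofReal]
  refine integral_congr_ae ?_
  filter_upwards [hP.bdd] with x hx
  rw [← (pp_facts_pr h hpp (hx p hp)).2.2.2, Complex.ofReal_mul]

theorem mm_w1_real {χ : DirichletCharacter ℂ q} (h : PQ χ) {I : Finset ℕ} {P : Measure (ℕ → ℝ)}
    (hP : IsST I P) {p : ℕ} (hp : p ∈ I) (hpp : p.Prime) (f : ℝ → ℝ) :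
    ∫ x, (f (x p) : ℂ) * w1 χ 0 p (x p) ∂P = ((∫ x, f (x p) * pp χ p (x p) ∂P : ℝ) : ℂ) := by
  rw [← integral_complex_ofReal]
  refine integral_congr_ae ?_
  filter_upwards [hP.bdd] with x hx
  rw [← (pp_facts_pr h hpp (hx p hp)).2.2.1, Complex.ofReal_mul]

/-- conditions on the weights -/
theorem mm_w2_ok (χ : DirichletCharacter ℂ q) {I : Finset ℕ} {P : Measure (ℕ → ℝ)}
    (hI : ∀ p ∈ I, p.Prime) (hP : IsST I P) {r s z : ℂ} (hr : ‖r‖ ≤ 1 / 8) (hs : ‖s‖ ≤ 1 / 8)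
    (hz : ‖z‖ ≤ 1 / 8) : (∀ p ∈ I, Measurable (w2 χ r s z p)) ∧
      ∀ p ∈ I, ∫ x, w2 χ r s z p (x p) ∂P ≠ 0 := by
  have hz' : -(3 / 10) ≤ z.re := by
    have := (abs_le.mp ((Complex.abs_re_le_norm z).trans hz)).1
    linarith
  refine ⟨fun p hp => (w2_facts_pr χ (hI p hp) (hr.trans (by norm_num)) (hs.trans (by norm_num))
    hz').1, fun p hp h0 => ?_⟩
  have h1 := (w2_facts_pr χ (hI p hp) (hr.trans (by norm_num)) (hs.trans (by norm_num)) hz').2.2 I P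
    hP hp
  rw [h0, norm_zero] at h1
  norm_num at h1

theorem mm_w1_ok (χ : DirichletCharacter ℂ q) {I : Finset ℕ} {P : Measure (ℕ → ℝ)}
    (hI : ∀ p ∈ I, p.Prime) (hP : IsST I P) {z : ℂ}
    (hz : ‖z‖ ≤ 1 / 8) : (∀ p ∈ I, Measurable (w1 χ z p)) ∧
      ∀ p ∈ I, ∫ x, w1 χ z p (x p) ∂P ≠ 0 := by
  have hz' : -(3 / 10) ≤ z.re := by
    have := (abs_le.mp ((Complex.abs_re_le_norm z).trans hz)).1
    linarith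
  refine ⟨fun p hp => (w1_facts_pr χ (hI p hp) hz').1, fun p hp h0 => ?_⟩
  have h1 := (w1_facts_pr χ (hI p hp) hz').2.2 I P hP hp
  rw [h0, norm_zero] at h1
  norm_num at h1

theorem th_dep (p₀ : ℕ) (x y : ℕ → ℝ) (h : ∀ p ∈ ({p₀} : Finset ℕ), x p = y p) :
    th p₀ x = th p₀ y := by
  unfold th
  rw [h p₀ (Finset.mem_singleton_self _)]

theorem th_meas (p₀ : ℕ) : Measurable (th p₀) := by
  unfold th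
  fun_prop

/-- the last factor -/
theorem mm_th {χ : DirichletCharacter ℂ q} (h : PQ χ) {I : Finset ℕ} {P : Measure (ℕ → ℝ)}
    (hI : ∀ p ∈ I, p.Prime) (hP : IsST I P) {p₀ : ℕ} (hp : p₀ ∈ I) {Cp : ℝ} {δ : ℝ}
    (hδ : δ ≤ 1 / 8)
    (hpert : ∀ r s z : ℂ, ‖r‖ ≤ δ → ‖s‖ ≤ δ → ‖z‖ ≤ δ →
      ‖(∫ x, ((1 - p₀ / (p₀ + 1) * x p₀ / Real.sqrt p₀ : ℝ) : ℂ) ^ 2 * w2 χ r s z p₀ (x p₀) ∂P) /
      (∫ x, w2 χ r s z p₀ (x p₀) ∂P) - 1‖ ≤ Cp / Real.sqrt p₀ ∧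
    ‖(∫ x, ((1 - p₀ / (p₀ + 1) * x p₀ / Real.sqrt p₀ : ℝ) : ℂ) * w1 χ z p₀ (x p₀) ∂P) /
      (∫ x, w1 χ z p₀ (x p₀) ∂P) - 1‖ ≤ Cp / Real.sqrt p₀) :
    (∀ r s z : ℂ, ‖r‖ ≤ δ → ‖s‖ ≤ δ → ‖z‖ ≤ δ →
      ‖EW P I (w2 χ r s z) (fun x => th p₀ x ^ 2) - 1‖ ≤ Cp / Real.sqrt p₀ ∧
      ‖EW P I (w1 χ z) (th p₀) - 1‖ ≤ Cp / Real.sqrt p₀) ∧
    ∃ T₁ T₂ : ℝ, EW P I (w2 χ 0 0 0) (fun x => th p₀ x ^ 2) = (T₂ : ℂ) ∧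
      EW P I (w1 χ 0) (th p₀) = (T₁ : ℂ) := by
  have hsub : ({p₀} : Finset ℕ) ⊆ I := by
    intro p hp'
    rw [Finset.mem_singleton] at hp'
    rw [hp']
    exact hp
  set f : ℕ → ℝ → ℝ := fun p y => 1 - p / (p + 1) * y / Real.sqrt p with hf
  have hfm : ∀ p, Measurable (f p) := fun p => by
    simp only [hf]
    fun_prop
  have e2 : (fun x : ℕ → ℝ => th p₀ x ^ 2) = fun x => ∏ p ∈ ({p₀} : Finset ℕ), (f p (x p)) ^ 2 := by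
    funext x
    rw [Finset.prod_singleton]
    rfl
  have e1 : (th p₀) = fun x => ∏ p ∈ ({p₀} : Finset ℕ), f p (x p) := by
    funext x
    rw [Finset.prod_singleton]
    rfl
  have k2 : ∀ r s z : ℂ, ‖r‖ ≤ 1 / 8 → ‖s‖ ≤ 1 / 8 → ‖z‖ ≤ 1 / 8 →
      EW P I (w2 χ r s z) (fun x => th p₀ x ^ 2) =
      (∫ x, (((f p₀ (x p₀)) ^ 2 : ℝ) : ℂ) * w2 χ r s z p₀ (x p₀) ∂P) /
        ∫ x, w2 χ r s z p₀ (x p₀) ∂P := by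
    intro r s z hr hs hz
    obtain ⟨a1, a2⟩ := mm_w2_ok χ hI hP hr hs hz
    rw [e2, ew_prod_pr hP a1 a2 hsub (f := fun p y => f p y ^ 2) (fun p _ => (hfm p).pow_const 2),
      Finset.prod_singleton]
  have k1 : ∀ z : ℂ, ‖z‖ ≤ 1 / 8 → EW P I (w1 χ z) (th p₀) =
      (∫ x, (f p₀ (x p₀) : ℂ) * w1 χ z p₀ (x p₀) ∂P) / ∫ x, w1 χ z p₀ (x p₀) ∂P := by
    intro z hz
    obtain ⟨a1, a2⟩ := mm_w1_ok χ hI hP hz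
    rw [e1, ew_prod_pr hP a1 a2 hsub (f := f) (fun p _ => hfm p), Finset.prod_singleton]
  refine ⟨fun r s z hr hs hz => ?_, ?_⟩
  · obtain ⟨a1, a2⟩ := hpert r s z hr hs hz
    rw [k2 r s z (hr.trans hδ) (hs.trans hδ) (hz.trans hδ), k1 z (hz.trans hδ)]
    simp only [Complex.ofReal_pow]
    exact ⟨a1, a2⟩
  · have z8 : ‖(0 : ℂ)‖ ≤ 1 / 8 := by simp
    rw [k2 0 0 0 z8 z8 z8, k1 0 z8]
    have hpp := hI p₀ hp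
    have i2 := mm_w2_real h hP hp hpp (fun y => f p₀ y ^ 2)
    have i1 := mm_w1_real h hP hp hpp (fun y => f p₀ y)
    have j2 := mm_w2_real h hP hp hpp (fun _ => 1)
    have j1 := mm_w1_real h hP hp hpp (fun _ => 1)
    simp only [Complex.ofReal_one, one_mul] at j1 j2
    refine ⟨(∫ x, f p₀ (x p₀) * pp χ p₀ (x p₀) ∂P) / ∫ x, pp χ p₀ (x p₀) ∂P,
      (∫ x, f p₀ (x p₀) ^ 2 * pp χ p₀ (x p₀) ^ 2 ∂P) / ∫ x, pp χ p₀ (x p₀) ^ 2 ∂P, ?_, ?_⟩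
    · rw [j2, i2, Complex.ofReal_div]
    · rw [j1, i1, Complex.ofReal_div]

/-- the smooth part: the integral of the square -/
theorem mm_sq {I : Finset ℕ} {P : Measure (ℕ → ℝ)} (hI : ∀ p ∈ I, p.Prime) (hP : IsST I P)
    {z₀ m₀ : ℕ} (hz : m₀ ≤ z₀) (hzI : Pz z₀ ⊆ I) {s : ℕ → ℝ} (hs : SuppIn m₀ s) :
    ∫ x, mmS m₀ s x ^ 2 ∂P = ∑ m ∈ Finset.Icc 1 m₀, s m ^ 2 := by
  unfold mmS
  refine LVB.st_sq hI hP fun m hm => ⟨(hs m hm).1, (hs m hm).2, fun p hp => hzI ?_⟩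
  exact mm_memPz (Nat.prime_of_mem_primeFactors hp)
    (((Nat.le_of_mem_primeFactors hp).trans (hs m hm).2).trans hz)

/-- the values of the small part -/
theorem mm_small {z₀ m₀ : ℕ} (hz : m₀ ≤ z₀) {s : ℕ → ℝ} (hs : SuppIn m₀ s) {δ : ℝ}
    (hδ0 : 0 < δ) (hsp : ∀ (q : ℕ) [NeZero q] (χ : DirichletCharacter ℂ q), PQ χ →
    ∀ (I : Finset ℕ) (P : Measure (ℕ → ℝ)), (∀ p ∈ I, p.Prime) → IsST I P → Pz z₀ ⊆ I →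
    ∀ F : (ℕ → ℝ) → ℝ, Measurable F → (∃ M : ℝ, ∀ x, (∀ p ∈ I, |x p| ≤ 2) → |F x| ≤ M) →
    (∀ x y : ℕ → ℝ, (∀ p ∈ Pz z₀, x p = y p) → F x = F y) →
    (∀ r s z : ℂ, ‖r‖ ≤ δ → ‖s‖ ≤ δ → ‖z‖ ≤ δ → ‖EW P I (w2 χ r s z) F‖ ≤
      2 * (∫ x, |F x| * ∏ p ∈ Pz z₀, pp χ p (x p) ^ 2 ∂P) /
        ∏ p ∈ Pz z₀, ∫ x, pp χ p (x p) ^ 2 ∂P) ∧
    (∀ z : ℂ, ‖z‖ ≤ δ → ‖EW P I (w1 χ z) F‖ ≤
      2 * (∫ x, |F x| * ∏ p ∈ Pz z₀, pp χ p (x p) ∂P) / ∏ p ∈ Pz z₀, ∫ x, pp χ p (x p) ∂P) ∧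
    EW P I (w2 χ 0 0 0) F = (((∫ x, F x * ∏ p ∈ Pz z₀, pp χ p (x p) ^ 2 ∂P) /
        ∏ p ∈ Pz z₀, ∫ x, pp χ p (x p) ^ 2 ∂P : ℝ) : ℂ) ∧
    EW P I (w1 χ 0) F = (((∫ x, F x * ∏ p ∈ Pz z₀, pp χ p (x p) ∂P) /
        ∏ p ∈ Pz z₀, ∫ x, pp χ p (x p) ∂P : ℝ) : ℂ))
    {χ : DirichletCharacter ℂ q} (h : PQ χ) {I : Finset ℕ} {P : Measure (ℕ → ℝ)}
    (hI : ∀ p ∈ I, p.Prime) (hP : IsST I P) (hzI : Pz z₀ ⊆ I) {σ U₁ U₂ : ℝ}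
    (hσ : σ = ∑ m ∈ Finset.Icc 1 m₀, s m ^ 2)
    (hU₁ : U₁ = ∏ p ∈ Pz z₀, ∫ x, pp χ p (x p) ∂P)
    (hU₂ : U₂ = ∏ p ∈ Pz z₀, ∫ x, pp χ p (x p) ^ 2 ∂P) :
    (∀ r s' z : ℂ, ‖r‖ ≤ δ → ‖s'‖ ≤ δ → ‖z‖ ≤ δ →
      ‖EW P I (w2 χ r s' z) (fun x => mmB χ z₀ m₀ s x ^ 2)‖ ≤ 2 * σ / U₂) ∧
    (∀ z : ℂ, ‖z‖ ≤ δ →
      ‖EW P I (w1 χ z) (fun x => mmB χ z₀ m₀ s x * mmS m₀ s x)‖ ≤ 2 * σ / U₁) ∧
    EW P I (w2 χ 0 0 0) (fun x => mmB χ z₀ m₀ s x ^ 2) = ((σ / U₂ : ℝ) : ℂ) ∧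
    EW P I (w1 χ 0) (fun x => mmB χ z₀ m₀ s x * mmS m₀ s x) = ((σ / U₁ : ℝ) : ℂ) := by
  obtain ⟨MB, hMB0, hMB⟩ := mmB_sup z₀ m₀ s
  obtain ⟨MS, hMS0, hMS⟩ := mmS_sup m₀ s
  -- restriction to the cube
  have hres : ∀ x : ℕ → ℝ, (∀ p ∈ I, |x p| ≤ 2) → |mmB χ z₀ m₀ s x| ≤ MB ∧
      |mmS m₀ s x| ≤ MS := by
    intro x hx
    classical
    set x' : ℕ → ℝ := fun p => if p ∈ Pz z₀ then x p else 0 with hx'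
    have h1 : ∀ p ∈ Pz z₀, x p = x' p := fun p hp => by simp only [hx', if_pos hp]
    have h2 : ∀ p, |x' p| ≤ 2 := by
      intro p
      simp only [hx']
      split_ifs with hp
      · exact hx p (hzI hp)
      · simp
    rw [mmB_dep χ hz s h1, mmS_dep hz s h1]
    exact ⟨hMB q χ h x' h2, hMS x' h2⟩
  have hae2 : ∀ᵐ x ∂P, mmB χ z₀ m₀ s x ^ 2 * ∏ p ∈ Pz z₀, pp χ p (x p) ^ 2 = mmS m₀ s x ^ 2 := by
    filter_upwards [hP.bdd] with x hx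
    rw [← mmB_pp h z₀ m₀ s (x := x) fun p hp => hx p (hzI hp), mul_pow, Finset.prod_pow]
  have hae1 : ∀ᵐ x ∂P, mmB χ z₀ m₀ s x * mmS m₀ s x * ∏ p ∈ Pz z₀, pp χ p (x p) =
      mmS m₀ s x ^ 2 := by
    filter_upwards [hP.bdd] with x hx
    have := mmB_pp h z₀ m₀ s (x := x) fun p hp => hx p (hzI hp)
    rw [mul_right_comm, this, sq]
  have hae3 : ∀ᵐ x ∂P, |mmB χ z₀ m₀ s x * mmS m₀ s x| * ∏ p ∈ Pz z₀, pp χ p (x p) =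
      mmS m₀ s x ^ 2 := by
    filter_upwards [hP.bdd, hae1] with x hx h1
    have h2 : 0 ≤ ∏ p ∈ Pz z₀, pp χ p (x p) := Finset.prod_nonneg fun p hp => by
      have := (pp_facts_pr h (mm_prime hp).1 (hx p (hzI hp))).1
      linarith
    calc _ = |mmB χ z₀ m₀ s x * mmS m₀ s x| * |∏ p ∈ Pz z₀, pp χ p (x p)| := by
          rw [abs_of_nonneg h2]
      _ = _ := by rw [← abs_mul, h1, abs_of_nonneg (sq_nonneg _)]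
  have hint := mm_sq hI hP hz hzI hs
  rw [← hσ] at hint
  obtain ⟨a1, -, a3, -⟩ := hsp q χ h I P hI hP hzI (fun x => mmB χ z₀ m₀ s x ^ 2)
    ((mmB_meas χ z₀ m₀ s).pow_const 2) ⟨MB ^ 2, fun x hx => by
      rw [abs_pow]
      exact pow_le_pow_left₀ (abs_nonneg _) (hres x hx).1 2⟩
    (fun x y hxy => by simp only [mmB_dep χ hz s hxy])
  obtain ⟨-, b2, -, b4⟩ := hsp q χ h I P hI hP hzI (fun x => mmB χ z₀ m₀ s x * mmS m₀ s x)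
    ((mmB_meas χ z₀ m₀ s).mul (mmS_meas m₀ s)) ⟨MB * MS, fun x hx => by
      rw [abs_mul]
      exact mul_le_mul (hres x hx).1 (hres x hx).2 (abs_nonneg _) hMB0⟩
    (fun x y hxy => by simp only [mmB_dep χ hz s hxy, mmS_dep hz s hxy])
  simp only [abs_pow, sq_abs] at a1
  rw [integral_congr_ae hae2, hint, ← hU₂] at a1 a3
  rw [integral_congr_ae hae1, hint, ← hU₁] at b4
  rw [integral_congr_ae hae3, hint, ← hU₁] at b2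
  exact ⟨a1, b2, a3, b4⟩

end Pool.Agent.LM
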