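import Pool.Agent.Lib_helper53.LMF.MMc
import Pool.Agent.Lib_helper53.LEF.EB
import Pool.Agent.Lib_helper53.LEF.EC
import Pool.Agent.Lib_helper53.LEF.EE
import Pool.Agent.Lib_helper53.LMF.ME

/-! LSP3, block MM, fourth part: the mollifier. -/

set_option autoImplicit false

namespace Pool.Agent.LM

open Complex MeasureTheory ProbabilityTheory
open Pool.Agent.LSP (tau MX CC CB sg1 wX)
open Pool.Agent.LEV (Uu Um)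
open Pool.Agent.LVB (IsST el)
open Pool.Agent.LK (Qe V PQ MW)
open Pool.Agent.LE

theorem mm_vec {N kB K₂ a : ℕ} {vB vR : ℕ → ℝ} {FB FR : (ℕ → ℝ) → ℝ} (hB : IsV kB vB FB)
    (hR : IsV K₂ vR FR) {M L : ℝ} (hM : ∀ e, |vB e| ≤ M) (hL : 0 ≤ L)
    (hLR : ∀ e, |vR e| ≤ L * tau e ^ a) {p₀ : ℕ} (hp : p₀.Prime) (hN : p₀ * (kB * K₂) ≤ N)
    (hkB : 1 ≤ kB) (hK₂ : 1 ≤ K₂) :
    ∃ b : ℕ → ℝ, SuppIn N b ∧ (∀ la, MX N b la = th p₀ la * (FB la * FR la)) ∧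
      (∑ e ∈ Finset.Icc 1 N, b e * sg1 e / e = 0) ∧
      ∀ e, |b e| ≤ (1 + 2 ^ (a + 1)) * (M * ∑ t ∈ Finset.Icc 1 kB, tau t ^ (a + 1)) * L *
        tau e ^ a := by
  obtain ⟨t1, t2, t3, t4⟩ := mmT_isv hp
  have hM0 : 0 ≤ M := (abs_nonneg _).trans (hM 0)
  have hp1 : 1 ≤ p₀ := hp.one_lt.le
  have hkK : 1 ≤ kB * K₂ := Nat.mul_pos hkB hK₂
  have hkN : kB * K₂ ≤ N := (Nat.le_mul_of_pos_left _ hp1).trans hN
  have hpN : p₀ ≤ N := (Nat.le_mul_of_pos_right _ hkK).trans hN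
  have hkBN : kB ≤ N := (Nat.le_mul_of_pos_right _ hK₂).trans hkN
  have h1 : SuppIn (kB * K₂) (HP N vB vR) := hp_supp_pr hB.1 hR.1
  have h2 : SuppIn (p₀ * (kB * K₂)) (HP N (mmT p₀) (HP N vB vR)) := hp_supp_pr t1.1 h1
  refine ⟨HP N (mmT p₀) (HP N vB vR), fun e he => ⟨(h2 e he).1, (h2 e he).2.trans hN⟩, ?_, ?_, ?_⟩
  · intro la
    rw [mx_hp_pr t1.1 h1 hpN hN, t1.2, mx_hp_pr hB.1 hR.1 hkBN le_rfl, hB.2, hR.2]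
  · rw [zm_hp_pr t1.1 h1 hpN hN, t2, zero_mul]
  · intro e
    have hS0 : 0 ≤ ∑ t ∈ Finset.Icc 1 kB, tau t ^ (a + 1) :=
      Finset.sum_nonneg fun t _ => pow_nonneg (mm_tau_nonneg t) _
    have h3 := mm_hp_tau (E := N) (T := Finset.Icc 1 kB) (fun t ht => (Finset.mem_Icc.mp ht).1)
      (fun e he => Finset.mem_Icc.mpr (hB.1 e he)) hM hL hLR
    have h4 := mm_hp_tau (E := N) (T := ({1, p₀} : Finset ℕ)) (y := mmT p₀)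
      (x := HP N vB vR) (A := a) (M := 1)
      (L := M * L * (∑ t ∈ Finset.Icc 1 kB, tau t ^ (a + 1))) (fun t ht => by
        rw [Finset.mem_insert, Finset.mem_singleton] at ht
        rcases ht with rfl | rfl
        · exact le_rfl
        · exact hp1) t3 t4 (by positivity) h3 e
    refine h4.trans (le_of_eq ?_)
    rw [Finset.sum_pair hp.one_lt.ne]
    have e1 : tau 1 = 1 := by unfold tau; simp
    have e2 : tau p₀ = 2 := by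
      unfold tau
      rw [hp.divisors, Finset.card_pair hp.one_lt.ne]
      norm_num
    rw [e1, e2]
    ring

variable {q : ℕ} [NeZero q]

theorem br_meas (χ : DirichletCharacter ℂ q) (z₀ z₁ K : ℕ) : Measurable (br χ z₀ z₁ K) := by
  unfold br ph
  refine Measurable.const_mul ?_ _
  refine Finset.measurable_fun_sum _ fun J _ => Finset.measurable_fun_prod _ fun p _ => ?_
  fun_prop

theorem br_dep (χ : DirichletCharacter ℂ q) (z₀ z₁ K : ℕ) (x y : ℕ → ℝ)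
    (h : ∀ p ∈ PR χ z₀ z₁, x p = y p) : br χ z₀ z₁ K x = br χ z₀ z₁ K y := by
  unfold br
  congr 1
  refine Finset.sum_congr rfl fun J hJ => Finset.prod_congr rfl fun p hp => ?_
  unfold SQ at hJ
  have := Finset.mem_powerset.mp (Finset.mem_filter.mp hJ).1 hp
  rw [h p this]

theorem mm_core {z₀ m₀ : ℕ} (hz : m₀ ≤ z₀) {s : ℕ → ℝ} (hs : SuppIn m₀ s) {σ : ℝ}
    (hσ : σ = ∑ m ∈ Finset.Icc 1 m₀, s m ^ 2) {δs δ ε₁ Cp Cr : ℝ} (hδs0 : 0 < δs)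
    (hδ0 : 0 ≤ δ) (hδs : δ ≤ δs) (hδ8 : δ ≤ 1 / 8) (hCr : 0 ≤ Cr)
    (hsp : ∀ (q : ℕ) [NeZero q] (χ : DirichletCharacter ℂ q), PQ χ →
    ∀ (I : Finset ℕ) (P : Measure (ℕ → ℝ)), (∀ p ∈ I, p.Prime) → IsST I P → Pz z₀ ⊆ I →
    ∀ F : (ℕ → ℝ) → ℝ, Measurable F → (∃ M : ℝ, ∀ x, (∀ p ∈ I, |x p| ≤ 2) → |F x| ≤ M) →
    (∀ x y : ℕ → ℝ, (∀ p ∈ Pz z₀, x p = y p) → F x = F y) →
    (∀ r s z : ℂ, ‖r‖ ≤ δs → ‖s‖ ≤ δs → ‖z‖ ≤ δs → ‖EW P I (w2 χ r s z) F‖ ≤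
      2 * (∫ x, |F x| * ∏ p ∈ Pz z₀, pp χ p (x p) ^ 2 ∂P) /
        ∏ p ∈ Pz z₀, ∫ x, pp χ p (x p) ^ 2 ∂P) ∧
    (∀ z : ℂ, ‖z‖ ≤ δs → ‖EW P I (w1 χ z) F‖ ≤
      2 * (∫ x, |F x| * ∏ p ∈ Pz z₀, pp χ p (x p) ∂P) / ∏ p ∈ Pz z₀, ∫ x, pp χ p (x p) ∂P) ∧
    EW P I (w2 χ 0 0 0) F = (((∫ x, F x * ∏ p ∈ Pz z₀, pp χ p (x p) ^ 2 ∂P) /
        ∏ p ∈ Pz z₀, ∫ x, pp χ p (x p) ^ 2 ∂P : ℝ) : ℂ) ∧
    EW P I (w1 χ 0) F = (((∫ x, F x * ∏ p ∈ Pz z₀, pp χ p (x p) ∂P) /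
        ∏ p ∈ Pz z₀, ∫ x, pp χ p (x p) ∂P : ℝ) : ℂ))
    {χ : DirichletCharacter ℂ q} (h : PQ χ) {I : Finset ℕ} {P : Measure (ℕ → ℝ)}
    (hI : ∀ p ∈ I, p.Prime) (hP : IsST I P) {z₁ K p₀ : ℕ} (hz01 : z₀ < z₁) (hzI : Pz z₁ ⊆ I)
    (hp₀ : p₀ ∈ I) (hp₀z : z₁ < p₀) (hCp : Cp / Real.sqrt p₀ ≤ ε₁)
    (hpert : ∀ r s z : ℂ, ‖r‖ ≤ δ → ‖s‖ ≤ δ → ‖z‖ ≤ δ →
      ‖(∫ x, ((1 - p₀ / (p₀ + 1) * x p₀ / Real.sqrt p₀ : ℝ) : ℂ) ^ 2 * w2 χ r s z p₀ (x p₀) ∂P) /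
      (∫ x, w2 χ r s z p₀ (x p₀) ∂P) - 1‖ ≤ Cp / Real.sqrt p₀ ∧
    ‖(∫ x, ((1 - p₀ / (p₀ + 1) * x p₀ / Real.sqrt p₀ : ℝ) : ℂ) * w1 χ z p₀ (x p₀) ∂P) /
      (∫ x, w1 χ z p₀ (x p₀) ∂P) - 1‖ ≤ Cp / Real.sqrt p₀)
    (hHS : 0 < HS χ z₀ z₁ K)
    (hr1 : EW P I (w2 χ 0 0 0) (fun x => br χ z₀ z₁ K x ^ 2) = ((1 / HS χ z₀ z₁ K : ℝ) : ℂ))
    (hr2 : EW P I (w1 χ 0) (br χ z₀ z₁ K) = 1)
    (hr3 : ∀ r s z : ℂ, ‖r‖ ≤ δ → ‖s‖ ≤ δ → ‖z‖ ≤ δ →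
      ‖EW P I (w2 χ r s z) (fun x => br χ z₀ z₁ K x ^ 2)‖ ≤ Cr / HS χ z₀ z₁ K)
    (hr4 : ∀ z : ℂ, ‖z‖ ≤ δ → ‖EW P I (w1 χ z) (br χ z₀ z₁ K)‖ ≤ Cr)
    {U₁ U₂ : ℝ} (hU₁ : U₁ = ∏ p ∈ Pz z₀, ∫ x, pp χ p (x p) ∂P)
    (hU₂ : U₂ = ∏ p ∈ Pz z₀, ∫ x, pp χ p (x p) ^ 2 ∂P) :
    ∃ T₁ T₂ : ℝ, |T₁ - 1| ≤ ε₁ ∧ |T₂ - 1| ≤ ε₁ ∧
      EW P I (w2 χ 0 0 0) (fun x => (th p₀ x * (mmB χ z₀ m₀ s x * br χ z₀ z₁ K x)) ^ 2) =
        ((T₂ * (σ / U₂ * (1 / HS χ z₀ z₁ K)) : ℝ) : ℂ) ∧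
      EW P I (w1 χ 0) (fun x => th p₀ x * (mmB χ z₀ m₀ s x * br χ z₀ z₁ K x) * mmS m₀ s x) =
        ((T₁ * (σ / U₁) : ℝ) : ℂ) ∧
      (∀ r s' z : ℂ, ‖r‖ ≤ δ → ‖s'‖ ≤ δ → ‖z‖ ≤ δ → ‖EW P I (w2 χ r s' z)
        (fun x => (th p₀ x * (mmB χ z₀ m₀ s x * br χ z₀ z₁ K x)) ^ 2)‖ ≤
          (1 + ε₁) * (2 * σ / U₂ * (Cr / HS χ z₀ z₁ K))) ∧
      (∀ z : ℂ, ‖z‖ ≤ δ → ‖EW P I (w1 χ z)
        (fun x => th p₀ x * (mmB χ z₀ m₀ s x * br χ z₀ z₁ K x) * mmS m₀ s x)‖ ≤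
          (1 + ε₁) * (2 * σ / U₁ * Cr)) := by
  have hzI0 : Pz z₀ ⊆ I := fun p hp => hzI (mm_memPz (mm_prime hp).1 ((mm_prime hp).2.trans hz01.le))
  obtain ⟨s1, s2, s3, s4⟩ := mm_small hz hs hδs0 hsp h hI hP hzI0 hσ hU₁ hU₂
  obtain ⟨t1, T₁, T₂, t2, t3⟩ := mm_th h hI hP hp₀ hδ8 hpert
  have d0 : ‖(0 : ℂ)‖ ≤ δ := by rw [norm_zero]; exact hδ0
  have hJ2 : PR χ z₀ z₁ ⊆ I := by
    intro p hp
    unfold PR at hp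
    rw [Finset.mem_filter, Finset.mem_Ioc] at hp
    exact hzI (mm_memPz hp.2.1 hp.1.2)
  have hJ3 : ({p₀} : Finset ℕ) ⊆ I := by
    intro p hp
    rw [Finset.mem_singleton] at hp
    rw [hp]
    exact hp₀
  have h31 : Disjoint ({p₀} : Finset ℕ) (Pz z₀) := by
    rw [Finset.disjoint_singleton_left]
    intro hp
    have := (mm_prime hp).2
    omega
  have h32 : Disjoint ({p₀} : Finset ℕ) (PR χ z₀ z₁) := by
    rw [Finset.disjoint_singleton_left]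
    intro hp
    unfold PR at hp
    rw [Finset.mem_filter, Finset.mem_Ioc] at hp
    omega
  have h12 : Disjoint (Pz z₀) (PR χ z₀ z₁) := by
    rw [Finset.disjoint_left]
    intro p hp hp'
    unfold PR at hp'
    rw [Finset.mem_filter, Finset.mem_Ioc] at hp'
    have := (mm_prime hp).2
    omega
  have f2 : (fun x => (th p₀ x * (mmB χ z₀ m₀ s x * br χ z₀ z₁ K x)) ^ 2) =
      fun x => th p₀ x ^ 2 * (mmB χ z₀ m₀ s x ^ 2 * br χ z₀ z₁ K x ^ 2) := by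
    funext x
    ring
  have f1 : (fun x => th p₀ x * (mmB χ z₀ m₀ s x * br χ z₀ z₁ K x) * mmS m₀ s x) =
      fun x => th p₀ x * ((mmB χ z₀ m₀ s x * mmS m₀ s x) * br χ z₀ z₁ K x) := by
    funext x
    ring
  have k2 : ∀ r s' z : ℂ, ‖r‖ ≤ δ → ‖s'‖ ≤ δ → ‖z‖ ≤ δ → EW P I (w2 χ r s' z)
      (fun x => (th p₀ x * (mmB χ z₀ m₀ s x * br χ z₀ z₁ K x)) ^ 2) =
      EW P I (w2 χ r s' z) (fun x => th p₀ x ^ 2) *
        (EW P I (w2 χ r s' z) (fun x => mmB χ z₀ m₀ s x ^ 2) *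
          EW P I (w2 χ r s' z) (fun x => br χ z₀ z₁ K x ^ 2)) := by
    intro r s' z hr hs' hz'
    obtain ⟨a1, a2⟩ := mm_w2_ok χ hI hP (hr.trans hδ8) (hs'.trans hδ8) (hz'.trans hδ8)
    rw [f2]
    refine mm_three hP a1 a2 hJ3 hzI0 hJ2 h31 h32 h12 (F₁ := fun x => th p₀ x ^ 2)
      (F₂ := fun x => mmB χ z₀ m₀ s x ^ 2) (F₃ := fun x => br χ z₀ z₁ K x ^ 2)
      ((th_meas p₀).pow_const 2)
      ((mmB_meas χ z₀ m₀ s).pow_const 2) ((br_meas χ z₀ z₁ K).pow_const 2) ?_ ?_ ?_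
    · intro x y hxy
      simp only [th_dep p₀ x y hxy]
    · intro x y hxy
      simp only [mmB_dep χ hz s hxy]
    · intro x y hxy
      simp only [br_dep χ z₀ z₁ K x y hxy]
  have k1 : ∀ z : ℂ, ‖z‖ ≤ δ → EW P I (w1 χ z)
      (fun x => th p₀ x * (mmB χ z₀ m₀ s x * br χ z₀ z₁ K x) * mmS m₀ s x) =
      EW P I (w1 χ z) (th p₀) *
        (EW P I (w1 χ z) (fun x => mmB χ z₀ m₀ s x * mmS m₀ s x) *
          EW P I (w1 χ z) (br χ z₀ z₁ K)) := by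
    intro z hz'
    obtain ⟨a1, a2⟩ := mm_w1_ok χ hI hP (hz'.trans hδ8)
    rw [f1]
    refine mm_three hP a1 a2 hJ3 hzI0 hJ2 h31 h32 h12 (F₁ := th p₀)
      (F₂ := fun x => mmB χ z₀ m₀ s x * mmS m₀ s x) (F₃ := br χ z₀ z₁ K) (th_meas p₀)
      ((mmB_meas χ z₀ m₀ s).mul (mmS_meas m₀ s)) (br_meas χ z₀ z₁ K) ?_ ?_ ?_
    · intro x y hxy
      exact th_dep p₀ x y hxy
    · intro x y hxy
      simp only [mmB_dep χ hz s hxy, mmS_dep hz s hxy]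
    · intro x y hxy
      exact br_dep χ z₀ z₁ K x y hxy
  have e2 := (t1 0 0 0 d0 d0 d0).1
  have e1 := (t1 0 0 0 d0 d0 d0).2
  rw [t2] at e2
  rw [t3] at e1
  refine ⟨T₁, T₂, ?_, ?_, ?_, ?_, ?_, ?_⟩
  · rw [← Complex.ofReal_one, ← Complex.ofReal_sub, Complex.norm_real] at e1
    exact e1.trans hCp
  · rw [← Complex.ofReal_one, ← Complex.ofReal_sub, Complex.norm_real] at e2
    exact e2.trans hCp
  · rw [k2 0 0 0 d0 d0 d0, t2, s3, hr1]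
    push_cast
    ring
  · rw [k1 0 d0, t3, s4, hr2]
    push_cast
    ring
  · intro r s' z hr hs' hz'
    rw [k2 r s' z hr hs' hz', norm_mul, norm_mul]
    have g1 : ‖EW P I (w2 χ r s' z) (fun x => th p₀ x ^ 2)‖ ≤ 1 + ε₁ := by
      have := (t1 r s' z hr hs' hz').1
      calc _ = ‖1 + (EW P I (w2 χ r s' z) (fun x => th p₀ x ^ 2) - 1)‖ := by
            rw [add_sub_cancel]
        _ ≤ ‖(1 : ℂ)‖ + _ := norm_add_le _ _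
        _ ≤ 1 + ε₁ := by
            rw [norm_one]
            linarith
    have g2 := s1 r s' z (hr.trans hδs) (hs'.trans hδs) (hz'.trans hδs)
    have g3 := hr3 r s' z hr hs' hz'
    refine mul_le_mul g1 (mul_le_mul g2 g3 (norm_nonneg _) ((norm_nonneg _).trans g2)) (by positivity)
      ((norm_nonneg _).trans g1)
  · intro z hz'
    rw [k1 z hz', norm_mul, norm_mul]
    have g1 : ‖EW P I (w1 χ z) (th p₀)‖ ≤ 1 + ε₁ := by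
      have := (t1 0 0 z d0 d0 hz').2
      calc _ = ‖1 + (EW P I (w1 χ z) (th p₀) - 1)‖ := by
            rw [add_sub_cancel]
        _ ≤ ‖(1 : ℂ)‖ + _ := norm_add_le _ _
        _ ≤ 1 + ε₁ := by
            rw [norm_one]
            linarith
    have g2 := s2 z (hz'.trans hδs)
    have g3 := hr4 z hz'
    exact mul_le_mul g1 (mul_le_mul g2 g3 (norm_nonneg _) ((norm_nonneg _).trans g2)) (by positivity)
      ((norm_nonneg _).trans g1)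

/-- the products of the small primes -/
theorem mm_U {χ : DirichletCharacter ℂ q} (h : PQ χ) {I : Finset ℕ} {P : Measure (ℕ → ℝ)}
    (hP : IsST I P) {z₀ : ℕ} (hzI : Pz z₀ ⊆ I) {U₁ U₂ : ℝ}
    (hU₁ : U₁ = ∏ p ∈ Pz z₀, ∫ x, pp χ p (x p) ∂P)
    (hU₂ : U₂ = ∏ p ∈ Pz z₀, ∫ x, pp χ p (x p) ^ 2 ∂P) :
    0 < U₁ ∧ 0 < U₂ ∧ U₁ ≤ 2 ^ (Pz z₀).card ∧ U₁ ^ 2 = U₂ * ∏ p ∈ Pz z₀, ep χ p := by
  have hloc : ∀ p ∈ Pz z₀, 0 < ∫ x, pp χ p (x p) ∂P ∧ 0 < ∫ x, pp χ p (x p) ^ 2 ∂P ∧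
      ∫ x, pp χ p (x p) ∂P ≤ 2 ∧
      (∫ x, pp χ p (x p) ∂P) ^ 2 = (∫ x, pp χ p (x p) ^ 2 ∂P) * ep χ p := by
    intro p hp
    have hpp := (mm_prime hp).1
    obtain ⟨e1, e2⟩ := pp_int_pr h hP (hzI hp) hpp
    have hp2 : (2 : ℝ) ≤ p := by exact_mod_cast hpp.two_le
    rw [e1, e2]
    have hp0 : (0 : ℝ) < p := by linarith
    have hi : 1 / (p : ℝ) ≤ 1 / 2 := one_div_le_one_div_of_le (by norm_num) hp2
    have hi0 : 0 < 1 / (p : ℝ) := by positivity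
    have hc : |cv χ p| ≤ 1 := by
      rcases (cv_cases_pr h p).2 with h3 | h3 | h3 <;> rw [h3] <;> simp
    have hc2 : cv χ p ^ 2 ≤ 1 := by
      rw [← sq_abs]
      exact pow_le_one₀ (abs_nonneg _) hc
    have a1 : 1 / 2 ≤ 1 - cv χ p / p := by
      have : cv χ p / p ≤ 1 / p := div_le_div_of_nonneg_right (abs_le.mp hc).2 hp0.le
      linarith
    have a2 : 1 / 2 ≤ 1 - cv χ p ^ 2 / p := by
      have : cv χ p ^ 2 / p ≤ 1 / p := div_le_div_of_nonneg_right hc2 hp0.le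
      linarith
    have a3 : 1 / 2 ≤ 1 - 1 / (p : ℝ) := by linarith
    have a4 : 0 < 1 - cv χ p ^ 2 / (p : ℝ) ^ 2 := by
      have h4 : cv χ p ^ 2 / (p : ℝ) ^ 2 ≤ 1 / (p : ℝ) ^ 2 :=
        div_le_div_of_nonneg_right hc2 (by positivity)
      have h5 : 1 / (p : ℝ) ^ 2 ≤ 1 / 4 := by
        apply one_div_le_one_div_of_le (by norm_num)
        nlinarith
      linarith
    have b1 : 0 < 1 - cv χ p / p := by linarith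
    have b2 : 0 < 1 - cv χ p ^ 2 / p := by linarith
    have b3 : 0 < 1 - 1 / (p : ℝ) := by linarith
    refine ⟨by positivity, by positivity, ?_, ?_⟩
    · rw [div_le_iff₀ b1]
      linarith
    · unfold ep
      rw [div_mul_div_comm, div_pow, one_pow, div_eq_div_iff (by positivity) (by positivity)]
      ring
  refine ⟨?_, ?_, ?_, ?_⟩
  · rw [hU₁]
    exact Finset.prod_pos fun p hp => (hloc p hp).1
  · rw [hU₂]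
    exact Finset.prod_pos fun p hp => (hloc p hp).2.1
  · rw [hU₁, ← Finset.prod_const]
    exact Finset.prod_le_prod (fun p hp => (hloc p hp).1.le) fun p hp => (hloc p hp).2.2.1
  · rw [hU₁, hU₂, ← Finset.prod_pow, ← Finset.prod_mul_distrib]
    exact Finset.prod_congr rfl fun p hp => (hloc p hp).2.2.2

end Pool.Agent.LM
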